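import Pool.Agent.Helper53.CX.AuxD2

/-!
# Project CX, part 2 (MP_140278_ag): equality case for contractions to projective space

THEOREM 2.  Let `(X,B,M)` be a generalized log Calabi-Yau pair as in Theorem 1 such that every
prime divisor of `P^n` is a prime divisor of `X` or a glc place (for instance `X ⇢ P^n` is a
birational contraction).  If `∑ a_i + ∑ b_i ≥ n + rank Cl(X)` then `X` is a toric variety.

Conventions in the proofs: `K = C(x)`, `hx = (1,x_1,..,x_n)`; `c ∈ C^(n+1)` gives the linear form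
`lfv c = ∑ c_j hx_j ∈ K`; for an invertible matrix `T` the rows give `ℓ_i = lf T i`, and
`y_j = yT T j = ℓ_j/ℓ_0` (`j = 1..n`).  `v(c)` is short for `v.ord (lfv c)`, `V = C^(n+1)`.
All modules are independent: every module proves `theorem hX : StDep1 → ... → StX`.
-/

open scoped BigOperators
open MvPolynomial

namespace Pool.Agent.Helper53.CX

/-- MODULE Tau.  `n` generators of `C(x_1..x_n)` are the images of `x_j` under an automorphism.
Proof.  `K` has transcendence degree `n` over `C` and is generated by the `n` elements `y_j`, so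
the `y_j` form a transcendence basis, in particular they are algebraically independent and the
substitution `x_j ↦ y_j` extends to an injective endomorphism of `K` (`IsFractionRing.lift` or
`IsLocalization.lift`), which is surjective because its image is a field containing all `y_j`. -/
def StTau : Prop := ∀ (n : ℕ) (y : Fin n → Kn n), IntermediateField.adjoin ℂ (Set.range y) = ⊤ →
  ∃ τ : Kn n ≃ₐ[ℂ] Kn n, ∀ j, τ (x j) = y j

/-- MODULE Gen.  Linear forms.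
Proof.  `lfv c = 0` means that a polynomial of degree `≤ 1` is zero, so `c = 0`.  The `x_j` generate
`K`.  With `S = T⁻¹`: `hx_j = ∑_i S_ji ℓ_i`, so `x_j = hx_(j+1)/hx_0 = (∑ S_(j+1,i) y_i)/(∑ S_(0,i) y_i)`
(`y_0 = 1`; the denominator is `1/ℓ_0 ≠ 0`).  For the chart: `x_j = ξ_j` or `ξ_j ξ_s`. -/
def StGen : Prop := ∀ (n : ℕ),
  (∀ c : Fin (n + 1) → ℂ, c ≠ 0 → (lfv c : Kn n) ≠ 0) ∧
  (∀ T : Matrix (Fin (n + 1)) (Fin (n + 1)) ℂ, IsUnit T.det →
    (∀ i, (lf T i : Kn n) ≠ 0) ∧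
    (∀ j : Fin (n + 1), (hx j : Kn n) = ∑ i, algebraMap ℂ (Kn n) (T⁻¹ j i) * lf T i) ∧
    IntermediateField.adjoin ℂ (Set.range (yT T : Fin n → Kn n)) = ⊤) ∧
  (∀ (s : Fin n) (J : Finset (Fin (n + 1))),
    IntermediateField.adjoin ℂ (Set.range (chart x s J)) = ⊤)

/-- MODULE Pull.  Transformation of the order of `ω` under automorphisms.
Proof.  Put `y_j = τ x_j`.  Chain rule: `θ_k (τ f) = ∑_j (θ_k y_j / y_j) τ(θ_j f)` for all `f ∈ K`:
both sides are additive maps `D` with `D(fg) = τ f D g + τ g D f`, they vanish on constants and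
agree on the `x_j` (`θ_j x_i = δ_ij x_i`), hence on polynomials and on quotients.  So
`jac (τ ∘ f) = τ (jac f) * jac y / ∏ y_j` (product of matrices).  For `f = τ⁻¹ x`: `jac x = ∏ x_j`
is not zero, so `jac y ≠ 0`.  `f_i` is in the valuation ring of `pull τ v` iff `τ f_i` is in that
of `v`; so `IsJacMin v e ↔ IsJacMin (pull τ v) (e - v(jac y) + ∑ v(y_j))`; the minimum exists
(StJacEx) and is unique. -/
def StPull : Prop := ∀ (n : ℕ) (v : DivVal (Kn n)) (τ : Kn n ≃ₐ[ℂ] Kn n),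
  jac (fun j => τ (x j)) ≠ 0 ∧
  ordOmega (pull τ v) =
    ordOmega v + v.ord (jac fun j => τ (x j)) - ∑ j, v.ord (τ (x j))

/-- MODULE JacT.  Jacobian of linear fractional coordinates:
`jac (ℓ_j/ℓ_0) = det T * ∏ x_j / ℓ_0^(n+1)`.
Proof.  `θ_k ℓ_i = T_(i,k) x_k` (`k = 1..n`), so `θ_k (ℓ_j/ℓ_0) = x_k (ℓ_0 T_jk - ℓ_j T_0k)/ℓ_0^2` and
`jac = ∏ x_k * ℓ_0^(-2n) * det_n (ℓ_0 T_jk - ℓ_j T_0k)`.  Let `M` be the `(n+1) x (n+1)` matrix with
first column `ℓ_i` and other columns `T_ik`, `k ≥ 1`.  Column operations: `det M = det T`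
(`ℓ_i = T_i0 + ∑_k T_ik x_k`).  Row operations `row_j ↦ ℓ_0 row_j - ℓ_j row_0`:
`ℓ_0^n det M = ℓ_0 det_n (ℓ_0 T_jk - ℓ_j T_0k)`.  So `det_n = ℓ_0^(n-1) det T`. -/
def StJacT : Prop := ∀ (n : ℕ) (v : DivVal (Kn n)) (T : Matrix (Fin (n + 1)) (Fin (n + 1)) ℂ),
  IsUnit T.det →
    v.ord (jac (yT T)) = ∑ j, v.ord (x j) - ((n : ℤ) + 1) * v.ord (lf T 0)

/-- MODULE OmT.  Log discrepancy in linear coordinates.
Proof.  StPull and StJacT; `v(y_j) = v(ℓ_j) - v(ℓ_0)`. -/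
def StOmT : Prop := ∀ (n : ℕ) (v : DivVal (Kn n)) (T : Matrix (Fin (n + 1)) (Fin (n + 1)) ℂ)
  (τ : Kn n ≃ₐ[ℂ] Kn n), IsUnit T.det → (∀ j, τ (x j) = yT T j) →
    ordOmega (pull τ v) + 1 = Adisc v - ∑ i, v.ord (lf T i)

/-- MODULE LC.  The pair (toric variety, toric boundary) is log canonical and its log canonical
places are toric.
Proof.  Let `O` be the valuation ring, `e` the minimum (StJacEx, `ordOmega v = -e`), `f_1..f_n ∈ O`
with `v(jac f) = e`; `Θ(g) = (θ_1 g,..,θ_n g) ∈ K^n`.  By minimality and Cramer's rule every `Θ(g)`,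
`g ∈ O`, is an `O`-combination of the `Θ(f_i)` (the coefficient is `jac(f with f_i replaced by g)/jac f`);
let `Λ` be the `O`-span of the `Θ(f_i)`: `n` elements of `Λ` have determinant `0` or of order `≥ e`.
Let `t` be a uniformizer, `a_i = v(x_i)`, `x_i = t^(a_i) u_i`: the vector `Θ(x_i)/x_i = e_i` (standard
basis vector) equals `a_i Θ(t)/t + w_i`, `w_i = Θ(u_i)/u_i ∈ Λ`.  Expanding
`1 = det (a_i Θ(t)/t + w_i)` multilinearly, all terms with two rows proportional to `Θ(t)` vanish, so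
`0 = v(1) ≥ e - 1`, i.e. `ordOmega v = -e ≥ -1`.
Now let `e = 1`.  We show `v(p) = min_{m ∈ supp p} <a,m>` for all polynomials `p ≠ 0`, which gives
`v.ord = monOrd a` (StExt, StMon).  Otherwise the part of minimal weight of some `p` has too large
order, and after division by a monomial there is a nonzero Laurent polynomial
`q = ∑_m c_m x^m` with all `<a,m> = 0`, `v(q) ≥ 1`; take one with the least number of
terms; multiplying by a monomial of weight 0 we may assume that `m = 0` occurs.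
`q` is not constant (`v(c) = 0`), so some `θ_j q = ∑ m_j c_m x^m` is not zero; it has fewer terms and
weight 0, so `v(θ_j q) = 0` (`≥ 0` holds for all Laurent polynomials of weight 0).
Write `q = t r`, `r ∈ O`: `Θ(q) = r Θ(t) + t Θ(r)`.
The determinant of the matrix with rows `e_i` (`i ≠ j`) and row `j` equal to `Θ(q)` is `θ_j q`, of
order `0`.  On the other hand expand `e_i = a_i Θ(t)/t + w_i` and `Θ(q) = r Θ(t) + t Θ(r)`: terms
without `Θ(t)/t` have all rows in `Λ`; terms with exactly one `Θ(t)/t` contribute only with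
`t Θ(r)` in row `j` (the part `r Θ(t)` repeats a row) and the factors `t` cancel; terms with two vanish.
So the determinant has order `≥ e = 1`, a contradiction. -/
def StLC : Prop := ∀ (n : ℕ) (v : DivVal (Kn n)),
  -1 ≤ ordOmega v ∧ (ordOmega v = -1 → v.ord = monOrd (fun j => v.ord (x j)))

/-- MODULE TorT.  Toric valuations in linear coordinates.
Proof.  Let `v0` be the valuation of StTorV for `a_j = w_(j+1) - w_0` and `v = pull τ.symm v0`, so
`pull τ v = v0`, `v(y_j) = a_j`; `κ = v(ℓ_0) - w_0`.  `ordOmega` by StTorOm.  For a linear form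
`∑ a_i ℓ_i = ℓ_0 τ(a_0 + ∑ a_j x_j)` use the formula for `monOrd` on a polynomial. -/
def StTorT : Prop := ∀ (n : ℕ) (T : Matrix (Fin (n + 1)) (Fin (n + 1)) ℂ)
  (τ : Kn n ≃ₐ[ℂ] Kn n), IsUnit T.det → (∀ j, τ (x j) = yT T j) →
  ∀ (w : Fin (n + 1) → ℤ) (u : Fin n → ℤ), ∑ j, (w j.succ - w 0) * u j = 1 →
  ∃ (v : DivVal (Kn n)) (κ : ℤ), (pull τ v).ord = monOrd (fun j => w j.succ - w 0) ∧
    ordOmega (pull τ v) = -1 ∧ (∀ i, v.ord (lf T i) = w i + κ) ∧
    ∀ a : Fin (n + 1) → ℂ, a ≠ 0 → ∃ i, a i ≠ 0 ∧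
      v.ord (lfv (Matrix.vecMul a T)) = w i + κ ∧ ∀ i', a i' ≠ 0 → w i ≤ w i'

/-- MODULE Poly.  From normalised nef b-divisors to systems of forms.
Proof.  Let `A` be the witness of `NormNef`; `v_j` = toric valuation of weight `e_j` (StTorV),
`v_∞` = weight `(-1,..,-1)`.  Multiply the generators of `A` by the monomial `xm u`,
`u_j = A.div v_j`: now `A.div v_j = 0`, so `monOrd e_j f ≥ 0` for all generators: they are
polynomials.  Multiply the generators of `F` by `xm (N u)`; then `N(m M + A.div) = F.div` still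
holds, `F.div v_j = 0`, so the generators of `F` are polynomials, and
`F.div v_∞ = max totalDegree = N (m + α)`, `α = A.div v_∞ = max totalDegree ≥ 0`.  Homogenise:
`f = ∑ c_μ x^μ ↦ ∑ c_μ X_0^(D-|μ|) X^μ`, `ev` of it is `f`. -/
def StPoly : Prop := ∀ (n : ℕ) (M : DivVal (Kn n) → ℤ), 0 < n → NormNef M →
  (∀ (j : Fin n) (v : DivVal (Kn n)), v.ord = monOrd (Pi.single j 1) → M v = 0) →
  (∀ v : DivVal (Kn n), v.ord = monOrd (fun _ => (-1 : ℤ)) → M v = 1) → PolyNef M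

/-- MODULE GL.  Change of linear coordinates.
Proof.  For a form `G` of degree `D` let `G^T = bind₁ (fun j => ∑_i T⁻¹_(j,i) X_i) G`, homogeneous
of degree `D`, nonzero, with `aeval ℓ G^T = ev G` (StGen) and `aeval ℓ G^T = ℓ_0^D τ(ev G^T)`.  So
`v(ev G) = D v(ℓ_0) + (pull τ v)(ev G^T)` and `F.div v = - D v(ℓ_0) + F^T.div (pull τ v)`.  Insert in
`N (m M v + A.div v) = F.div v`, `D = N (m+α)`, with `v = pull τ.symm v'`. -/
def StGL : Prop := ∀ (n : ℕ) (M : DivVal (Kn n) → ℤ)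
  (T : Matrix (Fin (n + 1)) (Fin (n + 1)) ℂ) (τ : Kn n ≃ₐ[ℂ] Kn n), IsUnit T.det →
  (∀ j, τ (x j) = yT T j) → PolyNef M → PolyNef (transM T τ M)

/-- MODULE Phi.  Newton polytopes.
Proof.  For `G` homogeneous of degree `D`: `monO (w + c) G = monO w G + c D` (`c` constant),
`monO (k w) G = k monO w G` (`k ∈ ℕ`), and for `v.ord = monOrd a`: `v(ev G) = monO (0,a) G`
(distinct monomials of `G` stay distinct after `X_0 = 1`).  For primitive `a` and the valuation `v_a`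
(StTorV) put `φ0(a) = - M v_a`.  `N (m M v_a + A.div v_a) = F.div v_a` says
`F.low (0,a) = N (m φ0(a) + A.low (0,a))`.  For arbitrary `w = w_0 + k (0,a)`, `a` primitive,
`k ≥ 1` (or `w = w_0` constant) let `φ w = w_0 + k φ0(a)`; the formula follows for all `w`. -/
def StPhi : Prop := ∀ (n : ℕ) (M : DivVal (Kn n) → ℤ), PolyNef M → ∃ φ, PhiData M φ

/-- MODULE Fil.  Structure of `φ`.
Proof.  (a) `φ(w+w') ≥ φ w + φ w'`: `F.low` is superadditive, so
`m (φ(w+w') - φ w - φ w') ≥ A.low w + A.low w' - A.low (w+w')` for all `m ≥ 1`.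
(b) `φ(k w) = k φ w`, `k ∈ ℕ`; (c) `φ(w + c) = φ w + c` for constants (homogeneity, degree
`N(m+α)` and `α`); (d) `φ(e_i) ≥ 0` since `F.low (e_i) ≥ 0` for all `m`.
So `φ` is monotone, `φ 0 = 0`, `φ 1 = 1`.  Let `𝓕 = {S : φ(1_S) ≥ 1}` (`0 ≤ φ(1_S) ≤ 1` always).
It is closed under supersets, contains the full set, not the empty set.  If `S, S' ∈ 𝓕` then
`2 ≤ φ(1_S + 1_S') = φ(1_(S∪S') + 1_(S∩S')) ≤ φ(1 + 1_(S∩S')) = 1 + φ(1_(S∩S'))`, so
`S ∩ S' ∈ 𝓕`.  Let `J` be the smallest element; it is nonempty.  `φ w = min_J w`: let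
`c = min_J w`; after adding a constant `w ≥ 0` and `c ≥ 0`: `w ≥ c 1_J`, `φ w ≥ c φ(1_J) = c`;
for `j ∈ J` with `w_j = c`, after subtracting `c` we have `w_j = 0`, `w ≤ k 1_(complement of j)` for
large `k` and `φ(1_(compl j)) = 0` since the complement of `j` is not in `𝓕`; so `φ w ≤ 0`.
Second claim: `v(ev G) ≥ monO (0, v(x_j)) G` so `F.div v ≤ - F.low w`, `w = (0,v(x))`, hence
`m (M v + φ w) ≤ - A.low w - A.div v` for all `m`.  Third: equality for toric `v`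
(`v(ev G) = monO (0,a) G` for homogeneous `G`), then `m (M v + φ w) = 0`. -/
def StFil : Prop := ∀ (n : ℕ) (M : DivVal (Kn n) → ℤ) (φ : (Fin (n + 1) → ℤ) → ℤ),
  PhiData M φ →
    (∃ (J : Finset (Fin (n + 1))) (hJ : J.Nonempty), ∀ w, φ w = J.inf' hJ w) ∧
    (∀ v : DivVal (Kn n), φ (Fin.cons 0 (fun j => v.ord (x j))) ≤ - M v) ∧
    (∀ (a : Fin n → ℤ) (v : DivVal (Kn n)), v.ord = monOrd a →
      φ (Fin.cons 0 a) = - M v)

/-- MODULE Iz.  Izumi's inequality at a point.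
Proof.  For a polynomial `p`: `∂_j p = θ_j p / x_j` in `K` (`pderiv`), so by StDer there is
`C ∈ ℕ` with `v(∂_j p) ≥ v(p) - C` whenever `∂_j p ≠ 0`, for all `j`.  Induction on `|μ|`: if `μ = 0`,
then `v(G) = 0`; otherwise choose `j` with `μ_j > 0`; `μ - e_j` is in the support of `∂_j G`, so
`v(G) ≤ v(∂_j G) + C ≤ C |μ|`. -/
def StIz : Prop := ∀ (n : ℕ) (v : DivVal (Kn n)),
  (∀ p : Pn n, p.coeff 0 ≠ 0 → v.ord (algebraMap (Pn n) (Kn n) p) = 0) →
  ∃ C : ℕ, ∀ (G : Pn n), ∀ μ ∈ G.support,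
    v.ord (algebraMap (Pn n) (Kn n) G) ≤ (C : ℤ) * ∑ j, (μ j : ℤ)

/-- MODULE CI.  Lower bound outside the base locus.
Proof.  `w = (0,1,..,1)`: `φ w = 0` because `0 ∈ J`.  So for every `m` some `G ∈ F` has a monomial `μ`
with `∑_{j ≥ 1} μ_j = F.low w = N A.low w`.  `ev G` is the polynomial `G(1,x)` and
contains the monomial `x^(μ_1..μ_n)` (for homogeneous `G` distinct monomials stay distinct).
StIz: `v(ev G) ≤ C N A.low w`, so `N (m M v + A.div v) = F.div v ≥ - C N A.low w` for all `m`, hence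
`M v ≥ 0`. -/
def StCI : Prop := ∀ (n : ℕ) (M : DivVal (Kn n) → ℤ) (φ : (Fin (n + 1) → ℤ) → ℤ)
  (J : Finset (Fin (n + 1))) (hJ : J.Nonempty), PhiData M φ → (∀ w, φ w = J.inf' hJ w) →
  0 ∈ J → ∀ v : DivVal (Kn n),
  (∀ p : Pn n, p.coeff 0 ≠ 0 → v.ord (algebraMap (Pn n) (Kn n) p) = 0) → 0 ≤ M v

/-- MODULE CII.  Lower bound at the base locus.
Proof.  `ξ = chart x s J`; `τ` from StTau with `τ x = ξ` (StGen); `v' = pull τ v` satisfies the
hypothesis of StIz; let `C` be its constant.  `E = F.low 1_J = N (m + A.low 1_J)` (`φ(1_J) = 1`).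
Let `w_0 = 0`, `w_s = 1`, `w_j = 2` for `j ∈ J`, `j ≠ s`, and `w_i = 1` for `i ∉ J`, `i ≠ 0`
(indices in `Fin (n+1)`, `s` means `s.succ`): `φ w = 1`, so some `G ∈ F` has a monomial `μ` with
`<w,μ> = N (m + A.low w)`.  For every monomial `ν` of `G`:
`x^ν = ξ_s^(∑_J ν_j) ∏_{J, j≠s} ξ_j^(ν_j) ∏_{i ∉ J, i ≠ 0} ξ_i^(ν_i)` and `∑_J ν_j ≥ E`.  So
`ev G = ξ_s^E * aeval ξ G'` where `G'` is the polynomial with the monomials `ν''`
(`ν''_s = ∑_J ν_j - E`, other exponents unchanged; injective on monomials of fixed degree).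
`μ''` is in the support of `G'` and `|μ''| = <w,μ> - E = N c`, `c = A.low w - A.low 1_J`.
StIz: `v(aeval ξ G') ≤ C N c`, so `v(ev G) ≤ N (m + A.low 1_J) v(x_s) + C N c` and
`m M v + A.div v ≥ - (m + A.low 1_J) v(x_s) - C c` for all `m`, hence `M v ≥ - v(x_s)`. -/
def StCII : Prop := ∀ (n : ℕ) (M : DivVal (Kn n) → ℤ) (φ : (Fin (n + 1) → ℤ) → ℤ)
  (J : Finset (Fin (n + 1))) (hJ : J.Nonempty), PhiData M φ → (∀ w, φ w = J.inf' hJ w) →
  0 ∉ J → ∀ s : Fin n, s.succ ∈ J → ∀ v : DivVal (Kn n),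
  (∀ p : Pn n, p.coeff 0 ≠ 0 →
    aeval (chart x s J) p ≠ 0 ∧ v.ord (aeval (chart x s J) p) = 0) → - M v ≤ v.ord (x s)

/-- MODULE Pt.  A closed point in the centre.
Proof.  `I = {p : aeval ξ p = 0 or v(aeval ξ p) ≥ 1}` is a proper ideal (`v(aeval ξ q) ≥ 0` for
all `q` with `aeval ξ q ≠ 0`).  By the Nullstellensatz it has a zero `c`.  `eval c p ≠ 0` gives
`p ∉ I`. -/
def StPt : Prop := ∀ (n : ℕ) (v : DivVal (Kn n)) (ξ : Fin n → Kn n),
  (∀ j, 0 ≤ v.ord (ξ j)) → ∃ c : Fin n → ℂ, ∀ p : Pn n, eval c p ≠ 0 →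
    aeval ξ p ≠ 0 ∧ v.ord (aeval ξ p) = 0

/-- MODULE Vmin.  The minimum of `v` on a space of linear forms.
Proof.  `v(c + c') ≥ min`, `v(a c) = v(c)` for constants `a ≠ 0` (constants have order 0), so `v` is
bounded below on `V` by `min_j v(hx_j)`; nonempty set bounded below in `ℤ`.  For the rows of an
invertible `T` with index in `J`: `v(∑_J a_j T_j) ≥ min_J v(T_j)`. -/
def StVmin : Prop := ∀ (n : ℕ) (v : DivVal (Kn n)),
  (∀ a : ℂ, a ≠ 0 → v.ord (algebraMap ℂ (Kn n) a) = 0) ∧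
  (∀ W : Submodule ℂ (Fin (n + 1) → ℂ), W ≠ ⊥ →
    (∀ c ∈ W, c ≠ 0 → vmin v W ≤ v.ord (lfv c)) ∧ ∃ c ∈ W, c ≠ 0 ∧ v.ord (lfv c) = vmin v W) ∧
  (∀ (T : Matrix (Fin (n + 1)) (Fin (n + 1)) ℂ) (J : Finset (Fin (n + 1))) (hJ : J.Nonempty),
    IsUnit T.det → rowSpan T J ≠ ⊥ ∧ vmin v (rowSpan T J) = J.inf' hJ (fun j => v.ord (lf T j)) ∧
    Module.finrank ℂ (rowSpan T J) = J.card)

/-- MODULE BasI.  Adapted basis, first case.
Proof.  Let `k = dim W ≥ 1`, `r_0 ∈ W` with minimal `v` on all of `V`.  Choose a basis `r_0..r_(k-1)` of `W`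
and complete it to a basis `r_0..r_n` of `V`.  `ξ_j = r_j/r_0` has `v ≥ 0`.  Let `c` be the point of
StPt.  `T` = the matrix with rows `r_0`, `r_j - c_j r_0`; `J = {0..k-1}`.  The coordinates are
`yT T j = ξ_j - c_j`; for `p` with `p(0) ≠ 0` let `q(X) = p(X - c)`: `q(c) ≠ 0` and
`aeval (yT T) p = aeval ξ q`. -/
def StBasI : Prop := ∀ (n : ℕ) (v : DivVal (Kn n)) (W : Submodule ℂ (Fin (n + 1) → ℂ)),
  (∃ c ∈ W, c ≠ 0 ∧ ∀ c' : Fin (n + 1) → ℂ, c' ≠ 0 → v.ord (lfv c) ≤ v.ord (lfv c')) →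
  ∃ (T : Matrix (Fin (n + 1)) (Fin (n + 1)) ℂ) (J : Finset (Fin (n + 1))),
    IsUnit T.det ∧ 0 ∈ J ∧ rowSpan T J = W ∧ v.ord (lf T 0) = vmin v W ∧
    ∀ p : Pn n, p.coeff 0 ≠ 0 → aeval (yT T) p ≠ 0 ∧ v.ord (aeval (yT T) p) = 0

/-- MODULE BasII.  Adapted basis, second case.
Proof.  Let `r_0 ∉ W` have minimal `v` on `V`, `r_s ∈ W` minimal `v` on `W`, `v(r_s) > v(r_0)`; choose
a basis `r_j, j ∈ J` of `W` containing `r_s` (`0 ∉ J`) and complete it together with `r_0` to a basis of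
`V`.  `ξ_s = r_s/r_0`, `ξ_j = r_j/r_s` for `j ∈ J`, `j ≠ s`, `ξ_i = r_i/r_0` for the others: all have
`v ≥ 0`.  Let `c` be the point of StPt; `v(ξ_s) > 0` forces `c_s = 0` (take `p = X_s`).  `T`: rows `r_0`,
`r_s`, `r_j - c_j r_s` (`j ∈ J`), `r_i - c_i r_0`.  Then `chart (yT T) s J = ξ - c`. -/
def StBasII : Prop := ∀ (n : ℕ) (v : DivVal (Kn n)) (W : Submodule ℂ (Fin (n + 1) → ℂ)),
  W ≠ ⊥ →
  (∀ c ∈ W, c ≠ 0 → ∃ c' : Fin (n + 1) → ℂ, c' ≠ 0 ∧ v.ord (lfv c') < v.ord (lfv c)) →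
  ∃ (T : Matrix (Fin (n + 1)) (Fin (n + 1)) ℂ) (J : Finset (Fin (n + 1))) (s : Fin n),
    IsUnit T.det ∧ 0 ∉ J ∧ s.succ ∈ J ∧ rowSpan T J = W ∧ v.ord (lf T s.succ) = vmin v W ∧
    ∀ p : Pn n, p.coeff 0 ≠ 0 →
      aeval (chart (yT T) s J) p ≠ 0 ∧ v.ord (aeval (chart (yT T) s J) p) = 0

/-- MODULE Uniq.  The linear space of `M`.
Proof.  For every invertible `T`: StGen, StTau give `τ`, StGL and StPhi give `φ` for
`transM T τ M`, StFil gives `J_T` with `HasIdx M T J_T`, and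
`M v + v(ℓ_0) ≤ - φ(0, v(y_j)) = - min_J (v(ℓ_j) - v(ℓ_0))`, i.e. `M v ≤ - min_J v(ℓ_j)`.
Choose `T0, J0` with `HasIdx M T0 J0` and `|J0|` minimal, `W = rowSpan T0 J0`
(StVmin: `M v ≤ - vmin v W`).  Let `rowSpan T J' = W`, so `|J'| = |J0|`, and let `HasIdx M T J`
with data `τ, φ`.
Claim `J ⊆ J'`: clear if `J'` is everything.  Otherwise let `w = 1_J'`, not constant, so StTorT
gives `v, κ`; `vmin v W = 1 + κ`; `- M v ≥ 1 + κ`.  By StFil (third part) for
`transM T τ M` at `pull τ v` (`pull τ.symm (pull τ v) = v`):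
`- M v - (w_0 + κ) = φ(0, w_(j+1) - w_0) = J.inf' w - w_0`, so `J.inf' w ≥ 1` and `J ⊆ J'`.
By minimality of `|J0| = |J'|`, `J = J'`, so `HasIdx M T J'`. -/
def StUniq : Prop := ∀ (n : ℕ) (M : DivVal (Kn n) → ℤ), 0 < n → PolyNef M →
  ∃ W : Submodule ℂ (Fin (n + 1) → ℂ), W ≠ ⊥ ∧ (∀ v, M v ≤ - vmin v W) ∧
    ∀ (T : Matrix (Fin (n + 1)) (Fin (n + 1)) ℂ) (J : Finset (Fin (n + 1))), IsUnit T.det →
      rowSpan T J = W → HasIdx M T J

/-- MODULE Prj.  A nef Cartier b-divisor with trace a hyperplane is a linear projection.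
Proof.  `W` from StUniq.  Let `v` be given.  If some `c ∈ W` has minimal `v` on `V`: StBasI gives
`T, J`, `HasIdx M T J` gives `τ, φ`; StCI for `transM T τ M` and `pull τ v`
(`v(aeval (yT T) p) = (pull τ v)(p)`): `0 ≤ M v + v(ℓ_0) = M v + vmin v W`.  Otherwise StBasII
and StCII for `transM T τ M`, `pull τ v` (`τ (chart x s J j) = chart (yT T) s J j`):
`- M v - v(ℓ_0) ≤ v(ℓ_s) - v(ℓ_0)`, so `- M v ≤ vmin v W`. -/
def StPrj : Prop := ∀ (n : ℕ) (M : DivVal (Kn n) → ℤ), 0 < n → PolyNef M →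
  ∃ W : Submodule ℂ (Fin (n + 1) → ℂ), W ≠ ⊥ ∧ ∀ v, M v = - vmin v W

open Classical in
/-- MODULE Stab.  Log canonicity implies semistability.
Proof.  `U = ⊥` and `U = ⊤` are clear.  Otherwise let `T` be an invertible matrix whose rows with index in
`J` (proper, nonempty) form a basis of `U`, `w = 1_J`; StTau/StGen give `τ`, StTorT gives `v, κ`.
`vmin v W_λ = κ + [W_λ ≤ U]` (if `W_λ ≤ U`, all nonzero elements have value `1 + κ`; otherwise some
element has a nonzero coefficient outside `J`).  `Adisc v = ∑ v(ℓ_i) = |J| + (n+1) κ` (StOmT,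
`ordOmega (pull τ v) = -1`).  Insert in the hypothesis and use `∑ c = n+1`. -/
def StStab : Prop := ∀ (n : ℕ) (κ : Type) [Fintype κ]
  (W : κ → Submodule ℂ (Fin (n + 1) → ℂ)) (c : κ → ℝ), (∀ i, 0 ≤ c i) → (∀ i, W i ≠ ⊥) →
  ∑ i, c i = (n : ℝ) + 1 →
  (∀ v : DivVal (Kn n), ∑ i, c i * (vmin v (W i) : ℝ) ≤ (Adisc v : ℝ)) →
  ∀ U : Submodule ℂ (Fin (n + 1) → ℂ),
    ∑ i, (if W i ≤ U then c i else 0) ≤ (Module.finrank ℂ U : ℝ)

open Classical in
/-- MODULE Comb (pure linear algebra).  The tight subspaces have a common basis.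
Proof.  `w(U) = ∑_{W_i ≤ U} c_i`, `I(U) = {i : W_i ≤ U}`, `f(U) = dim U - w(U) ≥ 0`; tight: `f(U) = 0`;
`⊥` and `⊤` are tight.
(1) If `U, U'` are tight: `w(U+U') + w(U∩U') ≥ w(U) + w(U')` termwise and
`dim` is modular, so `f(U+U') + f(U∩U') ≤ 0`: both are tight and (all `c_i > 0`) `I(U+U') = I(U) ∪ I(U')`,
`I(U∩U') = I(U) ∩ I(U')`.
(2) A tight `U` equals `U0 = ∑_{i ∈ I(U)} W_i`: `w(U0) = w(U)`, `dim U0 ≥ w(U0) = dim U`.  So `U` is
determined by `I(U)`, and `(A ∩ B) + C = (A + C) ∩ (B + C)` for tight `A, B, C`.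
(3) Induction on `dim U`: for every tight `U` there is a basis of `U` such that every tight `U' ≤ U` is
spanned by a subset of it.  `U = ⊥` clear.  Otherwise let `U1 < U` be a tight proper subspace of maximal
dimension, with basis `b1` by induction, and `A` tight, `A ≤ U`, not `A ≤ U1`, of minimal
dimension.  `A + U1` is tight, bigger than `U1`, so `= U`.  If `U' ≤ U` is tight and not `≤ U1` then
`U' + U1 = U` and `(A ∩ U') + U1 = (A + U1) ∩ (U' + U1) = U`, so `A ∩ U'` is not `≤ U1`,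
and by minimality `A ≤ U'`.  Let `b2` be a basis of a complement of `A ∩ U1` in `A`;
`b = b1 ∪ b2` is a basis of `U = U1 ⊕ ⟨b2⟩`.  A tight `U' ≤ U1` is spanned by a subset of `b1`;
a tight `U'` not `≤ U1` contains `A ≥ ⟨b2⟩`, so `U' = (U' ∩ U1) + ⟨b2⟩` (modular law) and
`U' ∩ U1` is tight.  Apply this to `U = ⊤`; the basis vectors are the rows of `T`. -/
def StComb : Prop := ∀ (n : ℕ) (κ : Type) [Fintype κ]
  (W : κ → Submodule ℂ (Fin (n + 1) → ℂ)) (c : κ → ℝ), (∀ i, 0 < c i) → (∀ i, W i ≠ ⊥) →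
  ∑ i, c i = (n : ℝ) + 1 →
  (∀ U : Submodule ℂ (Fin (n + 1) → ℂ),
    ∑ i, (if W i ≤ U then c i else 0) ≤ (Module.finrank ℂ U : ℝ)) →
  ∃ T : Matrix (Fin (n + 1)) (Fin (n + 1)) ℂ, IsUnit T.det ∧
    ∀ U : Submodule ℂ (Fin (n + 1) → ℂ),
      ∑ i, (if W i ≤ U then c i else 0) = (Module.finrank ℂ U : ℝ) →
      ∃ J : Finset (Fin (n + 1)), U = rowSpan T J

open Classical in
/-- MODULE Glc.  The glc places are toric in the common basis.
Proof.  `U_k = {c : c = 0 or v(c) ≥ k}` (a subspace), `k_0 = vmin v ⊤`, `U_k = ⊤` for `k ≤ k_0`, `U_k = ⊥`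
for `k > k_1`.  `vmin v W_i = k_0 + #{k : k_0 < k ≤ k_1, W_i ≤ U_k}`.  So (with `∑ c = n+1`)
`∑ c_i vmin v W_i = (n+1) k_0 + ∑_{k_0<k≤k_1} ∑_{W_i ≤ U_k} c_i ≤ (n+1) k_0 + ∑_k dim U_k`.
Let `T'` be an invertible matrix whose rows are adapted to the filtration `U_k` (every `U_k` is spanned by
rows): `∑_i v(lf T' i) = (n+1) k_0 + ∑_k dim U_k`, and `∑_i v(lf T' i) ≤ Adisc v` by StOmT and StLC
(`ordOmega ≥ -1`).  So all inequalities are equalities: every `U_k` is tight,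
`U_k = rowSpan T J_k`, `dim U_k = |J_k|`, `v(lf T i) ≥ k` for `i ∈ J_k`.  Hence
`∑_i v(lf T i) ≥ (n+1) k_0 + ∑_k |J_k| = Adisc v`, and `≤ Adisc v` by StOmT and StLC; so
`ordOmega (pull τ v) = -1` and `pull τ v` is monomial by StLC; StBri: `IsToric (pull τ v) a`, which is
`IsToricIn (yT T) v a`. -/
def StGlc : Prop := ∀ (n : ℕ) (κ : Type) [Fintype κ]
  (W : κ → Submodule ℂ (Fin (n + 1) → ℂ)) (c : κ → ℝ), (∀ i, 0 ≤ c i) → (∀ i, W i ≠ ⊥) →
  ∑ i, c i = (n : ℝ) + 1 →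
  (∀ U : Submodule ℂ (Fin (n + 1) → ℂ),
    ∑ i, (if W i ≤ U then c i else 0) ≤ (Module.finrank ℂ U : ℝ)) →
  ∀ T : Matrix (Fin (n + 1)) (Fin (n + 1)) ℂ, IsUnit T.det →
    (∀ U : Submodule ℂ (Fin (n + 1) → ℂ),
      ∑ i, (if W i ≤ U then c i else 0) = (Module.finrank ℂ U : ℝ) →
      ∃ J : Finset (Fin (n + 1)), U = rowSpan T J) →
  ∀ v : DivVal (Kn n), ∑ i, c i * (vmin v (W i) : ℝ) = (Adisc v : ℝ) →
    ∃ a : Fin n → ℤ, IsToricIn (yT T) v a

/-- MODULE PnI.  Prime divisors of projective space: algebraically independent residues.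
Proof.  `v.ord = monOrd e_j`: chart `i = 0`, `R = C[x]`, the `h`'s are the `x_i`, `i ≠ j` (polynomials in
these have order 0).  `monOrd (-1,..,-1)`: chart of some `x_i`, the `h`'s are `x_k/x_i`, `k ≠ i`
(a nonzero polynomial in the `x_k/x_i` is homogeneous of degree 0 as a rational function, its order
is `0`).  `padOrd P`: chart `i = 0`; `P` is not constant, so some variable `x_j` occurs in `P` and the
`h`'s are the `x_i`, `i ≠ j`: a nonzero polynomial in these is not divisible by `P` (degree in `x_j`). -/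
def StPnI : Prop := ∀ (n : ℕ) (v : DivVal (Kn n)), 0 < n → Old v → IsPrimeOfProjSpace v

/-- MODULE PnII.  Linear forms and log discrepancies at prime divisors of projective space.
Proof.  Each of the three cases: `v.ord = monOrd e_j`: `v(c)` is `1` if `c` is a multiple of the
basis vector `j+1` and `0` otherwise; `vmin v ⊤ = 0`; `ordOmega v = -1` (StTorOm),
`Adisc v = 1`.  `v.ord = monOrd (-1)`: `v(c) = -1` unless `c` is a multiple of the basis vector `0`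
(then `0`); `vmin = -1`, `Adisc v = - n`.  `padOrd P`: `v(c) = 0` unless the
polynomial `lfv c` is divisible by `P`; then it has degree 1 and is associated to `P`, `v(c) = 1`;
`vmin = 0` (`v(1) = 0`), `ordOmega v = 0` and `v(x_j) = 0` (StPadV), `Adisc v = 1`.  In all
cases two linearly independent `c, c'` cannot both have `v > vmin`. -/
def StPnII : Prop := ∀ (n : ℕ) (v : DivVal (Kn n)), 0 < n → Old v →
  Adisc v = ((n : ℤ) + 1) * vmin v ⊤ + 1 ∧
  ∀ T : Matrix (Fin (n + 1)) (Fin (n + 1)) ℂ, IsUnit T.det →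
    (∀ i, v.ord (lf T i) = vmin v ⊤) ∨
    ∑ i, v.ord (lf T i) = ((n : ℤ) + 1) * vmin v ⊤ + 1

/-- MODULE PT.  The torus with coordinates `yT T` in projective space.
Proof.  (a) `y_j, 1/y_j ∈ O_v`, so all `v(ℓ_i)` are equal, `= vmin v ⊤ = v(hx_i0)` for some `i0`
(StVmin for `T` and for the identity matrix).  Let `R' = adjoin (hx_j/hx_i0)`, contained in `O_v`.
Every element of `torusRing (yT T)` is `a/b` with `a, b ∈ R'`, `v(b) = 0`: true for
`y_j = (ℓ_j/hx_i0)/(ℓ_0/hx_i0)` and its inverse, closed under sums and products.  So the elements `h_i`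
are quotients of elements of `R'` too.  If `v` were monomial in `y` with weights `a`, then
`a_j = v(y_j) = 0`, so `v(p(y)) = 0` for all `p ≠ 0` and `v = 0` (StTau, StGen: every element of `K`
is `p(y)/q(y)`), contradicting `exists_one`.
(b) By StPnI `IsPrimeOf R' v` for a chart `R' = adjoin (hx_j/hx_i)`; `v(hx_j/hx_i) ≥ 0` for all `j`
gives `v(hx_i) = vmin v ⊤ = v(ℓ_0)`.  Every element of `R'` is `a/b`, `a, b ∈ torusRing`,
`v(b) = 0`: `hx_j/hx_i = (hx_j/ℓ_0)/(hx_i/ℓ_0)` and `hx_j/ℓ_0 = ∑ T⁻¹_jk y_k`.  `torusRing ⊆ O_v` because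
`v(y_j) = 0`. -/
def StPT : Prop := ∀ (n : ℕ) (T : Matrix (Fin (n + 1)) (Fin (n + 1)) ℂ) (v : DivVal (Kn n)),
  0 < n → IsUnit T.det →
  (IsPrimeOf (torusRing (yT T)) v →
    IsPrimeOfProjSpace v ∧ ∀ a : Fin n → ℤ, ¬ IsToricIn (yT T) v a) ∧
  (Old v → (∀ i, v.ord (lf T i) = vmin v ⊤) → IsPrimeOf (torusRing (yT T)) v)

/-- MODULE Deg.  Exact degree formula on projective space.
Proof.  As in StSum.  StNorm: `M_i = M_i0 + ord h_i`, `NormNef M_i0`; subtract a further monomial: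
`M'_i = M_i0 - ord (xm u_i)` with `u_ij = M_i0 v_j` (`v_j` toric of weight `e_j`), so
`M'_i v_j = 0`; `NormNef` is preserved (multiply the generators of the witness `F` by `xm (N m u)`).
`F_i = M'_i v_∞` is `≥ 0` by StTrc (`0 = MT 0 ≤ ∑_j MT e_j + MT (-1,..,-1)`), and `F_i = 0` would make
`M'_i` principal: StCvx for `R = {e_j} ∪ {(-1,..,-1)}` (complete: `a = ∑ (a_j + k) e_j + k (-1,..,-1)`)
and StRig.  So `F_i ≥ 1`; `F_i = 1` gives `PolyNef` by StPoly.
`g' = g - ∑ b_i [h_i'] `: `B v = rdiv g' v - ordOmega v - ∑ b_i M'_i v`.  `Q` from StFac for the support of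
`g'`: `rdiv g' v = ∑ u_j v(x_j) + ∑_Q e_P v(P)`, `e_P = rdiv g' v_P = B v_P` (StPadV: `ordOmega = 0`;
`M'_i v_P = 0`).  At `v_j`: `v_j(x_i) = δ_ij`, `v_j(P) = 0` (a torus prime is not divisible by `x_j`),
`ordOmega v_j = -1`: `u_j = B v_j - 1`: this is `rep`.  At `v_∞`: `v_∞(x_j) = -1`,
`v_∞(P) = - totalDegree P`, `ordOmega = -1`:
`B v_∞ = - ∑ (B v_j - 1) - ∑ e_P deg P - ∑ b_i F_i + 1`, this is `deg`. -/
def StDeg : Prop := ∀ (n : ℕ) (ι : Type) [Fintype ι] (S : Set (DivVal (Kn n)))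
  (p : PairData n ι), 0 < n → IsGenLCY S p → Nonempty (DegData p)

/-- MODULE EqA.  Consequences of equality.
Proof.  All of `B (ve j)`, `B vi`, `B (vP P)` are `≥ 0` (in `S` or equal to 1).  Suppose that `v0 ∈ S` is not
`Old`; we show `v0 ∈ C` and `B v0 = 1`.  Let `R'` = the set of those of the `n+1` valuations `ve j, vi`
not in `S` (there `B = 1`), `Q' = {P ∈ D.Q : vP P ∉ S}` (`B = 1`), `CE` = the elements of `C`
which are not `Old`.  `∑_C B ≤ (∑_j B(ve j) + B vi - |R'|) + (∑_Q B(vP P) - |Q'|) + ∑_CE B`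
(`B = 0` at torus primes not associated to an element of `Q`).
By `D.deg`, `∑_j B(ve j) + B vi + ∑_Q B(vP P) + ∑ b_i = n + 1 - δ`,
`δ = ∑_Q B(vP P)(deg P - 1) + ∑ b_i (F_i - 1) ≥ 0`.  So
`n + ρ ≤ ∑_C B + ∑ b ≤ n + 1 - δ - |R'| - |Q'| + ∑_CE B`.
StRnk for `T = {ve j, vi in S} ∪ CE ∪ {v0}` and `Q'` (every torus prime is in `S` or associated to an
element of `Q'`, since `B = 1 ≠ 0` there): `n + 1 - |R'| + |CE ∪ {v0}| ≤ n + |Q'| + ρ`.
Together `|CE ∪ {v0}| + δ ≤ ∑_CE B ≤ |CE|`, so `δ = 0`, `v0 ∈ CE` and `B = 1` on `CE`.  Without `v0`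
the same computation gives `δ = 0`.  `δ = 0` is a sum of nonnegative terms, all vanish
(`deg P ≥ 1`). -/
def StEqA : Prop := ∀ (n : ℕ) (ι : Type) [Fintype ι] (S : Set (DivVal (Kn n)))
  (p : PairData n ι), 0 < n → IsGenLCY S p → (∀ v, Old v → v ∈ S ∨ p.B v = 1) →
  ∀ (D : DegData p) (C : Finset (DivVal (Kn n))) (ρ : ℕ), (C : Set (DivVal (Kn n))) ⊆ S →
  Module.rank ℝ (Cl S) = (ρ : Cardinal) →
  (n : ℝ) + ρ ≤ ∑ v ∈ C, p.B v + ∑ i, p.b i →
    (∀ v ∈ S, Old v ∨ p.B v = 1) ∧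
    (∀ P ∈ D.Q, 0 < p.B (D.vP P) → P.totalDegree = 1) ∧ (∀ i, 0 < p.b i → D.F i = 1)

/-- MODULE EqB.  The pair as a weighted family of linear spaces.
Proof.  `κ` = the indices with positive weight among: `j : Fin n` (weight `B (ve j)`, `W = span e_(j+1)`),
the point `∞` (weight `B vi`, `W = span e_0`), `P ∈ D.Q` (weight `B (vP P)`, `W` = span of the coefficient
vector `c_P` of `P`, `totalDegree P = 1`, `lfv c_P = P`), `i : ι` (weight `b_i`, `W_i` from StPrj for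
`D.M' i`, `D.F i = 1`).  `vmin v (span c) = v(c)`; `v(hx_0) = 0`.
The sum of the weights is `n + 1` by `D.deg` and `D.rep` says
`∑ c vmin v W = B v + ordOmega v + ∑_j v(x_j) = Adisc v - 1 + B v` (`M'_i v = - vmin v W_i`). -/
def StEqB : Prop := ∀ (n : ℕ) (ι : Type) [Fintype ι] (p : PairData n ι) (D : DegData p), 0 < n →
  (∀ v, Old v → 0 ≤ p.B v) → (∀ i, 0 ≤ p.b i) →
  (∀ P ∈ D.Q, 0 < p.B (D.vP P) → P.totalDegree = 1) → (∀ i, 0 < p.b i → D.F i = 1) →
  ∃ (κ : Type) (_ : Fintype κ) (W : κ → Submodule ℂ (Fin (n + 1) → ℂ)) (c : κ → ℝ),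
    (∀ i, 0 < c i) ∧ (∀ i, W i ≠ ⊥) ∧ ∑ i, c i = (n : ℝ) + 1 ∧
    ∀ v : DivVal (Kn n), ∑ i, c i * (vmin v (W i) : ℝ) = (Adisc v : ℝ) - 1 + p.B v

/-- MODULE Fin2.  The theorem.
Proof.  StPnI: `Old v → v ∈ S ∨ B v = 1`.  `D` from StDeg, StEqA, family from StEqB; glc gives
`∑ c vmin v W ≤ Adisc v`, StStab gives stability, StComb gives `T`; `y = yT T`.  `full`: StGen.
If `B v = 1` then `v` is toric in `y` (StGlc).  `torus`: `v` with `IsPrimeOf (torusRing y) v`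
is a prime divisor of projective space (StPT), so in `S` or `B v = 1`; the latter is impossible by
StPT.  `invariant`: `v ∈ S`.  If `B v = 1`: toric.  Otherwise `Old v` and StPnII: either all `v(ℓ_i)` are equal
to `vmin v ⊤`: `IsPrimeOf (torusRing y) v` by StPT (b); or `∑ v(ℓ_i) = Adisc v`, so
`ordOmega (pull τ v) = -1` (StOmT; `τ` from StTau, StGen), so `pull τ v` is monomial (StLC) and
`v` is toric in `y` (StBri). -/
def StFin2 : Prop := ∀ (n : ℕ) (ι : Type) [Fintype ι] (S : Set (DivVal (Kn n)))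
  (p : PairData n ι), 0 < n → IsGenLCY S p → (∀ v, IsPrimeOfProjSpace v → v ∈ S ∨ p.B v = 1) →
  ∀ (C : Finset (DivVal (Kn n))) (ρ : ℕ), (C : Set (DivVal (Kn n))) ⊆ S →
  Module.rank ℝ (Cl S) = (ρ : Cardinal) →
  (n : ℝ) + ρ ≤ ∑ v ∈ C, p.B v + ∑ i, p.b i → IsToricVariety S

end Pool.Agent.Helper53.CX
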