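import Pool.Agent.Helper53.CX.St
import Pool.Agent.Helper53.CX.St2

/-!
# Project CX part 2 (MP_140278_ag): module Gen, linear forms generate the function field
-/

set_option autoImplicit false

open scoped BigOperators
open MvPolynomial

namespace Pool.Agent.Helper53.CX

/-- a linear form as a polynomial -/
noncomputable def Gen_pol {n : ℕ} (c : Fin (n + 1) → ℂ) : Pn n :=
  C (c 0) + ∑ j : Fin n, C (c j.succ) * X j

theorem Gen_lfv {n : ℕ} (c : Fin (n + 1) → ℂ) :
    (lfv c : Kn n) = algebraMap (Pn n) (Kn n) (Gen_pol c) := by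
  have hC : ∀ a : ℂ, algebraMap ℂ (Kn n) a = algebraMap (Pn n) (Kn n) (C a) := by
    intro a
    rw [IsScalarTower.algebraMap_apply ℂ (Pn n) (Kn n)]
    rfl
  unfold lfv hx Gen_pol
  rw [Fin.sum_univ_succ, map_add, map_sum]
  simp only [Fin.cons_zero, Fin.cons_succ, mul_one, hC, map_mul]
  rfl

theorem Gen_pol_zero {n : ℕ} (c : Fin (n + 1) → ℂ) (h : Gen_pol c = 0) : c = 0 := by
  classical
  have h0 : c 0 = 0 := by
    have := congrArg (coeff 0) h
    unfold Gen_pol at this
    rw [coeff_add, coeff_C, if_pos rfl, MvPolynomial.coeff_sum, Finset.sum_eq_zero, add_zero,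
      coeff_zero] at this
    · exact this
    · intro j _
      rw [coeff_C_mul, coeff_X, if_neg, mul_zero]
      intro h2
      have := congrArg (fun f => f j) h2
      simp at this
  have hj : ∀ j : Fin n, c j.succ = 0 := by
    intro j
    have hs0 : (0 : Fin n →₀ ℕ) ≠ Finsupp.single j 1 := by
      intro h2
      have := congrArg (fun f => f j) h2
      simp at this
    have := congrArg (coeff (Finsupp.single j 1)) h
    unfold Gen_pol at this
    rw [coeff_add, coeff_C, if_neg hs0, zero_add, MvPolynomial.coeff_sum,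
      Finset.sum_eq_single j, coeff_zero] at this
    · rw [coeff_C_mul, coeff_X, if_pos rfl, mul_one] at this
      exact this
    · intro b _ hb
      rw [coeff_C_mul, coeff_X, if_neg, mul_zero]
      intro h2
      have := congrArg (fun f => f b) h2
      simp only [Finsupp.single_eq_same] at this
      rw [Finsupp.single_eq_of_ne hb] at this
      exact one_ne_zero this
    · intro h2
      exact absurd (Finset.mem_univ _) h2
  funext i
  refine Fin.cases ?_ (fun j => ?_) i
  · exact h0
  · exact hj j

theorem Gen_ne {n : ℕ} (c : Fin (n + 1) → ℂ) (hc : c ≠ 0) : (lfv c : Kn n) ≠ 0 := by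
  intro h
  apply hc
  apply Gen_pol_zero
  apply IsFractionRing.injective (Pn n) (Kn n)
  rw [← Gen_lfv, h, map_zero]

theorem Gen_top {n : ℕ} (E : IntermediateField ℂ (Kn n)) (h : ∀ j, (x j : Kn n) ∈ E) : E = ⊤ := by
  rw [eq_top_iff]
  intro f _
  obtain ⟨p, q, hq, rfl⟩ := IsFractionRing.div_surjective (A := Pn n) f
  have hp : ∀ p : Pn n, algebraMap (Pn n) (Kn n) p ∈ E := by
    intro p
    induction p using MvPolynomial.induction_on with
    | C a =>
      have : algebraMap (Pn n) (Kn n) (C a) = algebraMap ℂ (Kn n) a := by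
        rw [IsScalarTower.algebraMap_apply ℂ (Pn n) (Kn n)]
        rfl
      rw [this]
      exact E.algebraMap_mem a
    | add p q hp hq =>
      rw [map_add]
      exact E.add_mem hp hq
    | mul_X p j hp =>
      rw [map_mul]
      exact E.mul_mem hp (h j)
  exact E.div_mem (hp p) (hp q)

theorem Gen_inv {n : ℕ} (T : Matrix (Fin (n + 1)) (Fin (n + 1)) ℂ) (hT : IsUnit T.det)
    (j : Fin (n + 1)) :
    (hx j : Kn n) = ∑ i, algebraMap ℂ (Kn n) (T⁻¹ j i) * lf T i := by
  unfold lf lfv
  simp only [Finset.mul_sum]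
  rw [Finset.sum_comm]
  have h1 : ∀ k : Fin (n + 1), ∑ i, algebraMap ℂ (Kn n) (T⁻¹ j i) *
      (algebraMap ℂ (Kn n) (T i k) * hx k) = algebraMap ℂ (Kn n) ((T⁻¹ * T) j k) * hx k := by
    intro k
    rw [Matrix.mul_apply, map_sum, Finset.sum_mul]
    refine Finset.sum_congr rfl fun i _ => ?_
    rw [map_mul, mul_assoc]
  rw [Finset.sum_congr rfl (fun k _ => h1 k), Matrix.nonsing_inv_mul T hT,
    Finset.sum_eq_single j]
  · rw [Matrix.one_apply_eq, map_one, one_mul]
  · intro b _ hb
    rw [Matrix.one_apply_ne (Ne.symm hb), map_zero, zero_mul]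
  · intro h
    exact absurd (Finset.mem_univ _) h

theorem hGen : StGen := by
  intro n
  refine ⟨Gen_ne, ?_, ?_⟩
  · intro T hT
    have hrow : ∀ i, T i ≠ 0 := by
      intro i h
      have : T.det = 0 := Matrix.det_eq_zero_of_row_eq_zero i (fun j => by rw [h]; rfl)
      rw [this] at hT
      exact not_isUnit_zero hT
    have hne : ∀ i, (lf T i : Kn n) ≠ 0 := fun i => Gen_ne _ (hrow i)
    refine ⟨hne, Gen_inv T hT, ?_⟩
    apply Gen_top
    intro j
    set E := IntermediateField.adjoin ℂ (Set.range (yT T : Fin n → Kn n)) with hE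
    have hy : ∀ i : Fin (n + 1), lf T i / lf T 0 ∈ E := by
      intro i
      refine Fin.cases ?_ (fun k => ?_) i
      · rw [div_self (hne 0)]
        exact E.one_mem
      · exact IntermediateField.subset_adjoin _ _ ⟨k, rfl⟩
    have hh : ∀ i : Fin (n + 1), hx i / lf T 0 ∈ E := by
      intro i
      rw [Gen_inv T hT i, Finset.sum_div]
      apply E.sum_mem
      intro k _
      rw [mul_div_assoc]
      exact E.mul_mem (E.algebraMap_mem _) (hy k)
    have h0 : (hx 0 : Kn n) = 1 := by simp [hx]
    have hj : (hx j.succ : Kn n) = x j := by simp [hx]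
    have h1 : (x j : Kn n) = (hx j.succ / lf T 0) / (hx 0 / lf T 0) := by
      rw [h0, hj]
      field_simp [hne 0]
    rw [h1]
    exact E.div_mem (hh _) (hh _)
  · intro s J
    apply Gen_top
    intro j
    set E := IntermediateField.adjoin ℂ (Set.range (chart (x : Fin n → Kn n) s J)) with hE
    have hm : ∀ i, chart (x : Fin n → Kn n) s J i ∈ E := fun i =>
      IntermediateField.subset_adjoin _ _ ⟨i, rfl⟩
    have hs : (x s : Kn n) ∈ E := by
      have := hm s
      unfold chart at this
      simpa using this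
    by_cases hj : j.succ ∈ J ∧ j ≠ s
    · have h1 := hm j
      unfold chart at h1
      rw [if_pos hj] at h1
      have hxs : (x s : Kn n) ≠ 0 := by
        intro h
        have h2 : (X s : Pn n) = 0 := by
          apply IsFractionRing.injective (Pn n) (Kn n)
          rw [map_zero]
          exact h
        exact MvPolynomial.X_ne_zero s h2
      have h2 : (x j : Kn n) = x j / x s * x s := by
        rw [div_mul_cancel₀ _ hxs]
      rw [h2]
      exact E.mul_mem h1 hs
    · have h1 := hm j
      unfold chart at h1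
      rw [if_neg hj] at h1
      exact h1

end Pool.Agent.Helper53.CX
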