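import Pool.Agent.Helper53.CX.St

/-!
# Project CX (MP_140278_ag): module Mon, monomial weights are a valuation
-/

set_option autoImplicit false

open scoped BigOperators
open MvPolynomial

namespace Pool.Agent.Helper53.CX

theorem Mon_wt_add {n : ℕ} (a : Fin n → ℤ) (m m' : Fin n →₀ ℕ) :
    wt a (m + m') = wt a m + wt a m' := by
  unfold wt
  rw [← Finset.sum_add_distrib]
  refine Finset.sum_congr rfl fun j _ => ?_
  rw [Finsupp.add_apply]
  push_cast
  ring

theorem Mon_nonempty {n : ℕ} {p : Pn n} (hp : p ≠ 0) : p.support.Nonempty :=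
  MvPolynomial.support_nonempty.2 hp

theorem Mon_le {n : ℕ} (a : Fin n → ℤ) {p : Pn n} (hp : p ≠ 0) {m : Fin n →₀ ℕ}
    (hm : m ∈ p.support) : monO a p ≤ wt a m := by
  unfold monO
  rw [dif_pos (Mon_nonempty hp)]
  exact Finset.inf'_le _ hm

theorem Mon_ex {n : ℕ} (a : Fin n → ℤ) {p : Pn n} (hp : p ≠ 0) :
    ∃ m ∈ p.support, monO a p = wt a m := by
  unfold monO
  rw [dif_pos (Mon_nonempty hp)]
  exact Finset.exists_mem_eq_inf' _ _

theorem Mon_ge {n : ℕ} (a : Fin n → ℤ) {p : Pn n} (hp : p ≠ 0) (k : ℤ)
    (h : ∀ m ∈ p.support, k ≤ wt a m) : k ≤ monO a p := by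
  obtain ⟨m, hm, he⟩ := Mon_ex a hp
  rw [he]
  exact h m hm

open Classical in
/-- the part of weight `k` -/
noncomputable def Mon_part {n : ℕ} (a : Fin n → ℤ) (k : ℤ) (p : Pn n) : Pn n :=
  ∑ m ∈ p.support.filter (fun m => wt a m = k), monomial m (p.coeff m)

theorem Mon_part_coeff {n : ℕ} (a : Fin n → ℤ) (k : ℤ) (p : Pn n) (m : Fin n →₀ ℕ) :
    (Mon_part a k p).coeff m = if wt a m = k then p.coeff m else 0 := by
  classical
  unfold Mon_part
  rw [MvPolynomial.coeff_sum]
  simp only [coeff_monomial]
  rw [Finset.sum_ite_eq']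
  by_cases h : wt a m = k
  · by_cases h2 : m ∈ p.support
    · rw [if_pos (by simp [h2, h] : m ∈ p.support.filter (fun m => wt a m = k)), if_pos h]
    · rw [if_neg (by simp [h2]), if_pos h]
      exact (MvPolynomial.notMem_support_iff.1 h2).symm
  · rw [if_neg (by simp [h]), if_neg h]

theorem Mon_mul_mem {n : ℕ} {p q : Pn n} {μ : Fin n →₀ ℕ} (h : (p * q).coeff μ ≠ 0) :
    ∃ m ∈ p.support, ∃ m' ∈ q.support, m + m' = μ := by
  classical
  have h1 := MvPolynomial.support_mul p q (MvPolynomial.mem_support_iff.2 h)
  rw [Finset.mem_add] at h1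
  exact h1

theorem hMon : StMon := by
  intro n a
  refine ⟨?_, ?_⟩
  · intro p q hp hq
    set k := monO a p with hk
    set l := monO a q with hl
    have hpq : p * q ≠ 0 := mul_ne_zero hp hq
    apply le_antisymm
    · set p0 := Mon_part a k p with hp0
      set q0 := Mon_part a l q with hq0
      have hp0ne : p0 ≠ 0 := by
        obtain ⟨m, hm, he⟩ := Mon_ex a hp
        intro h
        have h1 := Mon_part_coeff a k p m
        rw [← hp0, h, if_pos (by rw [hk, he]), coeff_zero] at h1
        exact (MvPolynomial.mem_support_iff.1 hm) h1.symm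
      have hq0ne : q0 ≠ 0 := by
        obtain ⟨m, hm, he⟩ := Mon_ex a hq
        intro h
        have h1 := Mon_part_coeff a l q m
        rw [← hq0, h, if_pos (by rw [hl, he]), coeff_zero] at h1
        exact (MvPolynomial.mem_support_iff.1 hm) h1.symm
      obtain ⟨μ, hμ⟩ := MvPolynomial.ne_zero_iff.1 (mul_ne_zero hp0ne hq0ne)
      have hsp : ∀ m ∈ p0.support, wt a m = k := by
        intro m hm
        by_contra hcon
        have h1 := Mon_part_coeff a k p m
        rw [if_neg hcon] at h1
        exact (MvPolynomial.mem_support_iff.1 hm) h1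
      have hsq : ∀ m ∈ q0.support, wt a m = l := by
        intro m hm
        by_contra hcon
        have h1 := Mon_part_coeff a l q m
        rw [if_neg hcon] at h1
        exact (MvPolynomial.mem_support_iff.1 hm) h1
      have hμw : wt a μ = k + l := by
        obtain ⟨m, hm, m', hm', he⟩ := Mon_mul_mem hμ
        rw [← he, Mon_wt_add, hsp m hm, hsq m' hm']
      have hp1 : ∀ m ∈ (p - p0).support, k < wt a m := by
        intro m hm
        have h1 : (p - p0).coeff m ≠ 0 := MvPolynomial.mem_support_iff.1 hm
        rw [coeff_sub, hp0, Mon_part_coeff] at h1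
        have h2 : wt a m ≠ k := by
          intro h
          rw [if_pos h, sub_self] at h1
          exact h1 rfl
        rw [if_neg h2, sub_zero] at h1
        exact lt_of_le_of_ne (Mon_le a hp (MvPolynomial.mem_support_iff.2 h1)) (Ne.symm h2)
      have hq1 : ∀ m ∈ (q - q0).support, l < wt a m := by
        intro m hm
        have h1 : (q - q0).coeff m ≠ 0 := MvPolynomial.mem_support_iff.1 hm
        rw [coeff_sub, hq0, Mon_part_coeff] at h1
        have h2 : wt a m ≠ l := by
          intro h
          rw [if_pos h, sub_self] at h1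
          exact h1 rfl
        rw [if_neg h2, sub_zero] at h1
        exact lt_of_le_of_ne (Mon_le a hq (MvPolynomial.mem_support_iff.2 h1)) (Ne.symm h2)
      have hz1 : ((p - p0) * q).coeff μ = 0 := by
        by_contra hcon
        obtain ⟨m, hm, m', hm', he⟩ := Mon_mul_mem hcon
        have h1 := hp1 m hm
        have h2 := Mon_le a hq hm'
        rw [← he, Mon_wt_add] at hμw
        linarith
      have hz2 : (p0 * (q - q0)).coeff μ = 0 := by
        by_contra hcon
        obtain ⟨m, hm, m', hm', he⟩ := Mon_mul_mem hcon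
        have h1 := hsp m hm
        have h2 := hq1 m' hm'
        rw [← he, Mon_wt_add] at hμw
        linarith
      have hdec : p * q = p0 * q0 + (p - p0) * q + p0 * (q - q0) := by ring
      have hc : (p * q).coeff μ ≠ 0 := by
        rw [hdec, coeff_add, coeff_add, hz1, hz2, add_zero, add_zero]
        exact hμ
      have := Mon_le a hpq (MvPolynomial.mem_support_iff.2 hc)
      rw [hμw] at this
      exact this
    · apply Mon_ge a hpq
      intro m hm
      obtain ⟨m1, hm1, m2, hm2, he⟩ := Mon_mul_mem (MvPolynomial.mem_support_iff.1 hm)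
      rw [← he, Mon_wt_add]
      exact add_le_add (Mon_le a hp hm1) (Mon_le a hq hm2)
  · intro p q hp hq hpq
    apply Mon_ge a hpq
    intro m hm
    have h1 : (p + q).coeff m ≠ 0 := MvPolynomial.mem_support_iff.1 hm
    rw [coeff_add] at h1
    by_cases h2 : p.coeff m = 0
    · have h3 : q.coeff m ≠ 0 := by
        intro h
        rw [h2, h, add_zero] at h1
        exact h1 rfl
      exact (min_le_right _ _).trans (Mon_le a hq (MvPolynomial.mem_support_iff.2 h3))
    · exact (min_le_left _ _).trans (Mon_le a hp (MvPolynomial.mem_support_iff.2 h2))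

end Pool.Agent.Helper53.CX
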