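import Pool.Agent.Helper53.CX.St

/-! MODULE Sum of project CX: the main inequality on the toric variety. -/

set_option autoImplicit false

open scoped BigOperators
open MvPolynomial

namespace Pool.Agent.Helper53.CX

theorem Sum_alg_ne {n : ℕ} (p : Pn n) (hp : p ≠ 0) : algebraMap (Pn n) (Kn n) p ≠ 0 := by
  intro h
  exact hp ((IsFractionRing.injective (Pn n) (Kn n)) (h.trans (map_zero _).symm))

theorem Sum_x_ne {n : ℕ} (j : Fin n) : (x j : Kn n) ≠ 0 := Sum_alg_ne _ (X_ne_zero j)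

section ord

variable {n : ℕ} (v : DivVal (Kn n))

theorem Sum_ord_one : v.ord 1 = 0 := by
  have := v.ord_mul 1 1 one_ne_zero one_ne_zero
  rw [mul_one] at this
  omega

theorem Sum_ord_inv (f : Kn n) (hf : f ≠ 0) : v.ord f⁻¹ = - v.ord f := by
  have := v.ord_mul f f⁻¹ hf (inv_ne_zero hf)
  rw [mul_inv_cancel₀ hf, Sum_ord_one] at this
  omega

theorem Sum_ord_pow (f : Kn n) (hf : f ≠ 0) (k : ℕ) : v.ord (f ^ k) = k * v.ord f := by
  induction k with
  | zero => rw [pow_zero, Sum_ord_one]; simp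
  | succ k ih =>
    rw [pow_succ, v.ord_mul _ _ (pow_ne_zero _ hf) hf, ih]
    push_cast
    ring

theorem Sum_ord_zpow (f : Kn n) (hf : f ≠ 0) (k : ℤ) : v.ord (f ^ k) = k * v.ord f := by
  rcases Int.eq_nat_or_neg k with ⟨m, rfl | rfl⟩
  · rw [zpow_natCast, Sum_ord_pow v f hf]
  · rw [zpow_neg, zpow_natCast, Sum_ord_inv v _ (pow_ne_zero _ hf), Sum_ord_pow v f hf]
    ring

theorem Sum_ord_prod {ι : Type} (s : Finset ι) (f : ι → Kn n) (hf : ∀ i ∈ s, f i ≠ 0) :
    v.ord (∏ i ∈ s, f i) = ∑ i ∈ s, v.ord (f i) := by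
  classical
  induction s using Finset.induction_on with
  | empty => simp [Sum_ord_one]
  | insert a s ha ih =>
    rw [Finset.prod_insert ha, Finset.sum_insert ha, v.ord_mul]
    · rw [ih (fun i hi => hf i (Finset.mem_insert_of_mem hi))]
    · exact hf a (Finset.mem_insert_self _ _)
    · exact Finset.prod_ne_zero_iff.2 fun i hi => hf i (Finset.mem_insert_of_mem hi)

theorem Sum_const_ne (c : ℂ) (hc : c ≠ 0) : algebraMap ℂ (Kn n) c ≠ 0 := by
  intro h
  exact hc ((algebraMap ℂ (Kn n)).injective (h.trans (map_zero _).symm))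

theorem Sum_ord_const (c : ℂ) (hc : c ≠ 0) : v.ord (algebraMap ℂ (Kn n) c) = 0 := by
  obtain ⟨R, -, hR, -⟩ := v.exists_model
  have h1 := hR _ (R.algebraMap_mem c) (Sum_const_ne c hc)
  have h2 := hR _ (R.algebraMap_mem c⁻¹) (Sum_const_ne c⁻¹ (inv_ne_zero hc))
  have h3 := v.ord_mul _ _ (Sum_const_ne (n := n) c hc) (Sum_const_ne c⁻¹ (inv_ne_zero hc))
  rw [← map_mul, mul_inv_cancel₀ hc, map_one, Sum_ord_one] at h3
  omega

theorem Sum_ord_xm (u : Fin n → ℤ) : v.ord (xm u) = ∑ j, u j * v.ord (x j) := by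
  unfold xm
  rw [Sum_ord_prod v _ _ (fun j _ => zpow_ne_zero _ (Sum_x_ne j))]
  exact Finset.sum_congr rfl fun j _ => Sum_ord_zpow v _ (Sum_x_ne j) _

end ord

theorem Sum_xm_ne {n : ℕ} (u : Fin n → ℤ) : (xm u : Kn n) ≠ 0 :=
  Finset.prod_ne_zero_iff.2 fun j _ => zpow_ne_zero _ (Sum_x_ne j)

/-- a nonzero integer vector is a positive multiple of a primitive one -/
theorem Sum_prim {n : ℕ} (s : Fin n → ℤ) (hs : s ≠ 0) : ∃ (k : ℕ) (s' u : Fin n → ℤ),
    1 ≤ k ∧ s = (k : ℤ) • s' ∧ ∑ j, s' j * u j = 1 := by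
  set J : Ideal ℤ := Ideal.span (Set.range s) with hJ
  set d : ℤ := Submodule.IsPrincipal.generator J with hd
  have h1 : ∀ j, ∃ t, s j = d * t := by
    intro j
    have : s j ∈ J := Ideal.subset_span ⟨j, rfl⟩
    exact (Submodule.IsPrincipal.mem_iff_generator_dvd J).1 this
  choose t ht using h1
  have h2 : d ∈ J := Submodule.IsPrincipal.generator_mem J
  obtain ⟨u, hu⟩ := (Ideal.mem_span_range_iff_exists_fun).1 h2
  have hd0 : d ≠ 0 := by
    intro h
    apply hs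
    funext j
    rw [ht j, h, zero_mul]
    rfl
  have h3 : ∑ j, t j * u j = 1 := by
    have e : ∑ j, u j * s j = d * ∑ j, t j * u j := by
      rw [Finset.mul_sum]
      refine Finset.sum_congr rfl fun j _ => ?_
      rw [ht j]; ring
    rw [e] at hu
    have : d * ∑ j, t j * u j = d * 1 := by rw [hu, mul_one]
    exact mul_left_cancel₀ hd0 this
  rcases lt_or_gt_of_ne hd0 with h | h
  · refine ⟨d.natAbs, fun j => - t j, fun j => - u j, ?_, ?_, ?_⟩
    · omega
    · funext j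
      have : ((d.natAbs : ℕ) : ℤ) = -d := by omega
      simp only [Pi.smul_apply, smul_eq_mul, this]
      rw [ht j]; ring
    · simpa using h3
  · refine ⟨d.natAbs, t, u, ?_, ?_, h3⟩
    · omega
    · funext j
      have : ((d.natAbs : ℕ) : ℤ) = d := by omega
      simp only [Pi.smul_apply, smul_eq_mul, this]
      rw [ht j]

theorem Sum_monx (hExt : StExt) (hMon : StMon) {n : ℕ} (a : Fin n → ℤ) (j : Fin n) :
    monOrd a (x j : Kn n) = a j := by
  obtain ⟨h1, h2⟩ := hMon n a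
  obtain ⟨-, -, -, h3⟩ := hExt n (monO a) h1 h2
  have h4 : monOrd a (x j : Kn n) = monO a (X j : Pn n) := h3 _ (X_ne_zero j)
  rw [h4]
  unfold monO
  have hs : (X j : Pn n).support = {Finsupp.single j 1} := support_X
  have hne : (X j : Pn n).support.Nonempty := by rw [hs]; exact Finset.singleton_nonempty _
  rw [dif_pos hne]
  have : ∀ m ∈ (X j : Pn n).support, wt a m = a j := by
    intro m hm
    rw [hs, Finset.mem_singleton] at hm
    subst hm
    unfold wt
    rw [Finset.sum_eq_single j]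
    · simp
    · intro i _ hi
      simp [hi.symm]
    · intro h; exact absurd (Finset.mem_univ j) h
  apply le_antisymm
  · obtain ⟨m, hm⟩ := hne
    exact (Finset.inf'_le _ hm).trans (this m hm).le
  · exact Finset.le_inf' _ _ fun m hm => (this m hm).ge

theorem Sum_laurent {n : ℕ} (P : Pn n) : IsLaurent (algebraMap (Pn n) (Kn n) P) :=
  ⟨P, 0, by simp [xm]⟩

theorem Sum_rdiv_sub {n : ℕ} {ι : Type} [Fintype ι] (g : Kn n →₀ ℝ) (h : ι → Kn n) (b : ι → ℝ)
    (v : DivVal (Kn n)) :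
    rdiv (g - ∑ i, Finsupp.single (h i) (b i)) v = rdiv g v - ∑ i, b i * (v.ord (h i) : ℝ) := by
  have e : ∀ g : Kn n →₀ ℝ, rdiv g v =
      Finsupp.linearCombination ℝ (fun f => (v.ord f : ℝ)) g := by
    intro g
    rw [Finsupp.linearCombination_apply]
    rfl
  rw [e, e, map_sub, map_sum]
  congr 1
  refine Finset.sum_congr rfl fun i _ => ?_
  rw [Finsupp.linearCombination_single, smul_eq_mul]

/-- MODULE Sum, for `0 < n`. -/
theorem hSum (hExt : StExt) (hMon : StMon) (hTorV : StTorV) (hTorOm : StTorOm) (hPadV : StPadV)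
    (hFac : StFac) (hBri : StBri) (hMonL : StMonL) (hNorm : StNorm) (hTrc : StTrc) (hCvx : StCvx)
    (hRig : StRig) : ∀ (n : ℕ) (ι : Type) [Fintype ι] (S : Set (DivVal (Kn n)))
  (p : PairData n ι), 0 < n → IsGenLCY S p →
  ∀ R : Finset (Fin n → ℤ), IsCompleteFanRays R →
  (∀ v, IsToricPrimeDivisor R v → v ∈ S ∨ p.B v = 1) →
  ∃ Q : Finset (Pn n), (∀ P ∈ Q, TorusPrime P) ∧
    (∀ P ∈ Q, ∀ P' ∈ Q, Associated P P' → P = P') ∧
    (∀ P v, TorusPrime P → v.ord = padOrd P → (∀ P' ∈ Q, ¬ Associated P P') → p.B v = 0) ∧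
    ∃ (vr : (Fin n → ℤ) → DivVal (Kn n)) (vP : Pn n → DivVal (Kn n)),
      (∀ r ∈ R, (vr r).ord = monOrd r) ∧ (∀ P ∈ Q, (vP P).ord = padOrd P) ∧
      ∑ r ∈ R, p.B (vr r) + ∑ P ∈ Q, p.B (vP P) + ∑ i, p.b i ≤ (R.card : ℝ) := by
  classical
  intro n ι _ S p hn hp R hR hT
  -- normalisation
  have hN : ∀ i, ∃ h : Kn n, h ≠ 0 ∧ NormNef (fun v => p.M i v - v.ord h) := fun i =>
    hNorm n (p.M i) (hp.nef i)
  choose h hh0 hhN using hN
  have hTr : ∀ i, ∃ MT : (Fin n → ℤ) → ℤ,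
      (∀ (a u : Fin n → ℤ) (v : DivVal (Kn n)), ∑ j, a j * u j = 1 → v.ord = monOrd a →
        MT a = p.M i v - v.ord (h i)) ∧
      (∀ (k : ℕ) (a : Fin n → ℤ), MT ((k : ℤ) • a) = (k : ℤ) * MT a) ∧
      (∀ a b : Fin n → ℤ, MT (a + b) ≤ MT a + MT b) := fun i =>
    hTrc n (fun v => p.M i v - v.ord (h i)) (hhN i)
  choose MT hMT1 hMT2 hMT3 using hTr
  set g' : Kn n →₀ ℝ := p.g - ∑ i, Finsupp.single (h i) (p.b i) with hg'
  have hB : ∀ v, p.B v = rdiv g' v - (ordOmega v : ℝ) -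
      ∑ i, p.b i * ((p.M i v - v.ord (h i) : ℤ) : ℝ) := by
    intro v
    rw [hg', Sum_rdiv_sub]
    unfold PairData.B
    have e : ∑ i, p.b i * ((p.M i v - v.ord (h i) : ℤ) : ℝ) =
        ∑ i, p.b i * (p.M i v : ℝ) - ∑ i, p.b i * (v.ord (h i) : ℝ) := by
      rw [← Finset.sum_sub_distrib]
      refine Finset.sum_congr rfl fun i _ => ?_
      push_cast
      ring
    rw [e]
    ring
  -- factorisation
  set G0 : Finset (Kn n) := g'.support.erase 0 with hG0
  obtain ⟨Q, hQ1, hQ2, hQ3⟩ := hFac n G0 (fun g hg => Finset.ne_of_mem_erase hg)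
  have hfac : ∀ g : Kn n, ∃ u : Fin n → ℤ, g ∈ G0 → ∀ v : DivVal (Kn n),
      v.ord g = ∑ j, u j * v.ord (x j) +
        ∑ P ∈ Q, padOrd P g * v.ord (algebraMap (Pn n) (Kn n) P) := by
    intro g
    by_cases hg : g ∈ G0
    · obtain ⟨⟨c, u, hc, he⟩, -⟩ := hQ3 g hg
      refine ⟨u, fun _ v => ?_⟩
      have hPne : ∀ P ∈ Q, algebraMap (Pn n) (Kn n) P ≠ 0 := fun P hP =>
        Sum_alg_ne _ (hQ1 P hP).1.ne_zero
      have h1 : v.ord (algebraMap ℂ (Kn n) c * xm u *
          ∏ P ∈ Q, (algebraMap (Pn n) (Kn n) P) ^ (padOrd P g)) =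
          ∑ j, u j * v.ord (x j) +
          ∑ P ∈ Q, padOrd P g * v.ord (algebraMap (Pn n) (Kn n) P) := by
        rw [v.ord_mul _ _ (mul_ne_zero (Sum_const_ne c hc) (Sum_xm_ne u))
          (Finset.prod_ne_zero_iff.2 fun P hP => zpow_ne_zero _ (hPne P hP)),
          v.ord_mul _ _ (Sum_const_ne c hc) (Sum_xm_ne u), Sum_ord_const v c hc, Sum_ord_xm,
          Sum_ord_prod v _ _ (fun P hP => zpow_ne_zero _ (hPne P hP)), zero_add]
        congr 1
        exact Finset.sum_congr rfl fun P hP => Sum_ord_zpow v _ (hPne P hP) _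
      rw [← h1]
      exact congrArg v.ord he
    · exact ⟨0, fun h => absurd h hg⟩
  choose u hu using hfac
  set U : Fin n → ℝ := fun j => ∑ g ∈ G0, g' g * (u g j : ℝ) with hU
  set E : Pn n → ℝ := fun P => ∑ g ∈ G0, g' g * (padOrd P g : ℝ) with hE
  have hrd : ∀ v : DivVal (Kn n), rdiv g' v = ∑ g ∈ G0, g' g * (v.ord g : ℝ) := by
    intro v
    unfold rdiv Finsupp.sum
    rw [hG0]
    symm
    apply Finset.sum_subset (Finset.erase_subset _ _)
    intro f hf hf'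
    have : f = 0 := by
      by_contra hne
      exact hf' (Finset.mem_erase.2 ⟨hne, hf⟩)
    rw [this, v.ord_zero]
    simp
  have hrd2 : ∀ v : DivVal (Kn n), rdiv g' v = ∑ j, U j * (v.ord (x j) : ℝ) +
      ∑ P ∈ Q, E P * (v.ord (algebraMap (Pn n) (Kn n) P) : ℝ) := by
    intro v
    rw [hrd]
    have e1 : ∑ j, U j * (v.ord (x j) : ℝ) =
        ∑ g ∈ G0, g' g * ∑ j, (u g j : ℝ) * (v.ord (x j) : ℝ) := by
      simp only [hU, Finset.sum_mul, Finset.mul_sum]
      rw [Finset.sum_comm]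
      refine Finset.sum_congr rfl fun g _ => Finset.sum_congr rfl fun j _ => ?_
      ring
    have e2 : ∑ P ∈ Q, E P * (v.ord (algebraMap (Pn n) (Kn n) P) : ℝ) =
        ∑ g ∈ G0, g' g * ∑ P ∈ Q, (padOrd P g : ℝ) *
          (v.ord (algebraMap (Pn n) (Kn n) P) : ℝ) := by
      simp only [hE, Finset.sum_mul, Finset.mul_sum]
      rw [Finset.sum_comm]
      refine Finset.sum_congr rfl fun g _ => Finset.sum_congr rfl fun P _ => ?_
      ring
    rw [e1, e2, ← Finset.sum_add_distrib]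
    refine Finset.sum_congr rfl fun g hg => ?_
    rw [hu g hg v]
    push_cast
    ring
  -- the torus primes
  have hBP : ∀ (P : Pn n) (v : DivVal (Kn n)), TorusPrime P → v.ord = padOrd P →
      p.B v = E P := by
    intro P v hP hv
    have h1 := ((hPadV n P hP.1).2 hP v hv).2
    have h2 : ∀ i, p.M i v - v.ord (h i) = 0 := fun i => (hhN i).1 P v hP hv
    have e0 : ∑ i, p.b i * ((p.M i v - v.ord (h i) : ℤ) : ℝ) = 0 :=
      Finset.sum_eq_zero fun i _ => by rw [h2 i]; simp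
    rw [hB, h1, hrd, e0]
    simp only [hE, hv]
    simp
  have hE0 : ∀ P, TorusPrime P → 0 ≤ E P := by
    intro P hP
    obtain ⟨v, hv⟩ := (hPadV n P hP.1).1
    rw [← hBP P v hP hv]
    have h1 : IsToricPrimeDivisor R v := Or.inr ⟨P, hP, ((hBri n v).2.1 P hP.1).2 hv⟩
    rcases hT v h1 with h2 | h2
    · exact hp.effective v h2
    · rw [h2]; norm_num
  -- the piecewise linear function
  set ℓ : (Fin n → ℤ) → ℝ := fun a => ∑ j, U j * (a j : ℝ) +
      ∑ P ∈ Q, E P * (monOrd a (algebraMap (Pn n) (Kn n) P) : ℝ) -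
      ∑ i, p.b i * (MT i a : ℝ) with hℓ
  have hℓk : ∀ (k : ℕ) (a : Fin n → ℤ), ℓ ((k : ℤ) • a) = k * ℓ a := by
    intro k a
    simp only [hℓ, hMT2, (hMonL n).1, Pi.smul_apply, smul_eq_mul]
    rw [mul_sub, mul_add, Finset.mul_sum, Finset.mul_sum, Finset.mul_sum]
    push_cast
    congr 1
    · congr 1
      · refine Finset.sum_congr rfl fun j _ => ?_; ring
      · refine Finset.sum_congr rfl fun j _ => ?_; ring
    · refine Finset.sum_congr rfl fun j _ => ?_; ring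
  have hℓB : ∀ (a w : Fin n → ℤ) (v : DivVal (Kn n)), ∑ j, a j * w j = 1 → v.ord = monOrd a →
      p.B v = ℓ a + 1 := by
    intro a w v hw hv
    rw [hB, hrd2, hTorOm n a w hw v hv]
    have h1 : ∀ j, v.ord (x j) = a j := fun j => by rw [hv, Sum_monx hExt hMon]
    have h2 : ∀ i, p.M i v - v.ord (h i) = MT i a := fun i => (hMT1 i a w v hw hv).symm
    have e1 : ∑ j, U j * (v.ord (x j) : ℝ) = ∑ j, U j * (a j : ℝ) :=
      Finset.sum_congr rfl fun j _ => by rw [h1 j]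
    have e2 : ∑ P ∈ Q, E P * (v.ord (algebraMap (Pn n) (Kn n) P) : ℝ) =
        ∑ P ∈ Q, E P * (monOrd a (algebraMap (Pn n) (Kn n) P) : ℝ) :=
      Finset.sum_congr rfl fun P _ => by rw [hv]
    have e3 : ∑ i, p.b i * ((p.M i v - v.ord (h i) : ℤ) : ℝ) = ∑ i, p.b i * (MT i a : ℝ) :=
      Finset.sum_congr rfl fun i _ => by rw [h2 i]
    rw [e1, e2, e3]
    simp only [hℓ]
    push_cast
    ring
  have hℓ0 : ∀ a : Fin n → ℤ, ℓ a ≤ 0 := by
    intro a
    by_cases ha : a = 0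
    · have := hℓk 0 0
      rw [ha]
      simp only [smul_zero, Nat.cast_zero, zero_mul] at this
      rw [this]
    · obtain ⟨k, a', w, hk, hka, hw⟩ := Sum_prim a ha
      obtain ⟨v, hv⟩ := hTorV n a' w hw
      have h1 := hℓB a' w v hw hv
      have h2 := hp.glc v
      rw [hka, hℓk]
      have h3 : ℓ a' ≤ 0 := by linarith
      exact mul_nonpos_of_nonneg_of_nonpos (Nat.cast_nonneg k) h3
  -- strict inequalities
  set s : Fin n → ℤ := ∑ r ∈ R, r with hs
  have hFP : ∀ P ∈ Q, (1 : ℝ) ≤ (monOrd s (algebraMap (Pn n) (Kn n) P) : ℝ) -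
      ∑ r ∈ R, (monOrd r (algebraMap (Pn n) (Kn n) P) : ℝ) := by
    intro P hP
    by_contra hcon
    have hint : monOrd s (algebraMap (Pn n) (Kn n) P) ≤
        ∑ r ∈ R, monOrd r (algebraMap (Pn n) (Kn n) P) := by
      by_contra hlt
      apply hcon
      have : ∑ r ∈ R, monOrd r (algebraMap (Pn n) (Kn n) P) + 1 ≤
        monOrd s (algebraMap (Pn n) (Kn n) P) := by omega
      have h2 : ((∑ r ∈ R, monOrd r (algebraMap (Pn n) (Kn n) P) + 1 : ℤ) : ℝ) ≤
        (monOrd s (algebraMap (Pn n) (Kn n) P) : ℝ) := by exact_mod_cast this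
      push_cast at h2
      linarith
    have hPne : algebraMap (Pn n) (Kn n) P ≠ 0 := Sum_alg_ne _ (hQ1 P hP).1.ne_zero
    obtain ⟨w, hw⟩ := hCvx n R hR (fun a => - monOrd a (algebraMap (Pn n) (Kn n) P))
      (fun k a => by
        show - monOrd ((k : ℤ) • a) (algebraMap (Pn n) (Kn n) P) =
          (k : ℤ) * - monOrd a (algebraMap (Pn n) (Kn n) P)
        rw [(hMonL n).1]; ring)
      (fun a b => by
        have := (hMonL n).2.1 a b _ (Sum_laurent P) hPne
        show - monOrd (a + b) (algebraMap (Pn n) (Kn n) P) ≤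
          - monOrd a (algebraMap (Pn n) (Kn n) P) + - monOrd b (algebraMap (Pn n) (Kn n) P)
        omega)
      (by
        show ∑ r ∈ R, - monOrd r (algebraMap (Pn n) (Kn n) P) ≤
          - monOrd s (algebraMap (Pn n) (Kn n) P)
        rw [Finset.sum_neg_distrib]
        omega)
    apply (hMonL n).2.2.2 P (hQ1 P hP) (fun j => - w j)
    intro a
    have h1 := hw a
    have h2 : - monOrd a (algebraMap (Pn n) (Kn n) P) = ∑ j, w j * a j := h1
    have h3 : ∑ j, - w j * a j = - ∑ j, w j * a j := by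
      rw [← Finset.sum_neg_distrib]
      exact Finset.sum_congr rfl fun j _ => by ring
    rw [h3]
    omega
  have hFi : ∀ i, (1 : ℝ) ≤ ∑ r ∈ R, (MT i r : ℝ) - (MT i s : ℝ) := by
    intro i
    by_contra hcon
    have hint : ∑ r ∈ R, MT i r ≤ MT i s := by
      by_contra hlt
      apply hcon
      have : MT i s + 1 ≤ ∑ r ∈ R, MT i r := by omega
      have h2 : ((MT i s + 1 : ℤ) : ℝ) ≤ ((∑ r ∈ R, MT i r : ℤ) : ℝ) := by exact_mod_cast this
      push_cast at h2
      linarith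
    obtain ⟨w, hw⟩ := hCvx n R hR (MT i) (hMT2 i) (hMT3 i) hint
    have hpr : IsPrincipal (fun v : DivVal (Kn n) => p.M i v - v.ord (h i)) := by
      refine hRig n _ (hhN i) ⟨w, ?_⟩
      intro a z v hz hv
      show p.M i v - v.ord (h i) = ∑ j, w j * a j
      rw [← hMT1 i a z v hz hv, hw a]
    apply hp.nontrivial i
    obtain ⟨f, hf0, hf⟩ := hpr
    refine ⟨f * h i, mul_ne_zero hf0 (hh0 i), fun v => ?_⟩
    have h1 : p.M i v - v.ord (h i) = v.ord f := hf v
    rw [v.ord_mul _ _ hf0 (hh0 i)]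
    omega
  -- the choice of valuations
  have hprim0 : ∑ j, (fun j : Fin n => if j = ⟨0, hn⟩ then (1 : ℤ) else 0) j *
      (fun j : Fin n => if j = ⟨0, hn⟩ then (1 : ℤ) else 0) j = 1 := by
    simp
  obtain ⟨v0, -⟩ := hTorV n _ _ hprim0
  have hvr : ∀ a : Fin n → ℤ, ∃ v : DivVal (Kn n), (∃ w : Fin n → ℤ, ∑ j, a j * w j = 1) →
      v.ord = monOrd a := by
    intro a
    by_cases ha : ∃ w : Fin n → ℤ, ∑ j, a j * w j = 1
    · obtain ⟨w, hw⟩ := ha
      obtain ⟨v, hv⟩ := hTorV n a w hw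
      exact ⟨v, fun _ => hv⟩
    · exact ⟨v0, fun h => absurd h ha⟩
  choose vr hvr using hvr
  have hvP : ∀ P : Pn n, ∃ v : DivVal (Kn n), TorusPrime P → v.ord = padOrd P := by
    intro P
    by_cases hP : TorusPrime P
    · obtain ⟨v, hv⟩ := (hPadV n P hP.1).1
      exact ⟨v, fun _ => hv⟩
    · exact ⟨v0, fun h => absurd h hP⟩
  choose vP hvP using hvP
  refine ⟨Q, hQ1, hQ2, ?_, vr, vP, fun r hr => hvr r (hR.primitive r hr),
    fun P hP => hvP P (hQ1 P hP), ?_⟩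
  · intro P v hP hv hPQ
    rw [hBP P v hP hv]
    simp only [hE]
    refine Finset.sum_eq_zero fun g hg => ?_
    rw [(hQ3 g hg).2 P hP hPQ]
    simp
  · have h1 : ∑ r ∈ R, p.B (vr r) = ∑ r ∈ R, ℓ r + R.card := by
      have : ∀ r ∈ R, p.B (vr r) = ℓ r + 1 := by
        intro r hr
        obtain ⟨w, hw⟩ := hR.primitive r hr
        exact hℓB r w (vr r) hw (hvr r ⟨w, hw⟩)
      rw [Finset.sum_congr rfl this, Finset.sum_add_distrib]
      simp
    have h2 : ∑ P ∈ Q, p.B (vP P) = ∑ P ∈ Q, E P :=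
      Finset.sum_congr rfl fun P hP => hBP P _ (hQ1 P hP) (hvP P (hQ1 P hP))
    have h3 : ∑ r ∈ R, ℓ r = ℓ s -
        ∑ P ∈ Q, E P * ((monOrd s (algebraMap (Pn n) (Kn n) P) : ℝ) -
          ∑ r ∈ R, (monOrd r (algebraMap (Pn n) (Kn n) P) : ℝ)) -
        ∑ i, p.b i * (∑ r ∈ R, (MT i r : ℝ) - (MT i s : ℝ)) := by
      have a1 : ∑ r ∈ R, ∑ j, U j * (r j : ℝ) = ∑ j, U j * (s j : ℝ) := by
        rw [Finset.sum_comm]
        refine Finset.sum_congr rfl fun j _ => ?_
        rw [← Finset.mul_sum, hs, Finset.sum_apply]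
        push_cast
        rfl
      have a2 : ∑ r ∈ R, ∑ P ∈ Q, E P * (monOrd r (algebraMap (Pn n) (Kn n) P) : ℝ) =
          ∑ P ∈ Q, E P * ∑ r ∈ R, (monOrd r (algebraMap (Pn n) (Kn n) P) : ℝ) := by
        rw [Finset.sum_comm]
        exact Finset.sum_congr rfl fun P _ => (Finset.mul_sum _ _ _).symm
      have a3 : ∑ r ∈ R, ∑ i, p.b i * (MT i r : ℝ) =
          ∑ i, p.b i * ∑ r ∈ R, (MT i r : ℝ) := by
        rw [Finset.sum_comm]
        exact Finset.sum_congr rfl fun P _ => (Finset.mul_sum _ _ _).symm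
      simp only [hℓ, Finset.sum_sub_distrib, Finset.sum_add_distrib, mul_sub, a1, a2, a3]
      ring
    have h4 : ∑ P ∈ Q, E P ≤
        ∑ P ∈ Q, E P * ((monOrd s (algebraMap (Pn n) (Kn n) P) : ℝ) -
          ∑ r ∈ R, (monOrd r (algebraMap (Pn n) (Kn n) P) : ℝ)) :=
      Finset.sum_le_sum fun P hP => le_mul_of_one_le_right (hE0 P (hQ1 P hP)) (hFP P hP)
    have h5 : ∑ i, p.b i ≤ ∑ i, p.b i * (∑ r ∈ R, (MT i r : ℝ) - (MT i s : ℝ)) :=
      Finset.sum_le_sum fun i _ => le_mul_of_one_le_right (hp.b_nonneg i) (hFi i)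
    have h6 := hℓ0 s
    rw [h1, h2, h3]
    linarith

end Pool.Agent.Helper53.CX
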