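import Pool.Agent.Helper53.CX.St

set_option autoImplicit false

open scoped BigOperators
open MvPolynomial

namespace Pool.Agent.Helper53.CX

private theorem Ext_inj {n : ℕ} : Function.Injective (algebraMap (Pn n) (Kn n)) :=
  IsFractionRing.injective (Pn n) (Kn n)

private theorem Ext_ne {n : ℕ} {p : Pn n} (hp : p ≠ 0) : algebraMap (Pn n) (Kn n) p ≠ 0 := by
  intro h
  exact hp (Ext_inj (by rw [h, map_zero]))

private theorem Ext_val {n : ℕ} (o : Pn n → ℤ)
    (hm : ∀ p q, p ≠ 0 → q ≠ 0 → o (p * q) = o p + o q) (f : Kn n) (p q : Pn n)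
    (hp : p ≠ 0) (hq : q ≠ 0)
    (hf : f * algebraMap (Pn n) (Kn n) q = algebraMap (Pn n) (Kn n) p) :
    extOrd o f = o p - o q := by
  have hf0 : f ≠ 0 := by
    intro h
    rw [h, zero_mul] at hf
    exact Ext_ne hp hf.symm
  unfold extOrd
  rw [if_neg hf0]
  have hs := IsLocalization.sec_spec (nonZeroDivisors (Pn n)) f
  set s := IsLocalization.sec (nonZeroDivisors (Pn n)) f with hs'
  have hs2 : (s.2 : Pn n) ≠ 0 := nonZeroDivisors.ne_zero s.2.2
  have hs1 : s.1 ≠ 0 := by
    intro h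
    rw [h, map_zero] at hs
    rcases mul_eq_zero.1 hs with h1 | h1
    · exact hf0 h1
    · exact Ext_ne hs2 h1
  have key : s.1 * q = (s.2 : Pn n) * p := by
    apply Ext_inj
    rw [map_mul, map_mul, ← hs, ← hf]
    ring
  have h2 := congrArg o key
  rw [hm _ _ hs1 hq, hm _ _ hs2 hp] at h2
  linarith

private theorem Ext_rep {n : ℕ} (f : Kn n) (hf0 : f ≠ 0) : ∃ p q : Pn n, p ≠ 0 ∧ q ≠ 0 ∧
    f * algebraMap (Pn n) (Kn n) q = algebraMap (Pn n) (Kn n) p := by
  have hs := IsLocalization.sec_spec (nonZeroDivisors (Pn n)) f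
  have hs2 : ((IsLocalization.sec (nonZeroDivisors (Pn n)) f).2 : Pn n) ≠ 0 :=
    nonZeroDivisors.ne_zero (IsLocalization.sec (nonZeroDivisors (Pn n)) f).2.2
  refine ⟨_, _, ?_, hs2, hs⟩
  intro h
  rw [h, map_zero] at hs
  rcases mul_eq_zero.1 hs with h1 | h1
  · exact hf0 h1
  · exact Ext_ne hs2 h1

theorem hExt : StExt := by
  intro n o hm ha
  have h1 : o 1 = 0 := by
    have h := hm 1 1 one_ne_zero one_ne_zero
    rw [mul_one] at h
    linarith
  refine ⟨by unfold extOrd; rw [if_pos rfl], ?_, ?_, ?_⟩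
  · intro f g hf hg
    obtain ⟨p, q, hp, hq, hfe⟩ := Ext_rep f hf
    obtain ⟨p', q', hp', hq', hge⟩ := Ext_rep g hg
    rw [Ext_val o hm f p q hp hq hfe, Ext_val o hm g p' q' hp' hq' hge,
      Ext_val o hm (f * g) (p * p') (q * q') (mul_ne_zero hp hp') (mul_ne_zero hq hq')
        (by rw [map_mul, map_mul, ← hfe, ← hge]; ring), hm p p' hp hp', hm q q' hq hq']
    ring
  · intro f g hf hg hfg
    obtain ⟨p, q, hp, hq, hfe⟩ := Ext_rep f hf
    obtain ⟨p', q', hp', hq', hge⟩ := Ext_rep g hg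
    have hsum : (f + g) * algebraMap (Pn n) (Kn n) (q * q')
        = algebraMap (Pn n) (Kn n) (p * q' + p' * q) := by
      rw [map_mul, map_add, map_mul, map_mul, ← hfe, ← hge]; ring
    have hne : p * q' + p' * q ≠ 0 := by
      intro h
      rw [h, map_zero] at hsum
      rcases mul_eq_zero.1 hsum with h2 | h2
      · exact hfg h2
      · exact Ext_ne (mul_ne_zero hq hq') h2
    rw [Ext_val o hm f p q hp hq hfe, Ext_val o hm g p' q' hp' hq' hge,
      Ext_val o hm (f + g) _ _ hne (mul_ne_zero hq hq') hsum, hm q q' hq hq']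
    have h3 := ha (p * q') (p' * q) (mul_ne_zero hp hq') (mul_ne_zero hp' hq) hne
    rw [hm p q' hp hq', hm p' q hp' hq] at h3
    rcases min_le_iff.1 h3 with h4 | h4
    · exact min_le_iff.2 (Or.inl (by linarith))
    · exact min_le_iff.2 (Or.inr (by linarith))
  · intro p hp
    rw [Ext_val o hm _ p 1 hp one_ne_zero (by rw [map_one, mul_one]), h1, sub_zero]

end Pool.Agent.Helper53.CX
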