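import Pool.Agent.Helper53.CX.St

/-!
# Project CX (MP_140278_ag): module Pad, multiplicity at an irreducible polynomial
-/

set_option autoImplicit false

open scoped BigOperators
open MvPolynomial

namespace Pool.Agent.Helper53.CX

theorem hPad : StPad := by
  intro n P hP
  have hprime : Prime P := hP.prime
  have hfin : ∀ p : Pn n, p ≠ 0 → FiniteMultiplicity P p := fun p hp =>
    FiniteMultiplicity.of_not_isUnit hP.not_isUnit hp
  refine ⟨?_, ?_, ?_⟩
  · intro p q hp hq
    exact multiplicity_mul hprime (hfin _ (mul_ne_zero hp hq))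
  · intro p q hp hq hpq
    rw [← (hfin _ hpq).pow_dvd_iff_le_multiplicity]
    exact dvd_add (pow_dvd_of_le_multiplicity (min_le_left _ _))
      (pow_dvd_of_le_multiplicity (min_le_right _ _))
  · intro p hp
    rw [← (hfin p hp).pow_dvd_iff_le_multiplicity, pow_one]

end Pool.Agent.Helper53.CX
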