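import Pool.Agent.Helper53.CX.St

set_option autoImplicit false

open scoped BigOperators
open MvPolynomial

namespace Pool.Agent.Helper53.CX

/-- zero, or of order at least `e` -/
def TorOm_G {n : ℕ} (v : DivVal (Kn n)) (e : ℤ) (f : Kn n) : Prop := f = 0 ∨ e ≤ v.ord f

theorem TorOm_one {n : ℕ} (v : DivVal (Kn n)) : v.ord 1 = 0 := by
  have h := v.ord_mul 1 1 one_ne_zero one_ne_zero
  rw [mul_one] at h
  linarith

theorem TorOm_negone {n : ℕ} (v : DivVal (Kn n)) : v.ord (-1) = 0 := by
  have h := v.ord_mul (-1) (-1) (neg_ne_zero.mpr one_ne_zero) (neg_ne_zero.mpr one_ne_zero)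
  rw [neg_mul_neg, mul_one, TorOm_one] at h
  linarith

theorem TorOm_neg {n : ℕ} (v : DivVal (Kn n)) (f : Kn n) : v.ord (-f) = v.ord f := by
  by_cases hf : f = 0
  · subst hf; rw [neg_zero]
  · have h := v.ord_mul (-1) f (neg_ne_zero.mpr one_ne_zero) hf
    rw [TorOm_negone, neg_one_mul, zero_add] at h
    exact h

theorem TorOm_inv {n : ℕ} (v : DivVal (Kn n)) (f : Kn n) (hf : f ≠ 0) :
    v.ord f⁻¹ = - v.ord f := by
  have h := v.ord_mul f f⁻¹ hf (inv_ne_zero hf)
  rw [mul_inv_cancel₀ hf, TorOm_one] at h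
  linarith

theorem TorOm_G_add {n : ℕ} {v : DivVal (Kn n)} {e : ℤ} {f g : Kn n}
    (hf : TorOm_G v e f) (hg : TorOm_G v e g) : TorOm_G v e (f + g) := by
  rcases hf with hf | hf
  · subst hf; rw [zero_add]; exact hg
  rcases hg with hg | hg
  · subst hg; rw [add_zero]; exact Or.inr hf
  by_cases h0 : f = 0
  · subst h0; rw [zero_add]; exact Or.inr hg
  by_cases h1 : g = 0
  · subst h1; rw [add_zero]; exact Or.inr hf
  by_cases h2 : f + g = 0
  · exact Or.inl h2
  · exact Or.inr (le_trans (le_min hf hg) (v.ord_add f g h0 h1 h2))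

theorem TorOm_G_neg {n : ℕ} {v : DivVal (Kn n)} {e : ℤ} {f : Kn n}
    (hf : TorOm_G v e f) : TorOm_G v e (-f) := by
  rcases hf with hf | hf
  · left; rw [hf, neg_zero]
  · right; rw [TorOm_neg]; exact hf

theorem TorOm_G_sub {n : ℕ} {v : DivVal (Kn n)} {e : ℤ} {f g : Kn n}
    (hf : TorOm_G v e f) (hg : TorOm_G v e g) : TorOm_G v e (f - g) := by
  rw [sub_eq_add_neg]; exact TorOm_G_add hf (TorOm_G_neg hg)

theorem TorOm_G_mul {n : ℕ} {v : DivVal (Kn n)} {e e' : ℤ} {f g : Kn n}
    (hf : TorOm_G v e f) (hg : TorOm_G v e' g) : TorOm_G v (e + e') (f * g) := by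
  by_cases h0 : f = 0
  · left; rw [h0, zero_mul]
  by_cases h1 : g = 0
  · left; rw [h1, mul_zero]
  rcases hf with hf | hf
  · exact absurd hf h0
  rcases hg with hg | hg
  · exact absurd hg h1
  right
  rw [v.ord_mul f g h0 h1]
  linarith

theorem TorOm_G_mono {n : ℕ} {v : DivVal (Kn n)} {e e' : ℤ} {f : Kn n}
    (h : e' ≤ e) (hf : TorOm_G v e f) : TorOm_G v e' f := by
  rcases hf with hf | hf
  · exact Or.inl hf
  · exact Or.inr (le_trans h hf)

theorem TorOm_G_sum {n : ℕ} {v : DivVal (Kn n)} {e : ℤ} {ι : Type} (s : Finset ι)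
    (f : ι → Kn n) (hf : ∀ i ∈ s, TorOm_G v e (f i)) : TorOm_G v e (∑ i ∈ s, f i) := by
  classical
  induction s using Finset.induction_on with
  | empty => left; simp
  | insert b s hb ih =>
    rw [Finset.sum_insert hb]
    exact TorOm_G_add (hf b (Finset.mem_insert_self b s))
      (ih fun i hi => hf i (Finset.mem_insert_of_mem hi))

theorem TorOm_G_prod {n : ℕ} {v : DivVal (Kn n)} {ι : Type} (s : Finset ι)
    (e : ι → ℤ) (f : ι → Kn n) (hf : ∀ i ∈ s, TorOm_G v (e i) (f i)) :
    TorOm_G v (∑ i ∈ s, e i) (∏ i ∈ s, f i) := by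
  classical
  induction s using Finset.induction_on with
  | empty =>
    right; rw [Finset.sum_empty, Finset.prod_empty, TorOm_one]
  | insert b s hb ih =>
    rw [Finset.sum_insert hb, Finset.prod_insert hb]
    exact TorOm_G_mul (hf b (Finset.mem_insert_self b s))
      (ih fun i hi => hf i (Finset.mem_insert_of_mem hi))

theorem TorOm_G_div {n : ℕ} {v : DivVal (Kn n)} {e : ℤ} {f q : Kn n} (hq : q ≠ 0)
    (h : TorOm_G v e (q * f)) : TorOm_G v (e - v.ord q) f := by
  have h2 : TorOm_G v (- v.ord q) q⁻¹ := Or.inr (le_of_eq (TorOm_inv v q hq).symm)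
  have h3 := TorOm_G_mul h2 h
  rw [inv_mul_cancel_left₀ hq] at h3
  have h4 : - v.ord q + e = e - v.ord q := by ring
  rwa [h4] at h3

/-! ### polynomials -/

theorem TorOm_theta_poly {n : ℕ} (j : Fin n) (p : Pn n) :
    theta j (algebraMap (Pn n) (Kn n) p) = algebraMap (Pn n) (Kn n) (X j * pderiv j p) := by
  induction p using MvPolynomial.induction_on with
  | C c =>
    have h : algebraMap (Pn n) (Kn n) (C c) = algebraMap ℂ (Kn n) c := by
      rw [IsScalarTower.algebraMap_apply ℂ (Pn n) (Kn n)]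
      rfl
    rw [h, theta_algebraMap, pderiv_C, mul_zero, map_zero]
  | add p q hp hq =>
    rw [map_add, theta_add, hp, hq, map_add, mul_add, map_add]
  | mul_X p i hp =>
    have hx : theta j (algebraMap (Pn n) (Kn n) (X i)) = if i = j then x i else 0 := theta_x j i
    rw [map_mul, theta_mul, hp, hx, Derivation.leibniz, pderiv_X]
    by_cases h : i = j
    · subst h
      simp only [if_true, Pi.single_eq_same, smul_eq_mul, mul_one, x]
      rw [← map_mul, ← map_mul, ← map_add]
      congr 1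
      ring
    · have h' : (Pi.single j (1 : Pn n) : Fin n → Pn n) i = 0 := by
        rw [Pi.single_apply, if_neg h]
      simp only [h, if_false, h', smul_eq_mul, mul_zero, zero_add]
      rw [← map_mul]
      congr 1
      ring

theorem TorOm_coeff {n : ℕ} (j : Fin n) (p : Pn n) (m : Fin n →₀ ℕ) :
    coeff m (X j * pderiv j p) = (m j : ℂ) * coeff m p := by
  induction p using MvPolynomial.induction_on' with
  | monomial s c =>
    rw [X_mul_pderiv_monomial, coeff_smul, coeff_monomial]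
    by_cases h : s = m
    · subst h; simp
    · simp [h]
  | add p q hp hq =>
    rw [map_add, mul_add, coeff_add, coeff_add, hp, hq, mul_add]

theorem TorOm_monO_le {n : ℕ} (a : Fin n → ℤ) (p : Pn n) (m : Fin n →₀ ℕ)
    (hm : m ∈ p.support) : monO a p ≤ wt a m := by
  have h : p.support.Nonempty := ⟨m, hm⟩
  rw [monO, dif_pos h]
  exact Finset.inf'_le _ hm

theorem TorOm_le_monO {n : ℕ} (a : Fin n → ℤ) (p : Pn n) (e : ℤ) (hp : p ≠ 0)
    (h : ∀ m ∈ p.support, e ≤ wt a m) : e ≤ monO a p := by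
  have h0 : p.support.Nonempty := by
    rw [Finset.nonempty_iff_ne_empty]
    intro h1
    exact hp (MvPolynomial.support_eq_empty.mp h1)
  rw [monO, dif_pos h0]
  exact Finset.le_inf' _ _ h

/-- the weighted Euler derivation -/
noncomputable def TorOm_E {n : ℕ} (a : Fin n → ℤ) (f : Kn n) : Kn n :=
  ∑ j, (a j : Kn n) * theta j f

/-- the weighted Euler derivation on polynomials -/
noncomputable def TorOm_EP {n : ℕ} (a : Fin n → ℤ) (p : Pn n) : Pn n :=
  ∑ j, (a j : Pn n) * (X j * pderiv j p)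

theorem TorOm_E_poly {n : ℕ} (a : Fin n → ℤ) (p : Pn n) :
    TorOm_E a (algebraMap (Pn n) (Kn n) p) = algebraMap (Pn n) (Kn n) (TorOm_EP a p) := by
  unfold TorOm_E TorOm_EP
  rw [map_sum]
  refine Finset.sum_congr rfl fun j _ => ?_
  have h : algebraMap (Pn n) (Kn n) ((a j : Pn n) * (X j * pderiv j p))
      = (a j : Kn n) * algebraMap (Pn n) (Kn n) (X j * pderiv j p) := by
    rw [RingHom.map_mul (algebraMap (Pn n) (Kn n)) (a j : Pn n) (X j * pderiv j p), map_intCast]
  rw [TorOm_theta_poly, h]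

theorem TorOm_coeff_EP {n : ℕ} (a : Fin n → ℤ) (p : Pn n) (m : Fin n →₀ ℕ) :
    coeff m (TorOm_EP a p) = (wt a m : ℂ) * coeff m p := by
  unfold TorOm_EP wt
  rw [coeff_sum, Int.cast_sum, Finset.sum_mul]
  refine Finset.sum_congr rfl fun j _ => ?_
  have h : ((a j : ℤ) : Pn n) = C ((a j : ℤ) : ℂ) := by simp
  rw [h, coeff_C_mul, TorOm_coeff]
  push_cast
  ring

theorem TorOm_E_mul {n : ℕ} (a : Fin n → ℤ) (f g : Kn n) :
    TorOm_E a (f * g) = f * TorOm_E a g + g * TorOm_E a f := by
  unfold TorOm_E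
  rw [Finset.mul_sum, Finset.mul_sum, ← Finset.sum_add_distrib]
  refine Finset.sum_congr rfl fun j _ => ?_
  rw [theta_mul]
  ring

/-! ### the order on polynomials -/

theorem TorOm_ord_poly (hExt : StExt) (hMon : StMon) {n : ℕ} (a : Fin n → ℤ)
    (v : DivVal (Kn n)) (hv : v.ord = monOrd a) (p : Pn n) (hp : p ≠ 0) :
    v.ord (algebraMap (Pn n) (Kn n) p) = monO a p := by
  rw [hv]
  exact (hExt n (monO a) (hMon n a).1 (hMon n a).2).2.2.2 p hp

theorem TorOm_alg_ne {n : ℕ} (p : Pn n) (hp : p ≠ 0) : algebraMap (Pn n) (Kn n) p ≠ 0 := by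
  intro h
  apply hp
  exact (map_eq_zero_iff _ (IsFractionRing.injective (Pn n) (Kn n))).mp h

theorem TorOm_G_poly (hExt : StExt) (hMon : StMon) {n : ℕ} (a : Fin n → ℤ)
    (v : DivVal (Kn n)) (hv : v.ord = monOrd a) (p : Pn n) (e : ℤ)
    (h : ∀ m ∈ p.support, e ≤ wt a m) : TorOm_G v e (algebraMap (Pn n) (Kn n) p) := by
  by_cases hp : p = 0
  · left; rw [hp, map_zero]
  · right
    rw [TorOm_ord_poly hExt hMon a v hv p hp]
    exact TorOm_le_monO a p e hp h

theorem TorOm_G_theta (hExt : StExt) (hMon : StMon) {n : ℕ} (a : Fin n → ℤ)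
    (v : DivVal (Kn n)) (hv : v.ord = monOrd a) (j : Fin n) (p : Pn n) :
    TorOm_G v (monO a p) (theta j (algebraMap (Pn n) (Kn n) p)) := by
  rw [TorOm_theta_poly]
  apply TorOm_G_poly hExt hMon a v hv
  intro m hm
  apply TorOm_monO_le
  rw [MvPolynomial.mem_support_iff, TorOm_coeff] at hm
  rw [MvPolynomial.mem_support_iff]
  exact right_ne_zero_of_mul hm

theorem TorOm_G_Euler (hExt : StExt) (hMon : StMon) {n : ℕ} (a : Fin n → ℤ)
    (v : DivVal (Kn n)) (hv : v.ord = monOrd a) (p : Pn n) :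
    TorOm_G v (monO a p + 1) (TorOm_E a (algebraMap (Pn n) (Kn n) p)
      - (monO a p : Kn n) * algebraMap (Pn n) (Kn n) p) := by
  have h : TorOm_E a (algebraMap (Pn n) (Kn n) p)
      - (monO a p : Kn n) * algebraMap (Pn n) (Kn n) p
      = algebraMap (Pn n) (Kn n) (TorOm_EP a p - (monO a p : Pn n) * p) := by
    rw [TorOm_E_poly, map_sub, map_mul, map_intCast]
  rw [h]
  apply TorOm_G_poly hExt hMon a v hv
  intro m hm
  rw [MvPolynomial.mem_support_iff, coeff_sub, TorOm_coeff_EP] at hm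
  have hC : ((monO a p : ℤ) : Pn n) = C ((monO a p : ℤ) : ℂ) := by simp
  rw [hC, coeff_C_mul, ← sub_mul] at hm
  have h1 : coeff m p ≠ 0 := right_ne_zero_of_mul hm
  have h2 : ((wt a m : ℤ) : ℂ) - ((monO a p : ℤ) : ℂ) ≠ 0 := left_ne_zero_of_mul hm
  have h3 : monO a p ≤ wt a m := TorOm_monO_le a p m (MvPolynomial.mem_support_iff.mpr h1)
  have h4 : wt a m ≠ monO a p := by
    intro h5
    apply h2
    rw [h5, sub_self]
  omega

theorem TorOm_frac {n : ℕ} (f : Kn n) (hf : f ≠ 0) : ∃ p q : Pn n, p ≠ 0 ∧ q ≠ 0 ∧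
    f * algebraMap (Pn n) (Kn n) q = algebraMap (Pn n) (Kn n) p := by
  obtain ⟨⟨p, q⟩, h⟩ := IsLocalization.surj (nonZeroDivisors (Pn n)) f
  have hq : (q : Pn n) ≠ 0 := nonZeroDivisors.ne_zero q.2
  refine ⟨p, q, ?_, hq, h⟩
  intro hp
  simp only [hp, map_zero] at h
  rcases mul_eq_zero.mp h with h | h
  · exact hf h
  · exact TorOm_alg_ne _ hq h

theorem TorOm_theta_zero {n : ℕ} (j : Fin n) : theta j (0 : Kn n) = 0 := by
  have h := theta_add j (0 : Kn n) 0
  rw [add_zero] at h
  have h2 : theta j (0 : Kn n) + 0 = theta j (0 : Kn n) + theta j (0 : Kn n) := by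
    rw [add_zero]; exact h
  exact (add_left_cancel h2).symm

theorem TorOm_theta_G (hExt : StExt) (hMon : StMon) {n : ℕ} (a : Fin n → ℤ)
    (v : DivVal (Kn n)) (hv : v.ord = monOrd a) (j : Fin n) (f : Kn n) (h0 : 0 ≤ v.ord f) :
    TorOm_G v 0 (theta j f) := by
  by_cases hf : f = 0
  · left; rw [hf, TorOm_theta_zero]
  obtain ⟨p, q, hp, hq, h⟩ := TorOm_frac f hf
  have hop := TorOm_ord_poly hExt hMon a v hv p hp
  have hoq := TorOm_ord_poly hExt hMon a v hv q hq
  have hqn := TorOm_alg_ne q hq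
  have hord : v.ord f + monO a q = monO a p := by
    rw [← hop, ← hoq, ← v.ord_mul f _ hf hqn, h]
  have hL : algebraMap (Pn n) (Kn n) q * theta j f
      = theta j (algebraMap (Pn n) (Kn n) p) - f * theta j (algebraMap (Pn n) (Kn n) q) := by
    rw [← h, theta_mul]; ring
  have hG : TorOm_G v (monO a p) (algebraMap (Pn n) (Kn n) q * theta j f) := by
    rw [hL]
    apply TorOm_G_sub
    · exact TorOm_G_theta hExt hMon a v hv j p
    · rw [← hord]
      exact TorOm_G_mul (Or.inr le_rfl) (TorOm_G_theta hExt hMon a v hv j q)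
  have h5 := TorOm_G_div hqn hG
  apply TorOm_G_mono _ h5
  rw [hoq]
  linarith

theorem TorOm_E_G (hExt : StExt) (hMon : StMon) {n : ℕ} (a : Fin n → ℤ)
    (v : DivVal (Kn n)) (hv : v.ord = monOrd a) (f : Kn n) (h0 : 0 ≤ v.ord f) :
    TorOm_G v 1 (TorOm_E a f) := by
  by_cases hf : f = 0
  · left
    unfold TorOm_E
    apply Finset.sum_eq_zero
    intro j _
    rw [hf, TorOm_theta_zero, mul_zero]
  obtain ⟨p, q, hp, hq, h⟩ := TorOm_frac f hf
  have hop := TorOm_ord_poly hExt hMon a v hv p hp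
  have hoq := TorOm_ord_poly hExt hMon a v hv q hq
  have hqn := TorOm_alg_ne q hq
  have hord : v.ord f + monO a q = monO a p := by
    rw [← hop, ← hoq, ← v.ord_mul f _ hf hqn, h]
  have hL : algebraMap (Pn n) (Kn n) q * (TorOm_E a f - (v.ord f : Kn n) * f)
      = (TorOm_E a (algebraMap (Pn n) (Kn n) p)
          - (monO a p : Kn n) * algebraMap (Pn n) (Kn n) p)
        - f * (TorOm_E a (algebraMap (Pn n) (Kn n) q)
          - (monO a q : Kn n) * algebraMap (Pn n) (Kn n) q) := by
    have h1 : TorOm_E a (algebraMap (Pn n) (Kn n) p)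
        = f * TorOm_E a (algebraMap (Pn n) (Kn n) q)
          + algebraMap (Pn n) (Kn n) q * TorOm_E a f := by
      rw [← h, TorOm_E_mul]
    have h2 : ((monO a p : ℤ) : Kn n) = (v.ord f : Kn n) + (monO a q : Kn n) := by
      rw [← hord]; push_cast; rfl
    rw [h1, h2, ← h]
    ring
  have hG : TorOm_G v (monO a p + 1)
      (algebraMap (Pn n) (Kn n) q * (TorOm_E a f - (v.ord f : Kn n) * f)) := by
    rw [hL]
    apply TorOm_G_sub
    · exact TorOm_G_Euler hExt hMon a v hv p
    · have h6 : monO a p + 1 = v.ord f + (monO a q + 1) := by rw [← hord]; ring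
      rw [h6]
      exact TorOm_G_mul (Or.inr le_rfl) (TorOm_G_Euler hExt hMon a v hv q)
  have h5 := TorOm_G_div hqn hG
  rw [hoq] at h5
  have h7 : TorOm_G v 1 (TorOm_E a f - (v.ord f : Kn n) * f) := by
    apply TorOm_G_mono _ h5
    linarith
  have h8 : TorOm_G v 1 ((v.ord f : Kn n) * f) := by
    rcases eq_or_lt_of_le h0 with h9 | h9
    · left; rw [← h9, Int.cast_zero, zero_mul]
    · have h10 : TorOm_G v 0 (v.ord f : Kn n) := by
        have h11 : ((v.ord f : ℤ) : Kn n)
            = algebraMap (Pn n) (Kn n) (C ((v.ord f : ℤ) : ℂ)) := by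
          simp
        rw [h11]
        apply TorOm_G_poly hExt hMon a v hv
        intro m hm
        rw [MvPolynomial.mem_support_iff, coeff_C] at hm
        by_cases hm0 : 0 = m
        · subst hm0; simp [wt]
        · rw [if_neg hm0] at hm; exact absurd rfl hm
      have h12 : TorOm_G v 1 f := Or.inr h9
      have h13 := TorOm_G_mul h10 h12
      rwa [zero_add] at h13
  have h14 := TorOm_G_add h7 h8
  rwa [sub_add_cancel] at h14

theorem TorOm_const (hExt : StExt) (hMon : StMon) {n : ℕ} (a : Fin n → ℤ)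
    (v : DivVal (Kn n)) (hv : v.ord = monOrd a) (c : ℤ) (hc : c ≠ 0) :
    (c : Kn n) ≠ 0 ∧ v.ord (c : Kn n) = 0 := by
  have h11 : ((c : ℤ) : Kn n) = algebraMap (Pn n) (Kn n) (C ((c : ℤ) : ℂ)) := by
    simp
  have hcc : (C ((c : ℤ) : ℂ) : Pn n) ≠ 0 := by
    rw [Ne, MvPolynomial.C_eq_zero]
    exact_mod_cast hc
  refine ⟨?_, ?_⟩
  · rw [h11]; exact TorOm_alg_ne _ hcc
  · rw [h11, TorOm_ord_poly hExt hMon a v hv _ hcc]
    apply le_antisymm
    · have h1 : (0 : Fin n →₀ ℕ) ∈ (C ((c : ℤ) : ℂ) : Pn n).support := by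
        rw [MvPolynomial.mem_support_iff, coeff_C, if_pos rfl]
        exact_mod_cast hc
      have h2 := TorOm_monO_le a _ _ h1
      simpa [wt] using h2
    · apply TorOm_le_monO a _ _ hcc
      intro m hm
      rw [MvPolynomial.mem_support_iff, coeff_C] at hm
      by_cases hm0 : 0 = m
      · subst hm0; simp [wt]
      · rw [if_neg hm0] at hm; exact absurd rfl hm

/-- part (i) -/
theorem TorOm_lower (hExt : StExt) (hMon : StMon) {n : ℕ} (a : Fin n → ℤ)
    (v : DivVal (Kn n)) (hv : v.ord = monOrd a) (k : Fin n) (hk : a k ≠ 0)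
    (f : Fin n → Kn n) (h0 : ∀ i, 0 ≤ v.ord (f i)) : TorOm_G v 1 (jac f) := by
  classical
  set M : Matrix (Fin n) (Fin n) (Kn n) := Matrix.of fun i j => theta j (f i) with hM
  have h1 := Matrix.det_updateCol_sum M k (fun j => (a j : Kn n))
  have h2 : TorOm_G v 1
      (M.updateCol k (fun i => ∑ j, (a j : Kn n) • M i j)).det := by
    rw [Matrix.det_apply]
    apply TorOm_G_sum
    intro σ _
    have h3 : TorOm_G v 1 (∏ i, (M.updateCol k (fun i => ∑ j, (a j : Kn n) • M i j)) (σ i) i) := by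
      have h4 : (1 : ℤ) = ∑ i : Fin n, (if i = k then (1 : ℤ) else 0) := by
        rw [Finset.sum_ite_eq' Finset.univ k]
        simp
      rw [h4]
      apply TorOm_G_prod
      intro i _
      by_cases hik : i = k
      · subst hik
        rw [if_pos rfl, Matrix.updateCol_self]
        exact TorOm_E_G hExt hMon a v hv (f (σ i)) (h0 (σ i))
      · rw [if_neg hik, Matrix.updateCol_ne hik]
        exact TorOm_theta_G hExt hMon a v hv i (f (σ i)) (h0 (σ i))
    rcases Int.units_eq_one_or (Equiv.Perm.sign σ) with hs | hs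
    · rw [hs, one_smul]; exact h3
    · rw [hs, Units.neg_smul, one_smul]; exact TorOm_G_neg h3
  rw [h1, smul_eq_mul] at h2
  obtain ⟨hc1, hc2⟩ := TorOm_const hExt hMon a v hv (a k) hk
  have h5 := TorOm_G_div hc1 h2
  rw [hc2, sub_zero] at h5
  exact h5

/-! ### Laurent monomials -/

theorem TorOm_x_ne {n : ℕ} (j : Fin n) : (x j : Kn n) ≠ 0 :=
  TorOm_alg_ne _ (MvPolynomial.X_ne_zero j)

theorem TorOm_ord_x (hExt : StExt) (hMon : StMon) {n : ℕ} (a : Fin n → ℤ)
    (v : DivVal (Kn n)) (hv : v.ord = monOrd a) (j : Fin n) : v.ord (x j) = a j := by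
  rw [x, TorOm_ord_poly hExt hMon a v hv _ (MvPolynomial.X_ne_zero j)]
  have hs : (X j : Pn n).support = {Finsupp.single j 1} := MvPolynomial.support_X
  have hw : wt a (Finsupp.single j 1) = a j := by
    unfold wt
    rw [Finset.sum_eq_single j]
    · simp
    · intro b _ hb
      rw [Finsupp.single_apply, if_neg (fun h => hb h.symm)]
      simp
    · intro h; exact absurd (Finset.mem_univ j) h
  apply le_antisymm
  · rw [← hw]
    apply TorOm_monO_le
    rw [hs]; exact Finset.mem_singleton_self _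
  · apply TorOm_le_monO a _ _ (MvPolynomial.X_ne_zero j)
    intro m hm
    rw [hs, Finset.mem_singleton] at hm
    rw [hm, hw]

theorem TorOm_pow {n : ℕ} (v : DivVal (Kn n)) (f : Kn n) (hf : f ≠ 0) (k : ℕ) :
    v.ord (f ^ k) = k * v.ord f := by
  induction k with
  | zero => rw [pow_zero, TorOm_one]; simp
  | succ k ih =>
    rw [pow_succ, v.ord_mul _ _ (pow_ne_zero k hf) hf, ih]
    push_cast
    ring

theorem TorOm_zpow {n : ℕ} (v : DivVal (Kn n)) (f : Kn n) (hf : f ≠ 0) (k : ℤ) :
    v.ord (f ^ k) = k * v.ord f := by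
  obtain ⟨m, rfl | rfl⟩ := k.eq_nat_or_neg
  · rw [zpow_natCast, TorOm_pow v f hf]
  · rw [zpow_neg, zpow_natCast, TorOm_inv v _ (pow_ne_zero m hf), TorOm_pow v f hf]
    ring

theorem TorOm_prod {n : ℕ} (v : DivVal (Kn n)) {ι : Type} (s : Finset ι) (f : ι → Kn n)
    (hf : ∀ i ∈ s, f i ≠ 0) : v.ord (∏ i ∈ s, f i) = ∑ i ∈ s, v.ord (f i) := by
  classical
  induction s using Finset.induction_on with
  | empty => rw [Finset.prod_empty, Finset.sum_empty, TorOm_one]
  | insert b s hb ih =>
    rw [Finset.prod_insert hb, Finset.sum_insert hb,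
      v.ord_mul _ _ (hf b (Finset.mem_insert_self b s))
        (Finset.prod_ne_zero_iff.mpr fun i hi => hf i (Finset.mem_insert_of_mem hi)),
      ih fun i hi => hf i (Finset.mem_insert_of_mem hi)]

theorem TorOm_xm_ne {n : ℕ} (u : Fin n → ℤ) : (xm u : Kn n) ≠ 0 := by
  rw [xm]
  exact Finset.prod_ne_zero_iff.mpr fun j _ => zpow_ne_zero _ (TorOm_x_ne j)

theorem TorOm_ord_xm (hExt : StExt) (hMon : StMon) {n : ℕ} (a : Fin n → ℤ)
    (v : DivVal (Kn n)) (hv : v.ord = monOrd a) (u : Fin n → ℤ) :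
    v.ord (xm u) = ∑ j, u j * a j := by
  rw [xm, TorOm_prod v _ _ fun j _ => zpow_ne_zero _ (TorOm_x_ne j)]
  refine Finset.sum_congr rfl fun j _ => ?_
  rw [TorOm_zpow v _ (TorOm_x_ne j), TorOm_ord_x hExt hMon a v hv]

theorem TorOm_theta_one {n : ℕ} (j : Fin n) : theta j (1 : Kn n) = 0 := by
  have h := theta_mul j (1 : Kn n) 1
  rw [mul_one, one_mul] at h
  have h2 : theta j (1 : Kn n) + 0 = theta j (1 : Kn n) + theta j (1 : Kn n) := by
    rw [add_zero]; exact h
  exact (add_left_cancel h2).symm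

theorem TorOm_theta_pow {n : ℕ} (j : Fin n) (f : Kn n) (k : ℕ) (c : Kn n)
    (hc : theta j f = c * f) : theta j (f ^ k) = (k * c) * f ^ k := by
  induction k with
  | zero => rw [pow_zero, TorOm_theta_one]; simp
  | succ k ih =>
    rw [pow_succ, theta_mul, ih, hc]
    push_cast
    ring

theorem TorOm_theta_inv {n : ℕ} (j : Fin n) (f : Kn n) (hf : f ≠ 0) (c : Kn n)
    (hc : theta j f = c * f) : theta j (f⁻¹) = (-c) * f⁻¹ := by
  have h := theta_mul j f f⁻¹
  rw [mul_inv_cancel₀ hf, TorOm_theta_one, hc] at h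
  have h2 : f * theta j f⁻¹ = f * ((-c) * f⁻¹) := by
    have h3 : f⁻¹ * (c * f) = c := by field_simp
    rw [h3] at h
    have h4 : f * ((-c) * f⁻¹) = -c := by field_simp
    rw [h4]
    linear_combination -h
  exact mul_left_cancel₀ hf h2

theorem TorOm_theta_zpow {n : ℕ} (j : Fin n) (f : Kn n) (hf : f ≠ 0) (k : ℤ) (c : Kn n)
    (hc : theta j f = c * f) : theta j (f ^ k) = (k * c) * f ^ k := by
  obtain ⟨m, rfl | rfl⟩ := k.eq_nat_or_neg
  · rw [zpow_natCast, TorOm_theta_pow j f m c hc]; simp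
  · rw [zpow_neg, zpow_natCast,
      TorOm_theta_inv j _ (pow_ne_zero m hf) _ (TorOm_theta_pow j f m c hc)]
    push_cast
    ring

theorem TorOm_theta_prod {n : ℕ} (j : Fin n) {ι : Type} (s : Finset ι) (f c : ι → Kn n)
    (hc : ∀ i ∈ s, theta j (f i) = c i * f i) :
    theta j (∏ i ∈ s, f i) = (∑ i ∈ s, c i) * ∏ i ∈ s, f i := by
  classical
  induction s using Finset.induction_on with
  | empty => rw [Finset.prod_empty, Finset.sum_empty, TorOm_theta_one, zero_mul]
  | insert b s hb ih =>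
    rw [Finset.prod_insert hb, Finset.sum_insert hb, theta_mul,
      hc b (Finset.mem_insert_self b s), ih fun i hi => hc i (Finset.mem_insert_of_mem hi)]
    ring

theorem TorOm_theta_xm {n : ℕ} (j : Fin n) (u : Fin n → ℤ) :
    theta j (xm u : Kn n) = (u j : Kn n) * xm u := by
  rw [xm, TorOm_theta_prod j Finset.univ (fun i => (x i : Kn n) ^ (u i))
    (fun i => (u i : Kn n) * (if i = j then 1 else 0))]
  · congr 1
    rw [Finset.sum_eq_single j]
    · simp
    · intro b _ hb; rw [if_neg hb, mul_zero]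
    · intro h; exact absurd (Finset.mem_univ j) h
  · intro i _
    apply TorOm_theta_zpow j _ (TorOm_x_ne i)
    rw [theta_x]
    by_cases h : i = j
    · rw [if_pos h, if_pos h, one_mul]
    · rw [if_neg h, if_neg h, zero_mul]

/-- the exponent matrix of part (ii) -/
def TorOm_m {n : ℕ} (a u : Fin n → ℤ) (k : Fin n) (i : Fin n) : Fin n → ℤ :=
  if i = k then u else fun j => (if j = i then a k else 0) - (if j = k then a i else 0)

theorem TorOm_det_ne {n : ℕ} (a u : Fin n → ℤ) (hau : ∑ j, a j * u j = 1) (k : Fin n)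
    (hk : a k ≠ 0) : (Matrix.of (TorOm_m a u k)).det ≠ 0 := by
  classical
  intro hdet
  obtain ⟨c, hc, h⟩ := Matrix.exists_mulVec_eq_zero_iff.mpr hdet
  have h1 : ∀ i, ∑ j, TorOm_m a u k i j * c j = 0 := by
    intro i
    have h2 := congrFun h i
    simpa [Matrix.mulVec, dotProduct] using h2
  have h3 : ∀ i, a k * c i = a i * c k := by
    intro i
    by_cases hik : i = k
    · subst hik; rfl
    · have h4 := h1 i
      rw [TorOm_m, if_neg hik] at h4
      simp only [sub_mul, ite_mul, zero_mul, Finset.sum_sub_distrib, Finset.sum_ite_eq',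
        Finset.mem_univ, if_true] at h4
      linarith
  have h5 : ∑ j, u j * c j = 0 := by
    have h6 := h1 k
    rw [TorOm_m, if_pos rfl] at h6
    exact h6
  have h7 : c k = 0 := by
    have h8 : a k * ∑ j, u j * c j = c k * ∑ j, a j * u j := by
      rw [Finset.mul_sum, Finset.mul_sum]
      refine Finset.sum_congr rfl fun j _ => ?_
      have := h3 j
      calc a k * (u j * c j) = u j * (a k * c j) := by ring
        _ = u j * (a j * c k) := by rw [this]
        _ = c k * (a j * u j) := by ring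
    rw [h5, hau, mul_zero, mul_one] at h8
    exact h8.symm
  apply hc
  funext i
  have h9 := h3 i
  rw [h7, mul_zero] at h9
  rcases mul_eq_zero.mp h9 with h10 | h10
  · exact absurd h10 hk
  · simpa using h10

theorem TorOm_dot {n : ℕ} (a u : Fin n → ℤ) (hau : ∑ j, a j * u j = 1) (k i : Fin n) :
    ∑ j, TorOm_m a u k i j * a j = if i = k then 1 else 0 := by
  classical
  by_cases hik : i = k
  · rw [TorOm_m, if_pos hik, if_pos hik, ← hau]
    refine Finset.sum_congr rfl fun j _ => ?_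
    ring
  · rw [TorOm_m, if_neg hik, if_neg hik]
    simp only [sub_mul, ite_mul, zero_mul, Finset.sum_sub_distrib, Finset.sum_ite_eq',
      Finset.mem_univ, if_true]
    ring

theorem hTorOm (hExt : StExt) (hMon : StMon) : StTorOm := by
  classical
  intro n a u hau v hv
  obtain ⟨k, hk⟩ : ∃ k, a k ≠ 0 := by
    by_contra hcon
    push Not at hcon
    rw [Finset.sum_eq_zero (fun j _ => by rw [hcon j, zero_mul])] at hau
    exact absurd hau (by norm_num)
  have hmin : IsJacMin v 1 := by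
    refine ⟨?_, ?_⟩
    · intro f h0 hj
      rcases TorOm_lower hExt hMon a v hv k hk f h0 with h | h
      · exact absurd h hj
      · exact h
    · refine ⟨fun i => xm (TorOm_m a u k i), ?_, ?_⟩
      · intro i
        rw [TorOm_ord_xm hExt hMon a v hv, TorOm_dot a u hau k i]
        split_ifs <;> norm_num
      · have hdet := TorOm_det_ne a u hau k hk
        have hjac : jac (fun i => (xm (TorOm_m a u k i) : Kn n))
            = (∏ i, (xm (TorOm_m a u k i) : Kn n)) *
              (((Matrix.of (TorOm_m a u k)).det : ℤ) : Kn n) := by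
          have h1 : (Matrix.of fun i j => theta j (xm (TorOm_m a u k i) : Kn n))
              = Matrix.of fun i j => (xm (TorOm_m a u k i) : Kn n) *
                ((Matrix.of (TorOm_m a u k)).map (Int.castRingHom (Kn n))) i j := by
            ext i j
            rw [Matrix.of_apply, Matrix.of_apply, TorOm_theta_xm, Matrix.map_apply,
              Matrix.of_apply]
            simp [mul_comm]
          rw [jac, h1, Matrix.det_mul_column]
          congr 1
          have h2 := RingHom.map_det (Int.castRingHom (Kn n)) (Matrix.of (TorOm_m a u k))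
          rw [RingHom.mapMatrix_apply] at h2
          rw [← h2]
          rfl
        obtain ⟨hd1, hd2⟩ := TorOm_const hExt hMon a v hv _ hdet
        have hp : (∏ i, (xm (TorOm_m a u k i) : Kn n)) ≠ 0 :=
          Finset.prod_ne_zero_iff.mpr fun i _ => TorOm_xm_ne _
        refine ⟨?_, ?_⟩
        · rw [hjac]; exact mul_ne_zero hp hd1
        · rw [hjac, v.ord_mul _ _ hp hd1, hd2, add_zero,
            TorOm_prod v _ _ fun i _ => TorOm_xm_ne _]
          have h3 : ∀ i, v.ord (xm (TorOm_m a u k i)) = if i = k then 1 else 0 := by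
            intro i
            rw [TorOm_ord_xm hExt hMon a v hv, TorOm_dot a u hau k i]
          rw [Finset.sum_congr rfl fun i _ => h3 i, Finset.sum_ite_eq' Finset.univ k]
          simp
  have huniq : ∀ e, IsJacMin v e → e = 1 := by
    intro e he
    obtain ⟨h1, f, hf0, hfj, hfo⟩ := he
    obtain ⟨h1', f', hf0', hfj', hfo'⟩ := hmin
    have h2 := h1 f' hf0' hfj'
    have h3 := h1' f hf0 hfj
    rw [hfo'] at h2
    rw [hfo] at h3
    omega
  have hex : ∃ e : ℤ, IsJacMin v e := ⟨1, hmin⟩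
  rw [ordOmega, dif_pos hex, huniq _ hex.choose_spec]

end Pool.Agent.Helper53.CX
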