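import Pool.Agent.Helper53.CX.St

/-!
# Project CX, module TorV: monomial valuations of primitive weight are divisorial
-/

set_option autoImplicit false

open scoped BigOperators
open MvPolynomial

namespace Pool.Agent.Helper53.CX

theorem TorV_x_ne {n : ℕ} (j : Fin n) : (x j : Kn n) ≠ 0 := by
  unfold x
  exact fun h => X_ne_zero j ((FaithfulSMul.algebraMap_eq_zero_iff (Pn n) (Kn n)).1 h)

theorem TorV_xm_ne {n : ℕ} (u : Fin n → ℤ) : xm u ≠ 0 :=
  Finset.prod_ne_zero_iff.2 fun j _ => zpow_ne_zero _ (TorV_x_ne j)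

theorem TorV_xm_zero {n : ℕ} : xm (0 : Fin n → ℤ) = 1 := by simp [xm]

theorem TorV_xm_add {n : ℕ} (u v : Fin n → ℤ) : xm (u + v) = xm u * xm v := by
  simp only [xm, Pi.add_apply, zpow_add₀ (TorV_x_ne _), Finset.prod_mul_distrib]

theorem TorV_xm_smul {n : ℕ} (k : ℤ) (u : Fin n → ℤ) : xm (k • u) = xm u ^ k := by
  unfold xm
  rw [← Finset.prod_zpow]
  refine Finset.prod_congr rfl fun j _ => ?_
  rw [Pi.smul_apply, smul_eq_mul, mul_comm, zpow_mul]

theorem TorV_xm_sum {n : ℕ} {ι : Type} (s : Finset ι) (f : ι → Fin n → ℤ) :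
    xm (∑ i ∈ s, f i) = ∏ i ∈ s, xm (f i) := by
  classical
  induction s using Finset.induction_on with
  | empty => simp [TorV_xm_zero]
  | insert i s hi ih => rw [Finset.sum_insert hi, Finset.prod_insert hi, TorV_xm_add, ih]

theorem TorV_map_monomial {n : ℕ} (m : Fin n →₀ ℕ) (c : ℂ) :
    algebraMap (Pn n) (Kn n) (monomial m c) =
      algebraMap ℂ (Kn n) c * xm (fun j => (m j : ℤ)) := by
  rw [monomial_eq, map_mul, Finsupp.prod_fintype _ _ (fun _ => pow_zero _), map_prod]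
  congr 1
  unfold xm x
  refine Finset.prod_congr rfl fun j _ => ?_
  rw [map_pow, zpow_natCast]

/-- the generators of the group orthogonal to `a` -/
def TorV_g {n : ℕ} (a u : Fin n → ℤ) (i : Fin n) : Fin n → ℤ := Pi.single i 1 - a i • u

theorem TorV_decomp {n : ℕ} (a u m : Fin n → ℤ) :
    m = (∑ j, a j * m j) • u + ∑ i, m i • TorV_g a u i := by
  funext k
  simp only [Pi.add_apply, Pi.smul_apply, Finset.sum_apply, TorV_g, Pi.sub_apply, smul_eq_mul]
  simp only [mul_sub, Finset.sum_sub_distrib, Pi.single_apply]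
  rw [Finset.sum_mul]
  have h1 : ∑ i, m i * (if k = i then (1 : ℤ) else 0) = m k := by
    simp
  rw [h1]
  have h2 : ∑ i, a i * m i * u k = ∑ i, m i * (a i * u k) :=
    Finset.sum_congr rfl fun i _ => by ring
  rw [h2]
  ring

section Ord

variable {K : Type} [Field K] {o : K → ℤ}

theorem TorV_one (hm : ∀ f g : K, f ≠ 0 → g ≠ 0 → o (f * g) = o f + o g) : o 1 = 0 := by
  have := hm 1 1 one_ne_zero one_ne_zero
  rw [one_mul] at this
  omega

theorem TorV_pow (hm : ∀ f g : K, f ≠ 0 → g ≠ 0 → o (f * g) = o f + o g) (f : K) (hf : f ≠ 0)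
    (k : ℕ) : o (f ^ k) = k * o f := by
  induction k with
  | zero => simp [TorV_one hm]
  | succ k ih =>
    rw [pow_succ, hm _ _ (pow_ne_zero _ hf) hf, ih]
    push_cast
    ring

theorem TorV_zpow (hm : ∀ f g : K, f ≠ 0 → g ≠ 0 → o (f * g) = o f + o g) (f : K) (hf : f ≠ 0)
    (k : ℤ) : o (f ^ k) = k * o f := by
  rcases Int.eq_nat_or_neg k with ⟨m, rfl | rfl⟩
  · rw [zpow_natCast, TorV_pow hm f hf]
  · have h1 := hm (f ^ (-(m : ℤ))) (f ^ m) (zpow_ne_zero _ hf) (pow_ne_zero _ hf)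
    have h2 : f ^ (-(m : ℤ)) * f ^ m = 1 := by
      rw [zpow_neg, zpow_natCast, inv_mul_cancel₀ (pow_ne_zero _ hf)]
    rw [h2, TorV_one hm, TorV_pow hm f hf] at h1
    have : o (f ^ (-(m : ℤ))) = - ((m : ℤ) * o f) := by omega
    rw [this]
    ring

theorem TorV_prod (hm : ∀ f g : K, f ≠ 0 → g ≠ 0 → o (f * g) = o f + o g) {ι : Type}
    (s : Finset ι) (f : ι → K) (hf : ∀ i, f i ≠ 0) : o (∏ i ∈ s, f i) = ∑ i ∈ s, o (f i) := by
  classical
  induction s using Finset.induction_on with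
  | empty => simp [TorV_one hm]
  | insert i s hi ih =>
    rw [Finset.prod_insert hi, Finset.sum_insert hi,
      hm _ _ (hf i) (Finset.prod_ne_zero_iff.2 fun j _ => hf j), ih]

end Ord

theorem TorV_wt_le {n : ℕ} (a : Fin n → ℤ) (p : Pn n) (m : Fin n →₀ ℕ) (hm : m ∈ p.support) :
    monO a p ≤ wt a m := by
  unfold monO
  rw [dif_pos ⟨m, hm⟩]
  exact Finset.inf'_le _ hm

theorem TorV_monO_monomial {n : ℕ} (a : Fin n → ℤ) (m : Fin n →₀ ℕ) (c : ℂ) (hc : c ≠ 0) :
    monO a (monomial m c) = wt a m := by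
  have hs : (monomial m c : Pn n).support = {m} := by
    classical
    rw [support_monomial, if_neg hc]
  unfold monO
  rw [dif_pos ⟨m, by rw [hs]; simp⟩]
  simp only [hs, Finset.inf'_singleton]

theorem hTorV (hExt : StExt) (hMon : StMon) : StTorV := by
  intro n a u hau
  obtain ⟨hM1, hM2⟩ := hMon n a
  obtain ⟨h0, hmul, hadd, hP⟩ := hExt n (monO a) hM1 hM2
  change monOrd a 0 = 0 at h0
  change ∀ f g : Kn n, f ≠ 0 → g ≠ 0 → monOrd a (f * g) = monOrd a f + monOrd a g at hmul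
  change ∀ f g : Kn n, f ≠ 0 → g ≠ 0 → f + g ≠ 0 →
      min (monOrd a f) (monOrd a g) ≤ monOrd a (f + g) at hadd
  change ∀ p : Pn n, p ≠ 0 → monOrd a (algebraMap (Pn n) (Kn n) p) = monO a p at hP
  have hx : ∀ j, monOrd a (x j : Kn n) = a j := by
    intro j
    have : (x j : Kn n) = algebraMap (Pn n) (Kn n) (monomial (Finsupp.single j 1) 1) := rfl
    rw [this, hP _ (by rw [Ne, monomial_eq_zero]; exact one_ne_zero),
      TorV_monO_monomial a _ _ one_ne_zero]
    simp [wt, Finsupp.single_apply]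
  have hxm : ∀ m : Fin n → ℤ, monOrd a (xm m) = ∑ j, a j * m j := by
    intro m
    unfold xm
    rw [TorV_prod hmul _ _ (fun j => zpow_ne_zero _ (TorV_x_ne j))]
    refine Finset.sum_congr rfl fun j _ => ?_
    rw [TorV_zpow hmul _ (TorV_x_ne j), hx, mul_comm]
  have hC : ∀ c : ℂ, c ≠ 0 → monOrd a (algebraMap ℂ (Kn n) c) = 0 := by
    intro c hc
    have h1 : algebraMap ℂ (Kn n) c = algebraMap (Pn n) (Kn n) (monomial 0 c) := by
      rw [IsScalarTower.algebraMap_apply ℂ (Pn n) (Kn n)]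
      rfl
    rw [h1, hP _ (by rw [Ne, monomial_eq_zero]; exact hc), TorV_monO_monomial a _ _ hc]
    simp [wt]
  have hg : ∀ i, ∑ j, a j * TorV_g a u i j = 0 := by
    intro i
    simp only [TorV_g, Pi.sub_apply, Pi.smul_apply, smul_eq_mul, mul_sub, Finset.sum_sub_distrib,
      Pi.single_apply]
    have h1 : ∑ j, a j * (if j = i then (1 : ℤ) else 0) = a i := by simp
    have h2 : ∑ j, a j * (a i * u j) = a i * ∑ j, a j * u j := by
      rw [Finset.mul_sum]
      exact Finset.sum_congr rfl fun j _ => by ring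
    rw [h1, h2, hau]
    ring
  -- the model
  classical
  set S : Finset (Kn n) := {xm u} ∪
    (Finset.univ.image (fun i => xm (TorV_g a u i)) ∪
      Finset.univ.image (fun i => (xm (TorV_g a u i))⁻¹)) with hS
  set R : Subalgebra ℂ (Kn n) := Algebra.adjoin ℂ (S : Set (Kn n)) with hR
  have hu : xm u ∈ R := Algebra.subset_adjoin (by simp [hS])
  have hgi : ∀ i, xm (TorV_g a u i) ∈ R := fun i => Algebra.subset_adjoin (by simp [hS])
  have hgi' : ∀ i, (xm (TorV_g a u i))⁻¹ ∈ R := fun i => Algebra.subset_adjoin (by simp [hS])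
  have hgz : ∀ i (k : ℤ), xm (TorV_g a u i) ^ k ∈ R := by
    intro i k
    rcases Int.eq_nat_or_neg k with ⟨m, rfl | rfl⟩
    · rw [zpow_natCast]
      exact pow_mem (hgi i) m
    · rw [zpow_neg, zpow_natCast, ← inv_pow]
      exact pow_mem (hgi' i) m
  have hmon : ∀ m : Fin n → ℤ, 0 ≤ ∑ j, a j * m j → xm m ∈ R := by
    intro m hm
    rw [TorV_decomp a u m, TorV_xm_add, TorV_xm_smul, TorV_xm_sum]
    refine mul_mem ?_ ?_
    · obtain ⟨k, hk⟩ := Int.eq_ofNat_of_zero_le hm
      rw [hk]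
      change xm u ^ ((k : ℕ) : ℤ) ∈ R
      rw [zpow_natCast]
      exact pow_mem hu k
    · refine prod_mem fun i _ => ?_
      rw [TorV_xm_smul]
      exact hgz i _
  have hsum : ∀ (p : Pn n) (k : ℤ), (∀ m ∈ p.support, k ≤ wt a m) →
      xm ((-k) • u) * algebraMap (Pn n) (Kn n) p ∈ R := by
    intro p k hk
    rw [p.as_sum, map_sum, Finset.mul_sum]
    refine sum_mem fun m hm => ?_
    rw [TorV_map_monomial, mul_left_comm, ← TorV_xm_add]
    refine mul_mem (R.algebraMap_mem _) (hmon _ ?_)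
    have h1 : ∑ j, a j * (((-k) • u + fun j => (m j : ℤ)) j) = -k * ∑ j, a j * u j + wt a m := by
      simp only [Pi.add_apply, Pi.smul_apply, smul_eq_mul, mul_add, Finset.sum_add_distrib, wt]
      congr 1
      rw [Finset.mul_sum]
      exact Finset.sum_congr rfl fun j _ => by ring
    rw [h1, hau]
    have := hk m hm
    omega
  have hpos : ∀ f ∈ R, f ≠ 0 → 0 ≤ monOrd a f := by
    intro f hf
    refine Algebra.adjoin_induction (p := fun f _ => f ≠ 0 → 0 ≤ monOrd a f) ?_ ?_ ?_ ?_ hf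
    · intro g hg' hne
      rw [hS] at hg'
      simp only [Finset.coe_union, Finset.coe_singleton, Finset.coe_image, Finset.coe_univ,
        Set.image_univ, Set.mem_union, Set.mem_singleton_iff, Set.mem_range] at hg'
      rcases hg' with rfl | ⟨i, rfl⟩ | ⟨i, rfl⟩
      · rw [hxm, hau]; norm_num
      · rw [hxm, hg]
      · have h1 := TorV_zpow hmul (xm (TorV_g a u i)) (TorV_xm_ne _) (-1)
        rw [zpow_neg_one] at h1
        rw [h1, hxm, hg]
        simp
    · intro c hc
      have hc' : c ≠ 0 := by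
        rintro rfl
        exact hc (map_zero _)
      rw [hC c hc']
    · intro f g _ _ ihf ihg hne
      by_cases hf0 : f = 0
      · rw [hf0, zero_add] at hne ⊢
        exact ihg hne
      · by_cases hg0 : g = 0
        · rw [hg0, add_zero] at hne ⊢
          exact ihf hne
        · exact le_trans (le_min (ihf hf0) (ihg hg0)) (hadd f g hf0 hg0 hne)
    · intro f g _ _ ihf ihg hne
      have hf0 : f ≠ 0 := left_ne_zero_of_mul hne
      have hg0 : g ≠ 0 := right_ne_zero_of_mul hne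
      rw [hmul f g hf0 hg0]
      exact add_nonneg (ihf hf0) (ihg hg0)
  refine ⟨{ ord := monOrd a, ord_zero := h0, ord_mul := hmul, ord_add := hadd,
            exists_one := ⟨xm u, TorV_xm_ne u, by rw [hxm, hau]⟩,
            exists_model := ⟨R, ⟨S, rfl⟩, hpos, ?_⟩ }, rfl⟩
  intro f hf hord
  obtain ⟨⟨p, q⟩, hpq⟩ := IsLocalization.surj (nonZeroDivisors (Pn n)) f
  have hq : (q : Pn n) ≠ 0 := nonZeroDivisors.ne_zero q.2
  have hq' : algebraMap (Pn n) (Kn n) (q : Pn n) ≠ 0 := fun h =>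
    hq ((FaithfulSMul.algebraMap_eq_zero_iff (Pn n) (Kn n)).1 h)
  have hpq' : f * algebraMap (Pn n) (Kn n) (q : Pn n) = algebraMap (Pn n) (Kn n) p := hpq
  have hp : p ≠ 0 := by
    rintro rfl
    rw [map_zero] at hpq'
    exact (mul_ne_zero hf hq') hpq'
  have ho : monOrd a f + monO a (q : Pn n) = monO a p := by
    have h1 := hmul f _ hf hq'
    rw [hpq', hP p hp, hP _ hq] at h1
    exact h1.symm
  refine ⟨xm ((-(monO a (q : Pn n))) • u) * algebraMap (Pn n) (Kn n) p, ?_,
    xm ((-(monO a (q : Pn n))) • u) * algebraMap (Pn n) (Kn n) (q : Pn n), ?_, ?_, ?_, ?_⟩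
  · refine hsum p _ fun m hm => ?_
    have := TorV_wt_le a p m hm
    omega
  · exact hsum q _ fun m hm => TorV_wt_le a q m hm
  · exact mul_ne_zero (TorV_xm_ne _) hq'
  · rw [hmul _ _ (TorV_xm_ne _) hq', hxm, hP _ hq]
    have h1 : ∑ j, a j * ((-(monO a (q : Pn n))) • u) j = -(monO a (q : Pn n)) * ∑ j, a j * u j := by
      simp only [Pi.smul_apply, smul_eq_mul]
      rw [Finset.mul_sum]
      exact Finset.sum_congr rfl fun j _ => by ring
    rw [h1, hau]
    ring
  · rw [← hpq']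
    ring

end Pool.Agent.Helper53.CX
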