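import Pool.Agent.Helper53.CX.St
import Pool.Agent.Helper53.CX.St2

/-!
# Project CX, module Comb: tight subspaces have a common basis
-/

set_option autoImplicit false

namespace Pool.Agent.Helper53.CX

open Submodule

section Comb

variable {n : ℕ} {κ : Type} [Fintype κ]

open Classical in
/-- the weight of a subspace -/
private noncomputable def Comb_w (W : κ → Submodule ℂ (Fin (n + 1) → ℂ)) (c : κ → ℝ)
    (U : Submodule ℂ (Fin (n + 1) → ℂ)) : ℝ := ∑ i, (if W i ≤ U then c i else 0)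

private def Comb_T (W : κ → Submodule ℂ (Fin (n + 1) → ℂ)) (c : κ → ℝ)
    (U : Submodule ℂ (Fin (n + 1) → ℂ)) : Prop := Comb_w W c U = (Module.finrank ℂ U : ℝ)

variable {W : κ → Submodule ℂ (Fin (n + 1) → ℂ)} {c : κ → ℝ}

private theorem Comb_bot (hW : ∀ i, W i ≠ ⊥) : Comb_T W c ⊥ := by
  rw [Comb_T, Comb_w, finrank_bot]
  simp [hW]

private theorem Comb_top (hs : ∑ i, c i = (n : ℝ) + 1) : Comb_T W c ⊤ := by
  rw [Comb_T, Comb_w, finrank_top]
  simp [hs]

private theorem Comb_mod (hc : ∀ i, 0 < c i) (hle : ∀ U, Comb_w W c U ≤ (Module.finrank ℂ U : ℝ))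
    {U U' : Submodule ℂ (Fin (n + 1) → ℂ)} (hU : Comb_T W c U) (hU' : Comb_T W c U') :
    Comb_T W c (U ⊔ U') ∧ Comb_T W c (U ⊓ U') ∧ ∀ i, W i ≤ U ⊔ U' → W i ≤ U ∨ W i ≤ U' := by
  classical
  have hdim : (Module.finrank ℂ ↥(U ⊔ U') : ℝ) + Module.finrank ℂ ↥(U ⊓ U') =
      Module.finrank ℂ U + Module.finrank ℂ U' := by
    exact_mod_cast Submodule.finrank_sup_add_finrank_inf_eq U U'
  have h1 := hle (U ⊔ U')
  have h2 := hle (U ⊓ U')
  have hterm : ∀ i, (if W i ≤ U then c i else 0) + (if W i ≤ U' then c i else 0) ≤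
      (if W i ≤ U ⊔ U' then c i else 0) + (if W i ≤ U ⊓ U' then c i else 0) := by
    intro i
    have := hc i
    by_cases a : W i ≤ U
    · by_cases b : W i ≤ U'
      · simp [a, b, le_sup_of_le_left a]
      · simp [a, b, le_sup_of_le_left a]
    · by_cases b : W i ≤ U'
      · simp [a, b, le_sup_of_le_right b]
      · simp only [a, b, le_inf_iff, and_self, if_false, add_zero]
        split_ifs <;> linarith
  have hsum : Comb_w W c U + Comb_w W c U' ≤ Comb_w W c (U ⊔ U') + Comb_w W c (U ⊓ U') := by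
    unfold Comb_w
    rw [← Finset.sum_add_distrib, ← Finset.sum_add_distrib]
    exact Finset.sum_le_sum fun i _ => by convert hterm i
  unfold Comb_T at *
  refine ⟨by linarith, by linarith, fun i hi => ?_⟩
  by_contra hcon
  push Not at hcon
  have hlt : Comb_w W c U + Comb_w W c U' < Comb_w W c (U ⊔ U') + Comb_w W c (U ⊓ U') := by
    unfold Comb_w
    rw [← Finset.sum_add_distrib, ← Finset.sum_add_distrib]
    refine Finset.sum_lt_sum (fun j _ => by convert hterm j) ⟨i, Finset.mem_univ i, ?_⟩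
    have := hc i
    simp only [hcon.1, hcon.2, hi, le_inf_iff, and_self, if_false, if_true, add_zero]
    exact this
  linarith

private theorem Comb_le (hc : ∀ i, 0 < c i) (hle : ∀ U, Comb_w W c U ≤ (Module.finrank ℂ U : ℝ))
    {U U' : Submodule ℂ (Fin (n + 1) → ℂ)} (hU : Comb_T W c U) (h : ∀ i, W i ≤ U → W i ≤ U') : U ≤ U' := by
  classical
  set U0 : Submodule ℂ (Fin (n + 1) → ℂ) := ⨆ i, ⨆ (_ : W i ≤ U), W i with hU0
  have h0 : U0 ≤ U := iSup₂_le fun i hi => hi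
  have h1 : ∀ i, W i ≤ U → W i ≤ U0 := fun i hi => le_iSup₂_of_le i hi le_rfl
  have h2 : Comb_w W c U ≤ Comb_w W c U0 := by
    unfold Comb_w
    refine Finset.sum_le_sum fun i _ => ?_
    have := hc i
    by_cases a : W i ≤ U
    · simp [a, h1 i a]
    · simp only [a, if_false]
      split_ifs <;> linarith
  have h3 := hle U0
  have h4 : U0 = U := by
    apply Submodule.eq_of_le_of_finrank_le h0
    have h5 : (Module.finrank ℂ U : ℝ) ≤ Module.finrank ℂ U0 := by
      unfold Comb_T at hU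
      linarith
    exact_mod_cast h5
  rw [← h4]
  exact iSup₂_le fun i hi => h i hi

private theorem Comb_dist (hc : ∀ i, 0 < c i) (hle : ∀ U, Comb_w W c U ≤ (Module.finrank ℂ U : ℝ))
    {A B C : Submodule ℂ (Fin (n + 1) → ℂ)} (hA : Comb_T W c A) (hB : Comb_T W c B) (hC : Comb_T W c C) :
    (A ⊓ B) ⊔ C = (A ⊔ C) ⊓ (B ⊔ C) := by
  apply le_antisymm
  · exact sup_le (le_inf (le_sup_of_le_left inf_le_left) (le_sup_of_le_left inf_le_right))
      (le_inf le_sup_right le_sup_right)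
  · obtain ⟨h1, -, h2⟩ := Comb_mod hc hle hA hC
    obtain ⟨h3, -, h4⟩ := Comb_mod hc hle hB hC
    obtain ⟨-, h5, -⟩ := Comb_mod hc hle h1 h3
    refine Comb_le hc hle h5 fun i hi => ?_
    rw [le_inf_iff] at hi
    rcases h2 i hi.1 with h | h
    · rcases h4 i hi.2 with h' | h'
      · exact le_sup_of_le_left (le_inf h h')
      · exact le_sup_of_le_right h'
    · exact le_sup_of_le_right h

private theorem Comb_basis (hc : ∀ i, 0 < c i) (hle : ∀ U, Comb_w W c U ≤ (Module.finrank ℂ U : ℝ))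
    (hW : ∀ i, W i ≠ ⊥) : ∀ (d : ℕ) (U : Submodule ℂ (Fin (n + 1) → ℂ)), Module.finrank ℂ U ≤ d →
    Comb_T W c U → ∃ b : Set (Fin (n + 1) → ℂ), LinearIndepOn ℂ id b ∧ span ℂ b = U ∧
      ∀ U', Comb_T W c U' → U' ≤ U → ∃ s ⊆ b, span ℂ s = U' := by
  intro d
  induction d with
  | zero =>
    intro U hd hU
    have hU0 : U = ⊥ := Submodule.finrank_eq_zero.1 (by omega)
    refine ⟨∅, linearIndepOn_empty ℂ id, by rw [hU0, span_empty], fun U' _ hU' => ⟨∅, Set.empty_subset _, ?_⟩⟩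
    rw [span_empty]
    rw [hU0] at hU'
    exact (le_bot_iff.1 hU').symm
  | succ d ih =>
    intro U hd hU
    by_cases hU0 : U = ⊥
    · refine ⟨∅, linearIndepOn_empty ℂ id, by rw [hU0, span_empty], fun U' _ hU' => ⟨∅, Set.empty_subset _, ?_⟩⟩
      rw [span_empty]
      rw [hU0] at hU'
      exact (le_bot_iff.1 hU').symm
    -- the maximal proper tight subspace
    obtain ⟨U1, ⟨hU1, hlt1⟩, hmax⟩ : ∃ U1, (Comb_T W c U1 ∧ U1 < U) ∧
        ∀ U', Comb_T W c U' → U' < U → Module.finrank ℂ U' ≤ Module.finrank ℂ U1 := by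
      have hne : ({k : ℕ | ∃ U', (Comb_T W c U' ∧ U' < U) ∧ Module.finrank ℂ U' = k}).Nonempty :=
        ⟨_, ⊥, ⟨Comb_bot hW, bot_lt_iff_ne_bot.2 hU0⟩, rfl⟩
      have hbdd : BddAbove {k : ℕ | ∃ U', (Comb_T W c U' ∧ U' < U) ∧ Module.finrank ℂ U' = k} := by
        refine ⟨Module.finrank ℂ U, ?_⟩
        rintro k ⟨U', ⟨-, h⟩, rfl⟩
        exact Submodule.finrank_mono h.le
      obtain ⟨U1, h1, h2⟩ := Nat.sSup_mem hne hbdd
      refine ⟨U1, h1, fun U' h3 h4 => ?_⟩
      rw [h2]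
      exact le_csSup hbdd ⟨U', ⟨h3, h4⟩, rfl⟩
    obtain ⟨b1, hb1, hs1, hp1⟩ := ih U1 (by have := Submodule.finrank_lt_finrank_of_lt hlt1; omega) hU1
    -- joins with U1
    have hjoin : ∀ U', Comb_T W c U' → U' ≤ U → ¬ U' ≤ U1 → U' ⊔ U1 = U := by
      intro U' h1 h2 h3
      by_contra hne
      have h4 : U' ⊔ U1 < U := lt_of_le_of_ne (sup_le h2 hlt1.le) hne
      have h5 := hmax _ (Comb_mod hc hle h1 hU1).1 h4
      have h6 : U1 < U' ⊔ U1 := by
        refine lt_of_le_of_ne le_sup_right fun he => h3 ?_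
        rw [he]
        exact le_sup_left
      have h7 := Submodule.finrank_lt_finrank_of_lt h6
      omega
    -- the minimal A
    obtain ⟨A, ⟨hA, hAU, hA1⟩, hmin⟩ : ∃ A, (Comb_T W c A ∧ A ≤ U ∧ ¬ A ≤ U1) ∧
        ∀ U', Comb_T W c U' → U' ≤ U → ¬ U' ≤ U1 → Module.finrank ℂ A ≤ Module.finrank ℂ U' := by
      have hne : ∃ k : ℕ, ∃ U', (Comb_T W c U' ∧ U' ≤ U ∧ ¬ U' ≤ U1) ∧ Module.finrank ℂ U' = k :=
        ⟨_, U, ⟨hU, le_rfl, hlt1.not_ge⟩, rfl⟩
      classical
      obtain ⟨A, h1, h2⟩ := Nat.find_spec hne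
      refine ⟨A, h1, fun U' h3 h4 h5 => ?_⟩
      rw [h2]
      exact Nat.find_min' hne ⟨U', ⟨h3, h4, h5⟩, rfl⟩
    have hAle : ∀ U', Comb_T W c U' → U' ≤ U → ¬ U' ≤ U1 → A ≤ U' := by
      intro U' h1 h2 h3
      have h4 : (A ⊓ U') ⊔ U1 = U := by
        rw [Comb_dist hc hle hA h1 hU1, hjoin A hA hAU hA1, hjoin U' h1 h2 h3, inf_idem]
      have h5 : ¬ A ⊓ U' ≤ U1 := by
        intro h5
        rw [sup_eq_right.2 h5] at h4
        exact hlt1.ne h4
      have h6 := hmin (A ⊓ U') (Comb_mod hc hle hA h1).2.1 (inf_le_left.trans hAU) h5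
      have h7 : A ⊓ U' = A := Submodule.eq_of_le_of_finrank_le inf_le_left h6
      exact inf_eq_left.1 h7
    obtain ⟨C, hC⟩ := Submodule.exists_isCompl (A ⊓ U1)
    set D := A ⊓ C with hD
    have hD1 : (A ⊓ U1) ⊔ D = A := by
      have h1 : ((A ⊓ U1) ⊔ C) ⊓ A = (A ⊓ U1) ⊔ C ⊓ A := sup_inf_assoc_of_le C inf_le_left
      rw [hC.sup_eq_top, top_inf_eq] at h1
      rw [hD, inf_comm A C]
      exact h1.symm
    have hD2 : U1 ⊓ D = ⊥ := by
      have h1 : U1 ⊓ D ≤ (A ⊓ U1) ⊓ C :=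
        le_inf (le_inf (inf_le_right.trans inf_le_left) inf_le_left) (inf_le_right.trans inf_le_right)
      rw [hC.inf_eq_bot] at h1
      exact le_bot_iff.1 h1
    have hD3 : U1 ⊔ D = U := by
      apply le_antisymm (sup_le hlt1.le (inf_le_left.trans hAU))
      rw [← hjoin A hA hAU hA1]
      refine sup_le ?_ le_sup_left
      conv_lhs => rw [← hD1]
      exact sup_le (inf_le_right.trans le_sup_left) le_sup_right
    obtain ⟨b2, hb2D, hs2, hb2⟩ := exists_linearIndependent ℂ (D : Set (Fin (n + 1) → ℂ))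
    rw [span_eq] at hs2
    refine ⟨b1 ∪ b2, ?_, by rw [span_union, hs1, hs2, hD3], ?_⟩
    · apply LinearIndepOn.id_union hb1 hb2
      rw [hs1, hs2]
      exact disjoint_iff.2 hD2
    · intro U' h1 h2
      by_cases h3 : U' ≤ U1
      · obtain ⟨s, hs, hs'⟩ := hp1 U' h1 h3
        exact ⟨s, hs.trans Set.subset_union_left, hs'⟩
      · have h4 := hAle U' h1 h2 h3
        obtain ⟨s, hs, hs'⟩ := hp1 (U' ⊓ U1) (Comb_mod hc hle h1 hU1).2.1 inf_le_right
        refine ⟨s ∪ b2, Set.union_subset_union_left _ hs, ?_⟩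
        rw [span_union, hs', hs2]
        have h5 : (D ⊔ U1) ⊓ U' = D ⊔ U1 ⊓ U' := sup_inf_assoc_of_le U1 (inf_le_left.trans h4)
        rw [sup_comm D U1, hD3, inf_eq_right.2 h2] at h5
        rw [inf_comm U' U1, sup_comm]
        exact h5.symm

end Comb

theorem hComb : StComb := by
  classical
  intro n κ _ W c hc hW hs hle
  have hle' : ∀ U, Comb_w W c U ≤ (Module.finrank ℂ U : ℝ) := fun U => by
    unfold Comb_w
    convert hle U
  obtain ⟨b, hb, hsp, hp⟩ := Comb_basis hc hle' hW _ ⊤ le_rfl (Comb_top hs)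
  have hb' : LinearIndependent ℂ (Subtype.val : b → (Fin (n + 1) → ℂ)) := hb
  have hspan : ⊤ ≤ span ℂ (Set.range (Subtype.val : b → (Fin (n + 1) → ℂ))) := by
    rw [Subtype.range_coe, hsp]
  let B := Module.Basis.mk hb' hspan
  have hcard : Fintype.card (Fin (n + 1)) = Module.finrank ℂ (Fin (n + 1) → ℂ) := by simp
  have hfin : Finite b := Module.Finite.finite_basis B
  have : Fintype b := Fintype.ofFinite b
  have hcb : Fintype.card b = n + 1 := by
    rw [← Module.finrank_eq_card_basis B]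
    simp
  let e : b ≃ Fin (n + 1) := Fintype.equivFinOfCardEq hcb
  let T : Matrix (Fin (n + 1)) (Fin (n + 1)) ℂ := Matrix.of fun i => (e.symm i : Fin (n + 1) → ℂ)
  have hT : ∀ i, T i = (e.symm i : Fin (n + 1) → ℂ) := fun i => rfl
  refine ⟨T, ?_, fun U hU => ?_⟩
  · rw [← Matrix.isUnit_iff_isUnit_det, ← Matrix.linearIndependent_rows_iff_isUnit]
    exact hb'.comp e.symm e.symm.injective
  · have hU' : Comb_T W c U := by
      unfold Comb_T Comb_w
      convert hU
    obtain ⟨s, hsb, hs'⟩ := hp U hU' le_top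
    refine ⟨Finset.univ.filter fun i => (e.symm i : Fin (n + 1) → ℂ) ∈ s, ?_⟩
    rw [rowSpan, ← hs']
    congr 1
    ext z
    simp only [Set.mem_image, Finset.coe_filter, Finset.mem_univ, true_and, Set.mem_setOf_eq]
    constructor
    · intro hz
      refine ⟨e ⟨z, hsb hz⟩, ?_, ?_⟩
      · simpa using hz
      · rw [hT]; simp
    · rintro ⟨i, hi, rfl⟩
      rw [hT]
      exact hi

end Pool.Agent.Helper53.CX
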