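import Pool.Agent.Helper53.CX.Defs

/-!
Auxiliary definitions used in the proofs only (project CX, MP_140278).
-/

open scoped BigOperators
open MvPolynomial

namespace Pool.Agent.Helper53.CX

open Classical in
/-- extension of an order function from polynomials to rational functions -/
noncomputable def extOrd {n : ℕ} (o : Pn n → ℤ) (f : Kn n) : ℤ :=
  if f = 0 then 0 else
    o (IsLocalization.sec (nonZeroDivisors (Pn n)) f).1 -
    o ((IsLocalization.sec (nonZeroDivisors (Pn n)) f).2 : Pn n)

open Classical in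
/-- minimal weight of a monomial of `p` -/
noncomputable def monO {n : ℕ} (a : Fin n → ℤ) (p : Pn n) : ℤ :=
  if h : p.support.Nonempty then p.support.inf' h (wt a) else 0

/-- the monomial valuation of weight `a` (not normalised, any `a`) -/
noncomputable def monOrd {n : ℕ} (a : Fin n → ℤ) : Kn n → ℤ := extOrd (monO a)

/-- the `P`-adic order -/
noncomputable def padOrd {n : ℕ} (P : Pn n) : Kn n → ℤ :=
  extOrd (fun p => (multiplicity P p : ℤ))

/-- Laurent monomial -/
noncomputable def xm {n : ℕ} (u : Fin n → ℤ) : Kn n := ∏ j, (x j) ^ (u j)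

/-- Laurent polynomials -/
def IsLaurent {n : ℕ} (f : Kn n) : Prop :=
  ∃ (p : Pn n) (u : Fin n → ℤ), f = algebraMap (Pn n) (Kn n) p * xm u

/-- a nef Cartier b-divisor which vanishes along all prime divisors of the torus, with witnesses
that are Laurent polynomials -/
def NormNef {n : ℕ} (M : DivVal (Kn n) → ℤ) : Prop :=
  (∀ (P : Pn n) (v : DivVal (Kn n)), TorusPrime P → v.ord = padOrd P → M v = 0) ∧
  ∃ A : LinSys (Kn n), (∀ f ∈ A.gens, IsLaurent f) ∧
    ∀ m : ℕ, 1 ≤ m → ∃ (N : ℕ) (F : LinSys (Kn n)), 1 ≤ N ∧ (∀ f ∈ F.gens, IsLaurent f) ∧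
      ∀ v : DivVal (Kn n), (N : ℤ) * ((m : ℤ) * M v + A.div v) = F.div v

end Pool.Agent.Helper53.CX
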