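import Pool.Agent.Helper53.CX.Defs

/-!
# Toric varieties and projective space in terms of prime divisors (project CX, second theorem)
-/

open scoped BigOperators
open MvPolynomial

namespace Pool.Agent.Helper53.CX

/-- the coordinate ring of the torus with coordinates `y_1,...,y_n` -/
noncomputable def torusRing {n : ℕ} (y : Fin n → Kn n) : Subalgebra ℂ (Kn n) :=
  Algebra.adjoin ℂ (Set.range y ∪ Set.range (fun j => (y j)⁻¹))

/-- `v` is the monomial valuation with weights `a` in the coordinates `y` -/
def IsToricIn {n : ℕ} (y : Fin n → Kn n) (v : DivVal (Kn n)) (a : Fin n → ℤ) : Prop :=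
  ∀ p : Pn n, p ≠ 0 →
    (∀ m ∈ p.support, v.ord (aeval y p) ≤ wt a m) ∧
    ∃ m ∈ p.support, v.ord (aeval y p) = wt a m

/-- The normal variety with function field `C(x_1,...,x_n)` and set of prime divisors `S` is toric
for the torus with coordinates `y`: `C(y_1,...,y_n)` is the function field, the prime divisors of
the torus `Spec C[y_1^±1,...,y_n^±1]` are prime divisors of the variety, and all the other
prime divisors are torus invariant, i.e. given by monomial valuations in `y`. -/
structure IsToricFor {n : ℕ} (S : Set (DivVal (Kn n))) (y : Fin n → Kn n) : Prop where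
  full : IntermediateField.adjoin ℂ (Set.range y) = ⊤
  torus : ∀ v, IsPrimeOf (torusRing y) v → v ∈ S
  invariant : ∀ v ∈ S, IsPrimeOf (torusRing y) v ∨ ∃ a : Fin n → ℤ, IsToricIn y v a

/-- the variety is toric (for some torus) -/
def IsToricVariety {n : ℕ} (S : Set (DivVal (Kn n))) : Prop := ∃ y : Fin n → Kn n, IsToricFor S y

/-- the homogeneous coordinates `1, x_1, ..., x_n` of projective space -/
noncomputable def hx {n : ℕ} : Fin (n + 1) → Kn n := Fin.cons 1 x

/-- `v` is a prime divisor of projective space with homogeneous coordinates `1, x_1,...,x_n` -/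
def IsPrimeOfProjSpace {n : ℕ} (v : DivVal (Kn n)) : Prop :=
  ∃ i : Fin (n + 1), IsPrimeOf (Algebra.adjoin ℂ (Set.range fun j => hx j / hx i)) v

end Pool.Agent.Helper53.CX
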