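import Pool.Agent.Helper53.CX.AuxD
import Pool.Agent.Helper53.CX.Defs2

/-!
Auxiliary definitions used in the proofs only (project CX, second theorem).
-/

open scoped BigOperators
open MvPolynomial

namespace Pool.Agent.Helper53.CX

/-- pull back of a divisorial valuation by a field automorphism -/
noncomputable def pull {n : ℕ} (τ : Kn n ≃ₐ[ℂ] Kn n) (v : DivVal (Kn n)) : DivVal (Kn n) where
  ord f := v.ord (τ f)
  ord_zero := by simp [v.ord_zero]
  ord_mul f g hf hg := by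
    simp only [map_mul]
    exact v.ord_mul _ _ (by simpa using hf) (by simpa using hg)
  ord_add f g hf hg hfg := by
    simp only [map_add]
    refine v.ord_add _ _ (by simpa using hf) (by simpa using hg) ?_
    rw [← map_add]
    exact fun h => hfg (by
      apply τ.injective
      rw [h, map_zero])
  exists_one := by
    obtain ⟨t, ht, h1⟩ := v.exists_one
    exact ⟨τ.symm t, by simpa using ht, by simpa using h1⟩
  exists_model := by
    obtain ⟨R, hR, h0, h1⟩ := v.exists_model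
    refine ⟨R.map (τ.symm : Kn n →ₐ[ℂ] Kn n), hR.map _, ?_, ?_⟩
    · rintro f hf hf0
      obtain ⟨g, hg, rfl⟩ := (Subalgebra.mem_map).1 hf
      have hg0 : g ≠ 0 := by
        rintro rfl
        exact hf0 (by simp)
      simpa using h0 g hg hg0
    · intro f hf hf0
      obtain ⟨a, ha, b, hb, hb0, hb1, hab⟩ := h1 (τ f) (by simpa using hf) hf0
      refine ⟨τ.symm a, (Subalgebra.mem_map).2 ⟨a, ha, rfl⟩, τ.symm b,
        (Subalgebra.mem_map).2 ⟨b, hb, rfl⟩, by simpa using hb0, by simpa using hb1, ?_⟩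
      apply τ.injective
      simpa using hab

/-- the linear form with coefficient vector `c`, as an element of the function field -/
noncomputable def lfv {n : ℕ} (c : Fin (n + 1) → ℂ) : Kn n :=
  ∑ j, algebraMap ℂ (Kn n) (c j) * hx j

/-- the linear form given by row `i` of the matrix `T` -/
noncomputable def lf {n : ℕ} (T : Matrix (Fin (n + 1)) (Fin (n + 1)) ℂ) (i : Fin (n + 1)) : Kn n :=
  lfv (T i)

/-- the affine coordinates `ℓ_j / ℓ_0` -/
noncomputable def yT {n : ℕ} (T : Matrix (Fin (n + 1)) (Fin (n + 1)) ℂ) (j : Fin n) : Kn n :=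
  lf T j.succ / lf T 0

/-- value of a homogeneous form at `(1, x_1, ..., x_n)` -/
noncomputable def ev {n : ℕ} (G : Pn (n + 1)) : Kn n := aeval hx G

/-- a finite nonempty set of nonzero homogeneous forms of degree `D` in `n+1` variables -/
structure FormSys (n D : ℕ) where
  gens : Finset (Pn (n + 1))
  nonempty : gens.Nonempty
  ne_zero : ∀ G ∈ gens, G ≠ 0
  homog : ∀ G ∈ gens, G.IsHomogeneous D

/-- the b-divisor `- min v(G(1,x))` -/
noncomputable def FormSys.div {n D : ℕ} (F : FormSys n D) (v : DivVal (Kn n)) : ℤ :=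
  F.gens.sup' F.nonempty (fun G => - v.ord (ev G))

/-- minimal weight of a monomial occurring in one of the forms -/
noncomputable def FormSys.low {n D : ℕ} (F : FormSys n D) (w : Fin (n + 1) → ℤ) : ℤ :=
  F.gens.inf' F.nonempty (fun G => monO w G)

/-- a nef Cartier b-divisor whose trace on projective space is the hyperplane at infinity -/
def PolyNef {n : ℕ} (M : DivVal (Kn n) → ℤ) : Prop :=
  ∃ (α : ℕ) (A : FormSys n α), ∀ m : ℕ, 1 ≤ m →
    ∃ (N : ℕ) (F : FormSys n (N * (m + α))), 1 ≤ N ∧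
      ∀ v, (N : ℤ) * ((m : ℤ) * M v + A.div v) = F.div v

/-- the same with control of all Newton polytopes (`φ w` = minus the value of `M` at the toric
valuation with weights `w`) -/
def PhiData {n : ℕ} (M : DivVal (Kn n) → ℤ) (φ : (Fin (n + 1) → ℤ) → ℤ) : Prop :=
  ∃ (α : ℕ) (A : FormSys n α), ∀ m : ℕ, 1 ≤ m →
    ∃ (N : ℕ) (F : FormSys n (N * (m + α))), 1 ≤ N ∧
      (∀ v, (N : ℤ) * ((m : ℤ) * M v + A.div v) = F.div v) ∧
      ∀ w, F.low w = (N : ℤ) * ((m : ℤ) * φ w + A.low w)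

/-- `M` in the linear coordinates `ℓ = T (1,x)`: `M^T (v ∘ τ) = M v + v(ℓ_0)` -/
noncomputable def transM {n : ℕ} (T : Matrix (Fin (n + 1)) (Fin (n + 1)) ℂ)
    (τ : Kn n ≃ₐ[ℂ] Kn n) (M : DivVal (Kn n) → ℤ) (v : DivVal (Kn n)) : ℤ :=
  M (pull τ.symm v) + (pull τ.symm v).ord (lf T 0)

/-- `J` is the index set of `M` in the coordinates given by `T` -/
def HasIdx {n : ℕ} (M : DivVal (Kn n) → ℤ) (T : Matrix (Fin (n + 1)) (Fin (n + 1)) ℂ)
    (J : Finset (Fin (n + 1))) : Prop :=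
  ∃ (τ : Kn n ≃ₐ[ℂ] Kn n) (φ : (Fin (n + 1) → ℤ) → ℤ) (hJ : J.Nonempty),
    (∀ j, τ (x j) = yT T j) ∧ PhiData (transM T τ M) φ ∧ ∀ w, φ w = J.inf' hJ w

/-- the span of the rows of `T` with index in `J` -/
def rowSpan {n : ℕ} (T : Matrix (Fin (n + 1)) (Fin (n + 1)) ℂ) (J : Finset (Fin (n + 1))) :
    Submodule ℂ (Fin (n + 1) → ℂ) := Submodule.span ℂ (T '' (J : Set (Fin (n + 1))))

/-- minimal value of `v` on the nonzero linear forms in `W` -/
noncomputable def vmin {n : ℕ} (v : DivVal (Kn n)) (W : Submodule ℂ (Fin (n + 1) → ℂ)) : ℤ :=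
  sInf {k : ℤ | ∃ c ∈ W, c ≠ 0 ∧ v.ord (lfv c) = k}

/-- log discrepancy of affine space: `v(dx_1...dx_n) + 1` -/
noncomputable def Adisc {n : ℕ} (v : DivVal (Kn n)) : ℤ :=
  ordOmega v + 1 + ∑ j, v.ord (x j)

/-- the chart of the blow up of the linear subspace `{ℓ_j = 0, j ∈ J}`, `0 ∉ J`, with
exceptional coordinate `y_s` -/
noncomputable def chart {n : ℕ} (y : Fin n → Kn n) (s : Fin n) (J : Finset (Fin (n + 1)))
    (j : Fin n) : Kn n :=
  if j.succ ∈ J ∧ j ≠ s then y j / y s else y j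

/-- the prime divisors of projective space, explicitly -/
def Old {n : ℕ} (v : DivVal (Kn n)) : Prop :=
  (∃ j : Fin n, v.ord = monOrd (Pi.single j 1)) ∨ v.ord = monOrd (fun _ => (-1 : ℤ)) ∨
    ∃ P : Pn n, TorusPrime P ∧ v.ord = padOrd P

/-- the degree formula on projective space and an explicit form of the boundary -/
structure DegData {n : ℕ} {ι : Type} [Fintype ι] (p : PairData n ι) where
  Q : Finset (Pn n)
  ve : Fin n → DivVal (Kn n)
  vi : DivVal (Kn n)
  vP : Pn n → DivVal (Kn n)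
  F : ι → ℤ
  M' : ι → DivVal (Kn n) → ℤ
  prime : ∀ P ∈ Q, TorusPrime P
  inj : ∀ P ∈ Q, ∀ P' ∈ Q, Associated P P' → P = P'
  zero : ∀ P v, TorusPrime P → v.ord = padOrd P → (∀ P' ∈ Q, ¬ Associated P P') → p.B v = 0
  hve : ∀ j, (ve j).ord = monOrd (Pi.single j 1)
  hvi : vi.ord = monOrd (fun _ => (-1 : ℤ))
  hvP : ∀ P ∈ Q, (vP P).ord = padOrd P
  hF : ∀ i, 1 ≤ F i
  nef : ∀ i, F i = 1 → PolyNef (M' i)
  prin : ∀ i, ∃ h : Kn n, h ≠ 0 ∧ ∀ v, M' i v = p.M i v - v.ord h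
  deg : ∑ j, p.B (ve j) + p.B vi + ∑ P ∈ Q, p.B (vP P) * (P.totalDegree : ℝ) +
    ∑ i, p.b i * (F i : ℝ) = (n : ℝ) + 1
  rep : ∀ v, p.B v = ∑ j, (p.B (ve j) - 1) * (v.ord (x j) : ℝ) +
    ∑ P ∈ Q, p.B (vP P) * (v.ord (algebraMap (Pn n) (Kn n) P) : ℝ) -
    ∑ i, p.b i * (M' i v : ℝ) - (ordOmega v : ℝ)

end Pool.Agent.Helper53.CX
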