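import Mathlib

/-!
# Generalized log Calabi-Yau pairs on rational varieties, in terms of the function field

`Kn n = C(x_1,...,x_n)`.  A prime divisor on a normal variety with function field `Kn n` is the
same thing as a divisorial valuation of `Kn n`.  All notions below (b-divisors, free and nef
Cartier b-divisors, log discrepancies, prime divisors of a projective variety, class group) are
stated for divisorial valuations.
-/

open scoped BigOperators
open MvPolynomial

namespace Pool.Agent.Helper53.CX

/-- the polynomial ring `C[x_1,...,x_n]` -/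
abbrev Pn (n : ℕ) := MvPolynomial (Fin n) ℂ

/-- the field of rational functions `C(x_1,...,x_n)` -/
abbrev Kn (n : ℕ) := FractionRing (MvPolynomial (Fin n) ℂ)

/-- the coordinate `x_j` as a rational function -/
noncomputable def x {n : ℕ} (j : Fin n) : Kn n := algebraMap (Pn n) (Kn n) (X j)

/-- A divisorial valuation of a field `K` over `C`: a surjective discrete valuation whose valuation
ring is a localisation of a finitely generated `C`-algebra (so it is the order of vanishing along
a prime divisor of a normal variety with function field `K`).  Convention: `ord 0 = 0`. -/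
structure DivVal (K : Type) [Field K] [Algebra ℂ K] where
  /-- the order of vanishing -/
  ord : K → ℤ
  ord_zero : ord 0 = 0
  ord_mul : ∀ f g : K, f ≠ 0 → g ≠ 0 → ord (f * g) = ord f + ord g
  ord_add : ∀ f g : K, f ≠ 0 → g ≠ 0 → f + g ≠ 0 → min (ord f) (ord g) ≤ ord (f + g)
  exists_one : ∃ t : K, t ≠ 0 ∧ ord t = 1
  exists_model : ∃ R : Subalgebra ℂ K, R.FG ∧ (∀ f ∈ R, f ≠ 0 → 0 ≤ ord f) ∧
    ∀ f : K, f ≠ 0 → 0 ≤ ord f → ∃ a ∈ R, ∃ b ∈ R, b ≠ 0 ∧ ord b = 0 ∧ b * f = a

/-- a finite nonempty set of nonzero rational functions, the generators of a linear system -/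
structure LinSys (K : Type) [Field K] where
  gens : Finset K
  nonempty : gens.Nonempty
  ne_zero : ∀ f ∈ gens, f ≠ 0

/-- The free b-divisor of a linear system: on every model on which the linear system (spanned by
the generators) becomes base point free, this is the corresponding Cartier divisor `O(1)`;
its value at `v` is `- min v(f)` over the members `f`. -/
def LinSys.div {K : Type} [Field K] [Algebra ℂ K] (F : LinSys K) (v : DivVal K) : ℤ :=
  F.gens.sup' F.nonempty (fun f => - v.ord f)

/-- `M` is a nef Cartier b-divisor, i.e. the family of pull-backs of a nef Cartier divisor on some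
projective normal model: there is a free `A` such that for every `m >= 1` a positive multiple of
`m M + A` is free. -/
def IsNefCartier {K : Type} [Field K] [Algebra ℂ K] (M : DivVal K → ℤ) : Prop :=
  ∃ A : LinSys K, ∀ m : ℕ, 1 ≤ m → ∃ (N : ℕ) (F : LinSys K), 1 ≤ N ∧
    ∀ v : DivVal K, (N : ℤ) * ((m : ℤ) * M v + A.div v) = F.div v

/-- `M` is the b-divisor of a rational function -/
def IsPrincipal {K : Type} [Field K] [Algebra ℂ K] (M : DivVal K → ℤ) : Prop :=
  ∃ h : K, h ≠ 0 ∧ ∀ v : DivVal K, M v = v.ord h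

/-! ### The derivations `x_j d/dx_j` and the form `dx_1/x_1 ... dx_n/x_n` -/

/-- the ring homomorphism `f ↦ f + ε θ_j(f)` on polynomials -/
noncomputable def thetaHomP {n : ℕ} (j : Fin n) : Pn n →ₐ[ℂ] DualNumber (Kn n) :=
  MvPolynomial.aeval (fun i => TrivSqZeroExt.inl (x i) +
    TrivSqZeroExt.inr (if i = j then x i else 0))

theorem thetaHomP_fst {n : ℕ} (j : Fin n) (p : Pn n) :
    (thetaHomP j p).fst = algebraMap (Pn n) (Kn n) p := by
  have h : (TrivSqZeroExt.fstHom ℂ (Kn n) (Kn n)).comp (thetaHomP j)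
      = IsScalarTower.toAlgHom ℂ (Pn n) (Kn n) := by
    apply MvPolynomial.algHom_ext
    intro i
    by_cases hij : i = j <;> simp [thetaHomP, x, hij]
  have := congrArg (fun φ => φ p) h
  simpa using this

theorem thetaHomP_isUnit {n : ℕ} (j : Fin n) (y : nonZeroDivisors (Pn n)) :
    IsUnit ((thetaHomP j : Pn n →+* DualNumber (Kn n)) y) := by
  rw [TrivSqZeroExt.isUnit_iff_isUnit_fst]
  have h : ((thetaHomP j : Pn n →+* DualNumber (Kn n)) (y : Pn n)).fst
      = algebraMap (Pn n) (Kn n) y := thetaHomP_fst j y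
  rw [h]
  exact IsLocalization.map_units (Kn n) y

/-- the ring homomorphism `f ↦ f + ε θ_j(f)` on rational functions -/
noncomputable def thetaHom {n : ℕ} (j : Fin n) : Kn n →+* DualNumber (Kn n) :=
  IsLocalization.lift (M := nonZeroDivisors (Pn n))
    (g := (thetaHomP j : Pn n →+* DualNumber (Kn n))) (thetaHomP_isUnit j)

theorem thetaHom_algebraMap {n : ℕ} (j : Fin n) (p : Pn n) :
    thetaHom j (algebraMap (Pn n) (Kn n) p) = thetaHomP j p := by
  exact IsLocalization.lift_eq (thetaHomP_isUnit j) p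

theorem thetaHom_fst {n : ℕ} (j : Fin n) (f : Kn n) : (thetaHom j f).fst = f := by
  have h : ((TrivSqZeroExt.fstHom ℂ (Kn n) (Kn n) : DualNumber (Kn n) →+* Kn n).comp (thetaHom j))
      = RingHom.id (Kn n) := by
    apply IsLocalization.ringHom_ext (nonZeroDivisors (Pn n))
    apply RingHom.ext
    intro p
    simp only [RingHom.comp_apply, thetaHom_algebraMap]
    exact thetaHomP_fst j p
  have := congrArg (fun φ => φ f) h
  simpa using this

/-- the logarithmic derivation `θ_j = x_j d/dx_j` of `C(x_1,...,x_n)` -/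
noncomputable def theta {n : ℕ} (j : Fin n) (f : Kn n) : Kn n := (thetaHom j f).snd

theorem theta_add {n : ℕ} (j : Fin n) (f g : Kn n) :
    theta j (f + g) = theta j f + theta j g := by
  simp [theta]

theorem theta_mul {n : ℕ} (j : Fin n) (f g : Kn n) :
    theta j (f * g) = f * theta j g + g * theta j f := by
  simp only [theta, map_mul, TrivSqZeroExt.snd_mul, thetaHom_fst]
  simp [mul_comm]

theorem theta_algebraMap {n : ℕ} (j : Fin n) (c : ℂ) :
    theta j (algebraMap ℂ (Kn n) c) = 0 := by
  have h : algebraMap ℂ (Kn n) c = algebraMap (Pn n) (Kn n) (C c) := by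
    rw [IsScalarTower.algebraMap_apply ℂ (Pn n) (Kn n)]
    rfl
  rw [theta, h, thetaHom_algebraMap, thetaHomP, MvPolynomial.aeval_C,
    TrivSqZeroExt.algebraMap_eq_inl']
  simp

theorem theta_x {n : ℕ} (j i : Fin n) : theta j (x i : Kn n) = if i = j then x i else 0 := by
  rw [theta, x, thetaHom_algebraMap, thetaHomP, MvPolynomial.aeval_X]
  by_cases h : i = j
  · subst h
    simp only [if_true, TrivSqZeroExt.snd_add, TrivSqZeroExt.snd_inl, TrivSqZeroExt.snd_inr,
      zero_add, x]
  · simp only [h, if_false, TrivSqZeroExt.snd_add, TrivSqZeroExt.snd_inl,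
      TrivSqZeroExt.snd_inr, zero_add]

/-- the Jacobian determinant `det (θ_j f_i)`, i.e. `df_1 ... df_n = jac f * dx_1/x_1 ... dx_n/x_n` -/
noncomputable def jac {n : ℕ} (f : Fin n → Kn n) : Kn n :=
  Matrix.det (Matrix.of fun i j => theta j (f i))

/-- `e` is the minimal order of the Jacobian determinants of `n` elements of the valuation ring:
the module of top differential forms of the valuation ring of `v` is generated by
`t^e dx_1/x_1 ... dx_n/x_n` (`t` a uniformizer). -/
def IsJacMin {n : ℕ} (v : DivVal (Kn n)) (e : ℤ) : Prop :=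
  (∀ f : Fin n → Kn n, (∀ i, 0 ≤ v.ord (f i)) → jac f ≠ 0 → e ≤ v.ord (jac f)) ∧
  ∃ f : Fin n → Kn n, (∀ i, 0 ≤ v.ord (f i)) ∧ jac f ≠ 0 ∧ v.ord (jac f) = e

open Classical in
/-- the order along `v` of the rational top form `ω = dx_1/x_1 ... dx_n/x_n`, i.e. the coefficient
of the canonical divisor `K = div ω` (on every model) along `v`. (The minimum exists for every `v`.) -/
noncomputable def ordOmega {n : ℕ} (v : DivVal (Kn n)) : ℤ :=
  if h : ∃ e : ℤ, IsJacMin v e then - h.choose else 0

/-! ### Projective varieties and their prime divisors -/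

/-- A normal projective variety with function field `C(x_1,...,x_n)`: the normalisation of the
closure of the image of the rational map given by a linear system `G`; `full`: the function field
is all of `C(x_1,...,x_n)`. -/
structure ProjVar (n : ℕ) where
  G : LinSys (Kn n)
  full : IntermediateField.adjoin ℂ {f : Kn n | ∃ a ∈ G.gens, ∃ b ∈ G.gens, f = a / b} = ⊤

/-- `v` is a prime divisor of (the normalisation of) the affine variety with coordinate ring
`R ⊆ C(x_1,...,x_n)`: `R` is contained in the valuation ring and the residue field of the local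
ring of `R` at the centre of `v` has transcendence degree `n-1`, i.e. contains `n-1` residues
of elements `h_i = a/b` of this local ring which are algebraically independent over `C`. -/
def IsPrimeOf {n : ℕ} (R : Subalgebra ℂ (Kn n)) (v : DivVal (Kn n)) : Prop :=
  (∀ f ∈ R, 0 ≤ v.ord f) ∧
  ∃ h : Fin (n - 1) → Kn n,
    (∀ i, ∃ a ∈ R, ∃ b ∈ R, b ≠ 0 ∧ v.ord b = 0 ∧ h i = a / b) ∧
    ∀ q : MvPolynomial (Fin (n - 1)) ℂ, q ≠ 0 → aeval h q ≠ 0 ∧ v.ord (aeval h q) = 0

/-- The set of prime divisors of the normal projective variety `V`: the prime divisors of its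
affine charts `Spec C[g/g0 : g ∈ G]`. -/
def ProjVar.primeDivisors {n : ℕ} (V : ProjVar n) : Set (DivVal (Kn n)) :=
  {v | ∃ g0 ∈ V.G.gens, IsPrimeOf (Algebra.adjoin ℂ {f : Kn n | ∃ a ∈ V.G.gens, f = a / g0}) v}

/-- the b-divisor of the `R`-rational function `∏ f^(g f)` -/
noncomputable def rdiv {n : ℕ} (g : Kn n →₀ ℝ) (v : DivVal (Kn n)) : ℝ :=
  g.sum fun f r => r * (v.ord f : ℝ)

/-- the principal `R`-divisors on a normal variety with set of prime divisors `S` -/
noncomputable def princ {n : ℕ} (S : Set (DivVal (Kn n))) : Submodule ℝ (S →₀ ℝ) where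
  carrier := {D | ∃ g : Kn n →₀ ℝ, ∀ v : S, D v = rdiv g v.1}
  add_mem' := by
    rintro D E ⟨g, hg⟩ ⟨h, hh⟩
    refine ⟨g + h, fun v => ?_⟩
    rw [Finsupp.add_apply, hg, hh, rdiv, rdiv, rdiv]
    rw [Finsupp.sum_add_index']
    · intro a; simp
    · intro a b c; ring
  zero_mem' := ⟨0, fun v => by simp [rdiv]⟩
  smul_mem' := by
    rintro c D ⟨g, hg⟩
    refine ⟨c • g, fun v => ?_⟩
    rw [Finsupp.smul_apply, hg, rdiv, rdiv, Finsupp.sum_smul_index']
    · simp only [smul_eq_mul, Finsupp.mul_sum, mul_assoc]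
    · intro a; simp

/-- the class group tensored with `R` of a normal variety with set of prime divisors `S` -/
abbrev Cl {n : ℕ} (S : Set (DivVal (Kn n))) : Type := (S →₀ ℝ) ⧸ princ S

/-! ### Generalized log Calabi-Yau pairs -/

/-- the data of `(X,B,M)`: an `R`-rational function `g` with `K + B + M = div g`, and
`M = ∑ b_i M_i` -/
structure PairData (n : ℕ) (ι : Type) where
  g : Kn n →₀ ℝ
  M : ι → DivVal (Kn n) → ℤ
  b : ι → ℝ

/-- the coefficient along `v` of the crepant boundary `B` (on any model on which `v` is a prime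
divisor), defined by `K + B + ∑ b_i M_i = div g` -/
noncomputable def PairData.B {n : ℕ} {ι : Type} [Fintype ι] (p : PairData n ι)
    (v : DivVal (Kn n)) : ℝ :=
  rdiv p.g v - (ordOmega v : ℝ) - ∑ i, p.b i * (p.M i v : ℝ)

/-- `(X, B, M)` is a generalized log Calabi-Yau pair on the variety with set of prime divisors `S`
whose nef part is `∑ b_i M_i` with `b_i ≥ 0` and `M_i` nef Cartier and not principal. -/
structure IsGenLCY {n : ℕ} {ι : Type} [Fintype ι] (S : Set (DivVal (Kn n)))
    (p : PairData n ι) : Prop where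
  b_nonneg : ∀ i, 0 ≤ p.b i
  nef : ∀ i, IsNefCartier (p.M i)
  nontrivial : ∀ i, ¬ IsPrincipal (p.M i)
  glc : ∀ v, p.B v ≤ 1
  effective : ∀ v ∈ S, 0 ≤ p.B v

/-! ### Toric valuations and complete toric varieties -/

/-- the weight of a monomial -/
def wt {n : ℕ} (a : Fin n → ℤ) (m : Fin n →₀ ℕ) : ℤ := ∑ j, a j * (m j : ℤ)

/-- `v` is the toric (monomial) valuation with weight vector `a` -/
def IsToric {n : ℕ} (v : DivVal (Kn n)) (a : Fin n → ℤ) : Prop :=
  ∀ p : Pn n, p ≠ 0 →
    (∀ m ∈ p.support, v.ord (algebraMap (Pn n) (Kn n) p) ≤ wt a m) ∧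
    ∃ m ∈ p.support, v.ord (algebraMap (Pn n) (Kn n) p) = wt a m

/-- `v` is the order of vanishing along the hypersurface `P = 0` -/
def IsPAdic {n : ℕ} (v : DivVal (Kn n)) (P : Pn n) : Prop :=
  ∀ p : Pn n, p ≠ 0 → ∃ (k : ℕ) (q : Pn n), p = P ^ k * q ∧ ¬ P ∣ q ∧
    v.ord (algebraMap (Pn n) (Kn n) p) = k

/-- `P = 0` is a prime divisor of the torus -/
def TorusPrime {n : ℕ} (P : Pn n) : Prop := Irreducible P ∧ ∀ j, ¬ Associated P (X j)

/-- `R` is the set of primitive generators of the rays of a complete fan in `R^n` -/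
structure IsCompleteFanRays {n : ℕ} (R : Finset (Fin n → ℤ)) : Prop where
  primitive : ∀ a ∈ R, ∃ u : Fin n → ℤ, ∑ j, a j * u j = 1
  complete : ∀ a : Fin n → ℤ, ∃ k : ℕ, 1 ≤ k ∧ ∃ c : (Fin n → ℤ) → ℕ,
    (k : ℤ) • a = ∑ r ∈ R, (c r : ℤ) • r

/-- `v` is a prime divisor of the toric variety with dense torus `Spec C[x_1^±1,...,x_n^±1]` and
set of primitive ray generators `R` -/
def IsToricPrimeDivisor {n : ℕ} (R : Finset (Fin n → ℤ)) (v : DivVal (Kn n)) : Prop :=
  (∃ a ∈ R, IsToric v a) ∨ ∃ P : Pn n, TorusPrime P ∧ IsPAdic v P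

end Pool.Agent.Helper53.CX
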