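import Pool.Agent.Helper53.CX.St
import Pool.Agent.Helper53.CX.St2

/-!
# Project CX, part 2, module BasI: adapted basis, first case
-/

set_option autoImplicit false

open scoped BigOperators
open MvPolynomial

namespace Pool.Agent.Helper53.CX

theorem BasI_lfv_add {n : ℕ} (a b : Fin (n + 1) → ℂ) : (lfv (a + b) : Kn n) = lfv a + lfv b := by
  unfold lfv
  rw [← Finset.sum_add_distrib]
  apply Finset.sum_congr rfl
  intro j _
  rw [Pi.add_apply, map_add, add_mul]

theorem BasI_lfv_smul {n : ℕ} (t : ℂ) (a : Fin (n + 1) → ℂ) :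
    (lfv (t • a) : Kn n) = algebraMap ℂ (Kn n) t * lfv a := by
  unfold lfv
  rw [Finset.mul_sum]
  apply Finset.sum_congr rfl
  intro j _
  rw [Pi.smul_apply, smul_eq_mul, map_mul, mul_assoc]

theorem BasI_ord_div {K : Type} [Field K] [Algebra ℂ K] (v : DivVal K) {a b : K} (ha : a ≠ 0)
    (hb : b ≠ 0) : v.ord (a / b) = v.ord a - v.ord b := by
  have h := v.ord_mul (a / b) b (div_ne_zero ha hb) hb
  rw [div_mul_cancel₀ a hb] at h
  omega

/-- a basis adapted to a subspace -/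
theorem BasI_exists {n : ℕ} (W : Submodule ℂ (Fin (n + 1) → ℂ))
    (S : Set (Fin (n + 1) → ℂ)) (hS : LinearIndepOn ℂ id S) (hspan : Submodule.span ℂ S = W)
    (r₀ : Fin (n + 1) → ℂ) (h0 : r₀ ≠ 0) (hr : r₀ ∈ S ∨ r₀ ∉ W) :
    ∃ r : Fin (n + 1) → (Fin (n + 1) → ℂ), LinearIndependent ℂ r ∧ r 0 = r₀ ∧
      (∀ y ∈ S, ∃ i, r i = y) := by
  classical
  have hS1 : LinearIndepOn ℂ id (insert r₀ S) := by
    rcases hr with hr | hr
    · rwa [Set.insert_eq_of_mem hr]
    · refine LinearIndepOn.id_insert hS ?_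
      rwa [hspan]
  obtain ⟨B, hB1, hB2, hB3, hB4⟩ := exists_linearIndepOn_id_extension hS1 (Set.subset_univ _)
  have hBspan : ⊤ ≤ Submodule.span ℂ (Set.range (fun x : B => (x : Fin (n + 1) → ℂ))) := by
    rw [Subtype.range_coe]
    intro y _
    exact hB3 (Set.mem_univ y)
  have hBli : LinearIndependent ℂ (fun x : B => (x : Fin (n + 1) → ℂ)) := hB4
  let bB : Module.Basis B ℂ (Fin (n + 1) → ℂ) := Module.Basis.mk hBli hBspan
  have hfin : Finite B := Module.Finite.finite_basis bB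
  have hft : Fintype B := Fintype.ofFinite B
  have hcard : Fintype.card B = n + 1 := by
    have := Module.finrank_eq_card_basis bB
    rw [Module.finrank_fin_fun] at this
    exact this.symm
  let e : Fin (n + 1) ≃ B := (Fintype.equivFinOfCardEq hcard).symm
  have hr0 : r₀ ∈ B := hB2 (Set.mem_insert _ _)
  let e' : Fin (n + 1) ≃ B := (Equiv.swap 0 (e.symm ⟨r₀, hr0⟩)).trans e
  refine ⟨fun i => (e' i : Fin (n + 1) → ℂ), ?_, ?_, ?_⟩
  · exact hBli.comp e' e'.injective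
  · simp [e']
  · intro y hy
    refine ⟨e'.symm ⟨y, hB2 (Set.mem_insert_of_mem _ hy)⟩, ?_⟩
    simp

theorem BasI_isUnit {n : ℕ} {r : Fin (n + 1) → (Fin (n + 1) → ℂ)} (h : LinearIndependent ℂ r) :
    IsUnit (Matrix.of r).det := by
  rw [← Matrix.isUnit_iff_isUnit_det, ← Matrix.linearIndependent_rows_iff_isUnit]
  exact h

/-- substitution of translated coordinates -/
theorem BasI_subst {n : ℕ} (v : DivVal (Kn n)) (ξ η : Fin n → Kn n) (c : Fin n → ℂ)
    (hη : ∀ j, η j = ξ j - algebraMap ℂ (Kn n) (c j))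
    (hc : ∀ p : Pn n, eval c p ≠ 0 → aeval ξ p ≠ 0 ∧ v.ord (aeval ξ p) = 0) :
    ∀ p : Pn n, p.coeff 0 ≠ 0 → aeval η p ≠ 0 ∧ v.ord (aeval η p) = 0 := by
  intro p hp
  let q : Pn n := bind₁ (fun j => (X j - C (c j) : Pn n)) p
  have h1 : aeval ξ q = aeval η p := by
    change aeval ξ (bind₁ (fun j => (X j - C (c j) : Pn n)) p) = aeval η p
    rw [aeval_bind₁]
    congr 1
    apply MvPolynomial.algHom_ext
    intro j
    simp [hη]
  have h2 : eval c q = p.coeff 0 := by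
    change eval c (bind₁ (fun j => (X j - C (c j) : Pn n)) p) = p.coeff 0
    have h3 : eval c (bind₁ (fun j => (X j - C (c j) : Pn n)) p) = aeval (fun _ : Fin n => (0 : ℂ)) p := by
      rw [← coe_aeval_eq_eval, RingHom.coe_coe, aeval_bind₁]
      congr 1
      apply MvPolynomial.algHom_ext
      intro j
      simp
    rw [h3]
    have h4 : aeval (fun _ : Fin n => (0 : ℂ)) p = constantCoeff p := by
      have h5 := MvPolynomial.aeval_zero (σ := Fin n) (R := ℂ) (S₁ := ℂ) p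
      simpa using h5
    rw [h4, constantCoeff_eq]
  rw [← h1]
  exact hc q (by rw [h2]; exact hp)

/-- the row span of a modified basis -/
theorem BasI_rowSpan (hVmin : StVmin) {n : ℕ} (v : DivVal (Kn n))
    (W : Submodule ℂ (Fin (n + 1) → ℂ)) (r : Fin (n + 1) → (Fin (n + 1) → ℂ))
    (hr : LinearIndependent ℂ r) (J : Finset (Fin (n + 1))) (hJ : J.Nonempty)
    (hW : rowSpan (Matrix.of r) J = W) (T : Matrix (Fin (n + 1)) (Fin (n + 1)) ℂ)
    (hT : IsUnit T.det) (hTW : ∀ j ∈ J, T j ∈ W) : rowSpan T J = W := by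
  have h1 := ((hVmin n v).2.2 T J hJ hT).2.2
  have h2 := ((hVmin n v).2.2 (Matrix.of r) J hJ (BasI_isUnit hr)).2.2
  rw [hW] at h2
  apply Submodule.eq_of_le_of_finrank_eq
  · unfold rowSpan
    rw [Submodule.span_le]
    rintro y ⟨j, hj, rfl⟩
    exact hTW j hj
  · rw [h1, h2]

open Classical in
theorem hBasI (hGen : StGen) (hPt : StPt) (hVmin : StVmin) : StBasI := by
  rintro n v W ⟨r₀, hr₀W, hr₀0, hmin⟩
  have hlf := (hGen n).1
  -- a basis of `W` containing `r₀`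
  have hs0 : LinearIndepOn ℂ id ({r₀} : Set (Fin (n + 1) → ℂ)) := LinearIndepOn.singleton (v := id) (by simpa using hr₀0)
  obtain ⟨S, hS1, hS2, hS3, hS4⟩ := exists_linearIndepOn_id_extension hs0
    (Set.singleton_subset_iff.2 hr₀W : ({r₀} : Set (Fin (n + 1) → ℂ)) ⊆ (W : Set (Fin (n + 1) → ℂ)))
  have hspan : Submodule.span ℂ S = W :=
    le_antisymm (Submodule.span_le.2 hS1) hS3
  have hr₀S : r₀ ∈ S := hS2 rfl
  obtain ⟨r, hr, hr0, hrS⟩ := BasI_exists W S hS4 hspan r₀ hr₀0 (Or.inl hr₀S)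
  let J : Finset (Fin (n + 1)) := Finset.univ.filter fun i => r i ∈ S
  have hJ0 : (0 : Fin (n + 1)) ∈ J := by
    rw [Finset.mem_filter]; exact ⟨Finset.mem_univ _, by rw [hr0]; exact hr₀S⟩
  have hJmem : ∀ i, i ∈ J ↔ r i ∈ S := fun i => by simp [J]
  have hW : rowSpan (Matrix.of r) J = W := by
    rw [← hspan]
    unfold rowSpan
    congr 1
    ext y
    constructor
    · rintro ⟨i, hi, rfl⟩
      exact (hJmem i).1 hi
    · intro hy
      obtain ⟨i, hi⟩ := hrS y hy
      exact ⟨i, (hJmem i).2 (by rw [hi]; exact hy), hi⟩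
  have hri : ∀ i, r i ≠ 0 := fun i => hr.ne_zero i
  have hLi : ∀ i, (lfv (r i) : Kn n) ≠ 0 := fun i => hlf _ (hri i)
  -- the point
  obtain ⟨c, hc⟩ := hPt n v (fun j => lfv (r j.succ) / lfv (r 0)) (by
    intro j
    rw [BasI_ord_div v (hLi _) (hLi _), hr0]
    have := hmin (r j.succ) (hri _)
    omega)
  let cc : Fin (n + 1) → ℂ := Fin.cons 0 c
  let T : Matrix (Fin (n + 1)) (Fin (n + 1)) ℂ := fun i j => r i j + (-cc i) * r 0 j
  have hTi : ∀ i, T i = r i + (-cc i) • r 0 := by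
    intro i; ext j; rfl
  have hTdet : IsUnit T.det := by
    have : T.det = (Matrix.of r).det := by
      apply Matrix.det_eq_of_forall_row_eq_smul_add_const (fun i => -cc i) 0 (by simp [cc])
      intro i j; rfl
    rw [this]; exact BasI_isUnit hr
  have hT0 : T 0 = r 0 := by rw [hTi]; simp [cc]
  have hTW : ∀ j ∈ J, T j ∈ W := by
    intro j hj
    rw [hTi]
    refine W.add_mem (hS1 ((hJmem j).1 hj)) (W.smul_mem _ ?_)
    rw [hr0]; exact hr₀W
  have hWne : W ≠ ⊥ := by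
    intro h
    rw [h] at hr₀W
    exact hr₀0 ((Submodule.mem_bot ℂ).1 hr₀W)
  refine ⟨T, J, hTdet, hJ0, BasI_rowSpan hVmin v W r hr J ⟨0, hJ0⟩ hW T hTdet hTW, ?_, ?_⟩
  · obtain ⟨h1, c1, hc1, hc10, h2⟩ := (hVmin n v).2.1 W hWne
    change v.ord (lfv (T 0)) = _
    rw [hT0, hr0]
    apply le_antisymm
    · rw [← h2]; exact hmin c1 hc10
    · exact h1 r₀ hr₀W hr₀0
  · apply BasI_subst v (fun j => lfv (r j.succ) / lfv (r 0)) (yT T) c _ hc
    intro j
    change lfv (T j.succ) / lfv (T 0) = _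
    rw [hT0, hTi, BasI_lfv_add, BasI_lfv_smul]
    have h3 : cc j.succ = c j := by simp [cc]
    rw [h3, add_div, mul_div_assoc, div_self (hLi 0), map_neg]
    ring

end Pool.Agent.Helper53.CX
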