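import Pool.Agent.Helper53.CX.St
import Pool.Agent.Helper53.CX.St2
import Pool.Agent.Helper53.CX.M_BasI

/-!
# Project CX, part 2, module BasII: adapted basis, second case
-/

set_option autoImplicit false

open scoped BigOperators
open MvPolynomial

namespace Pool.Agent.Helper53.CX

open Classical in
theorem hBasII (hGen : StGen) (hPt : StPt) (hVmin : StVmin) : StBasII := by
  intro n v W hWne hlt
  have hlf := (hGen n).1
  -- the minimum on the whole space
  have htop : (⊤ : Submodule ℂ (Fin (n + 1) → ℂ)) ≠ ⊥ := by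
    intro h
    exact hWne (eq_bot_iff.2 (h ▸ le_top))
  obtain ⟨hmin, r₀, _, hr₀0, hr₀⟩ := (hVmin n v).2.1 ⊤ htop
  obtain ⟨hminW, rs, hrsW, hrs0, hrs⟩ := (hVmin n v).2.1 W hWne
  have hmin' : ∀ c : Fin (n + 1) → ℂ, c ≠ 0 → v.ord (lfv r₀) ≤ v.ord (lfv c) := by
    intro c hc
    rw [hr₀]; exact hmin c trivial hc
  have hr₀W : r₀ ∉ W := by
    intro h
    obtain ⟨c', hc', hc''⟩ := hlt r₀ h hr₀0
    have := hmin' c' hc'
    omega
  have hlts : v.ord (lfv r₀) < v.ord (lfv rs) := by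
    obtain ⟨c', hc', hc''⟩ := hlt rs hrsW hrs0
    have := hmin' c' hc'
    omega
  -- a basis of `W` containing `rs`
  have hs0 : LinearIndepOn ℂ id ({rs} : Set (Fin (n + 1) → ℂ)) :=
    LinearIndepOn.singleton (v := id) (by simpa using hrs0)
  obtain ⟨S, hS1, hS2, hS3, hS4⟩ := exists_linearIndepOn_id_extension hs0
    (Set.singleton_subset_iff.2 hrsW : ({rs} : Set (Fin (n + 1) → ℂ)) ⊆ (W : Set (Fin (n + 1) → ℂ)))
  have hspan : Submodule.span ℂ S = W :=
    le_antisymm (Submodule.span_le.2 hS1) hS3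
  have hrsS : rs ∈ S := hS2 rfl
  obtain ⟨r, hr, hr0, hrS⟩ := BasI_exists W S hS4 hspan r₀ hr₀0 (Or.inr hr₀W)
  let J : Finset (Fin (n + 1)) := Finset.univ.filter fun i => r i ∈ S
  have hJmem : ∀ i, i ∈ J ↔ r i ∈ S := fun i => by simp [J]
  have hJ0 : (0 : Fin (n + 1)) ∉ J := by
    rw [hJmem, hr0]
    exact fun h => hr₀W (hS1 h)
  obtain ⟨s', hs'⟩ := hrS rs hrsS
  have hs'0 : s' ≠ 0 := by
    rintro rfl
    rw [hr0] at hs'
    rw [hs'] at hlts
    exact lt_irrefl _ hlts
  obtain ⟨s, rfl⟩ := Fin.exists_succ_eq.2 hs'0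
  have hsJ : s.succ ∈ J := by rw [hJmem, hs']; exact hrsS
  have hW : rowSpan (Matrix.of r) J = W := by
    rw [← hspan]
    unfold rowSpan
    congr 1
    ext y
    constructor
    · rintro ⟨i, hi, rfl⟩
      exact (hJmem i).1 hi
    · intro hy
      obtain ⟨i, hi⟩ := hrS y hy
      exact ⟨i, (hJmem i).2 (by rw [hi]; exact hy), hi⟩
  have hri : ∀ i, r i ≠ 0 := fun i => hr.ne_zero i
  have hLi : ∀ i, (lfv (r i) : Kn n) ≠ 0 := fun i => hlf _ (hri i)
  -- the chart of the basis `r`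
  let ξ : Fin n → Kn n := fun j =>
    if j.succ ∈ J ∧ j ≠ s then lfv (r j.succ) / lfv (r s.succ) else lfv (r j.succ) / lfv (r 0)
  obtain ⟨c, hc⟩ := hPt n v ξ (by
    intro j
    change 0 ≤ v.ord (if j.succ ∈ J ∧ j ≠ s then lfv (r j.succ) / lfv (r s.succ)
      else lfv (r j.succ) / lfv (r 0))
    split_ifs with h
    · rw [BasI_ord_div v (hLi _) (hLi _), hs', hrs]
      have := hminW (r j.succ) (hS1 ((hJmem _).1 h.1)) (hri _)
      omega
    · rw [BasI_ord_div v (hLi _) (hLi _), hr0]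
      have := hmin' (r j.succ) (hri _)
      omega)
  have hcs : c s = 0 := by
    by_contra hne
    have h1 := (hc (X s) (by simpa using hne)).2
    rw [aeval_X] at h1
    have h2 : ξ s = lfv (r s.succ) / lfv (r 0) := by
      change (if s.succ ∈ J ∧ s ≠ s then _ else _) = _
      rw [if_neg (fun h => h.2 rfl)]
    rw [h2, BasI_ord_div v (hLi _) (hLi _), hr0, hs'] at h1
    omega
  -- the matrix
  let c1 : Fin (n + 1) → ℂ := Fin.cons 0 (fun j => if j.succ ∈ J then 0 else -c j)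
  let c2 : Fin (n + 1) → ℂ := Fin.cons 0 (fun j => if j.succ ∈ J then -c j else 0)
  have hc10 : c1 0 = 0 := rfl
  have hc20 : c2 0 = 0 := rfl
  have hc1j : ∀ j : Fin n, c1 j.succ = if j.succ ∈ J then 0 else -c j := fun j => rfl
  have hc2j : ∀ j : Fin n, c2 j.succ = if j.succ ∈ J then -c j else 0 := fun j => rfl
  have hc1s : c1 s.succ = 0 := by rw [hc1j, if_pos hsJ]
  have hc2s : c2 s.succ = 0 := by rw [hc2j, if_pos hsJ, hcs, neg_zero]
  let T1 : Matrix (Fin (n + 1)) (Fin (n + 1)) ℂ := fun i j => r i j + c1 i * r 0 j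
  let T : Matrix (Fin (n + 1)) (Fin (n + 1)) ℂ := fun i j => T1 i j + c2 i * T1 s.succ j
  have hT1 : T1.det = (Matrix.of r).det := by
    apply Matrix.det_eq_of_forall_row_eq_smul_add_const c1 0 hc10
    intro i j; rfl
  have hT2 : T.det = T1.det := by
    apply Matrix.det_eq_of_forall_row_eq_smul_add_const c2 s.succ hc2s
    intro i j; rfl
  have hTdet : IsUnit T.det := by rw [hT2, hT1]; exact BasI_isUnit hr
  have hT1s : ∀ j, T1 s.succ j = r s.succ j := by
    intro j
    change r s.succ j + c1 s.succ * r 0 j = r s.succ j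
    rw [hc1s]; ring
  have hTi : ∀ i, T i = r i + c1 i • r 0 + c2 i • r s.succ := by
    intro i; ext j
    change r i j + c1 i * r 0 j + c2 i * T1 s.succ j = r i j + c1 i * r 0 j + c2 i * r s.succ j
    rw [hT1s]
  have hT0 : T 0 = r 0 := by rw [hTi, hc10, hc20]; simp
  have hTs : T s.succ = r s.succ := by rw [hTi, hc1s, hc2s]; simp
  have hTW : ∀ j ∈ J, T j ∈ W := by
    intro j hj
    have hj0 : j ≠ 0 := fun h => hJ0 (h ▸ hj)
    obtain ⟨k, rfl⟩ := Fin.exists_succ_eq.2 hj0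
    rw [hTi, hc1j, if_pos hj, zero_smul, add_zero]
    refine W.add_mem (hS1 ((hJmem _).1 hj)) (W.smul_mem _ ?_)
    exact hS1 ((hJmem _).1 hsJ)
  refine ⟨T, J, s, hTdet, hJ0, hsJ,
    BasI_rowSpan hVmin v W r hr J ⟨_, hsJ⟩ hW T hTdet hTW, ?_, ?_⟩
  · change v.ord (lfv (T s.succ)) = _
    rw [hTs, hs', hrs]
  · apply BasI_subst v ξ (chart (yT T) s J) c _ hc
    intro j
    have hyT : ∀ k : Fin n, yT T k = lfv (T k.succ) / lfv (r 0) := by
      intro k
      change lfv (T k.succ) / lfv (T 0) = _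
      rw [hT0]
    change (if j.succ ∈ J ∧ j ≠ s then yT T j / yT T s else yT T j) =
      (if j.succ ∈ J ∧ j ≠ s then lfv (r j.succ) / lfv (r s.succ)
      else lfv (r j.succ) / lfv (r 0)) - algebraMap ℂ (Kn n) (c j)
    split_ifs with h
    · rw [hyT, hyT, hTs, hTi, hc1j, if_pos h.1, hc2j, if_pos h.1, zero_smul, add_zero,
        BasI_lfv_add, BasI_lfv_smul, map_neg]
      have h0 := hLi 0
      have h1 := hLi s.succ
      field_simp
      ring
    · rw [hyT, hTi, hc1j, hc2j]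
      by_cases hj : j.succ ∈ J
      · have hjs : j = s := by
          by_contra hne
          exact h ⟨hj, hne⟩
        rw [if_pos hj, if_pos hj, hjs, hcs]
        simp
      · rw [if_neg hj, if_neg hj, zero_smul, add_zero, BasI_lfv_add, BasI_lfv_smul, map_neg,
          add_div, mul_div_assoc, div_self (hLi 0)]
        ring

end Pool.Agent.Helper53.CX
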