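import Pool.Agent.Helper53.CX.St

/-!
# Project CX, module Bri: dictionary between the definitions of the statement and the auxiliary ones
-/

set_option autoImplicit false

open scoped BigOperators
open MvPolynomial

namespace Pool.Agent.Helper53.CX

theorem Bri_ext (hExt : StExt) {n : ℕ} (o : Pn n → ℤ)
    (h1 : ∀ p q, p ≠ 0 → q ≠ 0 → o (p * q) = o p + o q)
    (h2 : ∀ p q, p ≠ 0 → q ≠ 0 → p + q ≠ 0 → min (o p) (o q) ≤ o (p + q))
    (v : DivVal (Kn n)) :
    v.ord = extOrd o ↔ ∀ p : Pn n, p ≠ 0 → v.ord (algebraMap (Pn n) (Kn n) p) = o p := by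
  obtain ⟨e0, e1, -, e3⟩ := hExt n o h1 h2
  constructor
  · intro h p hp
    rw [h]
    exact e3 p hp
  · intro h
    funext f
    by_cases hf : f = 0
    · rw [hf, v.ord_zero, e0]
    obtain ⟨p, q, hq, hpq⟩ := IsFractionRing.div_surjective (A := Pn n) f
    have hq0 : q ≠ 0 := nonZeroDivisors.ne_zero hq
    have hQ : algebraMap (Pn n) (Kn n) q ≠ 0 := fun h0 =>
      hq0 ((IsFractionRing.injective (Pn n) (Kn n)) (h0.trans (map_zero _).symm))
    have hp0 : p ≠ 0 := by
      rintro rfl
      apply hf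
      rw [← hpq, map_zero, zero_div]
    have hmul : f * algebraMap (Pn n) (Kn n) q = algebraMap (Pn n) (Kn n) p := by
      rw [← hpq, div_mul_cancel₀ _ hQ]
    have a1 := v.ord_mul _ _ hf hQ
    have a2 := e1 _ _ hf hQ
    rw [hmul, h q hq0, h p hp0] at a1
    rw [hmul, e3 p hp0, e3 q hq0] at a2
    linarith

theorem Bri_monO {n : ℕ} (a : Fin n → ℤ) (p : Pn n) (hp : p ≠ 0) (k : ℤ) :
    k = monO a p ↔ (∀ m ∈ p.support, k ≤ wt a m) ∧ ∃ m ∈ p.support, k = wt a m := by
  classical
  have hne : p.support.Nonempty := MvPolynomial.support_nonempty.2 hp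
  unfold monO
  rw [dif_pos hne]
  constructor
  · rintro rfl
    refine ⟨fun m hm => Finset.inf'_le _ hm, ?_⟩
    obtain ⟨m, hm, h⟩ := Finset.exists_mem_eq_inf' hne (wt a)
    exact ⟨m, hm, h⟩
  · rintro ⟨h1, m, hm, h2⟩
    apply le_antisymm
    · exact (Finset.le_inf'_iff hne _).2 h1
    · rw [h2]
      exact Finset.inf'_le _ hm

theorem Bri_fin {n : ℕ} {P : Pn n} (hP : Irreducible P) {p : Pn n} (hp : p ≠ 0) :
    FiniteMultiplicity P p :=
  FiniteMultiplicity.of_not_isUnit hP.not_isUnit hp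

theorem Bri_mul {n : ℕ} {P : Pn n} (hP : Irreducible P) {p : Pn n} (hp : p ≠ 0) (k : ℤ) :
    k = (multiplicity P p : ℤ) ↔ ∃ (j : ℕ) (q : Pn n), p = P ^ j * q ∧ ¬ P ∣ q ∧ k = j := by
  constructor
  · rintro rfl
    obtain ⟨c, hc, hd⟩ := (Bri_fin hP hp).exists_eq_pow_mul_and_not_dvd
    exact ⟨multiplicity P p, c, hc, hd, rfl⟩
  · rintro ⟨j, q, hq, hd, rfl⟩
    have h : multiplicity P p = j := by
      apply multiplicity_eq_of_dvd_of_not_dvd
      · exact ⟨q, hq⟩
      · rintro ⟨r, hr⟩
        apply hd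
        refine ⟨r, ?_⟩
        have h0 : P ^ j ≠ 0 := pow_ne_zero _ hP.ne_zero
        apply mul_left_cancel₀ h0
        rw [← hq, hr]
        ring
    rw [h]

theorem Bri_monO_X {n : ℕ} (a : Fin n → ℤ) (j : Fin n) : monO a (X j : Pn n) = a j := by
  symm
  rw [Bri_monO a _ (X_ne_zero j)]
  have hs : (X j : Pn n).support = {Finsupp.single j 1} := support_X
  have hw : wt a (Finsupp.single j 1) = a j := by
    unfold wt
    rw [Finset.sum_eq_single j]
    · simp
    · intro b _ hb
      rw [Finsupp.single_apply, if_neg (fun h => hb h.symm)]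
      simp
    · intro h
      exact absurd (Finset.mem_univ j) h
  rw [hs]
  refine ⟨fun m hm => ?_, Finsupp.single j 1, Finset.mem_singleton_self _, hw.symm⟩
  rw [Finset.mem_singleton.1 hm, hw]

/-- **Bri.** -/
theorem hBri (hExt : StExt) (hMon : StMon) (hPad : StPad) : StBri := by
  intro n v
  have key1 : ∀ a : Fin n → ℤ, v.ord = monOrd a ↔
      ∀ p : Pn n, p ≠ 0 → v.ord (algebraMap (Pn n) (Kn n) p) = monO a p := fun a =>
    Bri_ext hExt (monO a) (hMon n a).1 (hMon n a).2 v
  have key2 : ∀ P : Pn n, Irreducible P → (v.ord = padOrd P ↔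
      ∀ p : Pn n, p ≠ 0 → v.ord (algebraMap (Pn n) (Kn n) p) = (multiplicity P p : ℤ)) := by
    intro P hP
    obtain ⟨h1, h2, -⟩ := hPad n P hP
    refine Bri_ext hExt (fun p => (multiplicity P p : ℤ)) ?_ ?_ v
    · intro p q hp hq
      show (multiplicity P (p * q) : ℤ) = multiplicity P p + multiplicity P q
      rw [h1 p q hp hq]
      push_cast
      rfl
    · intro p q hp hq hpq
      show min (multiplicity P p : ℤ) (multiplicity P q : ℤ) ≤ (multiplicity P (p + q) : ℤ)
      exact_mod_cast h2 p q hp hq hpq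
  refine ⟨fun a => ?_, fun P hP => ?_, fun a b ha hb => ?_, fun P Q hP hQ h1 h2 => ?_,
    fun a P hP ha hb => ?_⟩
  · rw [key1]
    unfold IsToric
    refine forall_congr' fun p => forall_congr' fun hp => ?_
    exact (Bri_monO a p hp _).symm
  · rw [key2 P hP]
    unfold IsPAdic
    refine forall_congr' fun p => forall_congr' fun hp => ?_
    exact (Bri_mul hP hp _).symm
  · funext j
    have e1 := (key1 a).1 ha (X j) (X_ne_zero j)
    have e2 := (key1 b).1 hb (X j) (X_ne_zero j)
    rw [Bri_monO_X] at e1 e2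
    rw [← e1, ← e2]
  · have e1 := (key2 P hP).1 h1 P hP.ne_zero
    have e2 := (key2 Q hQ).1 h2 P hP.ne_zero
    have e3 : 1 ≤ multiplicity P P := ((hPad n P hP).2.2 P hP.ne_zero).1 dvd_rfl
    have e4 : (multiplicity P P : ℤ) = multiplicity Q P := e1.symm.trans e2
    have e5 : 1 ≤ multiplicity Q P := by
      have : multiplicity P P = multiplicity Q P := by exact_mod_cast e4
      omega
    have e6 : Q ∣ P := ((hPad n Q hQ).2.2 P hP.ne_zero).2 e5
    exact (hQ.associated_of_dvd hP e6).symm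
  · have hz : ∀ j, a j = 0 := by
      intro j
      have e1 := (key1 a).1 ha (X j) (X_ne_zero j)
      have e2 := (key2 P hP.1).1 hb (X j) (X_ne_zero j)
      rw [Bri_monO_X] at e1
      have e3 : ¬ P ∣ X j := by
        intro hd
        exact hP.2 j (hP.1.associated_of_dvd (MvPolynomial.X_prime).irreducible hd)
      have e4 : multiplicity P (X j : Pn n) = 0 := by
        by_contra hne
        exact e3 (((hPad n P hP.1).2.2 (X j) (X_ne_zero j)).2 (by omega))
      rw [e4] at e2
      rw [← e1, e2]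
      rfl
    have e1 := (key1 a).1 ha P hP.1.ne_zero
    have e2 := (key2 P hP.1).1 hb P hP.1.ne_zero
    have e3 : 1 ≤ multiplicity P P := ((hPad n P hP.1).2.2 P hP.1.ne_zero).1 dvd_rfl
    obtain ⟨-, m, -, hm⟩ := (Bri_monO a P hP.1.ne_zero _).1 e1
    have hw : wt a m = 0 := by
      unfold wt
      exact Finset.sum_eq_zero fun j _ => by rw [hz j, zero_mul]
    rw [hw, e2] at hm
    have : multiplicity P P = 0 := by exact_mod_cast hm
    omega

end Pool.Agent.Helper53.CX
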