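import Pool.Agent.Helper53.CX.St

set_option autoImplicit false

open scoped BigOperators
open MvPolynomial

namespace Pool.Agent.Helper53.CX

/-! order functions on a field -/

section ordf

variable {K : Type} [Field K] (o : K → ℤ) (hmul : ∀ f g : K, f ≠ 0 → g ≠ 0 → o (f * g) = o f + o g)

include hmul

theorem MonL_one : o 1 = 0 := by
  have := hmul 1 1 one_ne_zero one_ne_zero
  rw [mul_one] at this
  omega

theorem MonL_inv {f : K} (hf : f ≠ 0) : o f⁻¹ = - o f := by
  have h := hmul f f⁻¹ hf (inv_ne_zero hf)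
  rw [mul_inv_cancel₀ hf, MonL_one o hmul] at h
  omega

theorem MonL_pow {f : K} (hf : f ≠ 0) (k : ℕ) : o (f ^ k) = k * o f := by
  induction k with
  | zero => rw [pow_zero, MonL_one o hmul]; simp
  | succ k ih => rw [pow_succ, hmul _ _ (pow_ne_zero _ hf) hf, ih]; push_cast; ring

theorem MonL_zpow {f : K} (hf : f ≠ 0) (k : ℤ) : o (f ^ k) = k * o f := by
  rcases k with k | k
  · rw [Int.ofNat_eq_natCast, zpow_natCast, MonL_pow o hmul hf]
  · rw [zpow_negSucc, MonL_inv o hmul (pow_ne_zero _ hf), MonL_pow o hmul hf, Int.negSucc_eq]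
    push_cast
    ring

theorem MonL_prod {ι : Type} (s : Finset ι) (g : ι → K) (hg : ∀ i ∈ s, g i ≠ 0) :
    o (∏ i ∈ s, g i) = ∑ i ∈ s, o (g i) := by
  classical
  induction s using Finset.induction_on with
  | empty => simpa using MonL_one o hmul
  | insert i s hi ih =>
    rw [Finset.prod_insert hi, Finset.sum_insert hi, hmul _ _ (hg i (Finset.mem_insert_self _ _))
      (Finset.prod_ne_zero_iff.mpr fun j hj => hg j (Finset.mem_insert_of_mem hj)),
      ih fun j hj => hg j (Finset.mem_insert_of_mem hj)]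

end ordf

theorem MonL_x_ne {n : ℕ} (j : Fin n) : (x j : Kn n) ≠ 0 := by
  unfold x
  rw [Ne, IsFractionRing.to_map_eq_zero_iff]
  exact X_ne_zero j

theorem MonL_xm_ne {n : ℕ} (u : Fin n → ℤ) : (xm u : Kn n) ≠ 0 := by
  unfold xm
  exact Finset.prod_ne_zero_iff.mpr fun j _ => zpow_ne_zero _ (MonL_x_ne j)

theorem MonL_xm {n : ℕ} (o : Kn n → ℤ)
    (hmul : ∀ f g : Kn n, f ≠ 0 → g ≠ 0 → o (f * g) = o f + o g) (u : Fin n → ℤ) :
    o (xm u) = ∑ j, u j * o (x j) := by
  unfold xm
  rw [MonL_prod o hmul _ _ fun j _ => zpow_ne_zero _ (MonL_x_ne j)]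
  exact Finset.sum_congr rfl fun j _ => MonL_zpow o hmul (MonL_x_ne j) _

theorem MonL_monO {n : ℕ} (a : Fin n → ℤ) (p : Pn n) (hp : p ≠ 0) :
    (∃ m ∈ p.support, monO a p = wt a m) ∧ ∀ m ∈ p.support, monO a p ≤ wt a m := by
  have h : p.support.Nonempty := by
    rw [Finset.nonempty_iff_ne_empty, Ne, MvPolynomial.support_eq_empty]
    exact hp
  unfold monO
  rw [dif_pos h]
  refine ⟨?_, fun m hm => Finset.inf'_le _ hm⟩
  obtain ⟨m, hm, he⟩ := Finset.exists_mem_eq_inf' h (wt a)
  exact ⟨m, hm, he⟩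

theorem MonL_wt_smul {n : ℕ} (k : ℕ) (a : Fin n → ℤ) (m : Fin n →₀ ℕ) :
    wt ((k : ℤ) • a) m = k * wt a m := by
  unfold wt
  rw [Finset.mul_sum]
  refine Finset.sum_congr rfl fun j _ => ?_
  rw [Pi.smul_apply, smul_eq_mul]
  ring

theorem MonL_monO_smul {n : ℕ} (k : ℕ) (a : Fin n → ℤ) (p : Pn n) :
    monO ((k : ℤ) • a) p = k * monO a p := by
  by_cases hp : p = 0
  · subst hp
    unfold monO
    simp
  · obtain ⟨⟨m, hm, he⟩, hle⟩ := MonL_monO a p hp
    obtain ⟨⟨m', hm', he'⟩, hle'⟩ := MonL_monO ((k : ℤ) • a) p hp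
    apply le_antisymm
    · rw [he, ← MonL_wt_smul]
      exact hle' m hm
    · rw [he', MonL_wt_smul]
      exact mul_le_mul_of_nonneg_left (hle m' hm') (by positivity)

theorem MonL_wt_add {n : ℕ} (a b : Fin n → ℤ) (m : Fin n →₀ ℕ) :
    wt (a + b) m = wt a m + wt b m := by
  unfold wt
  rw [← Finset.sum_add_distrib]
  refine Finset.sum_congr rfl fun j _ => ?_
  rw [Pi.add_apply]
  ring

theorem MonL_monO_X {n : ℕ} (a : Fin n → ℤ) (j : Fin n) : monO a (X j : Pn n) = a j := by
  obtain ⟨⟨m, hm, he⟩, -⟩ := MonL_monO a (X j) (X_ne_zero j)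
  rw [support_X, Finset.mem_singleton] at hm
  rw [he, hm]
  unfold wt
  rw [Finset.sum_eq_single j]
  · simp
  · intro i _ hi
    rw [Finsupp.single_eq_of_ne hi]
    simp
  · intro h; exact absurd (Finset.mem_univ _) h

theorem MonL_const {n : ℕ} (v : DivVal (Kn n)) (c : ℂ) (hc : c ≠ 0) :
    v.ord (algebraMap ℂ (Kn n) c) = 0 := by
  obtain ⟨R, -, h2, -⟩ := v.exists_model
  have hne : algebraMap ℂ (Kn n) c ≠ 0 := by
    rw [Ne, map_eq_zero]; exact hc
  have h3 := h2 _ (R.algebraMap_mem c) hne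
  have h4 := h2 _ (R.algebraMap_mem c⁻¹) (by rw [Ne, map_eq_zero]; exact inv_ne_zero hc)
  rw [map_inv₀, MonL_inv v.ord v.ord_mul hne] at h4
  omega

theorem MonL_sum {n : ℕ} (v : DivVal (Kn n)) (B : ℤ) {ι : Type} (s : Finset ι) (g : ι → Kn n)
    (hg : ∀ i ∈ s, g i ≠ 0 → B ≤ v.ord (g i)) :
    ∑ i ∈ s, g i ≠ 0 → B ≤ v.ord (∑ i ∈ s, g i) := by
  classical
  induction s using Finset.induction_on with
  | empty => intro h; simp at h
  | insert i s hi ih =>
    rw [Finset.sum_insert hi]
    intro h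
    by_cases h1 : g i = 0
    · rw [h1, zero_add] at h ⊢
      exact ih (fun j hj => hg j (Finset.mem_insert_of_mem hj)) h
    · by_cases h2 : ∑ j ∈ s, g j = 0
      · rw [h2, add_zero]
        exact hg i (Finset.mem_insert_self _ _) h1
      · have h3 := ih (fun j hj => hg j (Finset.mem_insert_of_mem hj)) h2
        have h4 := hg i (Finset.mem_insert_self _ _) h1
        exact le_trans (le_min h4 h3) (v.ord_add _ _ h1 h2 h)

theorem MonL_monomial {n : ℕ} (m : Fin n →₀ ℕ) (c : ℂ) :
    algebraMap (Pn n) (Kn n) (monomial m c) =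
      algebraMap ℂ (Kn n) c * ∏ j, (x j) ^ (m j) := by
  rw [monomial_eq, map_mul, Finsupp.prod_fintype _ _ (fun i => pow_zero _), map_prod]
  congr 1
  refine Finset.prod_congr rfl fun j _ => ?_
  rw [map_pow]
  rfl

theorem MonL_ord_alg {n : ℕ} (v : DivVal (Kn n)) (p : Pn n) (hp : p ≠ 0) :
    monO (fun j => v.ord (x j)) p ≤ v.ord (algebraMap (Pn n) (Kn n) p) := by
  have hne : algebraMap (Pn n) (Kn n) p ≠ 0 := by
    rw [Ne, IsFractionRing.to_map_eq_zero_iff]; exact hp
  have hs : algebraMap (Pn n) (Kn n) p =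
      ∑ m ∈ p.support, algebraMap (Pn n) (Kn n) (monomial m (coeff m p)) := by
    conv_lhs => rw [p.as_sum]
    rw [map_sum]
  rw [hs] at hne ⊢
  refine MonL_sum v _ _ _ ?_ hne
  intro m hm _
  have hc : coeff m p ≠ 0 := mem_support_iff.mp hm
  rw [MonL_monomial, v.ord_mul _ _ (by rw [Ne, map_eq_zero]; exact hc)
    (Finset.prod_ne_zero_iff.mpr fun j _ => pow_ne_zero _ (MonL_x_ne j)), MonL_const v _ hc,
    MonL_prod v.ord v.ord_mul _ _ (fun j _ => pow_ne_zero _ (MonL_x_ne j)), zero_add]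
  refine ((MonL_monO _ p hp).2 m hm).trans (le_of_eq ?_)
  unfold wt
  refine Finset.sum_congr rfl fun j _ => ?_
  rw [MonL_pow v.ord v.ord_mul (MonL_x_ne j)]
  ring

theorem hMonL (hExt : StExt) (hMon : StMon) : StMonL := by
  intro n
  have E := fun a : Fin n → ℤ => hExt n (monO a) (hMon n a).1 (hMon n a).2
  have hx : ∀ (a : Fin n → ℤ) (j : Fin n), monOrd a (x j : Kn n) = a j := by
    intro a j
    have := (E a).2.2.2 (X j) (X_ne_zero j)
    rw [MonL_monO_X] at this
    exact this
  have hxm : ∀ (a u : Fin n → ℤ), monOrd a (xm u : Kn n) = ∑ j, u j * a j := by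
    intro a u
    rw [MonL_xm (monOrd a) (E a).2.1 u]
    exact Finset.sum_congr rfl fun j _ => by rw [hx]
  have hL : ∀ (a u : Fin n → ℤ) (p : Pn n), p ≠ 0 →
      monOrd a (algebraMap (Pn n) (Kn n) p * xm u) = monO a p + ∑ j, u j * a j := by
    intro a u p hp
    have h1 := (E a).2.1 (algebraMap (Pn n) (Kn n) p) (xm u)
      (by rw [Ne, IsFractionRing.to_map_eq_zero_iff]; exact hp) (MonL_xm_ne u)
    have h2 := (E a).2.2.2 p hp
    have h3 := hxm a u
    unfold monOrd at h3 ⊢
    rw [h1, h2, h3]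
  refine ⟨?_, ?_, ?_, ?_⟩
  · intro k a f
    unfold monOrd extOrd
    split_ifs with h
    · simp
    · rw [MonL_monO_smul, MonL_monO_smul]
      ring
  · rintro a b f ⟨p, u, rfl⟩ hf
    have hp : p ≠ 0 := by
      rintro rfl
      simp at hf
    rw [hL a u p hp, hL b u p hp, hL (a + b) u p hp]
    obtain ⟨⟨m, hm, he⟩, -⟩ := MonL_monO (a + b) p hp
    rw [he, MonL_wt_add]
    have h1 := (MonL_monO a p hp).2 m hm
    have h2 := (MonL_monO b p hp).2 m hm
    have h3 : ∑ j, u j * (a + b) j = ∑ j, u j * a j + ∑ j, u j * b j := by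
      rw [← Finset.sum_add_distrib]
      exact Finset.sum_congr rfl fun j _ => by rw [Pi.add_apply]; ring
    rw [h3]
    linarith
  · rintro v f ⟨p, u, rfl⟩ hf
    have hp : p ≠ 0 := by
      rintro rfl
      simp at hf
    have h0 : algebraMap (Pn n) (Kn n) p ≠ 0 := by
      rw [Ne, IsFractionRing.to_map_eq_zero_iff]; exact hp
    rw [hL _ u p hp, v.ord_mul _ _ h0 (MonL_xm_ne u), MonL_xm v.ord v.ord_mul u]
    exact add_le_add_left (MonL_ord_alg v p hp) _
  · intro P hP u hall
    have hP0 : P ≠ 0 := hP.1.ne_zero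
    have h1 : ∀ a : Fin n → ℤ, monO a P = ∑ j, u j * a j := by
      intro a
      rw [← hall a]
      exact ((E a).2.2.2 P hP0).symm
    have h2 : ∀ m ∈ P.support, ∀ j, (m j : ℤ) = u j := by
      intro m hm j
      have key : ∀ e : ℤ, ∑ i, u i * (Pi.single j e : Fin n → ℤ) i = u j * e := by
        intro e
        rw [Finset.sum_eq_single j]
        · simp
        · intro i _ hi
          rw [Pi.single_eq_of_ne hi]
          simp
        · intro h; exact absurd (Finset.mem_univ _) h
      have key2 : ∀ e : ℤ, wt (Pi.single j e : Fin n → ℤ) m = e * m j := by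
        intro e
        unfold wt
        rw [Finset.sum_eq_single j]
        · simp
        · intro i _ hi
          rw [Pi.single_eq_of_ne hi]
          simp
        · intro h; exact absurd (Finset.mem_univ _) h
      have h3 := (MonL_monO (Pi.single j (1 : ℤ)) P hP0).2 m hm
      have h4 := (MonL_monO (Pi.single j (-1 : ℤ)) P hP0).2 m hm
      rw [h1, key, key2] at h3 h4
      linarith
    obtain ⟨m, hm⟩ : P.support.Nonempty := by
      rw [Finset.nonempty_iff_ne_empty, Ne, MvPolynomial.support_eq_empty]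
      exact hP0
    have h5 : P = monomial m (coeff m P) := by
      have hsup : P.support = {m} := by
        ext m'
        rw [Finset.mem_singleton]
        constructor
        · intro hm'
          ext j
          have := (h2 m' hm' j).trans (h2 m hm j).symm
          exact_mod_cast this
        · rintro rfl; exact hm
      conv_lhs => rw [P.as_sum, hsup, Finset.sum_singleton]
    have hc : coeff m P ≠ 0 := mem_support_iff.mp hm
    by_cases hm0 : m = 0
    · apply hP.1.not_isUnit
      rw [h5, hm0]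
      rw [hm0] at hc
      exact (isUnit_iff_ne_zero.mpr hc).map (C : ℂ →+* Pn n)
    · obtain ⟨j, hj⟩ : ∃ j, m j ≠ 0 := by
        by_contra hcon
        push Not at hcon
        exact hm0 (Finsupp.ext hcon)
      have hd : (X j : Pn n) ∣ P := by
        rw [h5, X_dvd_monomial]
        exact Or.inr hj
      exact hP.2 j ((X_prime (i := j) (R := ℂ)).irreducible.associated_of_dvd hP.1 hd).symm

end Pool.Agent.Helper53.CX
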