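import Pool.Agent.Helper53.CX.St
import Pool.Agent.Helper53.CX.St2
import Pool.Agent.Helper53.CX.M_MonL
import Pool.Agent.Helper53.CX.M_Mon

/-!
# Project CX part 2, module Fil: the function of the Newton polytopes is a minimum over an index set
-/

set_option autoImplicit false

open scoped BigOperators
open MvPolynomial

namespace Pool.Agent.Helper53.CX

theorem Fil_arch {δ K : ℤ} (h : ∀ m : ℕ, 1 ≤ m → K ≤ (m : ℤ) * δ) : 0 ≤ δ := by
  by_contra hc
  push Not at hc
  have h1 := h (K.natAbs + 1) (by omega)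
  have h2 : ((K.natAbs + 1 : ℕ) : ℤ) * δ ≤ ((K.natAbs + 1 : ℕ) : ℤ) * (-1) :=
    mul_le_mul_of_nonneg_left (by omega) (by positivity)
  omega

/-- combinatorial part -/
theorem Fil_comb {n : ℕ} (φ : (Fin (n + 1) → ℤ) → ℤ) (h1 : ∀ w w', φ w + φ w' ≤ φ (w + w'))
    (h2 : ∀ (k : ℕ) (w : Fin (n + 1) → ℤ), φ ((k : ℤ) • w) = k * φ w)
    (h3 : ∀ (w : Fin (n + 1) → ℤ) (c : ℤ), φ (w + fun _ => c) = φ w + c)
    (h4 : ∀ w : Fin (n + 1) → ℤ, 0 ≤ w → 0 ≤ φ w) :
    ∃ (J : Finset (Fin (n + 1))) (hJ : J.Nonempty), ∀ w, φ w = J.inf' hJ w := by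
  classical
  have h0 : φ 0 = 0 := by
    have := h2 0 0
    simpa using this
  have hmono : ∀ w w' : Fin (n + 1) → ℤ, w ≤ w' → φ w ≤ φ w' := by
    intro w w' h
    have e1 := h1 w (w' - w)
    have e2 := h4 (w' - w) (sub_nonneg.2 h)
    rw [add_sub_cancel] at e1
    linarith
  let ind : Finset (Fin (n + 1)) → Fin (n + 1) → ℤ := fun S i => if i ∈ S then 1 else 0
  have htop : 1 ≤ φ (ind ⊤) := by
    have e : ind ⊤ = 0 + fun _ => (1 : ℤ) := by
      funext i
      simp [ind]
    rw [e, h3, h0]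
    norm_num
  have hinter : ∀ S, 1 ≤ φ (ind S) → ∀ S', 1 ≤ φ (ind S') → 1 ≤ φ (ind (S ⊓ S')) := by
    intro S hS S' hS'
    have e1 := h1 (ind S) (ind S')
    have e2 : φ (ind S + ind S') ≤ φ (ind (S ⊓ S') + fun _ => (1 : ℤ)) := by
      apply hmono
      intro i
      simp only [ind, Pi.add_apply, Finset.inf_eq_inter, Finset.mem_inter]
      by_cases a : i ∈ S <;> by_cases b : i ∈ S' <;> simp [a, b]
    rw [h3] at e2
    linarith
  set J : Finset (Fin (n + 1)) := (Finset.univ.filter (fun S : Finset (Fin (n + 1)) => 1 ≤ φ (ind S))).inf id with hJd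
  have hJ1 : 1 ≤ φ (ind J) := by
    refine Finset.inf_induction (p := fun S => 1 ≤ φ (ind S)) htop hinter ?_
    intro S hS
    exact (Finset.mem_filter.1 hS).2
  have hJmin : ∀ S, 1 ≤ φ (ind S) → J ≤ S := by
    intro S hS
    exact Finset.inf_le (f := id) (Finset.mem_filter.2 ⟨Finset.mem_univ S, hS⟩)
  have hJne : J.Nonempty := by
    rw [Finset.nonempty_iff_ne_empty]
    intro he
    have e : ind J = 0 := by
      funext i
      simp [ind, he]
    rw [e, h0] at hJ1
    omega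
  refine ⟨J, hJne, fun w => ?_⟩
  set c0 := J.inf' hJne w with hc0
  -- a large constant
  obtain ⟨K, hK1, hK2⟩ : ∃ K : ℕ, (∀ i, -(K : ℤ) ≤ w i) ∧ ∀ i, w i ≤ K := by
    refine ⟨∑ i, (w i).natAbs, fun i => ?_, fun i => ?_⟩
    · have := Finset.single_le_sum (f := fun i => (w i).natAbs) (fun j _ => Nat.zero_le _) (Finset.mem_univ i)
      have : ((w i).natAbs : ℤ) ≤ ((∑ i, (w i).natAbs : ℕ) : ℤ) := by exact_mod_cast this
      omega
    · have := Finset.single_le_sum (f := fun i => (w i).natAbs) (fun j _ => Nat.zero_le _) (Finset.mem_univ i)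
      have : ((w i).natAbs : ℤ) ≤ ((∑ i, (w i).natAbs : ℕ) : ℤ) := by exact_mod_cast this
      omega
  obtain ⟨j, hjJ, hj⟩ := Finset.exists_mem_eq_inf' hJne w
  rw [← hc0] at hj
  apply le_antisymm
  · -- upper bound
    set S := (Finset.univ : Finset (Fin (n + 1))).erase j with hS
    have hS0 : φ (ind S) ≤ 0 := by
      by_contra hcon
      push Not at hcon
      have := hJmin S (by omega) hjJ
      rw [hS] at this
      exact Finset.notMem_erase j _ this
    have hk : ∀ i, w i - c0 ≤ ((2 * K : ℕ) : ℤ) := by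
      intro i
      have a := hK2 i
      have b := hK1 j
      rw [← hj] at b
      push_cast
      linarith
    have e1 : φ (w + fun _ => -c0) ≤ φ (((2 * K : ℕ) : ℤ) • ind S) := by
      apply hmono
      intro i
      have := hk i
      simp only [ind, Pi.add_apply, Pi.smul_apply, smul_eq_mul, hS, Finset.mem_erase, Finset.mem_univ, and_true]
      by_cases hi : i = j
      · subst hi
        simp only [ne_eq, not_true_eq_false, if_false, mul_zero]
        rw [hj]
        omega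
      · simp only [ne_eq, hi, not_false_eq_true, if_true, mul_one]
        linarith
    rw [h3, h2] at e1
    have e2 : ((2 * K : ℕ) : ℤ) * φ (ind S) ≤ 0 := mul_nonpos_of_nonneg_of_nonpos (by positivity) hS0
    linarith
  · -- lower bound
    have hc0K : 0 ≤ c0 + K := by
      have := hK1 j
      rw [← hj] at this
      linarith
    obtain ⟨t, ht⟩ := Int.eq_ofNat_of_zero_le hc0K
    have e1 : φ ((t : ℤ) • ind J) ≤ φ (w + fun _ => (K : ℤ)) := by
      apply hmono
      intro i
      simp only [ind, Pi.add_apply, Pi.smul_apply, smul_eq_mul]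
      by_cases hi : i ∈ J
      · rw [if_pos hi, mul_one]
        have : c0 ≤ w i := Finset.inf'_le _ hi
        linarith
      · rw [if_neg hi, mul_zero]
        have := hK1 i
        linarith
    rw [h3, h2] at e1
    have e2 : (t : ℤ) * 1 ≤ t * φ (ind J) := mul_le_mul_of_nonneg_left hJ1 (by positivity)
    linarith

theorem Fil_deg {n D : ℕ} {G : Pn n} (hG : G.IsHomogeneous D) {μ : Fin n →₀ ℕ}
    (hμ : μ ∈ G.support) : ∑ j, μ j = D := by
  have h := hG (mem_support_iff.1 hμ)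
  rw [Finsupp.weight_apply, Finsupp.sum_fintype _ _ (by simp)] at h
  simpa using h

theorem Fil_low_le {n D : ℕ} (F : FormSys n D) (w : Fin (n + 1) → ℤ) {G : Pn (n + 1)}
    (hG : G ∈ F.gens) {μ : Fin (n + 1) →₀ ℕ} (hμ : μ ∈ G.support) : F.low w ≤ wt w μ :=
  (Finset.inf'_le _ hG).trans (Mon_le w (F.ne_zero G hG) hμ)

theorem Fil_low_ex {n D : ℕ} (F : FormSys n D) (w : Fin (n + 1) → ℤ) :
    ∃ G ∈ F.gens, ∃ μ ∈ G.support, F.low w = wt w μ := by
  obtain ⟨G, hG, he⟩ := Finset.exists_mem_eq_inf' F.nonempty (fun G => monO w G)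
  obtain ⟨μ, hμ, he'⟩ := Mon_ex w (F.ne_zero G hG)
  exact ⟨G, hG, μ, hμ, he.trans he'⟩

theorem Fil_low_add {n D : ℕ} (F : FormSys n D) (w w' : Fin (n + 1) → ℤ) :
    F.low w + F.low w' ≤ F.low (w + w') := by
  obtain ⟨G, hG, μ, hμ, he⟩ := Fil_low_ex F (w + w')
  rw [he, MonL_wt_add]
  exact add_le_add (Fil_low_le F w hG hμ) (Fil_low_le F w' hG hμ)

theorem Fil_low_smul {n D : ℕ} (F : FormSys n D) (k : ℕ) (w : Fin (n + 1) → ℤ) :
    F.low ((k : ℤ) • w) = k * F.low w := by
  apply le_antisymm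
  · obtain ⟨G, hG, μ, hμ, he⟩ := Fil_low_ex F w
    rw [he, ← MonL_wt_smul]
    exact Fil_low_le F _ hG hμ
  · obtain ⟨G, hG, μ, hμ, he⟩ := Fil_low_ex F ((k : ℤ) • w)
    rw [he, MonL_wt_smul]
    exact mul_le_mul_of_nonneg_left (Fil_low_le F w hG hμ) (by positivity)

theorem Fil_wt_const {n D : ℕ} (F : FormSys n D) (c : ℤ) {G : Pn (n + 1)}
    (hG : G ∈ F.gens) {μ : Fin (n + 1) →₀ ℕ} (hμ : μ ∈ G.support) : wt (fun _ => c) μ = D * c := by
  have h := Fil_deg (F.homog G hG) hμ
  unfold wt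
  rw [← Finset.mul_sum, ← h]
  push_cast
  ring

theorem Fil_low_const {n D : ℕ} (F : FormSys n D) (w : Fin (n + 1) → ℤ) (c : ℤ) :
    F.low (w + fun _ => c) = F.low w + D * c := by
  apply le_antisymm
  · obtain ⟨G, hG, μ, hμ, he⟩ := Fil_low_ex F w
    rw [he, ← Fil_wt_const F c hG hμ, ← MonL_wt_add]
    exact Fil_low_le F _ hG hμ
  · obtain ⟨G, hG, μ, hμ, he⟩ := Fil_low_ex F (w + fun _ => c)
    rw [he, MonL_wt_add, Fil_wt_const F c hG hμ]
    have := Fil_low_le F w hG hμ
    linarith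

theorem Fil_low_nonneg {n D : ℕ} (F : FormSys n D) (w : Fin (n + 1) → ℤ) (hw : 0 ≤ w) : 0 ≤ F.low w := by
  obtain ⟨G, hG, μ, hμ, he⟩ := Fil_low_ex F w
  rw [he]
  unfold wt
  exact Finset.sum_nonneg fun j _ => mul_nonneg (hw j) (by positivity)

/-- dehomogenisation -/
theorem Fil_ev {n D : ℕ} {G : Pn (n + 1)} (hG : G.IsHomogeneous D) (hG0 : G ≠ 0) :
    ∃ G' : Pn n, G' ≠ 0 ∧ ev G = algebraMap (Pn n) (Kn n) G' ∧
      ∀ a : Fin n → ℤ, monO a G' = monO (Fin.cons 0 a) G := by
  classical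
  set G' : Pn n := ∑ μ ∈ G.support, monomial (Finsupp.tail μ) (coeff μ G) with hG'
  have hinj : ∀ μ ∈ G.support, ∀ ν ∈ G.support, Finsupp.tail μ = Finsupp.tail ν → μ = ν := by
    intro μ hμ ν hν h
    have h1 := Fil_deg hG hμ
    have h2 := Fil_deg hG hν
    rw [Fin.sum_univ_succ] at h1 h2
    have h3 : ∀ j : Fin n, μ j.succ = ν j.succ := fun j => by
      have := DFunLike.congr_fun h j
      simpa [Finsupp.tail_apply] using this
    have h4 : ∑ j : Fin n, μ j.succ = ∑ j : Fin n, ν j.succ := Finset.sum_congr rfl fun j _ => h3 j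
    ext j
    refine Fin.cases ?_ (fun j => h3 j) j
    omega
  have hcoeff : ∀ μ ∈ G.support, coeff (Finsupp.tail μ) G' = coeff μ G := by
    intro μ hμ
    rw [hG', coeff_sum, Finset.sum_eq_single μ]
    · rw [coeff_monomial, if_pos rfl]
    · intro ν hν hne
      rw [coeff_monomial, if_neg]
      exact fun h => hne (hinj ν hν μ hμ h)
    · exact fun h => absurd hμ h
  have hsupp : ∀ ν ∈ G'.support, ∃ μ ∈ G.support, Finsupp.tail μ = ν := by
    intro ν hν
    rw [mem_support_iff, hG', coeff_sum] at hν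
    obtain ⟨μ, hμ, h⟩ := Finset.exists_ne_zero_of_sum_ne_zero hν
    refine ⟨μ, hμ, ?_⟩
    by_contra hne
    rw [coeff_monomial, if_neg hne] at h
    exact h rfl
  have hmem : ∀ μ ∈ G.support, Finsupp.tail μ ∈ G'.support := by
    intro μ hμ
    rw [mem_support_iff, hcoeff μ hμ]
    exact mem_support_iff.1 hμ
  have hG'0 : G' ≠ 0 := by
    obtain ⟨μ, hμ⟩ := Mon_nonempty hG0
    intro h
    have := hmem μ hμ
    rw [h] at this
    simp at this
  have hwt : ∀ (a : Fin n → ℤ) (μ : Fin (n + 1) →₀ ℕ), wt (Fin.cons 0 a : Fin (n + 1) → ℤ) μ = wt a (Finsupp.tail μ) := by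
    intro a μ
    unfold wt
    rw [Fin.sum_univ_succ]
    simp [Finsupp.tail_apply]
  refine ⟨G', hG'0, ?_, fun a => ?_⟩
  · rw [hG', map_sum, ev]
    conv_lhs => rw [G.as_sum]
    rw [map_sum]
    refine Finset.sum_congr rfl fun μ _ => ?_
    rw [MonL_monomial, aeval_monomial, Finsupp.prod_fintype _ _ (fun i => pow_zero _)]
    congr 1
    rw [Fin.prod_univ_succ]
    simp [hx, Finsupp.tail_apply]
  · apply le_antisymm
    · obtain ⟨μ, hμ, he⟩ := Mon_ex (Fin.cons 0 a : Fin (n + 1) → ℤ) hG0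
      rw [he, hwt]
      exact Mon_le a hG'0 (hmem μ hμ)
    · obtain ⟨ν, hν, he⟩ := Mon_ex a hG'0
      obtain ⟨μ, hμ, rfl⟩ := hsupp ν hν
      rw [he, ← hwt]
      exact Mon_le _ hG0 hμ

theorem Fil_div_le {n D : ℕ} (F : FormSys n D) (v : DivVal (Kn n)) :
    F.div v ≤ - F.low (Fin.cons 0 (fun j => v.ord (x j))) := by
  refine Finset.sup'_le _ _ fun G hG => ?_
  obtain ⟨G', h0, he, hm⟩ := Fil_ev (F.homog G hG) (F.ne_zero G hG)
  have h1 : F.low (Fin.cons 0 (fun j => v.ord (x j))) ≤ monO (Fin.cons 0 (fun j => v.ord (x j))) G :=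
    Finset.inf'_le _ hG
  have h2 := MonL_ord_alg v G' h0
  rw [hm, ← he] at h2
  linarith

theorem Fil_div_eq (hExt : StExt) (hMon : StMon) {n D : ℕ} (F : FormSys n D) (a : Fin n → ℤ)
    (v : DivVal (Kn n)) (hv : v.ord = monOrd a) : F.div v = - F.low (Fin.cons 0 a) := by
  have key : ∀ G ∈ F.gens, v.ord (ev G) = monO (Fin.cons 0 a : Fin (n + 1) → ℤ) G := by
    intro G hG
    obtain ⟨G', h0, he, hm⟩ := Fil_ev (F.homog G hG) (F.ne_zero G hG)
    rw [he, hv, monOrd, (hExt n (monO a) (hMon n a).1 (hMon n a).2).2.2.2 G' h0, hm]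
  apply le_antisymm
  · refine Finset.sup'_le _ _ fun G hG => ?_
    rw [key G hG]
    have h1 : F.low (Fin.cons 0 a) ≤ monO (Fin.cons 0 a : Fin (n + 1) → ℤ) G := Finset.inf'_le _ hG
    linarith
  · obtain ⟨G, hG, he⟩ := Finset.exists_mem_eq_inf' F.nonempty (fun G => monO (Fin.cons 0 a : Fin (n + 1) → ℤ) G)
    have h1 : F.low (Fin.cons 0 a) = monO (Fin.cons 0 a : Fin (n + 1) → ℤ) G := he
    rw [h1, ← key G hG]
    exact Finset.le_sup' (fun G => - v.ord (ev G)) hG

theorem hFil (hExt : StExt) (hMon : StMon) : StFil := by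
  intro n M φ hφ
  obtain ⟨α, A, H⟩ := hφ
  refine ⟨?_, fun v => ?_, fun a v hv => ?_⟩
  · apply Fil_comb
    · intro w w'
      have h : 0 ≤ φ (w + w') - (φ w + φ w') := by
        apply Fil_arch (K := A.low w + A.low w' - A.low (w + w'))
        intro m hm
        obtain ⟨N, F, hN, -, hF⟩ := H m hm
        have h1 := Fil_low_add F w w'
        rw [hF, hF, hF] at h1
        have hN' : (0 : ℤ) < N := by exact_mod_cast hN
        have h2 : (N : ℤ) * ((m * φ w + A.low w) + (m * φ w' + A.low w')) ≤ N * (m * φ (w + w') + A.low (w + w')) := by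
          linarith
        have h3 := le_of_mul_le_mul_left h2 hN'
        linarith
      linarith
    · intro k w
      obtain ⟨N, F, hN, -, hF⟩ := H 1 le_rfl
      have h1 := Fil_low_smul F k w
      rw [hF, hF, Fil_low_smul] at h1
      have hN' : (N : ℤ) ≠ 0 := by
        have : (0 : ℤ) < N := by exact_mod_cast hN
        omega
      apply mul_left_cancel₀ hN'
      push_cast at h1
      linarith
    · intro w c
      obtain ⟨N, F, hN, -, hF⟩ := H 1 le_rfl
      have h1 := Fil_low_const F w c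
      rw [hF, hF, Fil_low_const] at h1
      have hN' : (N : ℤ) ≠ 0 := by
        have : (0 : ℤ) < N := by exact_mod_cast hN
        omega
      apply mul_left_cancel₀ hN'
      push_cast at h1
      linarith
    · intro w hw
      apply Fil_arch (K := - A.low w)
      intro m hm
      obtain ⟨N, F, hN, -, hF⟩ := H m hm
      have h1 := Fil_low_nonneg F w hw
      rw [hF] at h1
      have hN' : (0 : ℤ) < N := by exact_mod_cast hN
      have h2 := nonneg_of_mul_nonneg_right h1 hN'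
      linarith
  · have h : 0 ≤ - M v - φ (Fin.cons 0 (fun j => v.ord (x j))) := by
      apply Fil_arch (K := A.low (Fin.cons 0 (fun j => v.ord (x j))) + A.div v)
      intro m hm
      obtain ⟨N, F, hN, hM, hF⟩ := H m hm
      have h1 := Fil_div_le F v
      rw [hF, ← hM] at h1
      have hN' : (0 : ℤ) < N := by exact_mod_cast hN
      have h2 : (N : ℤ) * (m * M v + A.div v) ≤
          N * (-(m * φ (Fin.cons 0 (fun j => v.ord (x j))) + A.low (Fin.cons 0 (fun j => v.ord (x j))))) := by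
        linarith
      have h3 := le_of_mul_le_mul_left h2 hN'
      linarith
    linarith
  · obtain ⟨N, F, hN, hM, hF⟩ := H 1 le_rfl
    have h1 := Fil_div_eq hExt hMon F a v hv
    rw [hF, ← hM, Fil_div_eq hExt hMon A a v hv] at h1
    have hN' : (N : ℤ) ≠ 0 := by
      have : (0 : ℤ) < N := by exact_mod_cast hN
      omega
    apply mul_left_cancel₀ hN'
    push_cast at h1
    linarith

end Pool.Agent.Helper53.CX
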