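import Pool.Agent.Helper53.CX.St
import Pool.Agent.Helper53.CX.St2
import Pool.Agent.Helper53.CX.M_Fil

/-!
# Project CX part 2, module CI: lower bound outside the base locus
-/

set_option autoImplicit false

open scoped BigOperators
open MvPolynomial

namespace Pool.Agent.Helper53.CX

theorem hCI (hIz : StIz) : StCI := by
  intro n M φ J hJ hφ hJφ h0 v hv
  obtain ⟨C, hC⟩ := hIz n v hv
  obtain ⟨α, A, H⟩ := hφ
  set w : Fin (n + 1) → ℤ := Fin.cons 0 (fun _ => 1) with hw
  have hφw : φ w = 0 := by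
    rw [hJφ]
    apply le_antisymm
    · have := Finset.inf'_le (f := w) (s := J) h0
      simpa [hw] using this
    · refine Finset.le_inf' _ _ fun j _ => ?_
      refine Fin.cases ?_ (fun j => ?_) j
      · simp [hw]
      · simp [hw]
  apply Fil_arch (K := - (C : ℤ) * A.low w - A.div v)
  intro m hm
  obtain ⟨N, F, hN, hM, hF⟩ := H m hm
  have hN' : (0 : ℤ) < N := by exact_mod_cast hN
  obtain ⟨G, hG, he⟩ := Finset.exists_mem_eq_inf' F.nonempty (fun G => monO w G)
  obtain ⟨G', hG'0, hev, hmon⟩ := Fil_ev (F.homog G hG) (F.ne_zero G hG)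
  obtain ⟨ν, hν, hν'⟩ := Mon_ex (fun _ => (1 : ℤ)) hG'0
  have h1 : (∑ j, (ν j : ℤ)) = F.low w := by
    have e1 : F.low w = monO w G := he
    rw [e1, hw, ← hmon, hν']
    simp [wt]
  have h2 := hC G' ν hν
  rw [← hev, h1, hF, hφw] at h2
  have h3 : - v.ord (ev G) ≤ F.div v := Finset.le_sup' (fun G => - v.ord (ev G)) hG
  rw [← hM] at h3
  have h4 : (N : ℤ) * (- (C : ℤ) * A.low w) ≤ N * (m * M v + A.div v) := by
    have : (N : ℤ) * (- (C : ℤ) * A.low w) = - ((C : ℤ) * (N * (m * 0 + A.low w))) := by ring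
    rw [this]
    linarith
  have h5 := le_of_mul_le_mul_left h4 hN'
  linarith

end Pool.Agent.Helper53.CX
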