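import Pool.Agent.Helper53.CX.St
import Pool.Agent.Helper53.CX.St2
import Pool.Agent.Helper53.CX.M_MonL

/-!
# Project CX, part 2: module CII (lower bound at the base locus)
-/

set_option autoImplicit false

open scoped BigOperators
open MvPolynomial

namespace Pool.Agent.Helper53.CX

/-- exponents in the chart -/
noncomputable def CII_map {n : ℕ} (s : Fin n) (J : Finset (Fin (n + 1))) (E : ℕ)
    (ν : Fin (n + 1) →₀ ℕ) : Fin n →₀ ℕ :=
  Finsupp.equivFunOnFinite.symm fun j => if j = s then (∑ i ∈ J, ν i) - E else ν j.succ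

theorem CII_map_s {n : ℕ} (s : Fin n) (J : Finset (Fin (n + 1))) (E : ℕ)
    (ν : Fin (n + 1) →₀ ℕ) : CII_map s J E ν s = (∑ i ∈ J, ν i) - E := by
  simp [CII_map]

theorem CII_map_ne {n : ℕ} (s : Fin n) (J : Finset (Fin (n + 1))) (E : ℕ)
    (ν : Fin (n + 1) →₀ ℕ) {j : Fin n} (hj : j ≠ s) : CII_map s J E ν j = ν j.succ := by
  simp [CII_map, hj]

theorem CII_sumJ {n : ℕ} (s : Fin n) (J : Finset (Fin (n + 1))) (h0 : (0 : Fin (n + 1)) ∉ J)
    (hs : s.succ ∈ J) (ν : Fin (n + 1) → ℕ) :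
    ∑ i ∈ J, ν i = ν s.succ + ∑ j, (if j.succ ∈ J ∧ j ≠ s then ν j.succ else 0) := by
  have h1 : ∑ i ∈ J, ν i = ∑ i, (if i ∈ J then ν i else 0) := by
    rw [← Finset.sum_filter]
    congr 1
    ext i
    simp
  rw [h1, Fin.sum_univ_succ, if_neg h0, zero_add]
  rw [← Finset.add_sum_erase _ _ (Finset.mem_univ s),
    ← Finset.add_sum_erase (s := Finset.univ) (f := fun j : Fin n => if j.succ ∈ J ∧ j ≠ s then ν j.succ else 0) (h := Finset.mem_univ s)]
  rw [if_pos hs, if_neg (by simp), zero_add]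
  congr 1
  refine Finset.sum_congr rfl fun j hj => ?_
  have hjs : j ≠ s := (Finset.mem_erase.1 hj).1
  simp [hjs]

theorem CII_mon {n : ℕ} (s : Fin n) (J : Finset (Fin (n + 1))) (h0 : (0 : Fin (n + 1)) ∉ J)
    (hs : s.succ ∈ J) (E : ℕ) (ν : Fin (n + 1) →₀ ℕ) (hE : E ≤ ∑ i ∈ J, ν i) (c : ℂ) :
    (aeval hx (monomial ν c) : Kn n) =
      (x s) ^ E * aeval (chart x s J) (monomial (CII_map s J E ν) c) := by
  have hξs : (chart x s J s : Kn n) = x s := by simp [chart]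
  have hxs : (x s : Kn n) ≠ 0 := MonL_x_ne s
  have hx0 : (hx 0 : Kn n) = 1 := rfl
  have hxj : ∀ j : Fin n, (hx j.succ : Kn n) = x j := fun j => rfl
  have hx' : ∀ j : Fin n, (x j : Kn n) =
      chart x s J j * (if j.succ ∈ J ∧ j ≠ s then x s else 1) := by
    intro j
    unfold chart
    split_ifs with h
    · rw [div_mul_cancel₀ _ hxs]
    · rw [mul_one]
  rw [aeval_monomial, aeval_monomial, Finsupp.prod_fintype _ _ (fun i => pow_zero _),
    Finsupp.prod_fintype _ _ (fun i => pow_zero _), Fin.prod_univ_succ, hx0, one_pow, one_mul]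
  have h1 : ∏ i : Fin n, (hx i.succ : Kn n) ^ ν i.succ =
      (∏ i : Fin n, (chart x s J i : Kn n) ^ ν i.succ) *
        (x s) ^ (∑ j, (if j.succ ∈ J ∧ j ≠ s then ν j.succ else 0)) := by
    rw [← Finset.prod_pow_eq_pow_sum, ← Finset.prod_mul_distrib]
    refine Finset.prod_congr rfl fun j _ => ?_
    rw [hxj, hx' j, mul_pow]
    congr 1
    split_ifs
    · rfl
    · rw [one_pow, pow_zero]
  rw [h1]
  have h2 : ∏ i : Fin n, (chart x s J i : Kn n) ^ ν i.succ =
      (x s) ^ ν s.succ * ∏ i ∈ Finset.univ.erase s, (chart x s J i : Kn n) ^ ν i.succ := by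
    rw [← Finset.mul_prod_erase _ _ (Finset.mem_univ s), hξs]
  have h3 : ∏ i : Fin n, (chart x s J i : Kn n) ^ (CII_map s J E ν i) =
      (x s) ^ ((∑ i ∈ J, ν i) - E) * ∏ i ∈ Finset.univ.erase s, (chart x s J i : Kn n) ^ ν i.succ := by
    rw [← Finset.mul_prod_erase _ _ (Finset.mem_univ s), hξs, CII_map_s]
    congr 1
    refine Finset.prod_congr rfl fun j hj => ?_
    rw [CII_map_ne _ _ _ _ (Finset.mem_erase.1 hj).1]
  rw [h2, h3]
  have h4 : (x s : Kn n) ^ (∑ i ∈ J, ν i) =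
      (x s) ^ ν s.succ * (x s) ^ (∑ j, (if j.succ ∈ J ∧ j ≠ s then ν j.succ else 0)) := by
    rw [← pow_add, CII_sumJ s J h0 hs]
  have h5 : (x s : Kn n) ^ (∑ i ∈ J, ν i) = (x s) ^ E * (x s) ^ ((∑ i ∈ J, ν i) - E) := by
    rw [← pow_add, Nat.add_sub_cancel' hE]
  calc _ = algebraMap ℂ (Kn n) c * (((x s : Kn n) ^ ν s.succ *
        (x s) ^ (∑ j, (if j.succ ∈ J ∧ j ≠ s then ν j.succ else 0))) *
        ∏ i ∈ Finset.univ.erase s, (chart x s J i : Kn n) ^ ν i.succ) := by ring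
    _ = algebraMap ℂ (Kn n) c * (((x s : Kn n) ^ E * (x s) ^ ((∑ i ∈ J, ν i) - E)) *
        ∏ i ∈ Finset.univ.erase s, (chart x s J i : Kn n) ^ ν i.succ) := by rw [← h4, h5]
    _ = _ := by ring

theorem CII_inj {n : ℕ} (s : Fin n) (J : Finset (Fin (n + 1))) (h0 : (0 : Fin (n + 1)) ∉ J)
    (hs : s.succ ∈ J) (E D : ℕ) (ν μ : Fin (n + 1) →₀ ℕ) (hEν : E ≤ ∑ i ∈ J, ν i)
    (hEμ : E ≤ ∑ i ∈ J, μ i) (hν : ∑ i, ν i = D) (hμ : ∑ i, μ i = D)
    (h : CII_map s J E ν = CII_map s J E μ) : ν = μ := by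
  have h1 : ∀ j : Fin n, j ≠ s → ν j.succ = μ j.succ := by
    intro j hj
    have := DFunLike.congr_fun h j
    rwa [CII_map_ne _ _ _ _ hj, CII_map_ne _ _ _ _ hj] at this
  have h2 : ∑ i ∈ J, ν i = ∑ i ∈ J, μ i := by
    have := DFunLike.congr_fun h s
    rw [CII_map_s, CII_map_s] at this
    omega
  have h3 : ν s.succ = μ s.succ := by
    rw [CII_sumJ s J h0 hs, CII_sumJ s J h0 hs] at h2
    have h4 : ∑ j, (if j.succ ∈ J ∧ j ≠ s then ν j.succ else 0) =
        ∑ j, (if j.succ ∈ J ∧ j ≠ s then μ j.succ else 0) := by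
      refine Finset.sum_congr rfl fun j _ => ?_
      split_ifs with hh
      · exact h1 j hh.2
      · rfl
    omega
  have h4 : ∀ j : Fin n, ν j.succ = μ j.succ := by
    intro j
    by_cases hj : j = s
    · rw [hj]; exact h3
    · exact h1 j hj
  have h5 : ν 0 = μ 0 := by
    rw [Fin.sum_univ_succ] at hν hμ
    have : ∑ i : Fin n, ν i.succ = ∑ i : Fin n, μ i.succ := Finset.sum_congr rfl fun j _ => h4 j
    omega
  ext i
  refine Fin.cases h5 h4 i

theorem CII_wt {n : ℕ} (s : Fin n) (J : Finset (Fin (n + 1))) (h0 : (0 : Fin (n + 1)) ∉ J)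
    (hs : s.succ ∈ J) (E : ℕ) (μ : Fin (n + 1) →₀ ℕ) (hE : E ≤ ∑ i ∈ J, μ i) :
    (∑ j, (CII_map s J E μ j : ℤ)) =
      wt (Fin.cons 0 (fun j : Fin n => if j.succ ∈ J ∧ j ≠ s then 2 else 1)) μ - E := by
  have h1 : (∑ j, (CII_map s J E μ j : ℤ)) = ((∑ i ∈ J, μ i : ℕ) : ℤ) - E +
      ∑ j ∈ Finset.univ.erase s, (μ j.succ : ℤ) := by
    rw [← Finset.add_sum_erase _ _ (Finset.mem_univ s), CII_map_s, Nat.cast_sub hE]
    congr 1
    refine Finset.sum_congr rfl fun j hj => ?_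
    rw [CII_map_ne _ _ _ _ (Finset.mem_erase.1 hj).1]
  have h2 : wt (Fin.cons 0 (fun j : Fin n => if j.succ ∈ J ∧ j ≠ s then 2 else 1)) μ =
      ∑ j : Fin n, (μ j.succ : ℤ) + ∑ j : Fin n, (if j.succ ∈ J ∧ j ≠ s then (μ j.succ : ℤ) else 0) := by
    unfold wt
    rw [Fin.sum_univ_succ, Fin.cons_zero, zero_mul, zero_add, ← Finset.sum_add_distrib]
    refine Finset.sum_congr rfl fun j _ => ?_
    rw [Fin.cons_succ]
    split_ifs <;> ring
  have h3 : ((∑ i ∈ J, μ i : ℕ) : ℤ) = (μ s.succ : ℤ) +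
      ∑ j : Fin n, (if j.succ ∈ J ∧ j ≠ s then (μ j.succ : ℤ) else 0) := by
    rw [CII_sumJ s J h0 hs μ]
    push_cast
    rfl
  have h4 : ∑ j : Fin n, (μ j.succ : ℤ) = (μ s.succ : ℤ) +
      ∑ j ∈ Finset.univ.erase s, (μ j.succ : ℤ) := by
    rw [← Finset.add_sum_erase _ _ (Finset.mem_univ s)]
  rw [h1, h2, h3, h4]
  ring

theorem CII_wtJ {n : ℕ} (J : Finset (Fin (n + 1))) (μ : Fin (n + 1) →₀ ℕ) :
    wt (fun i => if i ∈ J then (1 : ℤ) else 0) μ = ((∑ i ∈ J, μ i : ℕ) : ℤ) := by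
  unfold wt
  push_cast
  rw [← Finset.sum_filter_add_sum_filter_not Finset.univ (fun i => i ∈ J)]
  have h1 : ∑ i ∈ Finset.univ.filter (fun i => ¬ i ∈ J), (if i ∈ J then (1 : ℤ) else 0) * (μ i : ℤ) = 0 := by
    apply Finset.sum_eq_zero
    intro i hi
    rw [if_neg (Finset.mem_filter.1 hi).2, zero_mul]
  rw [h1, add_zero]
  have h2 : Finset.univ.filter (fun i => i ∈ J) = J := by
    ext i
    simp
  rw [h2]
  refine Finset.sum_congr rfl fun i hi => ?_
  rw [if_pos hi, one_mul]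

theorem hCII (hTau : StTau) (hGen : StGen) (hIz : StIz) : StCII := by
  classical
  intro n M φ J hJ hΦ hφ h0 s hs v hv
  obtain ⟨τ, hτ⟩ := hTau n (chart x s J) ((hGen n).2.2 s J)
  have hτ' : ∀ p : Pn n, τ (algebraMap (Pn n) (Kn n) p) = aeval (chart x s J) p := by
    intro p
    have h1 : ((τ : Kn n →ₐ[ℂ] Kn n).comp (IsScalarTower.toAlgHom ℂ (Pn n) (Kn n))) =
        aeval (chart x s J) := by
      apply MvPolynomial.algHom_ext
      intro j
      simp only [AlgHom.comp_apply, IsScalarTower.coe_toAlgHom', aeval_X]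
      exact hτ j
    exact DFunLike.congr_fun h1 p
  obtain ⟨C, hC⟩ := hIz n (pull τ v) (by
    intro p hp
    change v.ord (τ (algebraMap (Pn n) (Kn n) p)) = 0
    rw [hτ']
    exact (hv p hp).2)
  have hC' : ∀ (G : Pn n), ∀ μ ∈ G.support,
      v.ord (aeval (chart x s J) G) ≤ (C : ℤ) * ∑ j, (μ j : ℤ) := by
    intro G μ hμ
    rw [← hτ']
    exact hC G μ hμ
  obtain ⟨α, A, hA⟩ := hΦ
  set w1 : Fin (n + 1) → ℤ := fun i => if i ∈ J then 1 else 0 with hw1
  set w2 : Fin (n + 1) → ℤ := Fin.cons 0 (fun j : Fin n => if j.succ ∈ J ∧ j ≠ s then 2 else 1) with hw2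
  have hφ1 : φ w1 = 1 := by
    rw [hφ]
    apply le_antisymm
    · refine (Finset.inf'_le _ hs).trans ?_
      simp [hw1, hs]
    · rw [Finset.le_inf'_iff]
      intro i hi
      simp [hw1, hi]
  have hφ2 : φ w2 = 1 := by
    rw [hφ]
    apply le_antisymm
    · refine (Finset.inf'_le _ hs).trans ?_
      simp [hw2]
    · rw [Finset.le_inf'_iff]
      intro i hi
      have hi0 : i ≠ 0 := fun h => h0 (h ▸ hi)
      obtain ⟨j, rfl⟩ := Fin.exists_succ_eq.2 hi0
      simp only [hw2, Fin.cons_succ]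
      split_ifs <;> norm_num
  have hvx : ∀ k : ℕ, v.ord ((x s : Kn n) ^ k) = k * v.ord (x s) :=
    fun k => MonL_pow v.ord v.ord_mul (MonL_x_ne s) k
  set K : ℤ := A.div v + A.low w1 * v.ord (x s) + C * (A.low w2 - A.low w1) with hK
  have key : ∀ m : ℕ, 1 ≤ m → - K ≤ (m : ℤ) * (M v + v.ord (x s)) := by
    intro m hm
    obtain ⟨N, F, hN, hF, hlow⟩ := hA m hm
    have hNpos : (0 : ℤ) < N := by exact_mod_cast hN
    have hl1 := hlow w1
    have hl2 := hlow w2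
    rw [hφ1] at hl1
    rw [hφ2] at hl2
    have hnn : 0 ≤ F.low w1 := by
      unfold FormSys.low
      rw [Finset.le_inf'_iff]
      intro G hG
      obtain ⟨⟨μ, hμ, he⟩, -⟩ := MonL_monO w1 G (F.ne_zero G hG)
      rw [he, hw1, CII_wtJ]
      positivity
    obtain ⟨E, hE⟩ : ∃ E : ℕ, (E : ℤ) = F.low w1 := ⟨(F.low w1).toNat, Int.toNat_of_nonneg hnn⟩
    obtain ⟨G, hG, hGlow⟩ := Finset.exists_mem_eq_inf' F.nonempty (fun G => monO w2 G)
    have hGlow' : F.low w2 = monO w2 G := hGlow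
    obtain ⟨⟨μ, hμ, hμe⟩, -⟩ := MonL_monO w2 G (F.ne_zero G hG)
    have hEν : ∀ ν ∈ G.support, E ≤ ∑ i ∈ J, ν i := by
      intro ν hν
      have h1 := (MonL_monO w1 G (F.ne_zero G hG)).2 ν hν
      rw [hw1, CII_wtJ] at h1
      have h2 : F.low w1 ≤ monO w1 G := Finset.inf'_le _ hG
      have h3 : (E : ℤ) ≤ ((∑ i ∈ J, ν i : ℕ) : ℤ) := by
        rw [hE]
        exact h2.trans h1
      exact_mod_cast h3
    have hhom : ∀ ν ∈ G.support, ∑ i, ν i = N * (m + α) := by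
      intro ν hν
      have h1 := F.homog G hG (mem_support_iff.1 hν)
      rw [← h1, Finsupp.weight_apply, Finsupp.sum_fintype _ _ (fun i => by simp)]
      simp
    set G' : Pn n := ∑ ν ∈ G.support, monomial (CII_map s J E ν) (coeff ν G) with hG'
    have hev : (ev G : Kn n) = (x s) ^ E * aeval (chart x s J) G' := by
      unfold ev
      conv_lhs => rw [G.as_sum]
      rw [map_sum, hG', map_sum, Finset.mul_sum]
      exact Finset.sum_congr rfl fun ν hν => CII_mon s J h0 hs E ν (hEν ν hν) _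
    have hcoef : coeff (CII_map s J E μ) G' = coeff μ G := by
      rw [hG', coeff_sum, Finset.sum_eq_single μ]
      · rw [coeff_monomial, if_pos rfl]
      · intro ν hν hne
        rw [coeff_monomial, if_neg]
        intro h
        exact hne (CII_inj s J h0 hs E _ ν μ (hEν ν hν) (hEν μ hμ) (hhom ν hν) (hhom μ hμ) h)
      · intro h
        exact absurd hμ h
    have hsupp : CII_map s J E μ ∈ G'.support := by
      rw [mem_support_iff, hcoef]
      exact mem_support_iff.1 hμ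
    have hG'0 : G' ≠ 0 := by
      rintro h
      rw [h] at hsupp
      simp at hsupp
    have hG'1 : (aeval (chart x s J) G' : Kn n) ≠ 0 := by
      rw [← hτ']
      intro h
      rw [map_eq_zero_iff τ τ.injective, IsFractionRing.to_map_eq_zero_iff] at h
      exact hG'0 h
    have h5 := hC' G' _ hsupp
    rw [CII_wt s J h0 hs E μ (hEν μ hμ), ← hw2, ← hμe, ← hGlow', hl2, hE, hl1] at h5
    have h6 : v.ord (ev G) = E * v.ord (x s) + v.ord (aeval (chart x s J) G') := by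
      rw [hev, v.ord_mul _ _ (pow_ne_zero _ (MonL_x_ne s)) hG'1, hvx]
    have h7 : - v.ord (ev G) ≤ F.div v :=
      Finset.le_sup' (fun G => - v.ord (ev G)) hG
    rw [← hF v, h6, hE, hl1] at h7
    have h8 : (N : ℤ) * (- K) ≤ (N : ℤ) * ((m : ℤ) * (M v + v.ord (x s))) := by
      rw [hK]
      nlinarith
    exact le_of_mul_le_mul_left h8 hNpos
  by_contra hlt
  push Not at hlt
  have h1 := key (K.toNat + 1) (by omega)
  have h2 : M v + v.ord (x s) ≤ -1 := by omega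
  have h3 : K ≤ (K.toNat : ℤ) := Int.self_le_toNat K
  have h4 : (0 : ℤ) ≤ ((K.toNat + 1 : ℕ) : ℤ) := by positivity
  push_cast at h1 h4
  nlinarith

end Pool.Agent.Helper53.CX
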