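import Pool.Agent.Helper53.CX.St

/-!
# Project CX, module Cvx: equality in a convexity inequality forces linearity
-/

set_option autoImplicit false

namespace Pool.Agent.Helper53.CX

theorem Cvx_sub {n : ℕ} (R : Finset (Fin n → ℤ)) (f : (Fin n → ℤ) → ℤ)
    (hhom : ∀ (k : ℕ) (a : Fin n → ℤ), f ((k : ℤ) • a) = (k : ℤ) * f a)
    (hsub : ∀ a b, f (a + b) ≤ f a + f b) (c : (Fin n → ℤ) → ℕ) :
    f (∑ r ∈ R, (c r : ℤ) • r) ≤ ∑ r ∈ R, (c r : ℤ) * f r := by
  classical
  induction R using Finset.induction_on with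
  | empty =>
    have h := hhom 0 0
    simp only [Finset.sum_empty]
    simp only [Nat.cast_zero, zero_smul, zero_mul] at h
    exact h.le
  | insert a S ha ih =>
    rw [Finset.sum_insert ha, Finset.sum_insert ha]
    refine (hsub _ _).trans ?_
    rw [hhom]
    linarith

theorem Cvx_eq {n : ℕ} (R : Finset (Fin n → ℤ)) (f : (Fin n → ℤ) → ℤ)
    (hhom : ∀ (k : ℕ) (a : Fin n → ℤ), f ((k : ℤ) • a) = (k : ℤ) * f a)
    (hsub : ∀ a b, f (a + b) ≤ f a + f b) (hR : ∑ r ∈ R, f r ≤ f (∑ r ∈ R, r))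
    (c : (Fin n → ℤ) → ℕ) :
    f (∑ r ∈ R, (c r : ℤ) • r) = ∑ r ∈ R, (c r : ℤ) * f r := by
  classical
  apply le_antisymm (Cvx_sub R f hhom hsub c)
  set k : ℕ := ∑ r ∈ R, c r with hk
  have hle : ∀ r ∈ R, c r ≤ k := fun r hr =>
    Finset.single_le_sum (f := c) (fun _ _ => Nat.zero_le _) hr
  have h1 : ((k : ℤ) • ∑ r ∈ R, r) = ∑ r ∈ R, (c r : ℤ) • r + ∑ r ∈ R, ((k - c r : ℕ) : ℤ) • r := by
    rw [Finset.smul_sum, ← Finset.sum_add_distrib]
    apply Finset.sum_congr rfl
    intro r hr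
    rw [← add_smul]
    congr 1
    have := hle r hr
    push_cast [Nat.cast_sub this]
    ring
  have h2 : f ((k : ℤ) • ∑ r ∈ R, r) ≤ f (∑ r ∈ R, (c r : ℤ) • r) +
      ∑ r ∈ R, ((k - c r : ℕ) : ℤ) * f r := by
    rw [h1]
    refine (hsub _ _).trans ?_
    have := Cvx_sub R f hhom hsub (fun r => k - c r)
    linarith
  rw [hhom] at h2
  have h3 : (k : ℤ) * ∑ r ∈ R, f r ≤ (k : ℤ) * f (∑ r ∈ R, r) :=
    mul_le_mul_of_nonneg_left hR (by positivity)
  have h4 : (k : ℤ) * ∑ r ∈ R, f r = ∑ r ∈ R, (c r : ℤ) * f r +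
      ∑ r ∈ R, ((k - c r : ℕ) : ℤ) * f r := by
    rw [Finset.mul_sum, ← Finset.sum_add_distrib]
    apply Finset.sum_congr rfl
    intro r hr
    have := hle r hr
    push_cast [Nat.cast_sub this]
    ring
  linarith

/-- **Cvx** -/
theorem hCvx : StCvx := by
  classical
  intro n R hRays f hhom hsub hR
  have heq := Cvx_eq R f hhom hsub hR
  have hadd : ∀ a b, f (a + b) = f a + f b := by
    intro a b
    obtain ⟨k, hk, c, hc⟩ := hRays.complete a
    obtain ⟨l, hl, d, hd⟩ := hRays.complete b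
    have e1 : ((k * l : ℕ) : ℤ) • a = ∑ r ∈ R, ((l * c r : ℕ) : ℤ) • r := by
      have : ((k * l : ℕ) : ℤ) • a = (l : ℤ) • ((k : ℤ) • a) := by
        rw [smul_smul]
        congr 1
        push_cast
        ring
      rw [this, hc, Finset.smul_sum]
      apply Finset.sum_congr rfl
      intro r _
      rw [smul_smul]
      congr 1
    have e2 : ((k * l : ℕ) : ℤ) • b = ∑ r ∈ R, ((k * d r : ℕ) : ℤ) • r := by
      have : ((k * l : ℕ) : ℤ) • b = (k : ℤ) • ((l : ℤ) • b) := by
        rw [smul_smul]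
        congr 1
      rw [this, hd, Finset.smul_sum]
      apply Finset.sum_congr rfl
      intro r _
      rw [smul_smul]
      congr 1
    have e3 : ((k * l : ℕ) : ℤ) • (a + b) = ∑ r ∈ R, ((l * c r + k * d r : ℕ) : ℤ) • r := by
      rw [smul_add, e1, e2, ← Finset.sum_add_distrib]
      apply Finset.sum_congr rfl
      intro r _
      rw [← add_smul]
      congr 1
    have f1 := heq (fun r => l * c r)
    have f2 := heq (fun r => k * d r)
    have f3 := heq (fun r => l * c r + k * d r)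
    rw [← e1, hhom] at f1
    rw [← e2, hhom] at f2
    rw [← e3, hhom] at f3
    have hkl : (0 : ℤ) < ((k * l : ℕ) : ℤ) := by
      have : 0 < k * l := Nat.mul_pos hk hl
      exact_mod_cast this
    have f4 : ((k * l : ℕ) : ℤ) * f (a + b) = ((k * l : ℕ) : ℤ) * (f a + f b) := by
      rw [mul_add, f1, f2, f3, ← Finset.sum_add_distrib]
      apply Finset.sum_congr rfl
      intro r _
      push_cast
      ring
    exact mul_left_cancel₀ hkl.ne' f4
  let g : (Fin n → ℤ) →+ ℤ := AddMonoidHom.mk' f hadd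
  refine ⟨fun j => f (fun i => if j = i then 1 else 0), ?_⟩
  intro a
  have h := LinearMap.pi_apply_eq_sum_univ g.toIntLinearMap a
  have h' : f a = ∑ i, a i • f (fun j => if i = j then 1 else 0) := h
  rw [h']
  apply Finset.sum_congr rfl
  intro i _
  rw [smul_eq_mul, mul_comm]

end Pool.Agent.Helper53.CX
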