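import Pool.Agent.Helper53.CX.St

/-!
# Project CX (MP_140278_ag): module Norm

Normalisation of a nef Cartier b-divisor by a principal one.
-/

set_option autoImplicit false

open scoped BigOperators
open MvPolynomial

namespace Pool.Agent.Helper53.CX

section General

variable {K : Type} [Field K] [Algebra ℂ K]

theorem Norm_ext {v w : DivVal K} (h : v.ord = w.ord) : v = w := by
  cases v; cases w; cases h; rfl

theorem Norm_one (v : DivVal K) : v.ord 1 = 0 := by
  have h := v.ord_mul 1 1 one_ne_zero one_ne_zero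
  rw [mul_one] at h
  omega

theorem Norm_inv (v : DivVal K) {f : K} (hf : f ≠ 0) : v.ord f⁻¹ = - v.ord f := by
  have h := v.ord_mul f f⁻¹ hf (inv_ne_zero hf)
  rw [mul_inv_cancel₀ hf, Norm_one] at h
  omega

theorem Norm_pow (v : DivVal K) {f : K} (hf : f ≠ 0) (k : ℕ) : v.ord (f ^ k) = k * v.ord f := by
  induction k with
  | zero => simp [Norm_one]
  | succ k ih =>
    rw [pow_succ, v.ord_mul _ _ (pow_ne_zero k hf) hf, ih]
    push_cast
    ring

theorem Norm_zpow (v : DivVal K) {f : K} (hf : f ≠ 0) (k : ℤ) : v.ord (f ^ k) = k * v.ord f := by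
  cases k with
  | ofNat k => simpa using Norm_pow v hf k
  | negSucc k =>
    rw [zpow_negSucc, Norm_inv v (pow_ne_zero _ hf), Norm_pow v hf, Int.negSucc_eq]
    push_cast
    ring

theorem Norm_prod (v : DivVal K) {ι : Type} (s : Finset ι) (f : ι → K) (hf : ∀ i ∈ s, f i ≠ 0) :
    v.ord (∏ i ∈ s, f i) = ∑ i ∈ s, v.ord (f i) := by
  classical
  induction s using Finset.induction_on with
  | empty => simp [Norm_one]
  | insert a s ha ih =>
    rw [Finset.prod_insert ha, Finset.sum_insert ha, v.ord_mul _ _ (hf a (by simp))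
      (Finset.prod_ne_zero_iff.2 fun i hi => hf i (by simp [hi])), ih fun i hi => hf i (by simp [hi])]

/-- multiply all generators by `h` -/
noncomputable def Norm_scale (F : LinSys K) (h : K) (hh : h ≠ 0) : LinSys K := by
  classical
  exact
  { gens := F.gens.image (fun f => f * h)
    nonempty := F.nonempty.image _
    ne_zero := by
      intro g hg
      obtain ⟨f, hf, rfl⟩ := Finset.mem_image.1 hg
      exact mul_ne_zero (F.ne_zero f hf) hh }

theorem Norm_mem_scale {F : LinSys K} {h : K} {hh : h ≠ 0} {g : K} :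
    g ∈ (Norm_scale F h hh).gens ↔ ∃ f ∈ F.gens, f * h = g := by
  classical
  simp [Norm_scale]

theorem Norm_div_eq (F : LinSys K) (v : DivVal K) (c : ℤ) :
    F.div v = c ↔ (∀ f ∈ F.gens, - v.ord f ≤ c) ∧ ∃ f ∈ F.gens, - v.ord f = c := by
  constructor
  · rintro rfl
    refine ⟨fun f hf => Finset.le_sup' (fun f => - v.ord f) hf, ?_⟩
    obtain ⟨f, hf, h⟩ := Finset.exists_mem_eq_sup' F.nonempty (fun f => - v.ord f)
    exact ⟨f, hf, h.symm⟩
  · rintro ⟨h1, f, hf, h2⟩
    apply le_antisymm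
    · exact Finset.sup'_le _ _ h1
    · rw [← h2]
      exact Finset.le_sup' (fun f => - v.ord f) hf

theorem Norm_le_div (F : LinSys K) (v : DivVal K) {f : K} (hf : f ∈ F.gens) :
    - v.ord f ≤ F.div v := ((Norm_div_eq F v _).1 rfl).1 f hf

theorem Norm_div_scale (F : LinSys K) (h : K) (hh : h ≠ 0) (v : DivVal K) :
    (Norm_scale F h hh).div v = F.div v - v.ord h := by
  rw [Norm_div_eq]
  obtain ⟨h1, f, hf, h2⟩ := (Norm_div_eq F v _).1 rfl
  constructor
  · intro g hg
    obtain ⟨f, hf, rfl⟩ := Norm_mem_scale.1 hg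
    rw [v.ord_mul _ _ (F.ne_zero f hf) hh]
    have := h1 f hf
    omega
  · refine ⟨f * h, Norm_mem_scale.2 ⟨f, hf, rfl⟩, ?_⟩
    rw [v.ord_mul _ _ (F.ne_zero f hf) hh]
    omega

end General

theorem Norm_torus_ne {n : ℕ} {P : Pn n} (hP : TorusPrime P) : P ≠ 0 := hP.1.ne_zero

theorem Norm_alg_ne {n : ℕ} {p : Pn n} (hp : p ≠ 0) : algebraMap (Pn n) (Kn n) p ≠ 0 := by
  intro h
  exact hp ((IsFractionRing.injective (Pn n) (Kn n)) (by rw [h, map_zero]))

theorem Norm_pad_assoc {n : ℕ} {P Q : Pn n} (h : Associated P Q) : padOrd P = padOrd Q := by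
  unfold padOrd
  congr 1
  funext p
  rw [multiplicity_eq_of_associated_left h]

theorem Norm_pad_alg (hExt : StExt) (hPad : StPad) {n : ℕ} {P : Pn n} (hP : Irreducible P)
    {p : Pn n} (hp : p ≠ 0) : padOrd P (algebraMap (Pn n) (Kn n) p) = multiplicity P p := by
  obtain ⟨h1, h2, h3⟩ := hPad n P hP
  refine (hExt n (fun p => (multiplicity P p : ℤ)) ?_ ?_).2.2.2 p hp
  · intro p q hp hq
    simp only [h1 p q hp hq]
    push_cast
    ring
  · intro p q hp hq hpq
    have := h2 p q hp hq hpq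
    exact_mod_cast this

theorem Norm_mult_self (hPad : StPad) {n : ℕ} {P : Pn n} (hP : Irreducible P) :
    multiplicity P P = 1 := by
  have hfin : FiniteMultiplicity P P := FiniteMultiplicity.of_not_isUnit hP.not_isUnit hP.ne_zero
  have h1 : 1 ≤ multiplicity P P := ((hPad n P hP).2.2 P hP.ne_zero).1 dvd_rfl
  have h2 : ¬ 2 ≤ multiplicity P P := by
    intro h2
    have h3 : P ^ 2 ∣ P := pow_dvd_of_le_multiplicity h2
    obtain ⟨c, hc⟩ := h3
    have h4 : P * (P * c) = P * 1 := by rw [mul_one, ← mul_assoc, ← sq]; exact hc.symm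
    have h5 := mul_left_cancel₀ hP.ne_zero h4
    exact hP.not_isUnit (IsUnit.of_mul_eq_one c h5)
  omega

theorem Norm_pad_ne (hExt : StExt) (hPad : StPad) {n : ℕ} {P Q : Pn n} (hP : Irreducible P)
    (hQ : Irreducible Q) (h : ¬ Associated P Q) :
    padOrd P (algebraMap (Pn n) (Kn n) Q) = 0 := by
  rw [Norm_pad_alg hExt hPad hP hQ.ne_zero]
  have h3 := (hPad n P hP).2.2 Q hQ.ne_zero
  have : ¬ P ∣ Q := fun hd => h ((hP.dvd_irreducible_iff_associated hQ).1 hd)
  have h4 : ¬ 1 ≤ multiplicity P Q := fun h5 => this (h3.2 h5)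
  have : multiplicity P Q = 0 := by omega
  rw [this]
  rfl

theorem Norm_pad_self (hExt : StExt) (hPad : StPad) {n : ℕ} {P : Pn n} (hP : Irreducible P) :
    padOrd P (algebraMap (Pn n) (Kn n) P) = 1 := by
  rw [Norm_pad_alg hExt hPad hP hP.ne_zero, Norm_mult_self hPad hP]
  rfl

/-- A rational function without poles on the torus is a Laurent polynomial. -/
theorem Norm_laurent (hFac : StFac) {n : ℕ} {g : Kn n} (hg : g ≠ 0)
    (h : ∀ P, TorusPrime P → 0 ≤ padOrd P g) : IsLaurent g := by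
  obtain ⟨Q, hQ1, hQ2, hQ3⟩ := hFac n {g} (by simpa using hg)
  obtain ⟨⟨c, u, hc, he⟩, -⟩ := hQ3 g (by simp)
  refine ⟨C c * ∏ P ∈ Q, P ^ (padOrd P g).toNat, u, ?_⟩
  have h1 : algebraMap (Pn n) (Kn n) (C c) = algebraMap ℂ (Kn n) c := by
    rw [IsScalarTower.algebraMap_apply ℂ (Pn n) (Kn n)]
    rfl
  have h2 : ∏ P ∈ Q, (algebraMap (Pn n) (Kn n) P) ^ (padOrd P g)
      = algebraMap (Pn n) (Kn n) (∏ P ∈ Q, P ^ (padOrd P g).toNat) := by
    rw [map_prod]
    refine Finset.prod_congr rfl fun P hP => ?_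
    have h3 := h P (hQ1 P hP)
    rw [map_pow]
    conv_lhs => rw [← Int.toNat_of_nonneg h3]
    rw [zpow_natCast]
  rw [map_mul, h1, ← h2]
  conv_lhs => rw [he]
  ring

open Classical in
/-- the exponent of `P`: the value of `c` along the `P`-adic valuation -/
noncomputable def Norm_exp {n : ℕ} (c : DivVal (Kn n) → ℤ) (P : Pn n) : ℤ :=
  if h : ∃ v : DivVal (Kn n), v.ord = padOrd P then c h.choose else 0

theorem Norm_exp_eq {n : ℕ} (c : DivVal (Kn n) → ℤ) (P : Pn n) (v : DivVal (Kn n))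
    (hv : v.ord = padOrd P) : Norm_exp c P = c v := by
  have h : ∃ v : DivVal (Kn n), v.ord = padOrd P := ⟨v, hv⟩
  rw [Norm_exp, dif_pos h]
  congr 1
  exact Norm_ext (h.choose_spec.trans hv.symm)

/-- the product of the `P^(c v_P)` -/
noncomputable def Norm_fun {n : ℕ} (Q : Finset (Pn n)) (c : DivVal (Kn n) → ℤ) : Kn n :=
  ∏ R ∈ Q, (algebraMap (Pn n) (Kn n) R) ^ (Norm_exp c R)

theorem Norm_fun_ne {n : ℕ} (Q : Finset (Pn n)) (hQ1 : ∀ P ∈ Q, TorusPrime P)
    (c : DivVal (Kn n) → ℤ) : Norm_fun Q c ≠ 0 :=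
  Finset.prod_ne_zero_iff.2 fun R hR => zpow_ne_zero _ (Norm_alg_ne (Norm_torus_ne (hQ1 R hR)))

/-- The product of the `P^(c v_P)` has order `c v_P` along `v_P`. -/
theorem Norm_fun_ord (hExt : StExt) (hPad : StPad) {n : ℕ} (Q : Finset (Pn n))
    (hQ1 : ∀ P ∈ Q, TorusPrime P) (hQ2 : ∀ P ∈ Q, ∀ P' ∈ Q, Associated P P' → P = P')
    (c : DivVal (Kn n) → ℤ)
    (hc : ∀ P v, TorusPrime P → v.ord = padOrd P → (∀ P' ∈ Q, ¬ Associated P P') → c v = 0)
    (P : Pn n) (v : DivVal (Kn n)) (hP : TorusPrime P) (hv : v.ord = padOrd P) :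
    v.ord (Norm_fun Q c) = c v := by
  classical
  rw [Norm_fun, Norm_prod v Q _ fun R hR =>
    zpow_ne_zero _ (Norm_alg_ne (Norm_torus_ne (hQ1 R hR)))]
  have h1 : ∀ R ∈ Q, v.ord ((algebraMap (Pn n) (Kn n) R) ^ (Norm_exp c R))
      = Norm_exp c R * padOrd P (algebraMap (Pn n) (Kn n) R) := by
    intro R hR
    rw [Norm_zpow v (Norm_alg_ne (Norm_torus_ne (hQ1 R hR))), hv]
  rw [Finset.sum_congr rfl h1]
  by_cases hex : ∃ P' ∈ Q, Associated P P'
  · obtain ⟨P', hP', ha⟩ := hex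
    have hvv : v.ord = padOrd P' := by rw [hv, Norm_pad_assoc ha]
    rw [Finset.sum_eq_single P']
    · rw [Norm_pad_assoc ha, Norm_pad_self hExt hPad (hQ1 P' hP').1, mul_one,
        Norm_exp_eq c P' v hvv]
    · intro R hR hne
      rw [Norm_pad_ne hExt hPad hP.1 (hQ1 R hR).1, mul_zero]
      intro haR
      exact hne (hQ2 R hR P' hP' (haR.symm.trans ha))
    · intro hn
      exact absurd hP' hn
  · push Not at hex
    rw [hc P v hP hv hex]
    refine Finset.sum_eq_zero fun R hR => ?_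
    rw [Norm_pad_ne hExt hPad hP.1 (hQ1 R hR).1 (hex R hR), mul_zero]

theorem hNorm (hExt : StExt) (hPad : StPad) (hPadV : StPadV) (hFac : StFac) : StNorm := by
  classical
  intro n M hM
  obtain ⟨A, hA⟩ := hM
  obtain ⟨N1, F1, hN1, hF1⟩ := hA 1 le_rfl
  obtain ⟨Q, hQ1, hQ2, hQ3⟩ := hFac n (A.gens ∪ F1.gens) (by
    intro g hg
    rcases Finset.mem_union.1 hg with h | h
    · exact A.ne_zero g h
    · exact F1.ne_zero g h)
  -- outside `Q` both linear systems have order zero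
  have hcA : ∀ P v, TorusPrime P → v.ord = padOrd P → (∀ P' ∈ Q, ¬ Associated P P') →
      A.div v = 0 := by
    intro P v hP hv hn
    have h0 : ∀ f ∈ A.gens, v.ord f = 0 := by
      intro f hf
      rw [hv]
      exact (hQ3 f (Finset.mem_union_left _ hf)).2 P hP hn
    rw [Norm_div_eq]
    obtain ⟨f, hf⟩ := A.nonempty
    exact ⟨fun g hg => by rw [h0 g hg]; simp, f, hf, by rw [h0 f hf]; simp⟩
  have hcF : ∀ P v, TorusPrime P → v.ord = padOrd P → (∀ P' ∈ Q, ¬ Associated P P') →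
      F1.div v = 0 := by
    intro P v hP hv hn
    have h0 : ∀ f ∈ F1.gens, v.ord f = 0 := by
      intro f hf
      rw [hv]
      exact (hQ3 f (Finset.mem_union_right _ hf)).2 P hP hn
    rw [Norm_div_eq]
    obtain ⟨f, hf⟩ := F1.nonempty
    exact ⟨fun g hg => by rw [h0 g hg]; simp, f, hf, by rw [h0 f hf]; simp⟩
  have hcM : ∀ P v, TorusPrime P → v.ord = padOrd P → (∀ P' ∈ Q, ¬ Associated P P') →
      M v = 0 := by
    intro P v hP hv hn
    have h1 := hF1 v
    rw [hcA P v hP hv hn, hcF P v hP hv hn] at h1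
    have h2 : (N1 : ℤ) ≠ 0 := by
      have : (1 : ℤ) ≤ N1 := by exact_mod_cast hN1
      omega
    have h3 := (mul_eq_zero.1 h1).resolve_left h2
    push_cast at h3
    linarith
  set h := Norm_fun Q M with hh
  set hA' := Norm_fun Q A.div with hhA
  have hne : h ≠ 0 := Norm_fun_ne Q hQ1 M
  have hAne : hA' ≠ 0 := Norm_fun_ne Q hQ1 A.div
  have ho : ∀ P v, TorusPrime P → v.ord = padOrd P → v.ord h = M v :=
    fun P v hP hv => Norm_fun_ord hExt hPad Q hQ1 hQ2 M hcM P v hP hv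
  have hoA : ∀ P v, TorusPrime P → v.ord = padOrd P → v.ord hA' = A.div v :=
    fun P v hP hv => Norm_fun_ord hExt hPad Q hQ1 hQ2 A.div hcA P v hP hv
  refine ⟨h, hne, ?_, Norm_scale A hA' hAne, ?_, ?_⟩
  · intro P v hP hv
    simp only
    rw [ho P v hP hv]
    ring
  · intro g hg
    obtain ⟨f, hf, rfl⟩ := Norm_mem_scale.1 hg
    have hf0 := A.ne_zero f hf
    refine Norm_laurent hFac (mul_ne_zero hf0 hAne) ?_
    intro P hP
    obtain ⟨v, hv⟩ := (hPadV n P hP.1).1
    rw [← hv, v.ord_mul _ _ hf0 hAne, hoA P v hP hv]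
    have := Norm_le_div A v hf
    omega
  · intro m hm
    obtain ⟨N, F, hN, hF⟩ := hA m hm
    have hHne : h ^ (N * m) * hA' ^ N ≠ 0 := mul_ne_zero (pow_ne_zero _ hne) (pow_ne_zero _ hAne)
    have hH : ∀ v : DivVal (Kn n), v.ord (h ^ (N * m) * hA' ^ N)
        = (N : ℤ) * m * v.ord h + N * v.ord hA' := by
      intro v
      rw [v.ord_mul _ _ (pow_ne_zero _ hne) (pow_ne_zero _ hAne), Norm_pow v hne,
        Norm_pow v hAne]
      push_cast
      ring
    refine ⟨N, Norm_scale F (h ^ (N * m) * hA' ^ N) hHne, hN, ?_, ?_⟩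
    · intro g hg
      obtain ⟨f, hf, rfl⟩ := Norm_mem_scale.1 hg
      have hf0 := F.ne_zero f hf
      refine Norm_laurent hFac (mul_ne_zero hf0 hHne) ?_
      intro P hP
      obtain ⟨v, hv⟩ := (hPadV n P hP.1).1
      rw [← hv, v.ord_mul _ _ hf0 hHne, hH, hoA P v hP hv, ho P v hP hv]
      have h1 := Norm_le_div F v hf
      have h2 := hF v
      nlinarith
    · intro v
      rw [Norm_div_scale, Norm_div_scale, hH, ← hF v]
      ring

end Pool.Agent.Helper53.CX
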