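import Pool.Agent.Helper53.CX.St
import Pool.Agent.Helper53.CX.St2
import Pool.Agent.Helper53.CX.M_Sum
import Pool.Agent.Helper53.CX.M_Norm

/-! MODULE Deg of project CX, part 2: the exact degree formula on projective space. -/

set_option autoImplicit false

open scoped BigOperators
open MvPolynomial

namespace Pool.Agent.Helper53.CX

theorem Deg_xm_add {n : ℕ} (u w : Fin n → ℤ) : (xm (u + w) : Kn n) = xm u * xm w := by
  unfold xm
  rw [← Finset.prod_mul_distrib]
  refine Finset.prod_congr rfl fun j _ => ?_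
  rw [Pi.add_apply, zpow_add₀ (Sum_x_ne j)]

theorem Deg_xm_smul {n : ℕ} (c : ℤ) (u : Fin n → ℤ) (v : DivVal (Kn n)) :
    v.ord (xm (c • u)) = c * v.ord (xm u) := by
  rw [Sum_ord_xm, Sum_ord_xm, Finset.mul_sum]
  refine Finset.sum_congr rfl fun j _ => ?_
  rw [Pi.smul_apply, smul_eq_mul]
  ring

theorem Deg_laurent_mul {n : ℕ} {f : Kn n} (hf : IsLaurent f) (u : Fin n → ℤ) :
    IsLaurent (f * xm u) := by
  obtain ⟨p, w, rfl⟩ := hf
  refine ⟨p, w + u, ?_⟩
  rw [Deg_xm_add, mul_assoc]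

theorem Deg_shift (hPadV : StPadV) {n : ℕ} {M : DivVal (Kn n) → ℤ} (hM : NormNef M)
    (u : Fin n → ℤ) : NormNef (fun v => M v - v.ord (xm u)) := by
  obtain ⟨h1, A, hA, h2⟩ := hM
  refine ⟨?_, A, hA, ?_⟩
  · intro P v hP hv
    have e1 := h1 P v hP hv
    have e2 := ((hPadV n P hP.1).2 hP v hv).1
    show M v - v.ord (xm u) = 0
    rw [e1, Sum_ord_xm]
    simp [e2]
  · intro m hm
    obtain ⟨N, F, hN, hF, hNF⟩ := h2 m hm
    refine ⟨N, Norm_scale F (xm (((N : ℤ) * m) • u)) (Sum_xm_ne _), hN, ?_, ?_⟩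
    · intro g hg
      obtain ⟨f, hf, rfl⟩ := Norm_mem_scale.1 hg
      exact Deg_laurent_mul (hF f hf) _
    · intro v
      rw [Norm_div_scale, ← hNF v, Deg_xm_smul]
      ring

theorem Deg_wt_single {n : ℕ} (j : Fin n) (m : Fin n →₀ ℕ) : wt (Pi.single j 1) m = (m j : ℤ) := by
  unfold wt
  rw [Finset.sum_eq_single j]
  · simp
  · intro i _ hi
    simp [Pi.single_eq_of_ne hi]
  · intro h
    exact absurd (Finset.mem_univ j) h

theorem Deg_wt_neg {n : ℕ} (m : Fin n →₀ ℕ) :
    wt (fun _ : Fin n => (-1 : ℤ)) m = - ((m.sum fun _ e => e : ℕ) : ℤ) := by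
  unfold wt
  rw [Finsupp.sum_fintype _ _ (fun _ => rfl)]
  push_cast
  rw [← Finset.sum_neg_distrib]
  exact Finset.sum_congr rfl fun j _ => by ring

theorem Deg_monOrd_alg (hExt : StExt) (hMon : StMon) {n : ℕ} (a : Fin n → ℤ) (p : Pn n)
    (hp : p ≠ 0) : monOrd a (algebraMap (Pn n) (Kn n) p) = monO a p := by
  obtain ⟨h1, h2⟩ := hMon n a
  exact (hExt n (monO a) h1 h2).2.2.2 p hp

theorem Deg_monO_eq {n : ℕ} (a : Fin n → ℤ) (p : Pn n) (c : ℤ) (h1 : ∀ m ∈ p.support, c ≤ wt a m)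
    (h2 : ∃ m ∈ p.support, wt a m ≤ c) : monO a p = c := by
  obtain ⟨m, hm, hmc⟩ := h2
  unfold monO
  have hne : p.support.Nonempty := ⟨m, hm⟩
  rw [dif_pos hne]
  exact le_antisymm ((Finset.inf'_le _ hm).trans hmc) (Finset.le_inf' _ _ h1)

/-- a torus prime has order zero along the coordinate hyperplanes -/
theorem Deg_P_single (hExt : StExt) (hMon : StMon) {n : ℕ} (j : Fin n) {P : Pn n}
    (hP : TorusPrime P) : monOrd (Pi.single j 1) (algebraMap (Pn n) (Kn n) P) = 0 := by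
  rw [Deg_monOrd_alg hExt hMon _ _ hP.1.ne_zero]
  apply Deg_monO_eq
  · intro m _
    rw [Deg_wt_single]
    exact Int.natCast_nonneg _
  · by_contra hcon
    push Not at hcon
    have hdvd : (X j : Pn n) ∣ P := by
      rw [X_dvd_iff_modMonomial_eq_zero]
      ext m
      rw [coeff_zero]
      by_cases hm : Finsupp.single j 1 ≤ m
      · exact coeff_modMonomial_of_le _ hm
      · rw [coeff_modMonomial_of_not_le _ hm]
        by_contra hne
        have h3 := hcon m (mem_support_iff.2 hne)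
        rw [Deg_wt_single] at h3
        apply hm
        rw [Finsupp.single_le_iff]
        omega
    have hX : ¬ IsUnit (X j : Pn n) := by
      intro hu
      have h1 : totalDegree (X j : Pn n) = 1 := totalDegree_X j
      have h2 := (isUnit_iff_totalDegree_of_isReduced.1 hu).2
      omega
    exact hP.2 j ((hP.1.dvd_iff.1 hdvd).resolve_left hX)

theorem Deg_P_neg (hExt : StExt) (hMon : StMon) {n : ℕ} {P : Pn n} (hP : P ≠ 0) :
    monOrd (fun _ => (-1 : ℤ)) (algebraMap (Pn n) (Kn n) P) = - (P.totalDegree : ℤ) := by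
  rw [Deg_monOrd_alg hExt hMon _ _ hP]
  apply Deg_monO_eq
  · intro m hm
    rw [Deg_wt_neg]
    have := le_totalDegree hm
    omega
  · obtain ⟨m, hm, he⟩ := Finset.exists_mem_eq_sup P.support
      (by rwa [Finset.nonempty_iff_ne_empty, Ne, support_eq_empty]) (fun m => m.sum fun _ e => e)
    refine ⟨m, hm, ?_⟩
    rw [Deg_wt_neg]
    have h1 : P.totalDegree = m.sum fun _ e => e := he
    rw [h1]

section fan

variable {n : ℕ}

/-- the rays of projective space -/
noncomputable def Deg_R (n : ℕ) : Finset (Fin n → ℤ) := by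
  classical
  exact insert (fun _ => (-1 : ℤ)) (Finset.univ.image fun j : Fin n => (Pi.single j 1 : Fin n → ℤ))

theorem Deg_single_inj : Function.Injective fun j : Fin n => (Pi.single j 1 : Fin n → ℤ) := by
  intro i j hij
  by_contra hne
  have := congrFun hij i
  simp only [Pi.single_eq_same] at this
  rw [Pi.single_eq_of_ne hne] at this
  exact one_ne_zero this

theorem Deg_neg_ne (j : Fin n) : (Pi.single j 1 : Fin n → ℤ) ≠ fun _ => (-1 : ℤ) := by
  intro h
  have := congrFun h j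
  simp only [Pi.single_eq_same] at this
  omega

theorem Deg_sum_R {A : Type} [AddCommMonoid A] (f : (Fin n → ℤ) → A) :
    ∑ r ∈ Deg_R n, f r = f (fun _ => (-1 : ℤ)) + ∑ j : Fin n, f (Pi.single j 1) := by
  classical
  unfold Deg_R
  rw [Finset.sum_insert, Finset.sum_image (fun i _ j _ h => Deg_single_inj h)]
  intro h
  obtain ⟨j, -, hj⟩ := Finset.mem_image.1 h
  exact Deg_neg_ne j hj

theorem Deg_single_sum (b : Fin n → ℤ) (i : Fin n) :
    ∑ j : Fin n, b j * (Pi.single j 1 : Fin n → ℤ) i = b i := by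
  rw [Finset.sum_eq_single i]
  · simp
  · intro j _ hj
    rw [Pi.single_eq_of_ne (Ne.symm hj), mul_zero]
  · intro h
    exact absurd (Finset.mem_univ i) h

theorem Deg_fan (hn : 0 < n) : IsCompleteFanRays (Deg_R n) := by
  classical
  constructor
  · intro a ha
    unfold Deg_R at ha
    rcases Finset.mem_insert.1 ha with rfl | ha
    · refine ⟨fun j => - (Pi.single (⟨0, hn⟩ : Fin n) 1 : Fin n → ℤ) j, ?_⟩
      have : ∀ j : Fin n, (-1 : ℤ) * - (Pi.single (⟨0, hn⟩ : Fin n) 1 : Fin n → ℤ) j =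
          (Pi.single (⟨0, hn⟩ : Fin n) 1 : Fin n → ℤ) j := fun j => by ring
      simp only [this]
      rw [Finset.sum_pi_single']
      simp
    · obtain ⟨j, -, rfl⟩ := Finset.mem_image.1 ha
      refine ⟨Pi.single j 1, ?_⟩
      rw [Finset.sum_eq_single j]
      · simp
      · intro i _ hi
        rw [Pi.single_eq_of_ne hi, mul_zero]
      · intro h
        exact absurd (Finset.mem_univ j) h
  · intro a
    set K : ℕ := ∑ j, (a j).natAbs with hK
    have hKa : ∀ j, 0 ≤ a j + K := by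
      intro j
      have : (a j).natAbs ≤ K := Finset.single_le_sum (f := fun j => (a j).natAbs)
        (fun _ _ => Nat.zero_le _) (Finset.mem_univ j)
      omega
    refine ⟨1, le_refl 1, fun r => if r = fun _ => (-1 : ℤ) then K else
      ∑ j, if r = Pi.single j 1 then (a j + K).toNat else 0, ?_⟩
    rw [Deg_sum_R]
    have h1 : ∀ j : Fin n, (∑ i, if (Pi.single j 1 : Fin n → ℤ) = Pi.single i 1
        then (a i + K).toNat else 0) = (a j + K).toNat := by
      intro j
      rw [Finset.sum_eq_single j]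
      · simp
      · intro i _ hi
        rw [if_neg]
        intro h
        exact hi (Deg_single_inj h).symm
      · intro h
        exact absurd (Finset.mem_univ j) h
    funext i
    simp only [if_true, Deg_neg_ne, if_false, h1, Pi.add_apply, Pi.smul_apply, smul_eq_mul,
      Finset.sum_apply]
    have h2 : ∀ j : Fin n, (((a j + K).toNat : ℕ) : ℤ) = a j + K := fun j =>
      Int.toNat_of_nonneg (hKa j)
    simp only [h2]
    rw [Deg_single_sum (fun j => a j + K) i]
    push_cast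
    ring

theorem Deg_sum_R_zero : ∑ r ∈ Deg_R n, r = 0 := by
  rw [Deg_sum_R (fun r => r)]
  funext i
  simp only [Pi.add_apply, Finset.sum_apply, Pi.zero_apply]
  have := Deg_single_sum (fun _ => 1) i
  simp only [one_mul] at this
  rw [this]
  norm_num

end fan

/-- the divisor of an `R`-rational function -/
theorem Deg_rep (hFac : StFac) {n : ℕ} (g' : Kn n →₀ ℝ) :
    ∃ (Q : Finset (Pn n)) (U : Fin n → ℝ) (E : Pn n → ℝ), (∀ P ∈ Q, TorusPrime P) ∧
      (∀ P ∈ Q, ∀ P' ∈ Q, Associated P P' → P = P') ∧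
      (∀ v : DivVal (Kn n), rdiv g' v = ∑ j, U j * (v.ord (x j) : ℝ) +
        ∑ P ∈ Q, E P * (v.ord (algebraMap (Pn n) (Kn n) P) : ℝ)) ∧
      (∀ (P : Pn n) (v : DivVal (Kn n)), v.ord = padOrd P → rdiv g' v = E P) ∧
      (∀ P, TorusPrime P → (∀ P' ∈ Q, ¬ Associated P P') → E P = 0) := by
  classical
  set G0 : Finset (Kn n) := g'.support.erase 0 with hG0
  obtain ⟨Q, hQ1, hQ2, hQ3⟩ := hFac n G0 (fun g hg => Finset.ne_of_mem_erase hg)
  have hfac : ∀ g : Kn n, ∃ u : Fin n → ℤ, g ∈ G0 → ∀ v : DivVal (Kn n),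
      v.ord g = ∑ j, u j * v.ord (x j) +
        ∑ P ∈ Q, padOrd P g * v.ord (algebraMap (Pn n) (Kn n) P) := by
    intro g
    by_cases hg : g ∈ G0
    · obtain ⟨⟨c, u, hc, he⟩, -⟩ := hQ3 g hg
      refine ⟨u, fun _ v => ?_⟩
      have hPne : ∀ P ∈ Q, algebraMap (Pn n) (Kn n) P ≠ 0 := fun P hP =>
        Sum_alg_ne _ (hQ1 P hP).1.ne_zero
      have h1 : v.ord (algebraMap ℂ (Kn n) c * xm u *
          ∏ P ∈ Q, (algebraMap (Pn n) (Kn n) P) ^ (padOrd P g)) =
          ∑ j, u j * v.ord (x j) +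
          ∑ P ∈ Q, padOrd P g * v.ord (algebraMap (Pn n) (Kn n) P) := by
        rw [v.ord_mul _ _ (mul_ne_zero (Sum_const_ne c hc) (Sum_xm_ne u))
          (Finset.prod_ne_zero_iff.2 fun P hP => zpow_ne_zero _ (hPne P hP)),
          v.ord_mul _ _ (Sum_const_ne c hc) (Sum_xm_ne u), Sum_ord_const v c hc, Sum_ord_xm,
          Sum_ord_prod v _ _ (fun P hP => zpow_ne_zero _ (hPne P hP)), zero_add]
        congr 1
        exact Finset.sum_congr rfl fun P hP => Sum_ord_zpow v _ (hPne P hP) _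
      rw [← h1]
      exact congrArg v.ord he
    · exact ⟨0, fun h => absurd h hg⟩
  choose u hu using hfac
  set U : Fin n → ℝ := fun j => ∑ g ∈ G0, g' g * (u g j : ℝ) with hU
  set E : Pn n → ℝ := fun P => ∑ g ∈ G0, g' g * (padOrd P g : ℝ) with hE
  have hrd : ∀ v : DivVal (Kn n), rdiv g' v = ∑ g ∈ G0, g' g * (v.ord g : ℝ) := by
    intro v
    unfold rdiv Finsupp.sum
    rw [hG0]
    symm
    apply Finset.sum_subset (Finset.erase_subset _ _)
    intro f hf hf'
    have : f = 0 := by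
      by_contra hne
      exact hf' (Finset.mem_erase.2 ⟨hne, hf⟩)
    rw [this, v.ord_zero]
    simp
  refine ⟨Q, U, E, hQ1, hQ2, ?_, ?_, ?_⟩
  · intro v
    rw [hrd]
    have e1 : ∑ j, U j * (v.ord (x j) : ℝ) =
        ∑ g ∈ G0, g' g * ∑ j, (u g j : ℝ) * (v.ord (x j) : ℝ) := by
      simp only [hU, Finset.sum_mul, Finset.mul_sum]
      rw [Finset.sum_comm]
      refine Finset.sum_congr rfl fun g _ => Finset.sum_congr rfl fun j _ => ?_
      ring
    have e2 : ∑ P ∈ Q, E P * (v.ord (algebraMap (Pn n) (Kn n) P) : ℝ) =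
        ∑ g ∈ G0, g' g * ∑ P ∈ Q, (padOrd P g : ℝ) *
          (v.ord (algebraMap (Pn n) (Kn n) P) : ℝ) := by
      simp only [hE, Finset.sum_mul, Finset.mul_sum]
      rw [Finset.sum_comm]
      refine Finset.sum_congr rfl fun g _ => Finset.sum_congr rfl fun P _ => ?_
      ring
    rw [e1, e2, ← Finset.sum_add_distrib]
    refine Finset.sum_congr rfl fun g hg => ?_
    rw [hu g hg v]
    push_cast
    ring
  · intro P v hv
    rw [hrd]
    simp only [hE, hv]
  · intro P hP hPQ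
    simp only [hE]
    refine Finset.sum_eq_zero fun g hg => ?_
    rw [(hQ3 g hg).2 P hP hPQ]
    simp

/-- MODULE Deg. -/
theorem hDeg (hExt : StExt) (hMon : StMon) (hPad : StPad) (hTorV : StTorV) (hTorOm : StTorOm)
    (hPadV : StPadV) (hFac : StFac) (hBri : StBri) (hMonL : StMonL) (hNorm : StNorm)
    (hTrc : StTrc) (hCvx : StCvx) (hRig : StRig) (hPoly : StPoly) : StDeg := by
  classical
  intro n ι _ S p hn hp
  -- the toric valuations
  have hpe : ∀ j : Fin n, ∑ i, (Pi.single j 1 : Fin n → ℤ) i * (Pi.single j 1 : Fin n → ℤ) i = 1 := by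
    intro j
    rw [Finset.sum_eq_single j]
    · simp
    · intro i _ hi
      rw [Pi.single_eq_of_ne hi, mul_zero]
    · intro h
      exact absurd (Finset.mem_univ j) h
  have hpi : ∃ w : Fin n → ℤ, ∑ i, (fun _ : Fin n => (-1 : ℤ)) i * w i = 1 := by
    obtain ⟨w, hw⟩ := (Deg_fan hn).primitive (fun _ => (-1 : ℤ)) (by
      unfold Deg_R
      exact Finset.mem_insert_self _ _)
    exact ⟨w, hw⟩
  obtain ⟨wi, hwi⟩ := hpi
  have hve : ∀ j : Fin n, ∃ v : DivVal (Kn n), v.ord = monOrd (Pi.single j 1) := fun j =>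
    hTorV n _ _ (hpe j)
  choose ve hve using hve
  obtain ⟨vi, hvi⟩ := hTorV n _ wi hwi
  have hvP : ∀ P : Pn n, ∃ v : DivVal (Kn n), TorusPrime P → v.ord = padOrd P := by
    intro P
    by_cases hP : TorusPrime P
    · obtain ⟨v, hv⟩ := (hPadV n P hP.1).1
      exact ⟨v, fun _ => hv⟩
    · exact ⟨vi, fun h => absurd h hP⟩
  choose vP hvP using hvP
  have hvex : ∀ i j : Fin n, (ve i).ord (x j) = (Pi.single i 1 : Fin n → ℤ) j := by
    intro i j
    rw [hve i, Sum_monx hExt hMon]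
  have hvix : ∀ j : Fin n, vi.ord (x j) = -1 := by
    intro j
    rw [hvi, Sum_monx hExt hMon]
  -- normalisation
  have hN : ∀ i, ∃ h : Kn n, h ≠ 0 ∧ NormNef (fun v => p.M i v - v.ord h) := fun i =>
    hNorm n (p.M i) (hp.nef i)
  choose h0 h00 h0N using hN
  set w : ι → Fin n → ℤ := fun i j => p.M i (ve j) - (ve j).ord (h0 i) with hw
  set h : ι → Kn n := fun i => h0 i * xm (w i) with hh
  have hh0 : ∀ i, h i ≠ 0 := fun i => mul_ne_zero (h00 i) (Sum_xm_ne _)
  have hho : ∀ i (v : DivVal (Kn n)), v.ord (h i) = v.ord (h0 i) + v.ord (xm (w i)) := fun i v =>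
    v.ord_mul _ _ (h00 i) (Sum_xm_ne _)
  have hhN : ∀ i, NormNef (fun v => p.M i v - v.ord (h i)) := by
    intro i
    have h1 := Deg_shift hPadV (h0N i) (w i)
    have h2 : (fun v : DivVal (Kn n) => p.M i v - v.ord (h i)) =
        fun v => (p.M i v - v.ord (h0 i)) - v.ord (xm (w i)) := by
      funext v
      rw [hho]
      ring
    rw [h2]
    exact h1
  have hMe : ∀ i j, p.M i (ve j) - (ve j).ord (h i) = 0 := by
    intro i j
    rw [hho, Sum_ord_xm]
    simp only [hvex]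
    have h3 : ∑ k, w i k * (Pi.single j 1 : Fin n → ℤ) k = w i j := by
      rw [Finset.sum_eq_single j]
      · simp
      · intro k _ hk
        rw [Pi.single_eq_of_ne hk, mul_zero]
      · intro h
        exact absurd (Finset.mem_univ j) h
    rw [h3]
    simp only [hw]
    ring
  have hTr : ∀ i, ∃ MT : (Fin n → ℤ) → ℤ,
      (∀ (a u : Fin n → ℤ) (v : DivVal (Kn n)), ∑ j, a j * u j = 1 → v.ord = monOrd a →
        MT a = p.M i v - v.ord (h i)) ∧
      (∀ (k : ℕ) (a : Fin n → ℤ), MT ((k : ℤ) • a) = (k : ℤ) * MT a) ∧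
      (∀ a b : Fin n → ℤ, MT (a + b) ≤ MT a + MT b) := fun i =>
    hTrc n (fun v => p.M i v - v.ord (h i)) (hhN i)
  choose MT hMT1 hMT2 hMT3 using hTr
  have hF : ∀ i, 1 ≤ p.M i vi - vi.ord (h i) := by
    intro i
    by_contra hcon
    have hint : ∑ r ∈ Deg_R n, MT i r ≤ MT i (∑ r ∈ Deg_R n, r) := by
      rw [Deg_sum_R_zero, Deg_sum_R]
      have e0 : MT i 0 = 0 := by
        have := hMT2 i 0 0
        simpa using this
      have e1 : ∀ j : Fin n, MT i (Pi.single j 1) = 0 := by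
        intro j
        rw [hMT1 i _ _ (ve j) (hpe j) (hve j), hMe]
      have e2 : MT i (fun _ => (-1 : ℤ)) = p.M i vi - vi.ord (h i) := hMT1 i _ wi vi hwi hvi
      rw [e0, e2, Finset.sum_congr rfl fun j _ => e1 j, Finset.sum_const_zero]
      omega
    obtain ⟨z, hz⟩ := hCvx n (Deg_R n) (Deg_fan hn) (MT i) (hMT2 i) (hMT3 i) hint
    have hpr : IsPrincipal (fun v : DivVal (Kn n) => p.M i v - v.ord (h i)) := by
      refine hRig n _ (hhN i) ⟨z, ?_⟩
      intro a t v ht hv
      show p.M i v - v.ord (h i) = ∑ j, z j * a j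
      rw [← hMT1 i a t v ht hv, hz a]
    apply hp.nontrivial i
    obtain ⟨f, hf0, hf⟩ := hpr
    refine ⟨f * h i, mul_ne_zero hf0 (hh0 i), fun v => ?_⟩
    have h1 : p.M i v - v.ord (h i) = v.ord f := hf v
    rw [v.ord_mul _ _ hf0 (hh0 i)]
    omega
  -- the boundary
  set g' : Kn n →₀ ℝ := p.g - ∑ i, Finsupp.single (h i) (p.b i) with hg'
  have hB : ∀ v, p.B v = rdiv g' v - (ordOmega v : ℝ) -
      ∑ i, p.b i * ((p.M i v - v.ord (h i) : ℤ) : ℝ) := by
    intro v
    rw [hg', Sum_rdiv_sub]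
    unfold PairData.B
    have e : ∑ i, p.b i * ((p.M i v - v.ord (h i) : ℤ) : ℝ) =
        ∑ i, p.b i * (p.M i v : ℝ) - ∑ i, p.b i * (v.ord (h i) : ℝ) := by
      rw [← Finset.sum_sub_distrib]
      refine Finset.sum_congr rfl fun i _ => ?_
      push_cast
      ring
    rw [e]
    ring
  obtain ⟨Q, U, E, hQ1, hQ2, hrd, hrdP, hE0⟩ := Deg_rep hFac g'
  have hBP : ∀ (P : Pn n) (v : DivVal (Kn n)), TorusPrime P → v.ord = padOrd P →
      p.B v = E P := by
    intro P v hP hv
    have h1 := ((hPadV n P hP.1).2 hP v hv).2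
    have h2 : ∀ i, p.M i v - v.ord (h i) = 0 := fun i => (hhN i).1 P v hP hv
    have e0 : ∑ i, p.b i * ((p.M i v - v.ord (h i) : ℤ) : ℝ) = 0 :=
      Finset.sum_eq_zero fun i _ => by rw [h2 i]; simp
    rw [hB, h1, hrdP P v hv, e0]
    simp
  -- the values at the coordinate hyperplanes
  have hBe : ∀ j, p.B (ve j) = U j + 1 := by
    intro j
    have h1 : ordOmega (ve j) = -1 := hTorOm n _ _ (hpe j) _ (hve j)
    have e0 : ∑ i, p.b i * ((p.M i (ve j) - (ve j).ord (h i) : ℤ) : ℝ) = 0 :=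
      Finset.sum_eq_zero fun i _ => by rw [hMe i j]; simp
    have e1 : ∑ k, U k * ((ve j).ord (x k) : ℝ) = U j := by
      rw [Finset.sum_eq_single j]
      · rw [hvex]; simp
      · intro k _ hk
        rw [hvex, Pi.single_eq_of_ne hk]; simp
      · intro h
        exact absurd (Finset.mem_univ j) h
    have e2 : ∑ P ∈ Q, E P * ((ve j).ord (algebraMap (Pn n) (Kn n) P) : ℝ) = 0 := by
      refine Finset.sum_eq_zero fun P hP => ?_
      rw [hve j, Deg_P_single hExt hMon j (hQ1 P hP)]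
      simp
    rw [hB, h1, e0, hrd, e1, e2]
    push_cast
    ring
  have hBi : p.B vi = - ∑ j, U j - ∑ P ∈ Q, E P * (P.totalDegree : ℝ) + 1 -
      ∑ i, p.b i * ((p.M i vi - vi.ord (h i) : ℤ) : ℝ) := by
    have h1 : ordOmega vi = -1 := hTorOm n _ _ hwi _ hvi
    have e1 : ∑ k, U k * (vi.ord (x k) : ℝ) = - ∑ j, U j := by
      rw [← Finset.sum_neg_distrib]
      refine Finset.sum_congr rfl fun k _ => ?_
      rw [hvix]
      push_cast
      ring
    have e2 : ∑ P ∈ Q, E P * (vi.ord (algebraMap (Pn n) (Kn n) P) : ℝ) =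
        - ∑ P ∈ Q, E P * (P.totalDegree : ℝ) := by
      rw [← Finset.sum_neg_distrib]
      refine Finset.sum_congr rfl fun P hP => ?_
      rw [hvi, Deg_P_neg hExt hMon (hQ1 P hP).1.ne_zero]
      push_cast
      ring
    rw [hB, h1, hrd, e1, e2]
    push_cast
    ring
  refine ⟨{
    Q := Q
    ve := ve
    vi := vi
    vP := vP
    F := fun i => p.M i vi - vi.ord (h i)
    M' := fun i v => p.M i v - v.ord (h i)
    prime := hQ1
    inj := hQ2
    zero := ?_
    hve := hve
    hvi := hvi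
    hvP := fun P hP => hvP P (hQ1 P hP)
    hF := hF
    nef := ?_
    prin := fun i => ⟨h i, hh0 i, fun v => rfl⟩
    deg := ?_
    rep := ?_ }⟩
  · intro P v hP hv hPQ
    rw [hBP P v hP hv, hE0 P hP hPQ]
  · intro i hFi
    refine hPoly n _ hn (hhN i) ?_ ?_
    · intro j v hv
      have : v = ve j := Norm_ext (hv.trans (hve j).symm)
      rw [this]
      exact hMe i j
    · intro v hv
      have : v = vi := Norm_ext (hv.trans hvi.symm)
      rw [this]
      exact hFi
  · have e1 : ∑ j, p.B (ve j) = ∑ j, U j + n := by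
      rw [Finset.sum_congr rfl fun j _ => hBe j, Finset.sum_add_distrib]
      simp
    have e2 : ∑ P ∈ Q, p.B (vP P) * (P.totalDegree : ℝ) =
        ∑ P ∈ Q, E P * (P.totalDegree : ℝ) :=
      Finset.sum_congr rfl fun P hP => by rw [hBP P _ (hQ1 P hP) (hvP P (hQ1 P hP))]
    rw [e1, e2, hBi]
    ring
  · intro v
    have e1 : ∑ j, (p.B (ve j) - 1) * (v.ord (x j) : ℝ) = ∑ j, U j * (v.ord (x j) : ℝ) :=
      Finset.sum_congr rfl fun j _ => by rw [hBe j]; ring
    have e2 : ∑ P ∈ Q, p.B (vP P) * (v.ord (algebraMap (Pn n) (Kn n) P) : ℝ) =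
        ∑ P ∈ Q, E P * (v.ord (algebraMap (Pn n) (Kn n) P) : ℝ) :=
      Finset.sum_congr rfl fun P hP => by rw [hBP P _ (hQ1 P hP) (hvP P (hQ1 P hP))]
    rw [e1, e2, hB, hrd]
    ring

end Pool.Agent.Helper53.CX
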