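import Pool.Agent.Helper53.CX.St

/-!
# CX, module Der: a derivation lowers the order by a bounded amount (helper80)
-/

set_option autoImplicit false

namespace Pool.Agent.Helper53.CX

theorem Der_ord_one {n : ℕ} (v : DivVal (Kn n)) : v.ord 1 = 0 := by
  have h := v.ord_mul 1 1 one_ne_zero one_ne_zero
  rw [mul_one] at h
  omega

theorem Der_ord_neg_one {n : ℕ} (v : DivVal (Kn n)) : v.ord (-1) = 0 := by
  have h := v.ord_mul (-1) (-1) (neg_ne_zero.2 one_ne_zero) (neg_ne_zero.2 one_ne_zero)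
  rw [neg_mul_neg, mul_one, Der_ord_one] at h
  omega

theorem Der_ord_neg {n : ℕ} (v : DivVal (Kn n)) (f : Kn n) : v.ord (-f) = v.ord f := by
  by_cases hf : f = 0
  · rw [hf, neg_zero]
  · have h := v.ord_mul (-1) f (neg_ne_zero.2 one_ne_zero) hf
    rw [neg_one_mul, Der_ord_neg_one, zero_add] at h
    exact h

theorem Der_ord_inv {n : ℕ} (v : DivVal (Kn n)) (f : Kn n) (hf : f ≠ 0) :
    v.ord f⁻¹ = - v.ord f := by
  have h := v.ord_mul f f⁻¹ hf (inv_ne_zero hf)
  rw [mul_inv_cancel₀ hf, Der_ord_one] at h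
  omega

/-- zero or of order at least `k` -/
def Der_Ge {n : ℕ} (v : DivVal (Kn n)) (k : ℤ) (g : Kn n) : Prop := g = 0 ∨ k ≤ v.ord g

theorem Der_Ge_mono {n : ℕ} {v : DivVal (Kn n)} {k l : ℤ} {g : Kn n} (h : Der_Ge v k g)
    (hl : l ≤ k) : Der_Ge v l g := by
  rcases h with h | h
  · exact Or.inl h
  · exact Or.inr (hl.trans h)

theorem Der_Ge_add {n : ℕ} {v : DivVal (Kn n)} {k : ℤ} {f g : Kn n} (hf : Der_Ge v k f)
    (hg : Der_Ge v k g) : Der_Ge v k (f + g) := by
  by_cases h0 : f = 0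
  · rw [h0, zero_add]; exact hg
  by_cases h1 : g = 0
  · rw [h1, add_zero]; exact hf
  by_cases h2 : f + g = 0
  · exact Or.inl h2
  · rcases hf with hf | hf
    · exact absurd hf h0
    rcases hg with hg | hg
    · exact absurd hg h1
    exact Or.inr ((le_min hf hg).trans (v.ord_add f g h0 h1 h2))

theorem Der_Ge_mul {n : ℕ} {v : DivVal (Kn n)} {k l : ℤ} {f g : Kn n} (hf : Der_Ge v k f)
    (hg : Der_Ge v l g) : Der_Ge v (k + l) (f * g) := by
  by_cases h0 : f = 0
  · exact Or.inl (by rw [h0, zero_mul])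
  by_cases h1 : g = 0
  · exact Or.inl (by rw [h1, mul_zero])
  rcases hf with hf | hf
  · exact absurd hf h0
  rcases hg with hg | hg
  · exact absurd hg h1
  right
  rw [v.ord_mul f g h0 h1]
  omega

theorem Der_Ge_neg {n : ℕ} {v : DivVal (Kn n)} {k : ℤ} {f : Kn n} (hf : Der_Ge v k f) :
    Der_Ge v k (-f) := by
  rcases hf with hf | hf
  · exact Or.inl (by rw [hf, neg_zero])
  · exact Or.inr (by rw [Der_ord_neg]; exact hf)

theorem Der_theta_one {n : ℕ} (j : Fin n) : theta j (1 : Kn n) = 0 := by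
  have h := theta_algebraMap (n := n) j 1
  rwa [map_one] at h

theorem hDer : StDer := by
  intro n v j
  obtain ⟨R, ⟨S, hS⟩, hR0, hR1⟩ := v.exists_model
  obtain ⟨t, ht0, ht1⟩ := v.exists_one
  set C0 : ℤ := ∑ r ∈ S, |v.ord (theta j r)| with hC0
  have hS1 : ∀ r ∈ S, Der_Ge v (-C0) (theta j r) := by
    intro r hr
    right
    have h1 : |v.ord (theta j r)| ≤ C0 :=
      Finset.single_le_sum (f := fun r => |v.ord (theta j r)|) (fun i _ => abs_nonneg _) hr
    have h2 := neg_abs_le (v.ord (theta j r))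
    omega
  have hR2 : ∀ f ∈ R, Der_Ge v 0 f := by
    intro f hf
    by_cases h : f = 0
    · exact Or.inl h
    · exact Or.inr (hR0 f hf h)
  have hR3 : ∀ f ∈ R, Der_Ge v (-C0) (theta j f) := by
    intro f hf
    rw [← hS] at hf
    induction hf using Algebra.adjoin_induction with
    | mem r hr => exact hS1 r hr
    | algebraMap c => exact Or.inl (theta_algebraMap j c)
    | add f g _ _ h1 h2 => rw [theta_add]; exact Der_Ge_add h1 h2
    | mul f g hf hg h1 h2 =>
      rw [hS] at hf hg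
      rw [theta_mul]
      refine Der_Ge_add ?_ ?_
      · have := Der_Ge_mul (hR2 f hf) h2
        rwa [zero_add] at this
      · have := Der_Ge_mul (hR2 g hg) h1
        rwa [zero_add] at this
  have hV : ∀ f : Kn n, f ≠ 0 → 0 ≤ v.ord f → Der_Ge v (-C0) (theta j f) := by
    intro f hf0 hf1
    obtain ⟨a, ha, b, hb, hb0, hb1, hab⟩ := hR1 f hf0 hf1
    have h1 : b * theta j f = theta j a + -(f * theta j b) := by
      rw [← hab, theta_mul]; ring
    have h2 : Der_Ge v (-C0) (b * theta j f) := by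
      rw [h1]
      refine Der_Ge_add (hR3 a ha) (Der_Ge_neg ?_)
      have := Der_Ge_mul (Or.inr hf1 : Der_Ge v 0 f) (hR3 b hb)
      rwa [zero_add] at this
    rcases h2 with h2 | h2
    · rcases mul_eq_zero.1 h2 with h3 | h3
      · exact absurd h3 hb0
      · exact Or.inl h3
    · by_cases h3 : theta j f = 0
      · exact Or.inl h3
      · right
        rw [v.ord_mul _ _ hb0 h3, hb1, zero_add] at h2
        exact h2
  have ht : ∀ k : ℕ, v.ord (t ^ k) = k ∧ Der_Ge v ((k : ℤ) - 1 - C0) (theta j (t ^ k)) := by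
    intro k
    induction k with
    | zero =>
      rw [pow_zero]
      exact ⟨by rw [Der_ord_one]; rfl, Or.inl (Der_theta_one j)⟩
    | succ k ih =>
      rw [pow_succ]
      refine ⟨?_, ?_⟩
      · rw [v.ord_mul _ _ (pow_ne_zero _ ht0) ht0, ih.1, ht1]; push_cast; ring
      · rw [theta_mul]
        refine Der_Ge_add ?_ ?_
        · refine Der_Ge_mono (Der_Ge_mul (Or.inr le_rfl : Der_Ge v (v.ord (t ^ k)) (t ^ k))
            (hV t ht0 (by omega))) ?_
          rw [ih.1]; push_cast; omega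
        · refine Der_Ge_mono (Der_Ge_mul (Or.inr le_rfl : Der_Ge v (v.ord t) t) ih.2) ?_
          rw [ht1]; push_cast; omega
  have hP : ∀ f : Kn n, f ≠ 0 → 0 ≤ v.ord f → Der_Ge v (v.ord f - 1 - C0) (theta j f) := by
    intro f hf0 hf1
    obtain ⟨k, hk⟩ := Int.eq_ofNat_of_zero_le hf1
    have hk' : v.ord f = (k : ℤ) := hk
    have htk : t ^ k ≠ 0 := pow_ne_zero _ ht0
    set u : Kn n := f * (t ^ k)⁻¹ with hu
    have hu0 : u ≠ 0 := mul_ne_zero hf0 (inv_ne_zero htk)
    have hu1 : v.ord u = 0 := by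
      rw [hu, v.ord_mul _ _ hf0 (inv_ne_zero htk), Der_ord_inv v _ htk, (ht k).1, hk']; omega
    have hfu : f = t ^ k * u := by
      rw [hu, mul_comm f, ← mul_assoc, mul_inv_cancel₀ htk, one_mul]
    have h3 : theta j f = t ^ k * theta j u + u * theta j (t ^ k) := by
      conv_lhs => rw [hfu]
      rw [theta_mul]
    rw [h3]
    refine Der_Ge_add ?_ ?_
    · refine Der_Ge_mono (Der_Ge_mul (Or.inr le_rfl : Der_Ge v (v.ord (t ^ k)) (t ^ k))
        (hV u hu0 hu1.ge)) ?_
      rw [(ht k).1, hk']; omega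
    · refine Der_Ge_mono (Der_Ge_mul (Or.inr le_rfl : Der_Ge v (v.ord u) u) (ht k).2) ?_
      rw [hu1, hk']; omega
  refine ⟨C0 + 1, fun f hf0 hf1 => ?_⟩
  by_cases hs : 0 ≤ v.ord f
  · rcases hP f hf0 hs with h | h
    · exact absurd h hf1
    · omega
  · have hi : v.ord f⁻¹ = - v.ord f := Der_ord_inv v f hf0
    have hg := hP f⁻¹ (inv_ne_zero hf0) (by omega)
    have h1 : theta j f = -(f * f * theta j f⁻¹) := by
      have h2 := theta_mul j f f⁻¹
      rw [mul_inv_cancel₀ hf0, Der_theta_one] at h2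
      have h3 : f * (f * theta j f⁻¹ + f⁻¹ * theta j f) = 0 := by rw [← h2, mul_zero]
      rw [mul_add, ← mul_assoc f f⁻¹, mul_inv_cancel₀ hf0, one_mul, ← mul_assoc] at h3
      exact eq_neg_of_add_eq_zero_right h3
    have h4 : Der_Ge v (v.ord f - 1 - C0) (theta j f) := by
      rw [h1]
      refine Der_Ge_neg (Der_Ge_mono (Der_Ge_mul (Der_Ge_mul
        (Or.inr le_rfl : Der_Ge v (v.ord f) f) (Or.inr le_rfl : Der_Ge v (v.ord f) f)) hg) ?_)
      rw [hi]; omega
    rcases h4 with h | h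
    · exact absurd h hf1
    · omega

end Pool.Agent.Helper53.CX
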