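import Pool.Agent.Helper53.CX.St
import Pool.Agent.Helper53.CX.St2

/-!
# Project CX part 2 (MP_140278_ag): module EqA, consequences of equality
-/

set_option autoImplicit false

open scoped BigOperators
open MvPolynomial

namespace Pool.Agent.Helper53.CX

theorem EqA_ext {K : Type} [Field K] [Algebra ℂ K] {v w : DivVal K}
    (h : v.ord = w.ord) : v = w := by
  cases v
  cases w
  simp only at h
  subst h
  rfl

theorem EqA_pad {n : ℕ} {P Q : Pn n} (h : Associated P Q) : padOrd P = padOrd Q := by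
  unfold padOrd
  congr 1
  funext p
  rw [multiplicity_eq_of_associated_left h]

theorem EqA_deg {n : ℕ} {P : Pn n} (h : Irreducible P) : 1 ≤ P.totalDegree := by
  by_contra hcon
  have h0 : P.totalDegree = 0 := by omega
  rw [MvPolynomial.totalDegree_eq_zero_iff_eq_C] at h0
  by_cases ha : P.coeff 0 = 0
  · rw [ha, C_0] at h0
    exact h.ne_zero h0
  · apply h.not_isUnit
    rw [h0]
    exact (IsUnit.mk0 _ ha).map C

theorem hEqA (hBri : StBri) (hPadV : StPadV) (hRnk : StRnk) : StEqA := by
  intro n ι _ S p hn hp hOld D C ρ hCS hrank hge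
  classical
  let vr : Option (Fin n) → DivVal (Kn n) := fun o => o.elim D.vi D.ve
  let wv : Option (Fin n) → (Fin n → ℤ) := fun o => o.elim (fun _ => (-1 : ℤ))
    (fun j => Pi.single j 1)
  have hvr : ∀ o, (vr o).ord = monOrd (wv o) := by
    rintro (_ | j)
    · exact D.hvi
    · exact D.hve j
  have hvrOld : ∀ o, Old (vr o) := by
    rintro (_ | j)
    · exact Or.inr (Or.inl D.hvi)
    · exact Or.inl ⟨j, D.hve j⟩
  have hvPOld : ∀ P ∈ D.Q, Old (D.vP P) := fun P hP =>
    Or.inr (Or.inr ⟨P, D.prime P hP, D.hvP P hP⟩)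
  have hwinj : Function.Injective wv := by
    rintro (_ | j) (_ | k) h
    · rfl
    · exfalso
      have := congrArg (fun f => f k) h
      simp [wv] at this
    · exfalso
      have := congrArg (fun f => f j) h
      simp [wv] at this
    · by_cases hjk : j = k
      · rw [hjk]
      · exfalso
        have := congrArg (fun f => f j) h
        simp [wv, Pi.single_eq_of_ne hjk] at this
  have hvrinj : Function.Injective vr := by
    intro r r' h
    apply hwinj
    exact (hBri n (vr r)).2.2.1 _ _ (hvr r) (by rw [h]; exact hvr r')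
  have hvPinj : ∀ P ∈ D.Q, ∀ P' ∈ D.Q, D.vP P = D.vP P' → P = P' := by
    intro P hP P' hP' h
    exact D.inj P hP P' hP' ((hBri n (D.vP P)).2.2.2.1 P P' (D.prime P hP).1
      (D.prime P' hP').1 (D.hvP P hP) (by rw [h]; exact D.hvP P' hP'))
  have hvrpad : ∀ r, ∀ P, TorusPrime P → (vr r).ord ≠ padOrd P := fun r P hP =>
    (hBri n (vr r)).2.2.2.2 _ P hP (hvr r)
  have hOldiff : ∀ v, Old v ↔ (v ∈ Finset.univ.image vr ∨ ∃ P, TorusPrime P ∧
      v.ord = padOrd P) := by
    intro v
    constructor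
    · rintro (⟨j, hj⟩ | h | h)
      · left
        rw [Finset.mem_image]
        exact ⟨some j, Finset.mem_univ _, EqA_ext (by rw [hvr, hj]; rfl)⟩
      · left
        rw [Finset.mem_image]
        exact ⟨none, Finset.mem_univ _, EqA_ext (by rw [hvr, h]; rfl)⟩
      · exact Or.inr h
    · rintro (h | h)
      · obtain ⟨r, -, rfl⟩ := Finset.mem_image.1 h
        exact hvrOld r
      · exact Or.inr (Or.inr h)
  -- the sets
  set RS := (Finset.univ : Finset (Option (Fin n))).filter fun r => vr r ∈ S with hRS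
  set RN := (Finset.univ : Finset (Option (Fin n))).filter fun r => ¬ vr r ∈ S with hRN
  set QS := D.Q.filter fun P => D.vP P ∈ S with hQS
  set QN := D.Q.filter fun P => ¬ D.vP P ∈ S with hQN
  set CR := C.filter fun v => v ∈ Finset.univ.image vr with hCR
  set CT := C.filter fun v => ¬ v ∈ Finset.univ.image vr ∧ ∃ P, TorusPrime P ∧
    v.ord = padOrd P with hCT
  set CE := C.filter fun v => ¬ v ∈ Finset.univ.image vr ∧ ¬ ∃ P, TorusPrime P ∧
    v.ord = padOrd P with hCE
  have hCEold : ∀ v, v ∈ CE ↔ v ∈ C ∧ ¬ Old v := by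
    intro v
    rw [hCE, Finset.mem_filter, hOldiff, not_or]
  -- the sum over C
  have hsplit : ∑ v ∈ C, p.B v = ∑ v ∈ CR, p.B v + (∑ v ∈ CT, p.B v + ∑ v ∈ CE, p.B v) := by
    rw [← Finset.sum_filter_add_sum_filter_not C (fun v => v ∈ Finset.univ.image vr)]
    congr 1
    rw [← Finset.sum_filter_add_sum_filter_not (C.filter fun v => ¬ v ∈ Finset.univ.image vr)
      (fun v => ∃ P, TorusPrime P ∧ v.ord = padOrd P)]
    rw [Finset.filter_filter, Finset.filter_filter]
  have hR1 : ∑ v ∈ CR, p.B v ≤ ∑ r ∈ RS, p.B (vr r) := by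
    have h1 : ∑ r ∈ RS, p.B (vr r) = ∑ v ∈ RS.image vr, p.B v := by
      rw [Finset.sum_image]
      intro r hr r' hr' h
      exact hvrinj h
    rw [h1]
    apply Finset.sum_le_sum_of_subset_of_nonneg
    · intro v hv
      obtain ⟨hvC, hvR⟩ := Finset.mem_filter.1 hv
      obtain ⟨r, hr, rfl⟩ := Finset.mem_image.1 hvR
      exact Finset.mem_image_of_mem vr (Finset.mem_filter.2 ⟨hr, hCS (Finset.mem_coe.2 hvC)⟩)
    · intro v hv _
      obtain ⟨r, hr, rfl⟩ := Finset.mem_image.1 hv
      exact hp.effective _ (Finset.mem_filter.1 hr).2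
  have hT1 : ∑ v ∈ CT, p.B v ≤ ∑ P ∈ QS, p.B (D.vP P) := by
    have h1 : ∑ P ∈ QS, p.B (D.vP P) = ∑ v ∈ QS.image D.vP, p.B v := by
      rw [Finset.sum_image]
      intro P hP P' hP' h
      exact hvPinj P (Finset.mem_filter.1 (Finset.mem_coe.1 hP)).1 P'
        (Finset.mem_filter.1 (Finset.mem_coe.1 hP')).1 h
    rw [h1]
    have h2 : ∑ v ∈ CT, p.B v = ∑ v ∈ CT.filter (fun v => v ∈ QS.image D.vP), p.B v := by
      rw [← Finset.sum_filter_add_sum_filter_not CT (fun v => v ∈ QS.image D.vP)]
      rw [Finset.sum_eq_zero (s := CT.filter fun v => ¬ v ∈ QS.image D.vP), add_zero]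
      intro v hv
      obtain ⟨hvT, hvQ⟩ := Finset.mem_filter.1 hv
      obtain ⟨hvC, -, P, hP, hvo⟩ := Finset.mem_filter.1 hvT
      apply D.zero P v hP hvo
      intro P' hP' hass
      apply hvQ
      have h3 : D.vP P' = v := EqA_ext (by rw [D.hvP P' hP', hvo, EqA_pad hass])
      rw [Finset.mem_image]
      exact ⟨P', Finset.mem_filter.2 ⟨hP', by rw [h3]; exact hCS (Finset.mem_coe.2 hvC)⟩, h3⟩
    rw [h2]
    apply Finset.sum_le_sum_of_subset_of_nonneg
    · intro v hv
      exact (Finset.mem_filter.1 hv).2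
    · intro v hv _
      obtain ⟨P, hP, rfl⟩ := Finset.mem_image.1 hv
      exact hp.effective _ (Finset.mem_filter.1 hP).2
  -- the sums over R and Q
  have hRsum : ∑ r, p.B (vr r) = ∑ r ∈ RS, p.B (vr r) + (RN.card : ℝ) := by
    rw [← Finset.sum_filter_add_sum_filter_not Finset.univ (fun r => vr r ∈ S)]
    congr 1
    rw [Finset.sum_congr rfl (g := fun _ => (1 : ℝ))]
    · simp [hRN]
    · intro r hr
      obtain ⟨hrR, hrS⟩ := Finset.mem_filter.1 hr
      exact (hOld _ (hvrOld r)).resolve_left hrS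
  have hQsum : ∑ P ∈ D.Q, p.B (D.vP P) = ∑ P ∈ QS, p.B (D.vP P) + (QN.card : ℝ) := by
    rw [← Finset.sum_filter_add_sum_filter_not D.Q (fun P => D.vP P ∈ S)]
    congr 1
    rw [Finset.sum_congr rfl (g := fun _ => (1 : ℝ))]
    · simp [hQN]
    · intro P hP
      obtain ⟨hPQ, hPS⟩ := Finset.mem_filter.1 hP
      exact (hOld _ (hvPOld P hPQ)).resolve_left hPS
  have hRcard : (n : ℝ) + 1 = RS.card + RN.card := by
    have h := Finset.card_filter_add_card_filter_not
      (s := (Finset.univ : Finset (Option (Fin n)))) (fun r => vr r ∈ S)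
    rw [Finset.card_univ, Fintype.card_option, Fintype.card_fin] at h
    exact_mod_cast h.symm
  have hRopt : ∑ r, p.B (vr r) = p.B D.vi + ∑ j, p.B (D.ve j) := by
    rw [Fintype.sum_option]
    rfl
  -- the defect
  set δ : ℝ := ∑ P ∈ D.Q, p.B (D.vP P) * ((P.totalDegree : ℝ) - 1) +
    ∑ i, p.b i * ((D.F i : ℝ) - 1) with hδ
  have hdeg := D.deg
  have hδ1 : ∑ P ∈ D.Q, p.B (D.vP P) * ((P.totalDegree : ℝ) - 1)
      = ∑ P ∈ D.Q, p.B (D.vP P) * (P.totalDegree : ℝ) - ∑ P ∈ D.Q, p.B (D.vP P) := by
    rw [← Finset.sum_sub_distrib]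
    refine Finset.sum_congr rfl fun P _ => ?_
    ring
  have hδ2 : ∑ i, p.b i * ((D.F i : ℝ) - 1) = ∑ i, p.b i * (D.F i : ℝ) - ∑ i, p.b i := by
    rw [← Finset.sum_sub_distrib]
    refine Finset.sum_congr rfl fun P _ => ?_
    ring
  have hkey : ∀ E0 : Finset (DivVal (Kn n)), (E0 : Set (DivVal (Kn n))) ⊆ S →
      (∀ v ∈ E0, ¬ Old v) → (E0.card : ℝ) + δ ≤ ∑ v ∈ CE, p.B v := by
    intro E0 hE0S hE0old
    have hT := hRnk n S (RS.image vr ∪ E0) QN ρ (by
        intro v hv
        rw [Finset.mem_coe, Finset.mem_union, Finset.mem_image] at hv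
        rcases hv with ⟨r, hr, rfl⟩ | hv
        · exact (Finset.mem_filter.1 hr).2
        · exact hE0S (Finset.mem_coe.2 hv)) (by
        intro v hv P hP
        rw [Finset.mem_union, Finset.mem_image] at hv
        rcases hv with ⟨r, hr, rfl⟩ | hv
        · exact hvrpad r P hP
        · intro h
          exact hE0old v hv (Or.inr (Or.inr ⟨P, hP, h⟩))) (by
        intro P hP
        obtain ⟨v, hv⟩ := (hPadV n P hP.1).1
        by_cases hvS : v ∈ S
        · exact Or.inl ⟨v, hvS, hv⟩
        · right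
          have hB : p.B v = 1 := by
            rcases hOld v (Or.inr (Or.inr ⟨P, hP, hv⟩)) with h | h
            · exact absurd h hvS
            · exact h
          have hex : ∃ P' ∈ D.Q, Associated P P' := by
            by_contra hcon
            push Not at hcon
            have := D.zero P v hP hv hcon
            rw [hB] at this
            exact one_ne_zero this
          obtain ⟨P', hP', hass⟩ := hex
          refine ⟨P', ?_, hass⟩
          rw [hQN, Finset.mem_filter]
          refine ⟨hP', ?_⟩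
          have : D.vP P' = v := EqA_ext (by rw [D.hvP P' hP', hv, EqA_pad hass])
          rw [this]
          exact hvS) hrank
    have hTcard : (RS.image vr ∪ E0).card = RS.card + E0.card := by
      rw [Finset.card_union_of_disjoint, Finset.card_image_of_injOn]
      · intro r hr r' hr' h
        exact hvrinj h
      · rw [Finset.disjoint_left]
        intro v hv hv'
        obtain ⟨r, hr, rfl⟩ := Finset.mem_image.1 hv
        exact hE0old _ hv' (hvrOld r)
    have hTr : (RS.card : ℝ) + E0.card ≤ n + QN.card + ρ := by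
      rw [hTcard] at hT
      exact_mod_cast hT
    linarith
  have hCES : (CE : Set (DivVal (Kn n))) ⊆ S := by
    intro v hv
    exact hCS (Finset.mem_coe.2 ((hCEold v).1 (Finset.mem_coe.1 hv)).1)
  have hCE0 : ∀ v ∈ CE, ¬ Old v := fun v hv => ((hCEold v).1 hv).2
  have hE1 : ∑ v ∈ CE, p.B v ≤ (CE.card : ℝ) := by
    calc ∑ v ∈ CE, p.B v ≤ ∑ _v ∈ CE, (1 : ℝ) := Finset.sum_le_sum fun v _ => hp.glc v
      _ = (CE.card : ℝ) := by simp
  have hBP : ∀ P ∈ D.Q, 0 ≤ p.B (D.vP P) := by
    intro P hP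
    rcases hOld _ (hvPOld P hP) with h | h
    · exact hp.effective _ h
    · rw [h]
      norm_num
  have hn1 : ∀ P ∈ D.Q, 0 ≤ p.B (D.vP P) * ((P.totalDegree : ℝ) - 1) := by
    intro P hP
    apply mul_nonneg (hBP P hP)
    have := EqA_deg (D.prime P hP).1
    have h2 : (1 : ℝ) ≤ (P.totalDegree : ℝ) := by exact_mod_cast this
    linarith
  have hn2 : ∀ i ∈ (Finset.univ : Finset ι), 0 ≤ p.b i * ((D.F i : ℝ) - 1) := by
    intro i _
    apply mul_nonneg (hp.b_nonneg i)
    have h2 : (1 : ℝ) ≤ (D.F i : ℝ) := by exact_mod_cast D.hF i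
    linarith
  have hs1 := Finset.sum_nonneg hn1
  have hs2 := Finset.sum_nonneg hn2
  have hk0 := hkey CE hCES hCE0
  have hδ0 : δ = 0 := by linarith
  have hz1 : ∑ P ∈ D.Q, p.B (D.vP P) * ((P.totalDegree : ℝ) - 1) = 0 := by linarith
  have hz2 : ∑ i, p.b i * ((D.F i : ℝ) - 1) = 0 := by linarith
  refine ⟨?_, ?_, ?_⟩
  · intro v hvS
    by_cases hvo : Old v
    · exact Or.inl hvo
    · right
      have hk1 := hkey (insert v CE) (by
        intro w hw
        rw [Finset.coe_insert] at hw
        rcases hw with rfl | hw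
        · exact hvS
        · exact hCES hw) (by
        intro w hw
        rw [Finset.mem_insert] at hw
        rcases hw with rfl | hw
        · exact hvo
        · exact hCE0 w hw)
      have hvCE : v ∈ CE := by
        by_contra hcon
        rw [Finset.card_insert_of_notMem hcon] at hk1
        push_cast at hk1
        linarith
      have hsum0 : ∑ w ∈ CE, (1 - p.B w) = 0 := by
        rw [Finset.sum_sub_distrib]
        simp only [Finset.sum_const, nsmul_eq_mul, mul_one]
        linarith
      have := (Finset.sum_eq_zero_iff_of_nonneg (fun w _ => by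
        have := hp.glc w
        linarith)).1 hsum0 v hvCE
      linarith
  · intro P hP hpos
    have h1 := (Finset.sum_eq_zero_iff_of_nonneg hn1).1 hz1 P hP
    have h2 : (P.totalDegree : ℝ) - 1 = 0 := by
      rcases mul_eq_zero.1 h1 with h | h
      · exact absurd h (ne_of_gt hpos)
      · exact h
    have h3 : (P.totalDegree : ℝ) = 1 := by linarith
    exact_mod_cast h3
  · intro i hpos
    have h1 := (Finset.sum_eq_zero_iff_of_nonneg hn2).1 hz2 i (Finset.mem_univ i)
    have h2 : (D.F i : ℝ) - 1 = 0 := by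
      rcases mul_eq_zero.1 h1 with h | h
      · exact absurd h (ne_of_gt hpos)
      · exact h
    have h3 : (D.F i : ℝ) = 1 := by linarith
    exact_mod_cast h3

end Pool.Agent.Helper53.CX
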