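import Pool.Agent.Helper53.CX.St
import Pool.Agent.Helper53.CX.St2

/-!
# Project CX part 2 (MP_140278_ag): module EqB, the pair as a weighted family of linear spaces
-/

set_option autoImplicit false

open scoped BigOperators
open MvPolynomial

namespace Pool.Agent.Helper53.CX

theorem EqB_lfv_smul {n : ℕ} (a : ℂ) (c : Fin (n + 1) → ℂ) :
    (lfv (a • c) : Kn n) = algebraMap ℂ (Kn n) a * lfv c := by
  unfold lfv
  rw [Finset.mul_sum]
  refine Finset.sum_congr rfl fun j _ => ?_
  rw [Pi.smul_apply, smul_eq_mul, map_mul, mul_assoc]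

theorem EqB_span {n : ℕ} (hGen : StGen) (hVmin : StVmin) (v : DivVal (Kn n))
    (c : Fin (n + 1) → ℂ) (hc : c ≠ 0) :
    Submodule.span ℂ {c} ≠ ⊥ ∧ vmin v (Submodule.span ℂ {c}) = v.ord (lfv c) := by
  have hne : Submodule.span ℂ {c} ≠ ⊥ := by
    intro h
    rw [Submodule.span_singleton_eq_bot] at h
    exact hc h
  refine ⟨hne, ?_⟩
  obtain ⟨-, c', hc', hc'0, heq⟩ := (hVmin n v).2.1 _ hne
  rw [Submodule.mem_span_singleton] at hc'
  obtain ⟨a, rfl⟩ := hc'
  have ha : a ≠ 0 := by
    rintro rfl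
    apply hc'0
    rw [zero_smul]
  rw [← heq, EqB_lfv_smul]
  have h1 : (algebraMap ℂ (Kn n) a) ≠ 0 := by
    rw [Ne, map_eq_zero]
    exact ha
  have h2 := v.ord_mul _ _ h1 ((hGen n).1 c hc)
  rw [h2, (hVmin n v).1 a ha, zero_add]

/-- the coefficient vector of a polynomial of degree 1 -/
noncomputable def EqB_vec {n : ℕ} (P : Pn n) : Fin (n + 1) → ℂ :=
  Fin.cons (P.coeff 0) (fun j => P.coeff (Finsupp.single j 1))

theorem EqB_lin {n : ℕ} (P : Pn n) (hP : P.totalDegree = 1) :
    P = C (P.coeff 0) + ∑ j, C (P.coeff (Finsupp.single j 1)) * X j := by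
  classical
  ext m
  rw [coeff_add, coeff_C, MvPolynomial.coeff_sum]
  simp only [coeff_C_mul, coeff_X]
  by_cases hm : m = 0
  · subst hm
    rw [if_pos rfl]
    rw [Finset.sum_eq_zero, add_zero]
    intro j _
    have : Finsupp.single j 1 ≠ (0 : Fin n →₀ ℕ) := by
      intro h
      have := congrArg (fun f => f j) h
      simp at this
    simp [this]
  · rw [if_neg (Ne.symm hm), zero_add]
    by_cases hs : ∃ j, m = Finsupp.single j 1
    · obtain ⟨j, rfl⟩ := hs
      rw [Finset.sum_eq_single j]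
      · simp
      · intro b _ hb
        have : Finsupp.single b 1 ≠ (Finsupp.single j 1 : Fin n →₀ ℕ) := by
          intro h
          have h2 := congrArg (fun f => f b) h
          simp only [Finsupp.single_eq_same] at h2
          rw [Finsupp.single_eq_of_ne hb] at h2
          exact one_ne_zero h2
        simp [this]
      · intro h
        exact absurd (Finset.mem_univ _) h
    · rw [Finset.sum_eq_zero]
      · apply coeff_eq_zero_of_totalDegree_lt
        rw [hP]
        by_contra hcon
        have hle : ∑ i ∈ m.support, m i ≤ 1 := by omega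
        obtain ⟨i, hi⟩ : ∃ i, m i ≠ 0 := by
          by_contra h2
          apply hm
          ext i
          by_contra h3
          exact h2 ⟨i, h3⟩
        apply hs
        refine ⟨i, ?_⟩
        have hmem : i ∈ m.support := Finsupp.mem_support_iff.2 hi
        have h1 : m i ≤ 1 := (Finset.single_le_sum (fun j _ => Nat.zero_le (m j)) hmem).trans hle
        have h4 : m i = 1 := by omega
        ext k
        by_cases hk : k = i
        · subst hk
          rw [Finsupp.single_eq_same, h4]
        · rw [Finsupp.single_eq_of_ne hk]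
          by_contra h5
          have hk2 : k ∈ m.support := Finsupp.mem_support_iff.2 h5
          have h6 : m i + m k ≤ ∑ i ∈ m.support, m i := by
            rw [← Finset.sum_pair (Ne.symm hk)]
            exact Finset.sum_le_sum_of_subset (by
              intro z hz
              rw [Finset.mem_insert, Finset.mem_singleton] at hz
              rcases hz with rfl | rfl
              · exact hmem
              · exact hk2)
          have h7 : 1 ≤ m k := Nat.one_le_iff_ne_zero.2 h5
          omega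
      · intro j _
        have : Finsupp.single j 1 ≠ m := fun h => hs ⟨j, h.symm⟩
        simp [this]

theorem EqB_lfv {n : ℕ} (P : Pn n) (hP : P.totalDegree = 1) :
    (lfv (EqB_vec P) : Kn n) = algebraMap (Pn n) (Kn n) P := by
  have hC : ∀ a : ℂ, algebraMap ℂ (Kn n) a = algebraMap (Pn n) (Kn n) (C a) := by
    intro a
    rw [IsScalarTower.algebraMap_apply ℂ (Pn n) (Kn n)]
    rfl
  conv_rhs => rw [EqB_lin P hP]
  unfold lfv EqB_vec hx
  rw [Fin.sum_univ_succ, map_add, map_sum]
  simp only [Fin.cons_zero, Fin.cons_succ, mul_one, hC, map_mul]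
  rfl

theorem hEqB (hGen : StGen) (hVmin : StVmin) (hPrj : StPrj) : StEqB := by
  intro n ι _ p D hn hB hb hQ hF
  classical
  have hex : ∀ i, ∃ W : Submodule ℂ (Fin (n + 1) → ℂ), 0 < p.b i →
      (W ≠ ⊥ ∧ ∀ v, D.M' i v = - vmin v W) := by
    intro i
    by_cases h : 0 < p.b i
    · obtain ⟨W, hW1, hW2⟩ := hPrj n (D.M' i) hn (D.nef i (hF i h))
      exact ⟨W, fun _ => ⟨hW1, hW2⟩⟩
    · exact ⟨⊥, fun h' => absurd h' h⟩
  choose Wi hWi using hex
  let κ0 := (Fin n ⊕ Unit) ⊕ ({P // P ∈ D.Q} ⊕ ι)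
  let c0 : κ0 → ℝ := Sum.elim (Sum.elim (fun j => p.B (D.ve j)) (fun _ => p.B D.vi))
    (Sum.elim (fun P => p.B (D.vP P.1)) (fun i => p.b i))
  let W0 : κ0 → Submodule ℂ (Fin (n + 1) → ℂ) :=
    Sum.elim (Sum.elim (fun j => Submodule.span ℂ {Pi.single j.succ 1})
      (fun _ => Submodule.span ℂ {Pi.single 0 1}))
    (Sum.elim (fun P => Submodule.span ℂ {EqB_vec P.1}) (fun i => Wi i))
  let val : κ0 → DivVal (Kn n) → ℤ :=
    Sum.elim (Sum.elim (fun j v => v.ord (x j)) (fun _ _ => 0))
    (Sum.elim (fun P v => v.ord (algebraMap (Pn n) (Kn n) P.1)) (fun i v => - D.M' i v))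
  have hoe : ∀ j, Old (D.ve j) := fun j => Or.inl ⟨j, D.hve j⟩
  have hoi : Old D.vi := Or.inr (Or.inl D.hvi)
  have hoP : ∀ P ∈ D.Q, Old (D.vP P) := fun P hP => Or.inr (Or.inr ⟨P, D.prime P hP, D.hvP P hP⟩)
  have hc0 : ∀ k, 0 ≤ c0 k := by
    rintro ((j | u) | (P | i))
    · exact hB _ (hoe j)
    · exact hB _ hoi
    · exact hB _ (hoP P.1 P.2)
    · exact hb i
  have hlx : ∀ j : Fin n, (lfv (Pi.single j.succ 1) : Kn n) = x j := by
    intro j
    unfold lfv hx
    rw [Finset.sum_eq_single j.succ]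
    · simp
    · intro b _ hb'
      rw [Pi.single_eq_of_ne hb', map_zero, zero_mul]
    · intro h
      exact absurd (Finset.mem_univ _) h
  have hl0 : (lfv (Pi.single 0 1) : Kn n) = 1 := by
    unfold lfv hx
    rw [Finset.sum_eq_single 0]
    · simp
    · intro b _ hb'
      rw [Pi.single_eq_of_ne hb', map_zero, zero_mul]
    · intro h
      exact absurd (Finset.mem_univ _) h
  have hsingle : ∀ i : Fin (n + 1), (Pi.single i 1 : Fin (n + 1) → ℂ) ≠ 0 := by
    intro i h
    have := congrArg (fun f => f i) h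
    simp at this
  have hvec : ∀ P ∈ D.Q, 0 < p.B (D.vP P) → EqB_vec P ≠ 0 := by
    intro P hP hpos h
    have h1 := EqB_lfv P (hQ P hP hpos)
    rw [h] at h1
    have h2 : (lfv (0 : Fin (n + 1) → ℂ) : Kn n) = 0 := by
      unfold lfv
      simp
    rw [h2] at h1
    have h3 : P = 0 := by
      have := (IsFractionRing.injective (Pn n) (Kn n))
      apply this
      rw [← h1, map_zero]
    exact (D.prime P hP).1.ne_zero h3
  have hone : ∀ v : DivVal (Kn n), v.ord 1 = 0 := by
    intro v
    have h1 := v.ord_mul 1 1 one_ne_zero one_ne_zero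
    rw [mul_one] at h1
    linarith
  have hW0 : ∀ k, 0 < c0 k → W0 k ≠ ⊥ ∧ ∀ v, vmin v (W0 k) = val k v := by
    rintro ((j | u) | (P | i)) hk
    · have hv : ∀ v : DivVal (Kn n), _ := fun v =>
        EqB_span hGen hVmin v (Pi.single j.succ 1) (hsingle _)
      refine ⟨?_, fun v => ?_⟩
      · intro h
        change Submodule.span ℂ {Pi.single j.succ 1} = ⊥ at h
        rw [Submodule.span_singleton_eq_bot] at h
        exact hsingle _ h
      · have := (hv v).2
        rw [hlx] at this
        exact this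
    · have hv : ∀ v : DivVal (Kn n), _ := fun v =>
        EqB_span hGen hVmin v (Pi.single 0 1) (hsingle _)
      refine ⟨?_, fun v => ?_⟩
      · intro h
        change Submodule.span ℂ {Pi.single 0 1} = ⊥ at h
        rw [Submodule.span_singleton_eq_bot] at h
        exact hsingle _ h
      · have := (hv v).2
        rw [hl0, hone] at this
        exact this
    · have hne := hvec P.1 P.2 hk
      have hv : ∀ v : DivVal (Kn n), _ := fun v =>
        EqB_span hGen hVmin v (EqB_vec P.1) hne
      refine ⟨?_, fun v => ?_⟩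
      · intro h
        change Submodule.span ℂ {EqB_vec P.1} = ⊥ at h
        rw [Submodule.span_singleton_eq_bot] at h
        exact hne h
      · have := (hv v).2
        rw [EqB_lfv P.1 (hQ P.1 P.2 hk)] at this
        exact this
    · obtain ⟨h1, h2⟩ := hWi i hk
      refine ⟨h1, fun v => ?_⟩
      change vmin v (Wi i) = - D.M' i v
      rw [h2 v, neg_neg]
  have hsumeq : ∀ f : κ0 → ℝ, ∑ k : {k : κ0 // 0 < c0 k}, c0 k.1 * f k.1
      = ∑ k : κ0, c0 k * f k := by
    intro f
    rw [← Finset.sum_subtype (Finset.univ.filter fun k => 0 < c0 k) (by simp)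
      (fun k => c0 k * f k), Finset.sum_filter]
    refine Finset.sum_congr rfl fun k _ => ?_
    by_cases h : 0 < c0 k
    · rw [if_pos h]
    · rw [if_neg h]
      have : c0 k = 0 := le_antisymm (not_lt.1 h) (hc0 k)
      rw [this, zero_mul]
  have hdegF : ∑ i, p.b i * (D.F i : ℝ) = ∑ i, p.b i := by
    refine Finset.sum_congr rfl fun i _ => ?_
    by_cases h : 0 < p.b i
    · rw [hF i h]
      simp
    · have : p.b i = 0 := le_antisymm (not_lt.1 h) (hb i)
      rw [this, zero_mul]
  have hdegQ : ∑ P ∈ D.Q, p.B (D.vP P) * (P.totalDegree : ℝ) = ∑ P ∈ D.Q, p.B (D.vP P) := by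
    refine Finset.sum_congr rfl fun P hP => ?_
    by_cases h : 0 < p.B (D.vP P)
    · rw [hQ P hP h]
      simp
    · have : p.B (D.vP P) = 0 := le_antisymm (not_lt.1 h) (hB _ (hoP P hP))
      rw [this, zero_mul]
  refine ⟨{k : κ0 // 0 < c0 k}, inferInstance, fun k => W0 k.1, fun k => c0 k.1,
    fun k => k.2, fun k => (hW0 k.1 k.2).1, ?_, ?_⟩
  · have h1 := hsumeq (fun _ => 1)
    simp only [mul_one] at h1
    rw [h1]
    have h2 := D.deg
    rw [hdegF, hdegQ] at h2
    rw [← h2, Fintype.sum_sum_type, Fintype.sum_sum_type, Fintype.sum_sum_type]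
    have h3 : ∑ P ∈ D.Q, p.B (D.vP P) = ∑ P : {P // P ∈ D.Q}, p.B (D.vP P.1) := by
      rw [Finset.sum_coe_sort D.Q (fun P => p.B (D.vP P))]
    rw [h3]
    simp only [c0, Sum.elim_inl, Sum.elim_inr, Finset.univ_unique, Finset.sum_singleton]
    ring
  · intro v
    have h1 := hsumeq (fun k => (val k v : ℝ))
    have h2 : ∑ k : {k : κ0 // 0 < c0 k}, c0 k.1 * (vmin v (W0 k.1) : ℝ)
        = ∑ k : {k : κ0 // 0 < c0 k}, c0 k.1 * (val k.1 v : ℝ) := by
      refine Finset.sum_congr rfl fun k _ => ?_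
      rw [(hW0 k.1 k.2).2 v]
    rw [h2, h1, Fintype.sum_sum_type, Fintype.sum_sum_type, Fintype.sum_sum_type]
    have h3 := D.rep v
    have h4 : ∑ P ∈ D.Q, p.B (D.vP P) * (v.ord (algebraMap (Pn n) (Kn n) P) : ℝ)
        = ∑ P : {P // P ∈ D.Q}, p.B (D.vP P.1) *
          (v.ord (algebraMap (Pn n) (Kn n) P.1) : ℝ) := by
      rw [Finset.sum_coe_sort D.Q
        (fun P => p.B (D.vP P) * (v.ord (algebraMap (Pn n) (Kn n) P) : ℝ))]
    rw [h4] at h3
    rw [h3]
    simp only [c0, val, Sum.elim_inl, Sum.elim_inr, Finset.univ_unique, Finset.sum_singleton,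
      Int.cast_zero, mul_zero, add_zero, Adisc, sub_mul, Finset.sum_sub_distrib, one_mul,
      Int.cast_neg, mul_neg, Finset.sum_neg_distrib, Int.cast_add, Int.cast_one, Int.cast_sum]
    ring

end Pool.Agent.Helper53.CX
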