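import Pool.Agent.Helper53.CX.St

set_option autoImplicit false

open scoped BigOperators
open MvPolynomial

namespace Pool.Agent.Helper53.CX

/-- a field valued order function on the rational functions -/
def Fac_IsOrd {n : ℕ} (o : Kn n → ℤ) : Prop :=
  ∀ f g : Kn n, f ≠ 0 → g ≠ 0 → o (f * g) = o f + o g

theorem Fac_one {n : ℕ} {o : Kn n → ℤ} (h : Fac_IsOrd o) : o 1 = 0 := by
  have := h 1 1 one_ne_zero one_ne_zero
  rw [mul_one] at this
  omega

theorem Fac_inv {n : ℕ} {o : Kn n → ℤ} (h : Fac_IsOrd o) (f : Kn n) (hf : f ≠ 0) :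
    o f⁻¹ = - o f := by
  have := h f f⁻¹ hf (inv_ne_zero hf)
  rw [mul_inv_cancel₀ hf, Fac_one h] at this
  omega

theorem Fac_pow {n : ℕ} {o : Kn n → ℤ} (h : Fac_IsOrd o) (f : Kn n) (hf : f ≠ 0) (k : ℕ) :
    o (f ^ k) = k * o f := by
  induction k with
  | zero => simp [Fac_one h]
  | succ k ih =>
    rw [pow_succ, h _ _ (pow_ne_zero k hf) hf, ih]
    push_cast
    ring

theorem Fac_zpow {n : ℕ} {o : Kn n → ℤ} (h : Fac_IsOrd o) (f : Kn n) (hf : f ≠ 0) (k : ℤ) :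
    o (f ^ k) = k * o f := by
  obtain ⟨m, rfl | rfl⟩ := k.eq_nat_or_neg
  · rw [zpow_natCast, Fac_pow h f hf]
  · rw [zpow_neg, zpow_natCast, Fac_inv h _ (pow_ne_zero m hf), Fac_pow h f hf]
    ring

theorem Fac_prod {n : ℕ} {o : Kn n → ℤ} (h : Fac_IsOrd o) {κ : Type} (s : Finset κ)
    (F : κ → Kn n) (hF : ∀ i ∈ s, F i ≠ 0) :
    o (∏ i ∈ s, F i) = ∑ i ∈ s, o (F i) := by
  classical
  induction s using Finset.induction_on with
  | empty => simp [Fac_one h]
  | insert a s ha ih =>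
    rw [Finset.prod_insert ha, Finset.sum_insert ha,
      h _ _ (hF a (Finset.mem_insert_self a s))
        (Finset.prod_ne_zero_iff.2 fun i hi => hF i (Finset.mem_insert_of_mem hi)),
      ih fun i hi => hF i (Finset.mem_insert_of_mem hi)]

theorem Fac_aM_ne {n : ℕ} (p : Pn n) (hp : p ≠ 0) : algebraMap (Pn n) (Kn n) p ≠ 0 := by
  intro h
  exact hp ((IsFractionRing.injective (Pn n) (Kn n)) (by rw [h, map_zero]))

theorem Fac_x_ne {n : ℕ} (j : Fin n) : (x j : Kn n) ≠ 0 := Fac_aM_ne _ (X_ne_zero j)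

theorem Fac_C {n : ℕ} (c : ℂ) : algebraMap ℂ (Kn n) c = algebraMap (Pn n) (Kn n) (C c) := by
  rw [IsScalarTower.algebraMap_apply ℂ (Pn n) (Kn n)]
  rfl

/-- `g` is a product of a constant, a Laurent monomial and powers of elements of `Q` -/
def Fac_Good {n : ℕ} (Q : Finset (Pn n)) (g : Kn n) : Prop :=
  ∃ (c : ℂ) (u : Fin n → ℤ) (e : Pn n → ℤ), c ≠ 0 ∧
    g = algebraMap ℂ (Kn n) c * xm u * ∏ P ∈ Q, (algebraMap (Pn n) (Kn n) P) ^ (e P)

theorem Fac_xm_add {n : ℕ} (u w : Fin n → ℤ) : (xm (u + w) : Kn n) = xm u * xm w := by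
  unfold xm
  rw [← Finset.prod_mul_distrib]
  exact Finset.prod_congr rfl fun j _ => by rw [Pi.add_apply, zpow_add₀ (Fac_x_ne j)]

theorem Fac_xm_neg {n : ℕ} (u : Fin n → ℤ) : (xm (-u) : Kn n) = (xm u)⁻¹ := by
  unfold xm
  rw [← Finset.prod_inv_distrib]
  exact Finset.prod_congr rfl fun j _ => by rw [Pi.neg_apply, zpow_neg]

theorem Fac_xm_zero {n : ℕ} : (xm (0 : Fin n → ℤ) : Kn n) = 1 := by
  simp [xm]

theorem Fac_xm_single {n : ℕ} (j : Fin n) : (xm (Pi.single j 1) : Kn n) = x j := by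
  unfold xm
  rw [Finset.prod_eq_single j]
  · simp
  · intro b _ hb
    rw [Pi.single_eq_of_ne hb, zpow_zero]
  · intro h
    exact absurd (Finset.mem_univ j) h

theorem Fac_Good_mul {n : ℕ} {Q : Finset (Pn n)} (hQ : ∀ P ∈ Q, P ≠ 0) {g h : Kn n}
    (hg : Fac_Good Q g) (hh : Fac_Good Q h) : Fac_Good Q (g * h) := by
  obtain ⟨c, u, e, hc, rfl⟩ := hg
  obtain ⟨c', u', e', hc', rfl⟩ := hh
  refine ⟨c * c', u + u', fun P => e P + e' P, mul_ne_zero hc hc', ?_⟩
  have h1 : ∏ P ∈ Q, (algebraMap (Pn n) (Kn n) P) ^ (e P + e' P)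
      = (∏ P ∈ Q, (algebraMap (Pn n) (Kn n) P) ^ (e P)) *
        ∏ P ∈ Q, (algebraMap (Pn n) (Kn n) P) ^ (e' P) := by
    rw [← Finset.prod_mul_distrib]
    exact Finset.prod_congr rfl fun P hP => zpow_add₀ (Fac_aM_ne P (hQ P hP)) _ _
  rw [h1, map_mul, Fac_xm_add]
  ring

theorem Fac_Good_inv {n : ℕ} {Q : Finset (Pn n)} {g : Kn n}
    (hg : Fac_Good Q g) : Fac_Good Q g⁻¹ := by
  obtain ⟨c, u, e, hc, rfl⟩ := hg
  refine ⟨c⁻¹, -u, fun P => - e P, inv_ne_zero hc, ?_⟩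
  have h1 : ∏ P ∈ Q, (algebraMap (Pn n) (Kn n) P) ^ (- e P)
      = (∏ P ∈ Q, (algebraMap (Pn n) (Kn n) P) ^ (e P))⁻¹ := by
    rw [← Finset.prod_inv_distrib]
    exact Finset.prod_congr rfl fun P _ => zpow_neg _ _
  rw [h1, map_inv₀, Fac_xm_neg, mul_inv, mul_inv]

theorem Fac_Good_const {n : ℕ} (Q : Finset (Pn n)) (c : ℂ) (hc : c ≠ 0) :
    Fac_Good Q (algebraMap ℂ (Kn n) c) := by
  refine ⟨c, 0, fun _ => 0, hc, ?_⟩
  simp [Fac_xm_zero]

theorem Fac_Good_x {n : ℕ} (Q : Finset (Pn n)) (j : Fin n) : Fac_Good Q (x j) := by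
  refine ⟨1, Pi.single j 1, fun _ => 0, one_ne_zero, ?_⟩
  simp [Fac_xm_single]

theorem Fac_Good_mem {n : ℕ} (Q : Finset (Pn n)) (P : Pn n) (hP : P ∈ Q) :
    Fac_Good Q (algebraMap (Pn n) (Kn n) P) := by
  classical
  refine ⟨1, 0, fun P' => if P' = P then 1 else 0, one_ne_zero, ?_⟩
  rw [Finset.prod_eq_single P]
  · simp [Fac_xm_zero]
  · intro b _ hb
    simp [hb]
  · intro h
    exact absurd hP h

theorem Fac_Good_unit {n : ℕ} (Q : Finset (Pn n)) (w : (Pn n)ˣ) :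
    Fac_Good Q (algebraMap (Pn n) (Kn n) (w : Pn n)) := by
  obtain ⟨r, hr, h⟩ := (MvPolynomial.isUnit_iff_eq_C_of_isReduced (P := (w : Pn n))).1 w.isUnit
  rw [h, ← Fac_C]
  exact Fac_Good_const Q r hr.ne_zero

theorem Fac_Good_assoc {n : ℕ} {Q : Finset (Pn n)} (hQ : ∀ P ∈ Q, P ≠ 0) {p q : Pn n}
    (h : Associated p q) (hp : Fac_Good Q (algebraMap (Pn n) (Kn n) p)) :
    Fac_Good Q (algebraMap (Pn n) (Kn n) q) := by
  obtain ⟨w, rfl⟩ := h
  rw [map_mul]
  exact Fac_Good_mul hQ hp (Fac_Good_unit Q w)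

/-- existence of the finite set `Q` for finitely many polynomials -/
theorem Fac_exists {n : ℕ} (A : Finset (Pn n)) (hA : ∀ p ∈ A, p ≠ 0) :
    ∃ Q : Finset (Pn n), (∀ P ∈ Q, TorusPrime P) ∧
      (∀ P ∈ Q, ∀ P' ∈ Q, Associated P P' → P = P') ∧
      ∀ p ∈ A, Fac_Good Q (algebraMap (Pn n) (Kn n) p) := by
  classical
  let _ : NormalizationMonoid (Pn n) :=
    (UniqueFactorizationMonoid.strongNormalizationMonoid (α := Pn n)).toNormalizationMonoid
  set Q : Finset (Pn n) :=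
    (A.biUnion fun p => (UniqueFactorizationMonoid.normalizedFactors p).toFinset).filter
      (fun P => ∀ j, ¬ Associated P (X j)) with hQdef
  have hmem : ∀ P ∈ Q, ∃ p ∈ A, P ∈ UniqueFactorizationMonoid.normalizedFactors p := by
    intro P hP
    rw [hQdef, Finset.mem_filter, Finset.mem_biUnion] at hP
    obtain ⟨⟨p, hp, hP1⟩, _⟩ := hP
    exact ⟨p, hp, Multiset.mem_toFinset.1 hP1⟩
  have hT : ∀ P ∈ Q, TorusPrime P := by
    intro P hP
    obtain ⟨p, hp, hP1⟩ := hmem P hP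
    refine ⟨UniqueFactorizationMonoid.irreducible_of_normalized_factor P hP1, ?_⟩
    rw [hQdef, Finset.mem_filter] at hP
    exact hP.2
  have hne : ∀ P ∈ Q, P ≠ 0 := fun P hP => (hT P hP).1.ne_zero
  refine ⟨Q, hT, ?_, ?_⟩
  · intro P hP P' hP' h
    obtain ⟨p, hp, hP1⟩ := hmem P hP
    obtain ⟨p', hp', hP1'⟩ := hmem P' hP'
    exact h.eq_of_normalized (UniqueFactorizationMonoid.normalize_normalized_factor P hP1)
      (UniqueFactorizationMonoid.normalize_normalized_factor P' hP1')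
  · intro p hp
    have hfac : ∀ P ∈ UniqueFactorizationMonoid.normalizedFactors p,
        Fac_Good Q (algebraMap (Pn n) (Kn n) P) := by
      intro P hP
      by_cases hj : ∃ j, Associated P (X j)
      · obtain ⟨j, hj⟩ := hj
        exact Fac_Good_assoc hne hj.symm (Fac_Good_x Q j)
      · push Not at hj
        apply Fac_Good_mem
        rw [hQdef, Finset.mem_filter, Finset.mem_biUnion]
        exact ⟨⟨p, hp, Multiset.mem_toFinset.2 hP⟩, hj⟩
    have hprod : ∀ s : Multiset (Pn n), (∀ P ∈ s, Fac_Good Q (algebraMap (Pn n) (Kn n) P)) →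
        Fac_Good Q (algebraMap (Pn n) (Kn n) s.prod) := by
      intro s
      induction s using Multiset.induction_on with
      | empty =>
        intro _
        have := Fac_Good_const (n := n) Q 1 one_ne_zero
        simpa using this
      | cons a s ih =>
        intro h
        rw [Multiset.prod_cons, map_mul]
        exact Fac_Good_mul hne (h a (Multiset.mem_cons_self a s))
          (ih fun P hP => h P (Multiset.mem_cons_of_mem hP))
    exact Fac_Good_assoc hne (UniqueFactorizationMonoid.prod_normalizedFactors (hA p hp))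
      (hprod _ hfac)

theorem Fac_padOrd {n : ℕ} (hExt : StExt) (hPad : StPad) (P : Pn n) (hP : Irreducible P) :
    Fac_IsOrd (padOrd P) ∧
      ∀ p : Pn n, p ≠ 0 → padOrd P (algebraMap (Pn n) (Kn n) p) = (multiplicity P p : ℤ) := by
  obtain ⟨h1, h2, _⟩ := hPad n P hP
  obtain ⟨_, e2, _, e4⟩ := hExt n (fun p => (multiplicity P p : ℤ))
    (fun p q hp hq => by
      have := h1 p q hp hq
      show ((multiplicity P (p * q) : ℕ) : ℤ) = _
      rw [this]
      push_cast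
      ring)
    (fun p q hp hq hpq => by
      have := h2 p q hp hq hpq
      show min ((multiplicity P p : ℕ) : ℤ) ((multiplicity P q : ℕ) : ℤ)
        ≤ ((multiplicity P (p + q) : ℕ) : ℤ)
      rw [← Nat.cast_min]
      exact_mod_cast this)
  exact ⟨e2, e4⟩

theorem Fac_padOrd_notdvd {n : ℕ} (hExt : StExt) (hPad : StPad) (P : Pn n) (hP : Irreducible P)
    (p : Pn n) (hp : p ≠ 0) (h : ¬ P ∣ p) : padOrd P (algebraMap (Pn n) (Kn n) p) = 0 := by
  rw [(Fac_padOrd hExt hPad P hP).2 p hp]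
  have := (hPad n P hP).2.2 p hp
  have h2 : ¬ 1 ≤ multiplicity P p := fun h3 => h (this.2 h3)
  have h3 : multiplicity P p = 0 := by omega
  rw [h3]
  rfl

theorem Fac_padOrd_self {n : ℕ} (hExt : StExt) (hPad : StPad) (P : Pn n) (hP : Irreducible P) :
    padOrd P (algebraMap (Pn n) (Kn n) P) = 1 := by
  rw [(Fac_padOrd hExt hPad P hP).2 P hP.ne_zero]
  have h1 := (hPad n P hP).2.2 P hP.ne_zero
  have h2 : 1 ≤ multiplicity P P := h1.1 dvd_rfl
  have h3 : ¬ 2 ≤ multiplicity P P := by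
    intro h
    have hd : P ^ 2 ∣ P := (pow_dvd_pow P h).trans (pow_multiplicity_dvd P P)
    obtain ⟨q, hq⟩ := hd
    have h4 : P * (P * q) = P * 1 := by
      rw [mul_one, ← mul_assoc, ← pow_two]
      exact hq.symm
    have h5 : P * q = 1 := mul_left_cancel₀ hP.ne_zero h4
    exact hP.not_isUnit (IsUnit.of_mul_eq_one q h5)
  have h4 : multiplicity P P = 1 := by omega
  rw [h4]
  rfl

theorem Fac_padOrd_x {n : ℕ} (hExt : StExt) (hPad : StPad) (P : Pn n) (hP : TorusPrime P)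
    (j : Fin n) : padOrd P (x j) = 0 := by
  apply Fac_padOrd_notdvd hExt hPad P hP.1 _ (X_ne_zero j)
  intro h
  have hX : Irreducible (X j : Pn n) := (MvPolynomial.X_prime (i := j)).irreducible
  exact hP.2 j (hP.1.associated_of_dvd hX h)

theorem Fac_padOrd_C {n : ℕ} (hExt : StExt) (hPad : StPad) (P : Pn n) (hP : Irreducible P)
    (c : ℂ) (hc : c ≠ 0) : padOrd P (algebraMap ℂ (Kn n) c) = 0 := by
  rw [Fac_C]
  have hc' : (C c : Pn n) ≠ 0 := by
    intro h
    exact hc ((C_eq_zero).1 h)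
  apply Fac_padOrd_notdvd hExt hPad P hP _ hc'
  intro h
  have hu : IsUnit (C c : Pn n) := (IsUnit.mk0 c hc).map (C : ℂ →+* Pn n)
  exact hP.not_isUnit (isUnit_of_dvd_unit h hu)

theorem Fac_xm_ne {n : ℕ} (u : Fin n → ℤ) : (xm u : Kn n) ≠ 0 := by
  unfold xm
  exact Finset.prod_ne_zero_iff.2 fun j _ => zpow_ne_zero _ (Fac_x_ne j)

theorem Fac_padOrd_good {n : ℕ} (hExt : StExt) (hPad : StPad) (Q : Finset (Pn n))
    (hQ : ∀ P ∈ Q, TorusPrime P) (c : ℂ) (hc : c ≠ 0) (u : Fin n → ℤ) (e : Pn n → ℤ)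
    (P : Pn n) (hP : TorusPrime P) :
    padOrd P (algebraMap ℂ (Kn n) c * xm u * ∏ P' ∈ Q, (algebraMap (Pn n) (Kn n) P') ^ (e P'))
      = ∑ P' ∈ Q, e P' * padOrd P (algebraMap (Pn n) (Kn n) P') := by
  have ho := (Fac_padOrd hExt hPad P hP.1).1
  have hne : ∀ P' ∈ Q, algebraMap (Pn n) (Kn n) P' ≠ 0 :=
    fun P' hP' => Fac_aM_ne P' (hQ P' hP').1.ne_zero
  have hc1 : algebraMap ℂ (Kn n) c ≠ 0 := by
    intro h
    exact hc ((algebraMap ℂ (Kn n)).injective (by rw [h, map_zero]))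
  have hxm : padOrd P (xm u) = 0 := by
    unfold xm
    rw [Fac_prod ho _ _ (fun j _ => zpow_ne_zero _ (Fac_x_ne j))]
    apply Finset.sum_eq_zero
    intro j _
    rw [Fac_zpow ho _ (Fac_x_ne j), Fac_padOrd_x hExt hPad P hP j, mul_zero]
  rw [ho _ _ (mul_ne_zero hc1 (Fac_xm_ne u))
    (Finset.prod_ne_zero_iff.2 fun P' hP' => zpow_ne_zero _ (hne P' hP')),
    ho _ _ hc1 (Fac_xm_ne u), hxm, Fac_padOrd_C hExt hPad P hP.1 c hc,
    Fac_prod ho _ _ (fun P' hP' => zpow_ne_zero _ (hne P' hP')), zero_add, zero_add]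
  exact Finset.sum_congr rfl fun P' hP' => Fac_zpow ho _ (hne P' hP') _

theorem hFac (hExt : StExt) (hPad : StPad) : StFac := by
  classical
  intro n G0 hG0
  have hrep : ∀ g : Kn n, g ≠ 0 → ∃ p q : Pn n, p ≠ 0 ∧ q ≠ 0 ∧
      g = algebraMap (Pn n) (Kn n) p * (algebraMap (Pn n) (Kn n) q)⁻¹ := by
    intro g hg
    obtain ⟨p, q, hq, h⟩ := IsFractionRing.div_surjective (A := Pn n) g
    have hq0 : q ≠ 0 := nonZeroDivisors.ne_zero hq
    refine ⟨p, q, ?_, hq0, ?_⟩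
    · rintro rfl
      rw [map_zero, zero_div] at h
      exact hg h.symm
    · rw [← h, div_eq_mul_inv]
  choose! num den hnum hden hnd using hrep
  obtain ⟨Q, hQ1, hQ2, hQ3⟩ := Fac_exists (G0.image num ∪ G0.image den) (by
    intro p hp
    rw [Finset.mem_union, Finset.mem_image, Finset.mem_image] at hp
    rcases hp with ⟨g, hg, rfl⟩ | ⟨g, hg, rfl⟩
    · exact hnum g (hG0 g hg)
    · exact hden g (hG0 g hg))
  have hne : ∀ P ∈ Q, P ≠ 0 := fun P hP => (hQ1 P hP).1.ne_zero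
  refine ⟨Q, hQ1, hQ2, ?_⟩
  intro g hg
  have hgood : Fac_Good Q g := by
    rw [hnd g (hG0 g hg)]
    exact Fac_Good_mul hne
      (hQ3 _ (Finset.mem_union_left _ (Finset.mem_image_of_mem num hg)))
      (Fac_Good_inv (hQ3 _ (Finset.mem_union_right _ (Finset.mem_image_of_mem den hg))))
  obtain ⟨c, u, e, hc, hge⟩ := hgood
  have hoff : ∀ P, TorusPrime P → ∀ P' ∈ Q, ¬ Associated P P' →
      padOrd P (algebraMap (Pn n) (Kn n) P') = 0 := by
    intro P hP P' hP' hna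
    apply Fac_padOrd_notdvd hExt hPad P hP.1 P' (hne P' hP')
    intro h
    exact hna (hP.1.associated_of_dvd (hQ1 P' hP').1 h)
  have hval : ∀ P ∈ Q, padOrd P g = e P := by
    intro P hP
    rw [hge, Fac_padOrd_good hExt hPad Q hQ1 c hc u e P (hQ1 P hP), Finset.sum_eq_single P]
    · rw [Fac_padOrd_self hExt hPad P (hQ1 P hP).1, mul_one]
    · intro P' hP' hne'
      rw [hoff P (hQ1 P hP) P' hP' (fun h => hne' (hQ2 P hP P' hP' h).symm), mul_zero]
    · intro h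
      exact absurd hP h
  refine ⟨⟨c, u, hc, ?_⟩, ?_⟩
  · have h1 : ∏ P ∈ Q, (algebraMap (Pn n) (Kn n) P) ^ (padOrd P g)
        = ∏ P ∈ Q, (algebraMap (Pn n) (Kn n) P) ^ (e P) :=
      Finset.prod_congr rfl fun P hP => by rw [hval P hP]
    rw [h1]
    exact hge
  · intro P hP hna
    rw [hge, Fac_padOrd_good hExt hPad Q hQ1 c hc u e P hP]
    apply Finset.sum_eq_zero
    intro P' hP'
    rw [hoff P hP P' hP' (hna P' hP'), mul_zero]

end Pool.Agent.Helper53.CX
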