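import Pool.Agent.Helper53.CX.St

/-!
# Project CX (MP_140278_ag): module Fin1, the theorem
-/

set_option autoImplicit false

open scoped BigOperators
open MvPolynomial

namespace Pool.Agent.Helper53.CX

private theorem Fin1_ext {K : Type} [Field K] [Algebra ℂ K] {v w : DivVal K}
    (h : v.ord = w.ord) : v = w := by
  cases v
  cases w
  simp only at h
  subst h
  rfl

private theorem Fin1_pad {n : ℕ} {P Q : Pn n} (h : Associated P Q) : padOrd P = padOrd Q := by
  unfold padOrd
  congr 1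
  funext p
  rw [multiplicity_eq_of_associated_left h]

theorem hFin1 (hBri : StBri) (hPadV : StPadV) (hTorV : StTorV) (hSum : StSum) (hRnk : StRnk) :
    StFin1 := by
  intro n ι _ S p hn hp R hR hTor C ρ hCS hrank
  classical
  obtain ⟨Q, hQ1, hQ2, hQ3, vr, vP, hvr, hvP, hineq⟩ := hSum n ι S p hn hp R hR hTor
  -- dictionary
  have hrtor : ∀ r ∈ R, vr r ∈ S ∨ p.B (vr r) = 1 := fun r hr =>
    hTor _ (Or.inl ⟨r, hr, ((hBri n (vr r)).1 r).2 (hvr r hr)⟩)
  have hPtor : ∀ P ∈ Q, vP P ∈ S ∨ p.B (vP P) = 1 := fun P hP =>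
    hTor _ (Or.inr ⟨P, hQ1 P hP, ((hBri n (vP P)).2.1 P (hQ1 P hP).1).2 (hvP P hP)⟩)
  have hvrinj : ∀ r ∈ R, ∀ r' ∈ R, vr r = vr r' → r = r' := by
    intro r hr r' hr' h
    exact (hBri n (vr r)).2.2.1 r r' (hvr r hr) (by rw [h]; exact hvr r' hr')
  have hvPinj : ∀ P ∈ Q, ∀ P' ∈ Q, vP P = vP P' → P = P' := by
    intro P hP P' hP' h
    exact hQ2 P hP P' hP' ((hBri n (vP P)).2.2.2.1 P P' (hQ1 P hP).1 (hQ1 P' hP').1 (hvP P hP)
      (by rw [h]; exact hvP P' hP'))
  have hvrpad : ∀ r ∈ R, ∀ P, TorusPrime P → (vr r).ord ≠ padOrd P := fun r hr P hP =>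
    (hBri n (vr r)).2.2.2.2 r P hP (hvr r hr)
  -- the sets
  set RS := R.filter fun r => vr r ∈ S with hRS
  set RN := R.filter fun r => ¬ vr r ∈ S with hRN
  set QS := Q.filter fun P => vP P ∈ S with hQS
  set QN := Q.filter fun P => ¬ vP P ∈ S with hQN
  set CR := C.filter fun v => v ∈ R.image vr with hCR
  set CT := C.filter fun v => ¬ v ∈ R.image vr ∧ ∃ P, TorusPrime P ∧ v.ord = padOrd P with hCT
  set CE := C.filter fun v => ¬ v ∈ R.image vr ∧ ¬ ∃ P, TorusPrime P ∧ v.ord = padOrd P with hCE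
  -- the rank bound
  have hT := hRnk n S (RS.image vr ∪ CE) QN ρ (by
      intro v hv
      rw [Finset.mem_coe, Finset.mem_union, Finset.mem_image] at hv
      rcases hv with ⟨r, hr, rfl⟩ | hv
      · exact (Finset.mem_filter.1 hr).2
      · exact hCS (Finset.mem_coe.2 (Finset.mem_filter.1 hv).1)) (by
      intro v hv P hP
      rw [Finset.mem_union, Finset.mem_image] at hv
      rcases hv with ⟨r, hr, rfl⟩ | hv
      · exact hvrpad r (Finset.mem_filter.1 hr).1 P hP
      · intro h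
        exact (Finset.mem_filter.1 hv).2.2 ⟨P, hP, h⟩) (by
      intro P hP
      obtain ⟨v, hv⟩ := (hPadV n P hP.1).1
      by_cases hvS : v ∈ S
      · exact Or.inl ⟨v, hvS, hv⟩
      · right
        have hB : p.B v = 1 := by
          rcases hTor v (Or.inr ⟨P, hP, ((hBri n v).2.1 P hP.1).2 hv⟩) with h | h
          · exact absurd h hvS
          · exact h
        have hex : ∃ P' ∈ Q, Associated P P' := by
          by_contra hcon
          push Not at hcon
          have := hQ3 P v hP hv hcon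
          rw [hB] at this
          exact one_ne_zero this
        obtain ⟨P', hP', hass⟩ := hex
        refine ⟨P', ?_, hass⟩
        rw [hQN, Finset.mem_filter]
        refine ⟨hP', ?_⟩
        have : vP P' = v := Fin1_ext (by rw [hvP P' hP', hv, Fin1_pad hass])
        rw [this]
        exact hvS) hrank
  have hTcard : (RS.image vr ∪ CE).card = RS.card + CE.card := by
    rw [Finset.card_union_of_disjoint, Finset.card_image_of_injOn]
    · intro r hr r' hr' h
      exact hvrinj r (Finset.mem_filter.1 (Finset.mem_coe.1 hr)).1 r'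
        (Finset.mem_filter.1 (Finset.mem_coe.1 hr')).1 h
    · rw [Finset.disjoint_left]
      intro v hv hv'
      obtain ⟨r, hr, rfl⟩ := Finset.mem_image.1 hv
      exact (Finset.mem_filter.1 hv').2.1 (Finset.mem_image_of_mem vr (Finset.mem_filter.1 hr).1)
  -- the sum over C
  have hsplit : ∑ v ∈ C, p.B v = ∑ v ∈ CR, p.B v + (∑ v ∈ CT, p.B v + ∑ v ∈ CE, p.B v) := by
    rw [← Finset.sum_filter_add_sum_filter_not C (fun v => v ∈ R.image vr)]
    congr 1
    rw [← Finset.sum_filter_add_sum_filter_not (C.filter fun v => ¬ v ∈ R.image vr)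
      (fun v => ∃ P, TorusPrime P ∧ v.ord = padOrd P)]
    rw [Finset.filter_filter, Finset.filter_filter]
  have hR1 : ∑ v ∈ CR, p.B v ≤ ∑ r ∈ RS, p.B (vr r) := by
    have h1 : ∑ r ∈ RS, p.B (vr r) = ∑ v ∈ RS.image vr, p.B v := by
      rw [Finset.sum_image]
      intro r hr r' hr' h
      exact hvrinj r (Finset.mem_filter.1 (Finset.mem_coe.1 hr)).1 r'
        (Finset.mem_filter.1 (Finset.mem_coe.1 hr')).1 h
    rw [h1]
    apply Finset.sum_le_sum_of_subset_of_nonneg
    · intro v hv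
      obtain ⟨hvC, hvR⟩ := Finset.mem_filter.1 hv
      obtain ⟨r, hr, rfl⟩ := Finset.mem_image.1 hvR
      exact Finset.mem_image_of_mem vr (Finset.mem_filter.2 ⟨hr, hCS (Finset.mem_coe.2 hvC)⟩)
    · intro v hv _
      obtain ⟨r, hr, rfl⟩ := Finset.mem_image.1 hv
      exact hp.effective _ (Finset.mem_filter.1 hr).2
  have hT1 : ∑ v ∈ CT, p.B v ≤ ∑ P ∈ QS, p.B (vP P) := by
    have h1 : ∑ P ∈ QS, p.B (vP P) = ∑ v ∈ QS.image vP, p.B v := by
      rw [Finset.sum_image]
      intro P hP P' hP' h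
      exact hvPinj P (Finset.mem_filter.1 (Finset.mem_coe.1 hP)).1 P'
        (Finset.mem_filter.1 (Finset.mem_coe.1 hP')).1 h
    rw [h1]
    have h2 : ∑ v ∈ CT, p.B v = ∑ v ∈ CT.filter (fun v => v ∈ QS.image vP), p.B v := by
      rw [← Finset.sum_filter_add_sum_filter_not CT (fun v => v ∈ QS.image vP)]
      rw [Finset.sum_eq_zero (s := CT.filter fun v => ¬ v ∈ QS.image vP), add_zero]
      intro v hv
      obtain ⟨hvT, hvQ⟩ := Finset.mem_filter.1 hv
      obtain ⟨hvC, -, P, hP, hvo⟩ := Finset.mem_filter.1 hvT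
      apply hQ3 P v hP hvo
      intro P' hP' hass
      apply hvQ
      have h3 : vP P' = v := Fin1_ext (by rw [hvP P' hP', hvo, Fin1_pad hass])
      rw [Finset.mem_image]
      exact ⟨P', Finset.mem_filter.2 ⟨hP', by rw [h3]; exact hCS (Finset.mem_coe.2 hvC)⟩, h3⟩
    rw [h2]
    apply Finset.sum_le_sum_of_subset_of_nonneg
    · intro v hv
      exact (Finset.mem_filter.1 hv).2
    · intro v hv _
      obtain ⟨P, hP, rfl⟩ := Finset.mem_image.1 hv
      exact hp.effective _ (Finset.mem_filter.1 hP).2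
  have hE1 : ∑ v ∈ CE, p.B v ≤ (CE.card : ℝ) := by
    calc ∑ v ∈ CE, p.B v ≤ ∑ _v ∈ CE, (1 : ℝ) := Finset.sum_le_sum fun v _ => hp.glc v
      _ = (CE.card : ℝ) := by simp
  -- the sums over R and Q
  have hRsum : ∑ r ∈ R, p.B (vr r) = ∑ r ∈ RS, p.B (vr r) + (RN.card : ℝ) := by
    rw [← Finset.sum_filter_add_sum_filter_not R (fun r => vr r ∈ S)]
    congr 1
    rw [Finset.sum_congr rfl (g := fun _ => (1 : ℝ))]
    · simp [hRN]
    · intro r hr
      obtain ⟨hrR, hrS⟩ := Finset.mem_filter.1 hr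
      exact (hrtor r hrR).resolve_left hrS
  have hQsum : ∑ P ∈ Q, p.B (vP P) = ∑ P ∈ QS, p.B (vP P) + (QN.card : ℝ) := by
    rw [← Finset.sum_filter_add_sum_filter_not Q (fun P => vP P ∈ S)]
    congr 1
    rw [Finset.sum_congr rfl (g := fun _ => (1 : ℝ))]
    · simp [hQN]
    · intro P hP
      obtain ⟨hPQ, hPS⟩ := Finset.mem_filter.1 hP
      exact (hPtor P hPQ).resolve_left hPS
  have hRcard : (R.card : ℝ) = RS.card + RN.card := by
    have h := Finset.card_filter_add_card_filter_not (s := R) (fun r => vr r ∈ S)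
    rw [← h]
    push_cast
    rfl
  have hTr : (RS.card : ℝ) + CE.card ≤ n + QN.card + ρ := by
    rw [hTcard] at hT
    exact_mod_cast hT
  linarith

end Pool.Agent.Helper53.CX
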