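import Pool.Agent.Helper53.CX.St
import Pool.Agent.Helper53.CX.St2

/-!
# Project CX part 2 (MP_140278_ag): module Fin2, the theorem
-/

set_option autoImplicit false

open scoped BigOperators
open MvPolynomial

namespace Pool.Agent.Helper53.CX

theorem Fin2_tau {n : ℕ} (τ : Kn n ≃ₐ[ℂ] Kn n) (y : Fin n → Kn n) (h : ∀ j, τ (x j) = y j)
    (q : Pn n) : τ (algebraMap (Pn n) (Kn n) q) = aeval y q := by
  have h1 : ((τ : Kn n →ₐ[ℂ] Kn n).comp (IsScalarTower.toAlgHom ℂ (Pn n) (Kn n)))
      = aeval y := by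
    apply MvPolynomial.algHom_ext
    intro j
    rw [aeval_X, ← h j]
    rfl
  exact congrArg (fun φ => φ q) h1

theorem hFin2 (hTau : StTau) (hGen : StGen) (hOmT : StOmT) (hLC : StLC) (hBri : StBri)
    (hPnI : StPnI) (hPnII : StPnII) (hPT : StPT) (hDeg : StDeg) (hEqA : StEqA) (hEqB : StEqB)
    (hStab : StStab) (hComb : StComb) (hGlc : StGlc) : StFin2 := by
  intro n ι _ S p hn hp hX C ρ hCS hρ hge
  classical
  have hOld : ∀ v, Old v → v ∈ S ∨ p.B v = 1 := fun v hv => hX v (hPnI n v hn hv)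
  obtain ⟨D⟩ := hDeg n ι S p hn hp
  obtain ⟨hA1, hA2, hA3⟩ := hEqA n ι S p hn hp hOld D C ρ hCS hρ hge
  have hB0 : ∀ v, Old v → 0 ≤ p.B v := by
    intro v hv
    rcases hOld v hv with h | h
    · exact hp.effective v h
    · rw [h]; norm_num
  obtain ⟨κ, hκ, W, c, hc, hW, hsum, hfam⟩ := hEqB n ι p D hn hB0 hp.b_nonneg hA2 hA3
  have hst := hStab n κ W c (fun i => (hc i).le) hW hsum (fun v => by
    rw [hfam v]
    have := hp.glc v
    linarith)
  obtain ⟨T, hT, htight⟩ := hComb n κ W c hc hW hsum hst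
  obtain ⟨hT0, hT1, hT2⟩ := (hGen n).2.1 T hT
  obtain ⟨τ, hτ⟩ := hTau n (yT T) hT2
  have htor : ∀ v, p.B v = 1 → ∃ a, IsToricIn (yT T) v a := fun v hv =>
    hGlc n κ W c (fun i => (hc i).le) hW hsum hst T hT htight v (by rw [hfam v, hv]; ring)
  refine ⟨yT T, hT2, ?_, ?_⟩
  · intro v hv
    obtain ⟨h1, h2⟩ := (hPT n T v hn hT).1 hv
    rcases hX v h1 with h | h
    · exact h
    · obtain ⟨a, ha⟩ := htor v h
      exact absurd ha (h2 a)
  · intro v hv
    by_cases hB : p.B v = 1
    · right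
      exact htor v hB
    · have hO : Old v := (hA1 v hv).resolve_right hB
      obtain ⟨hAd, hcases⟩ := hPnII n v hn hO
      rcases hcases T hT with h | h
      · left
        exact (hPT n T v hn hT).2 hO h
      · right
        have h0 := hOmT n v T τ hT hτ
        rw [hAd, h] at h0
        have h1 : ordOmega (pull τ v) = -1 := by linarith
        have h2 := (hLC n (pull τ v)).2 h1
        refine ⟨fun j => (pull τ v).ord (x j), ?_⟩
        have h3 := ((hBri n (pull τ v)).1 _).2 h2
        intro q hq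
        have h4 := h3 q hq
        have h5 : (pull τ v).ord (algebraMap (Pn n) (Kn n) q) = v.ord (aeval (yT T) q) := by
          show v.ord (τ (algebraMap (Pn n) (Kn n) q)) = _
          rw [Fin2_tau τ (yT T) hτ q]
        rw [h5] at h4
        exact h4

end Pool.Agent.Helper53.CX
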