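import Pool.Agent.Helper53.CX.St
import Pool.Agent.Helper53.CX.St2
import Pool.Agent.Helper53.CX.M_Fil

/-!
# Project CX part 2, module GL: linear change of coordinates for systems of forms
-/

set_option autoImplicit false

open scoped BigOperators
open MvPolynomial

namespace Pool.Agent.Helper53.CX

theorem GL_ext {K : Type} [Field K] [Algebra ℂ K] {v w : DivVal K} (h : v.ord = w.ord) : v = w := by
  cases v; cases w; cases h; rfl

theorem GL_pull {n : ℕ} (τ : Kn n ≃ₐ[ℂ] Kn n) (v : DivVal (Kn n)) : pull τ (pull τ.symm v) = v := by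
  apply GL_ext
  funext f
  show v.ord (τ.symm (τ f)) = v.ord f
  rw [AlgEquiv.symm_apply_apply]

/-- the linear substitution -/
noncomputable def GL_sub {n : ℕ} (S : Matrix (Fin (n + 1)) (Fin (n + 1)) ℂ) :
    Pn (n + 1) →ₐ[ℂ] Pn (n + 1) := bind₁ (fun j => ∑ i, C (S j i) * X i)

theorem GL_homog {n D : ℕ} (S : Matrix (Fin (n + 1)) (Fin (n + 1)) ℂ) {G : Pn (n + 1)}
    (hG : G.IsHomogeneous D) : (GL_sub S G).IsHomogeneous D := by
  have h : ∀ j, (∑ i, C (S j i) * X i : Pn (n + 1)).IsHomogeneous 1 := by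
    intro j
    refine IsHomogeneous.sum _ _ _ fun i _ => ?_
    have := (isHomogeneous_C (Fin (n + 1)) (S j i)).mul (isHomogeneous_X ℂ i)
    simpa using this
  have := hG.aeval (fun j => ∑ i, C (S j i) * X i) h
  rw [one_mul] at this
  exact this

theorem GL_inv {n : ℕ} (T : Matrix (Fin (n + 1)) (Fin (n + 1)) ℂ) (hT : IsUnit T.det)
    (G : Pn (n + 1)) : GL_sub T (GL_sub T⁻¹ G) = G := by
  have h : (GL_sub T).comp (GL_sub T⁻¹) = AlgHom.id ℂ (Pn (n + 1)) := by
    apply algHom_ext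
    intro j
    simp only [AlgHom.comp_apply, GL_sub, bind₁_X_right, map_sum, map_mul, AlgHom.id_apply]
    simp only [show ∀ a : ℂ, (bind₁ fun j => ∑ i, C (T j i) * X i) (C a : Pn (n + 1)) = C a from
      fun a => by rw [bind₁_C_right]]
    have h1 : ∀ i : Fin (n + 1), (C (T⁻¹ j i) * ∑ k, C (T i k) * X k : Pn (n + 1)) =
        ∑ k, C (T⁻¹ j i * T i k) * X k := by
      intro i
      rw [Finset.mul_sum]
      refine Finset.sum_congr rfl fun k _ => ?_
      rw [C_mul, mul_assoc]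
    rw [Finset.sum_congr rfl fun i _ => h1 i, Finset.sum_comm]
    have h2 : ∀ k : Fin (n + 1), (∑ i, C (T⁻¹ j i * T i k) * X k : Pn (n + 1)) =
        C ((T⁻¹ * T) j k) * X k := by
      intro k
      rw [← Finset.sum_mul, ← map_sum, Matrix.mul_apply]
    rw [Finset.sum_congr rfl fun k _ => h2 k, Matrix.nonsing_inv_mul T hT]
    rw [Finset.sum_eq_single j]
    · simp
    · intro k _ hk
      rw [Matrix.one_apply_ne hk.symm]
      simp
    · exact fun h => absurd (Finset.mem_univ j) h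
  exact congrArg (fun f => f G) h

theorem GL_ne {n : ℕ} (T : Matrix (Fin (n + 1)) (Fin (n + 1)) ℂ) (hT : IsUnit T.det)
    {G : Pn (n + 1)} (hG : G ≠ 0) : GL_sub T⁻¹ G ≠ 0 := by
  intro h
  have := GL_inv T hT G
  rw [h, map_zero] at this
  exact hG this.symm

theorem GL_ev (hGen : StGen) {n D : ℕ} (T : Matrix (Fin (n + 1)) (Fin (n + 1)) ℂ)
    (hT : IsUnit T.det) (τ : Kn n ≃ₐ[ℂ] Kn n) (hτ : ∀ j, τ (x j) = yT T j) {G : Pn (n + 1)}
    (hG : G.IsHomogeneous D) : ev G = (lf T 0) ^ D * τ (ev (GL_sub T⁻¹ G)) := by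
  obtain ⟨hl0, hhx, -⟩ := (hGen n).2.1 T hT
  -- `ev G = aeval ℓ (G^T)`
  have h1 : ev G = aeval (lf T : Fin (n + 1) → Kn n) (GL_sub T⁻¹ G) := by
    have : (aeval (lf T : Fin (n + 1) → Kn n)).comp (GL_sub T⁻¹) = aeval hx := by
      apply algHom_ext
      intro j
      simp only [AlgHom.comp_apply, GL_sub, bind₁_X_right, map_sum, map_mul, aeval_X, aeval_C]
      rw [hhx j]
    rw [ev, ← this]
    rfl
  -- `ℓ_i = ℓ_0 τ(hx_i)`
  have h2 : ∀ i, lf T i = lf T 0 * τ (hx i) := by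
    intro i
    refine Fin.cases ?_ (fun j => ?_) i
    · simp [hx]
    · have : (hx j.succ : Kn n) = x j := by simp [hx]
      rw [this, hτ j, yT, mul_div_cancel₀ _ (hl0 0)]
  have h3 := GL_homog T⁻¹ hG
  rw [h1]
  generalize GL_sub T⁻¹ G = P at h3
  conv_lhs => rw [P.as_sum]
  conv_rhs => rw [ev, P.as_sum]
  rw [map_sum, map_sum, map_sum, Finset.mul_sum]
  refine Finset.sum_congr rfl fun μ hμ => ?_
  rw [aeval_monomial, aeval_monomial, Finsupp.prod_fintype _ _ (fun i => pow_zero _),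
    Finsupp.prod_fintype _ _ (fun i => pow_zero _), map_mul, map_prod, AlgEquiv.commutes,
    ← Fil_deg h3 hμ, ← Finset.prod_pow_eq_pow_sum, mul_left_comm, ← Finset.prod_mul_distrib]
  congr 1
  refine Finset.prod_congr rfl fun i _ => ?_
  rw [h2 i, mul_pow, map_pow]

/-- the transformed system -/
noncomputable def GL_sys {n D : ℕ} (T : Matrix (Fin (n + 1)) (Fin (n + 1)) ℂ)
    (hT : IsUnit T.det) (F : FormSys n D) : FormSys n D := by
  classical
  exact
  { gens := F.gens.image (GL_sub T⁻¹)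
    nonempty := F.nonempty.image _
    ne_zero := by
      intro G hG
      obtain ⟨G₀, hG₀, rfl⟩ := Finset.mem_image.1 hG
      exact GL_ne T hT (F.ne_zero G₀ hG₀)
    homog := by
      intro G hG
      obtain ⟨G₀, hG₀, rfl⟩ := Finset.mem_image.1 hG
      exact GL_homog T⁻¹ (F.homog G₀ hG₀) }

theorem GL_sys_div (hGen : StGen) {n D : ℕ} (T : Matrix (Fin (n + 1)) (Fin (n + 1)) ℂ)
    (hT : IsUnit T.det) (τ : Kn n ≃ₐ[ℂ] Kn n) (hτ : ∀ j, τ (x j) = yT T j) (F : FormSys n D)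
    (v : DivVal (Kn n)) : (GL_sys T hT F).div (pull τ v) = F.div v + D * v.ord (lf T 0) := by
  classical
  have hl0 := ((hGen n).2.1 T hT).1
  have key : ∀ G ∈ F.gens, v.ord (ev G) = D * v.ord (lf T 0) + (pull τ v).ord (ev (GL_sub T⁻¹ G)) := by
    intro G hG
    have h1 := GL_ev hGen T hT τ hτ (F.homog G hG)
    have h2 : ev (GL_sub T⁻¹ G) ≠ 0 := by
      obtain ⟨G', h0, he, -⟩ := Fil_ev (GL_homog T⁻¹ (F.homog G hG)) (GL_ne T hT (F.ne_zero G hG))
      rw [he, Ne, IsFractionRing.to_map_eq_zero_iff]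
      exact h0
    rw [h1, v.ord_mul _ _ (pow_ne_zero _ (hl0 0)) (by simpa using h2),
      MonL_pow v.ord v.ord_mul (hl0 0)]
    rfl
  apply le_antisymm
  · refine Finset.sup'_le _ _ fun G hG => ?_
    obtain ⟨G₀, hG₀, rfl⟩ := Finset.mem_image.1 hG
    have h1 : - v.ord (ev G₀) ≤ F.div v := Finset.le_sup' (fun G => - v.ord (ev G)) hG₀
    have h2 := key G₀ hG₀
    linarith
  · obtain ⟨G, hG, he⟩ := Finset.exists_mem_eq_sup' F.nonempty (fun G => - v.ord (ev G))
    have h1 : F.div v = - v.ord (ev G) := he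
    have h2 := key G hG
    have h3 : - (pull τ v).ord (ev (GL_sub T⁻¹ G)) ≤ (GL_sys T hT F).div (pull τ v) :=
      Finset.le_sup' (fun G => - (pull τ v).ord (ev G)) (Finset.mem_image_of_mem _ hG)
    linarith

theorem hGL (hGen : StGen) : StGL := by
  intro n M T τ hT hτ hM
  obtain ⟨α, A, H⟩ := hM
  refine ⟨α, GL_sys T hT A, fun m hm => ?_⟩
  obtain ⟨N, F, hN, hF⟩ := H m hm
  refine ⟨N, GL_sys T hT F, hN, fun v' => ?_⟩
  have hv : pull τ (pull τ.symm v') = v' := GL_pull τ v'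
  have h1 := GL_sys_div hGen T hT τ hτ A (pull τ.symm v')
  have h2 := GL_sys_div hGen T hT τ hτ F (pull τ.symm v')
  rw [hv] at h1 h2
  rw [h1, h2, transM, ← hF]
  push_cast
  ring

end Pool.Agent.Helper53.CX
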