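import Pool.Agent.Helper53.CX.St
import Pool.Agent.Helper53.CX.St2

/-!
# Project CX, module Glc: the glc places are toric in the common basis
-/

set_option autoImplicit false

open scoped BigOperators
open MvPolynomial

namespace Pool.Agent.Helper53.CX

/-- a chain of subspaces with a compatible linearly independent set -/
theorem Glc_chain {n : ℕ} (U : ℕ → Submodule ℂ (Fin (n + 1) → ℂ)) (hU : Monotone U) (N : ℕ) :
    ∃ B : Set (Fin (n + 1) → ℂ), LinearIndepOn ℂ id B ∧ B ⊆ U N ∧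
      ∀ j ≤ N, U j ≤ Submodule.span ℂ (B ∩ (U j : Set (Fin (n + 1) → ℂ))) := by
  induction N with
  | zero =>
    obtain ⟨b, h1, -, h3, h4⟩ := exists_linearIndepOn_id_extension
      (K := ℂ) (s := (∅ : Set (Fin (n + 1) → ℂ))) (t := (U 0 : Set (Fin (n + 1) → ℂ)))
      (linearIndepOn_empty _ _) (Set.empty_subset _)
    refine ⟨b, h4, h1, ?_⟩
    intro j hj
    have hj0 : j = 0 := Nat.le_zero.1 hj
    subst hj0
    rw [Set.inter_eq_self_of_subset_left h1]
    exact h3
  | succ N ih =>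
    obtain ⟨B, hB1, hB2, hB3⟩ := ih
    have hsub : B ⊆ (U (N + 1) : Set (Fin (n + 1) → ℂ)) :=
      hB2.trans (hU (Nat.le_succ N))
    obtain ⟨b, h1, h2, h3, h4⟩ := exists_linearIndepOn_id_extension
      (K := ℂ) (t := (U (N + 1) : Set (Fin (n + 1) → ℂ))) hB1 hsub
    refine ⟨b, h4, h1, ?_⟩
    intro j hj
    rcases Nat.lt_or_ge N j with h | h
    · have hj0 : j = N + 1 := by omega
      subst hj0
      rw [Set.inter_eq_self_of_subset_left h1]
      exact h3
    · exact (hB3 j h).trans (Submodule.span_mono (Set.inter_subset_inter_left _ h2))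

/-- an adapted invertible matrix -/
theorem Glc_adapt {n : ℕ} (U : ℕ → Submodule ℂ (Fin (n + 1) → ℂ)) (hU : Monotone U) (N : ℕ)
    (hN : U N = ⊤) :
    ∃ T : Matrix (Fin (n + 1)) (Fin (n + 1)) ℂ, IsUnit T.det ∧
      ∀ j ≤ N, ∀ J : Finset (Fin (n + 1)), (∀ i, T i ∈ U j → i ∈ J) →
        Module.finrank ℂ (U j) ≤ J.card := by
  classical
  obtain ⟨B, hB1, -, hB3⟩ := Glc_chain U hU N
  have hli : LinearIndependent ℂ (fun b : B => (b : Fin (n + 1) → ℂ)) := hB1
  have hspan : ⊤ ≤ Submodule.span ℂ (Set.range (fun b : B => (b : Fin (n + 1) → ℂ))) := by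
    have h := hB3 N le_rfl
    rw [hN] at h
    refine h.trans (Submodule.span_mono ?_)
    rintro b ⟨hb, -⟩
    exact ⟨⟨b, hb⟩, rfl⟩
  let bas : Module.Basis B ℂ (Fin (n + 1) → ℂ) := Module.Basis.mk hli hspan
  have : Fintype B := FiniteDimensional.fintypeBasisIndex bas
  have hcard : Fintype.card B = n + 1 := by
    rw [← Module.finrank_eq_card_basis bas]
    simp
  let e : Fin (n + 1) ≃ B := (Fintype.equivFinOfCardEq hcard).symm
  let T : Matrix (Fin (n + 1)) (Fin (n + 1)) ℂ := fun i => (e i : Fin (n + 1) → ℂ)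
  have hTli : LinearIndependent ℂ T.row := hli.comp e e.injective
  refine ⟨T, ?_, ?_⟩
  · rw [← Matrix.isUnit_iff_isUnit_det]
    exact Matrix.linearIndependent_rows_iff_isUnit.1 hTli
  · intro j hj J hJ
    have h1 : U j ≤ Submodule.span ℂ ((J.image T : Finset (Fin (n + 1) → ℂ)) :
        Set (Fin (n + 1) → ℂ)) := by
      refine (hB3 j hj).trans (Submodule.span_mono ?_)
      rintro b ⟨hb, hbU⟩
      have hT : T (e.symm ⟨b, hb⟩) = b := by
        change ((e (e.symm ⟨b, hb⟩) : B) : Fin (n + 1) → ℂ) = b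
        rw [Equiv.apply_symm_apply]
      rw [Finset.coe_image]
      refine ⟨e.symm ⟨b, hb⟩, ?_, hT⟩
      apply hJ
      rw [hT]
      exact hbU
    calc Module.finrank ℂ (U j) ≤ Module.finrank ℂ (Submodule.span ℂ
        ((J.image T : Finset (Fin (n + 1) → ℂ)) : Set (Fin (n + 1) → ℂ))) :=
          Submodule.finrank_mono h1
      _ ≤ (J.image T).card := finrank_span_finset_le_card _
      _ ≤ J.card := Finset.card_image_le

/-- counting -/
theorem Glc_count {m : ℕ} (val : Fin m → ℤ) (k0 k1 : ℤ) (h0 : ∀ i, k0 ≤ val i)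
    (J : ℤ → Finset (Fin m)) (hJ : ∀ k ∈ Finset.Ioc k0 k1, ∀ i ∈ J k, k ≤ val i) :
    (m : ℤ) * k0 + ∑ k ∈ Finset.Ioc k0 k1, ((J k).card : ℤ) ≤ ∑ i, val i := by
  classical
  have h1 : ∀ k, ((J k).card : ℤ) = ∑ i, if i ∈ J k then 1 else 0 := by
    intro k
    simp
  have h2 : ∑ k ∈ Finset.Ioc k0 k1, ((J k).card : ℤ) =
      ∑ i, ∑ k ∈ Finset.Ioc k0 k1, if i ∈ J k then (1 : ℤ) else 0 := by
    rw [Finset.sum_comm]
    exact Finset.sum_congr rfl fun k _ => h1 k
  have h3 : ∀ i, ∑ k ∈ Finset.Ioc k0 k1, (if i ∈ J k then (1 : ℤ) else 0) ≤ val i - k0 := by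
    intro i
    have h4 : ∑ k ∈ Finset.Ioc k0 k1, (if i ∈ J k then (1 : ℤ) else 0) =
        (((Finset.Ioc k0 k1).filter (fun k => i ∈ J k)).card : ℤ) := by
      rw [Finset.card_filter]
      push_cast
      rfl
    rw [h4]
    have h5 : ((Finset.Ioc k0 k1).filter (fun k => i ∈ J k)) ⊆ Finset.Ioc k0 (val i) := by
      intro k hk
      rw [Finset.mem_filter] at hk
      rw [Finset.mem_Ioc]
      exact ⟨(Finset.mem_Ioc.1 hk.1).1, hJ k hk.1 i hk.2⟩
    have h6 := Finset.card_le_card h5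
    rw [Int.card_Ioc] at h6
    have h7 := h0 i
    omega
  have h8 : ∑ i : Fin m, (val i - k0) = ∑ i, val i - m * k0 := by
    rw [Finset.sum_sub_distrib]
    simp
  have h9 := Finset.sum_le_sum (s := (Finset.univ : Finset (Fin m))) (fun i _ => h3 i)
  rw [← h2, h8] at h9
  linarith

theorem Glc_lfv_add {n : ℕ} (c d : Fin (n + 1) → ℂ) : (lfv (c + d) : Kn n) = lfv c + lfv d := by
  unfold lfv
  rw [← Finset.sum_add_distrib]
  refine Finset.sum_congr rfl fun j _ => ?_
  rw [Pi.add_apply, map_add, add_mul]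

theorem Glc_lfv_smul {n : ℕ} (a : ℂ) (c : Fin (n + 1) → ℂ) :
    (lfv (a • c) : Kn n) = algebraMap ℂ (Kn n) a * lfv c := by
  unfold lfv
  rw [Finset.mul_sum]
  refine Finset.sum_congr rfl fun j _ => ?_
  rw [Pi.smul_apply, smul_eq_mul, map_mul, mul_assoc]

theorem Glc_lfv_zero {n : ℕ} : (lfv (0 : Fin (n + 1) → ℂ) : Kn n) = 0 := by
  unfold lfv
  simp

/-- the filtration by order -/
def Glc_U (hGen : StGen) (hVmin : StVmin) {n : ℕ} (v : DivVal (Kn n)) (k : ℤ) :
    Submodule ℂ (Fin (n + 1) → ℂ) where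
  carrier := {c | c = 0 ∨ k ≤ v.ord (lfv c)}
  zero_mem' := Or.inl rfl
  add_mem' := by
    rintro c d hc hd
    rcases hc with rfl | hc
    · rw [zero_add]; exact hd
    rcases hd with rfl | hd
    · rw [add_zero]; exact Or.inr hc
    by_cases h : c + d = 0
    · exact Or.inl h
    by_cases hc0 : c = 0
    · subst hc0; rw [zero_add]; exact Or.inr hd
    by_cases hd0 : d = 0
    · subst hd0; rw [add_zero]; exact Or.inr hc
    · right
      have h1 := v.ord_add (lfv c) (lfv d) ((hGen n).1 c hc0) ((hGen n).1 d hd0)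
        (by rw [← Glc_lfv_add]; exact (hGen n).1 _ h)
      rw [Glc_lfv_add]
      exact (le_min hc hd).trans h1
  smul_mem' := by
    rintro a c hc
    rcases hc with rfl | hc
    · left; exact smul_zero a
    by_cases ha : a = 0
    · left; rw [ha]; exact zero_smul _ c
    by_cases hc0 : c = 0
    · left; rw [hc0]; exact smul_zero a
    · right
      rw [Glc_lfv_smul, v.ord_mul _ _ (by simpa using ha) ((hGen n).1 c hc0),
        (hVmin n v).1 a ha, zero_add]
      exact hc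

theorem Glc_mem (hGen : StGen) (hVmin : StVmin) {n : ℕ} (v : DivVal (Kn n)) (k : ℤ)
    (c : Fin (n + 1) → ℂ) : c ∈ Glc_U hGen hVmin v k ↔ c = 0 ∨ k ≤ v.ord (lfv c) := Iff.rfl

/-- the log discrepancy bounds the sum over an invertible matrix -/
theorem Glc_bound (hTau : StTau) (hGen : StGen) (hOmT : StOmT) (hLC : StLC) {n : ℕ}
    (v : DivVal (Kn n)) (T : Matrix (Fin (n + 1)) (Fin (n + 1)) ℂ) (hT : IsUnit T.det) :
    ∑ i, v.ord (lf T i) ≤ Adisc v := by
  obtain ⟨τ, hτ⟩ := hTau n (yT T) ((hGen n).2.1 T hT).2.2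
  have h1 := hOmT n v T τ hT hτ
  have h2 := (hLC n (pull τ v)).1
  linarith

open Classical in
theorem hGlc (hTau : StTau) (hGen : StGen) (hOmT : StOmT) (hLC : StLC) (hBri : StBri)
    (hVmin : StVmin) : StGlc := by
  intro n κ _ W c hc hW hsum hstab T hT htight v hv
  obtain ⟨hconst, hmin, hrow⟩ := hVmin n v
  set U : ℤ → Submodule ℂ (Fin (n + 1) → ℂ) := Glc_U hGen hVmin v with hUdef
  have hmemU : ∀ k c, c ∈ U k ↔ c = 0 ∨ k ≤ v.ord (lfv c) := fun k c => Iff.rfl
  have hanti : ∀ k l, k ≤ l → U l ≤ U k := by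
    intro k l hkl c hc
    rw [hmemU] at hc ⊢
    exact hc.imp id (fun h => hkl.trans h)
  have htop : (⊤ : Submodule ℂ (Fin (n + 1) → ℂ)) ≠ ⊥ := top_ne_bot
  set k0 : ℤ := vmin v ⊤ with hk0
  have hk0le : ∀ c : Fin (n + 1) → ℂ, c ≠ 0 → k0 ≤ v.ord (lfv c) := fun c hc0 =>
    (hmin ⊤ htop).1 c Submodule.mem_top hc0
  have hUk0 : U k0 = ⊤ := by
    rw [eq_top_iff]
    intro c _
    rw [hmemU]
    by_cases h : c = 0
    · exact Or.inl h
    · exact Or.inr (hk0le c h)
  have hWU : ∀ i k, W i ≤ U k ↔ k ≤ vmin v (W i) := by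
    intro i k
    obtain ⟨h1, c', hc', hc0, hval⟩ := hmin (W i) (hW i)
    constructor
    · intro h
      have h2 := h hc'
      rw [hmemU] at h2
      rcases h2 with h2 | h2
      · exact absurd h2 hc0
      · rw [hval] at h2; exact h2
    · intro h d hd
      rw [hmemU]
      by_cases hd0 : d = 0
      · exact Or.inl hd0
      · exact Or.inr (h.trans (h1 d hd hd0))
  have hWk0 : ∀ i, k0 ≤ vmin v (W i) := by
    intro i
    rw [← hWU, hUk0]
    exact le_top
  -- upper end
  obtain ⟨k1, hk01, hk1⟩ : ∃ k1 : ℤ, k0 ≤ k1 ∧ ∀ i, vmin v (W i) ≤ k1 := by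
    refine ⟨k0 + ∑ i, (vmin v (W i) - k0), ?_, ?_⟩
    · have : 0 ≤ ∑ i, (vmin v (W i) - k0) :=
        Finset.sum_nonneg fun i _ => by linarith [hWk0 i]
      linarith
    · intro i
      have h5 : vmin v (W i) - k0 ≤ ∑ i, (vmin v (W i) - k0) :=
        Finset.single_le_sum (f := fun i => vmin v (W i) - k0)
          (fun i _ => by linarith [hWk0 i]) (Finset.mem_univ i)
      linarith
  -- the filtration formula
  have hform : ∀ i, (vmin v (W i) : ℝ) = (k0 : ℝ) +
      ∑ k ∈ Finset.Ioc k0 k1, (if W i ≤ U k then (1 : ℝ) else 0) := by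
    intro i
    have h1 : ∑ k ∈ Finset.Ioc k0 k1, (if W i ≤ U k then (1 : ℝ) else 0) =
        (((Finset.Ioc k0 k1).filter (fun k => W i ≤ U k)).card : ℝ) := by
      rw [Finset.card_filter]
      push_cast
      rfl
    have h2 : (Finset.Ioc k0 k1).filter (fun k => W i ≤ U k) =
        Finset.Ioc k0 (vmin v (W i)) := by
      ext k
      rw [Finset.mem_filter, Finset.mem_Ioc, Finset.mem_Ioc, hWU]
      have := hk1 i
      constructor
      · rintro ⟨⟨a, -⟩, b⟩; exact ⟨a, b⟩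
      · rintro ⟨a, b⟩; exact ⟨⟨a, b.trans this⟩, b⟩
    rw [h1, h2, Int.card_Ioc]
    have h3 : (((vmin v (W i) - k0).toNat : ℤ) : ℝ) = ((vmin v (W i) - k0 : ℤ) : ℝ) := by
      rw [Int.toNat_of_nonneg (by linarith [hWk0 i])]
    rw [Int.cast_natCast] at h3
    rw [h3]
    push_cast
    ring
  set wt' : Submodule ℂ (Fin (n + 1) → ℂ) → ℝ := fun U => ∑ i, (if W i ≤ U then c i else 0)
    with hwt'
  have hsumform : ∑ i, c i * (vmin v (W i) : ℝ) = ((n : ℝ) + 1) * k0 +
      ∑ k ∈ Finset.Ioc k0 k1, wt' (U k) := by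
    have h1 : ∀ i, c i * (vmin v (W i) : ℝ) = c i * k0 +
        ∑ k ∈ Finset.Ioc k0 k1, (if W i ≤ U k then c i else 0) := by
      intro i
      rw [hform i, mul_add, Finset.mul_sum]
      congr 1
      refine Finset.sum_congr rfl fun k _ => ?_
      split_ifs <;> simp
    rw [Finset.sum_congr rfl fun i _ => h1 i, Finset.sum_add_distrib, ← Finset.sum_mul, hsum,
      Finset.sum_comm]
  -- adapted matrix
  set N : ℕ := (k1 - k0).toNat with hN
  have hNk : (N : ℤ) = k1 - k0 := Int.toNat_of_nonneg (by linarith)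
  obtain ⟨T', hT', hTd⟩ := Glc_adapt (fun j => U (k1 - j))
    (by
      intro i j hij
      apply hanti
      have : (i : ℤ) ≤ j := by exact_mod_cast hij
      linarith) N (by
      change U (k1 - (N : ℤ)) = ⊤
      rw [hNk, ← hUk0]
      congr 1
      ring)
  have hT'0 : ∀ i, T' i ≠ 0 := by
    intro i h
    apply ((hGen n).2.1 T' hT').1 i
    unfold lf
    rw [h, Glc_lfv_zero]
  have hT0 : ∀ i, T i ≠ 0 := by
    intro i h
    apply ((hGen n).2.1 T hT).1 i
    unfold lf
    rw [h, Glc_lfv_zero]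
  set J' : ℤ → Finset (Fin (n + 1)) := fun k => Finset.univ.filter (fun i => T' i ∈ U k) with hJ'
  have hdim' : ∀ k ∈ Finset.Ioc k0 k1, Module.finrank ℂ (U k) ≤ (J' k).card := by
    intro k hk
    rw [Finset.mem_Ioc] at hk
    have h1 : ((k1 - k).toNat : ℤ) = k1 - k := Int.toNat_of_nonneg (by linarith)
    have h2 := hTd (k1 - k).toNat (by omega) (J' k) ?_
    · change Module.finrank ℂ (U (k1 - ((k1 - k).toNat : ℤ))) ≤ _ at h2
      rw [h1] at h2
      have h3 : k1 - (k1 - k) = k := by ring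
      rw [h3] at h2
      exact h2
    · intro i hi
      change T' i ∈ U (k1 - ((k1 - k).toNat : ℤ)) at hi
      rw [h1] at hi
      have h3 : k1 - (k1 - k) = k := by ring
      rw [h3] at hi
      rw [hJ', Finset.mem_filter]
      exact ⟨Finset.mem_univ _, hi⟩
  have hcount' := Glc_count (fun i => v.ord (lf T' i)) k0 k1 (fun i => hk0le _ (hT'0 i)) J' (by
    intro k _ i hi
    rw [hJ', Finset.mem_filter, hmemU] at hi
    rcases hi.2 with h | h
    · exact absurd h (hT'0 i)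
    · exact h)
  have hb' := Glc_bound hTau hGen hOmT hLC v T' hT'
  have hdimsum : ((n : ℝ) + 1) * k0 + ∑ k ∈ Finset.Ioc k0 k1, (Module.finrank ℂ (U k) : ℝ) ≤
      (Adisc v : ℝ) := by
    have h1 : (((n + 1 : ℕ) : ℤ) * k0 + ∑ k ∈ Finset.Ioc k0 k1, ((J' k).card : ℤ)) ≤ Adisc v :=
      hcount'.trans hb'
    have h2 : ((((n + 1 : ℕ) : ℤ) * k0 + ∑ k ∈ Finset.Ioc k0 k1, ((J' k).card : ℤ) : ℤ) : ℝ) ≤
        (Adisc v : ℝ) := by exact_mod_cast h1
    push_cast at h2
    refine le_trans ?_ h2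
    have h3 : ∑ k ∈ Finset.Ioc k0 k1, (Module.finrank ℂ (U k) : ℝ) ≤
        ∑ k ∈ Finset.Ioc k0 k1, ((J' k).card : ℝ) :=
      Finset.sum_le_sum fun k hk => by exact_mod_cast hdim' k hk
    linarith
  -- equality for every `k`
  have heq : ∀ k ∈ Finset.Ioc k0 k1, wt' (U k) = (Module.finrank ℂ (U k) : ℝ) := by
    have h1 : ∑ k ∈ Finset.Ioc k0 k1, ((Module.finrank ℂ (U k) : ℝ) - wt' (U k)) = 0 := by
      apply le_antisymm
      · rw [Finset.sum_sub_distrib]
        linarith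
      · exact Finset.sum_nonneg fun k _ => by
          have := hstab (U k)
          simp only [hwt']
          linarith
    intro k hk
    have h2 := (Finset.sum_eq_zero_iff_of_nonneg (fun k _ => by
      have := hstab (U k)
      simp only [hwt']
      linarith)).1 h1 k hk
    linarith
  -- the subspaces are spanned by rows of `T`
  have hex : ∀ k, ∃ J : Finset (Fin (n + 1)), k ∈ Finset.Ioc k0 k1 → U k = rowSpan T J := by
    intro k
    by_cases hk : k ∈ Finset.Ioc k0 k1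
    · obtain ⟨J, hJ⟩ := htight (U k) (heq k hk)
      exact ⟨J, fun _ => hJ⟩
    · exact ⟨∅, fun h => absurd h hk⟩
  choose J hJ using hex
  have hJcard : ∀ k ∈ Finset.Ioc k0 k1, Module.finrank ℂ (U k) = (J k).card := by
    intro k hk
    rw [hJ k hk]
    rcases (J k).eq_empty_or_nonempty with h | h
    · rw [h]
      unfold rowSpan
      simp
    · exact (hrow T (J k) h hT).2.2
  have hcount := Glc_count (fun i => v.ord (lf T i)) k0 k1 (fun i => hk0le _ (hT0 i)) J (by
    intro k hk i hi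
    have h1 : T i ∈ U k := by
      rw [hJ k hk]
      exact Submodule.subset_span ⟨i, hi, rfl⟩
    rw [hmemU] at h1
    rcases h1 with h | h
    · exact absurd h (hT0 i)
    · exact h)
  obtain ⟨τ, hτ⟩ := hTau n (yT T) ((hGen n).2.1 T hT).2.2
  have hom := hOmT n v T τ hT hτ
  have hlow : Adisc v ≤ ∑ i, v.ord (lf T i) := by
    refine le_trans ?_ hcount
    have h1 : (Adisc v : ℝ) = (((n + 1 : ℕ) : ℤ) * k0 + ∑ k ∈ Finset.Ioc k0 k1,
        ((J k).card : ℤ) : ℤ) := by
      rw [← hv, hsumform]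
      push_cast
      congr 1
      refine Finset.sum_congr rfl fun k hk => ?_
      rw [heq k hk, hJcard k hk]
    exact_mod_cast h1.le
  have hm1 : ordOmega (pull τ v) = -1 := by
    have h2 := (hLC n (pull τ v)).1
    linarith
  have hmon := (hLC n (pull τ v)).2 hm1
  refine ⟨fun j => (pull τ v).ord (x j), ?_⟩
  have htor := ((hBri n (pull τ v)).1 _).2 hmon
  intro p hp
  have hev : (aeval (yT T) p : Kn n) = τ (algebraMap (Pn n) (Kn n) p) := by
    have h1 : (MvPolynomial.aeval (yT T) : Pn n →ₐ[ℂ] Kn n) =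
        (τ : Kn n →ₐ[ℂ] Kn n).comp (IsScalarTower.toAlgHom ℂ (Pn n) (Kn n)) := by
      apply MvPolynomial.algHom_ext
      intro j
      rw [MvPolynomial.aeval_X]
      exact (hτ j).symm
    rw [h1]
    rfl
  rw [hev]
  exact htor p hp

end Pool.Agent.Helper53.CX
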