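import Pool.Agent.Helper53.CX.St
import Pool.Agent.Helper53.CX.St2

/-!
# CX2, module Iz: Izumi's inequality at a point (helper3)
-/

set_option autoImplicit false

open scoped BigOperators
open MvPolynomial

namespace Pool.Agent.Helper53.CX

theorem Iz_theta {n : ℕ} (j : Fin n) (p : Pn n) :
    theta j (algebraMap (Pn n) (Kn n) p) = x j * algebraMap (Pn n) (Kn n) (pderiv j p) := by
  induction p using MvPolynomial.induction_on with
  | C a =>
    have h : algebraMap (Pn n) (Kn n) (C a) = algebraMap ℂ (Kn n) a := by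
      rw [IsScalarTower.algebraMap_apply ℂ (Pn n) (Kn n)]
      rfl
    rw [h, theta_algebraMap, pderiv_C, map_zero, mul_zero]
  | add p q hp hq => rw [map_add, theta_add, hp, hq, map_add, map_add, mul_add]
  | mul_X p i hp =>
    have hx : algebraMap (Pn n) (Kn n) (X i) = x i := rfl
    rw [map_mul, theta_mul, hp, hx, theta_x, Derivation.leibniz, pderiv_X, map_add, smul_eq_mul,
      smul_eq_mul, map_mul, map_mul, hx]
    by_cases hij : i = j
    · subst hij
      rw [if_pos rfl, Pi.single_eq_same, map_one]
      ring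
    · rw [if_neg hij, Pi.single_eq_of_ne hij, map_zero]
      ring

theorem Iz_xne {n : ℕ} (j : Fin n) : (x j : Kn n) ≠ 0 := by
  intro h
  have h1 : (X j : Pn n) = 0 := by
    apply IsFractionRing.injective (Pn n) (Kn n)
    rw [map_zero]
    exact h
  exact X_ne_zero j h1

theorem Iz_ane {n : ℕ} {p : Pn n} (hp : p ≠ 0) : algebraMap (Pn n) (Kn n) p ≠ 0 := by
  intro h
  apply hp
  apply IsFractionRing.injective (Pn n) (Kn n)
  rw [map_zero]
  exact h

theorem hIz (hDer : StDer) : StIz := by
  intro n v hv
  choose C hC using fun j => hDer n v j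
  refine ⟨∑ j, (v.ord (x j) + C j).natAbs, ?_⟩
  have key : ∀ (j : Fin n) (p : Pn n), pderiv j p ≠ 0 →
      v.ord (algebraMap (Pn n) (Kn n) p) ≤ v.ord (algebraMap (Pn n) (Kn n) (pderiv j p)) +
        ((∑ j, (v.ord (x j) + C j).natAbs : ℕ) : ℤ) := by
    intro j p hp
    have hp0 : p ≠ 0 := by
      rintro rfl
      exact hp (map_zero _)
    have h1 : theta j (algebraMap (Pn n) (Kn n) p) ≠ 0 := by
      rw [Iz_theta]
      exact mul_ne_zero (Iz_xne j) (Iz_ane hp)
    have h2 := hC j _ (Iz_ane hp0) h1
    rw [Iz_theta, v.ord_mul _ _ (Iz_xne j) (Iz_ane hp)] at h2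
    have h3 : (v.ord (x j) + C j).natAbs ≤ ∑ j, (v.ord (x j) + C j).natAbs :=
      Finset.single_le_sum (f := fun j => (v.ord (x j) + C j).natAbs) (fun i _ => Nat.zero_le _)
        (Finset.mem_univ j)
    have h4 : v.ord (x j) + C j ≤ ((v.ord (x j) + C j).natAbs : ℤ) := Int.le_natAbs
    have h5 : ((v.ord (x j) + C j).natAbs : ℤ) ≤
        ((∑ j, (v.ord (x j) + C j).natAbs : ℕ) : ℤ) := by exact_mod_cast h3
    linarith
  have main : ∀ (d : ℕ) (G : Pn n) (μ : Fin n →₀ ℕ), μ ∈ G.support → ∑ j, μ j = d →
      v.ord (algebraMap (Pn n) (Kn n) G) ≤ ((∑ j, (v.ord (x j) + C j).natAbs : ℕ) : ℤ) * d := by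
    intro d
    induction d with
    | zero =>
      intro G μ hμ hd
      have h0 : μ = 0 := by
        ext j
        exact (Finset.sum_eq_zero_iff.1 hd) j (Finset.mem_univ j)
      subst h0
      rw [hv G (mem_support_iff.1 hμ)]
      simp
    | succ d ih =>
      intro G μ hμ hd
      obtain ⟨j, hj⟩ : ∃ j, μ j ≠ 0 := by
        by_contra hall
        push Not at hall
        rw [Finset.sum_eq_zero (fun j _ => hall j)] at hd
        omega
      have hμ' : μ - Finsupp.single j 1 + Finsupp.single j 1 = μ := by
        apply tsub_add_cancel_of_le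
        rw [Finsupp.single_le_iff]
        omega
      have hsup : μ - Finsupp.single j 1 ∈ (pderiv j G).support := by
        rw [mem_support_iff, coeff_pderiv, hμ']
        refine mul_ne_zero (mem_support_iff.1 hμ) ?_
        exact_mod_cast Nat.succ_ne_zero ((μ - (Finsupp.single j (1 : ℕ)) : Fin n →₀ ℕ) j)
      have hd' : ∑ i, (μ - Finsupp.single j 1 : Fin n →₀ ℕ) i = d := by
        have h1 : ∑ i, μ i = ∑ i, (μ - Finsupp.single j 1 : Fin n →₀ ℕ) i +
            ∑ i, (Finsupp.single j 1 : Fin n →₀ ℕ) i := by
          rw [← Finset.sum_add_distrib]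
          refine Finset.sum_congr rfl fun i _ => ?_
          conv_lhs => rw [← hμ']
          rfl
        have h2 : ∑ i, (Finsupp.single j 1 : Fin n →₀ ℕ) i = 1 := by
          rw [Finset.sum_eq_single j]
          · simp
          · intro i _ hij
            exact Finsupp.single_eq_of_ne hij
          · intro h
            exact absurd (Finset.mem_univ j) h
        omega
      have h1 := ih _ _ hsup hd'
      have h2 := key j G (by
        intro h
        rw [h] at hsup
        simp at hsup)
      push_cast at h1 h2 ⊢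
      linarith
  intro G μ hμ
  have := main _ G μ hμ rfl
  push_cast at this ⊢
  exact this

end Pool.Agent.Helper53.CX
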