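import Pool.Agent.Helper53.CX.St

set_option autoImplicit false

open scoped BigOperators
open MvPolynomial

namespace Pool.Agent.Helper53.CX

theorem JacEx_ord_one {K : Type} [Field K] [Algebra ℂ K] (v : DivVal K) : v.ord 1 = 0 := by
  have h := v.ord_mul 1 1 one_ne_zero one_ne_zero
  rw [mul_one] at h
  omega

theorem JacEx_ord_neg_one {K : Type} [Field K] [Algebra ℂ K] (v : DivVal K) :
    v.ord (-1) = 0 := by
  have h := v.ord_mul (-1) (-1) (neg_ne_zero.mpr one_ne_zero) (neg_ne_zero.mpr one_ne_zero)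
  rw [neg_mul_neg, mul_one, JacEx_ord_one] at h
  omega

theorem JacEx_ord_inv {K : Type} [Field K] [Algebra ℂ K] (v : DivVal K) (f : K) (hf : f ≠ 0) :
    v.ord f⁻¹ = - v.ord f := by
  have h := v.ord_mul f f⁻¹ hf (inv_ne_zero hf)
  rw [mul_inv_cancel₀ hf, JacEx_ord_one] at h
  omega

/-- the element is zero or has order at least `b` -/
def JacEx_ge {K : Type} [Field K] [Algebra ℂ K] (v : DivVal K) (b : ℤ) (f : K) : Prop :=
  f = 0 ∨ b ≤ v.ord f

theorem JacEx_ge_add {K : Type} [Field K] [Algebra ℂ K] (v : DivVal K) (b : ℤ) (f g : K)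
    (hf : JacEx_ge v b f) (hg : JacEx_ge v b g) : JacEx_ge v b (f + g) := by
  by_cases h0 : f + g = 0
  · exact Or.inl h0
  rcases hf with hf | hf
  · rw [hf, zero_add]; exact hg
  rcases hg with hg | hg
  · rw [hg, add_zero]; exact Or.inr hf
  by_cases f0 : f = 0
  · rw [f0, zero_add]; exact Or.inr hg
  by_cases g0 : g = 0
  · rw [g0, add_zero]; exact Or.inr hf
  right
  have := v.ord_add f g f0 g0 h0
  exact le_trans (le_min hf hg) this

theorem JacEx_ge_sum {K : Type} [Field K] [Algebra ℂ K] (v : DivVal K) (b : ℤ) {ι : Type}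
    (s : Finset ι) (f : ι → K) (hf : ∀ i ∈ s, JacEx_ge v b (f i)) :
    JacEx_ge v b (∑ i ∈ s, f i) := by
  classical
  induction s using Finset.induction_on with
  | empty => left; simp
  | insert a s ha ih =>
    rw [Finset.sum_insert ha]
    exact JacEx_ge_add v b _ _ (hf a (Finset.mem_insert_self a s))
      (ih (fun i hi => hf i (Finset.mem_insert_of_mem hi)))

theorem JacEx_ge_mul {K : Type} [Field K] [Algebra ℂ K] (v : DivVal K) (b c : ℤ) (f g : K)
    (hf : JacEx_ge v b f) (hg : JacEx_ge v c g) : JacEx_ge v (b + c) (f * g) := by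
  rcases hf with hf | hf
  · left; rw [hf, zero_mul]
  rcases hg with hg | hg
  · left; rw [hg, mul_zero]
  by_cases f0 : f = 0
  · left; rw [f0, zero_mul]
  by_cases g0 : g = 0
  · left; rw [g0, mul_zero]
  right
  rw [v.ord_mul f g f0 g0]
  omega

theorem JacEx_ge_prod {K : Type} [Field K] [Algebra ℂ K] (v : DivVal K) (b : ℤ) {ι : Type}
    (s : Finset ι) (f : ι → K) (hf : ∀ i ∈ s, JacEx_ge v b (f i)) :
    JacEx_ge v (s.card * b) (∏ i ∈ s, f i) := by
  classical
  induction s using Finset.induction_on with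
  | empty =>
    right
    simp [JacEx_ord_one]
  | insert a s ha ih =>
    rw [Finset.prod_insert ha, Finset.card_insert_of_notMem ha]
    have h := JacEx_ge_mul v b (s.card * b) _ _ (hf a (Finset.mem_insert_self a s))
      (ih (fun i hi => hf i (Finset.mem_insert_of_mem hi)))
    have e : ((s.card + 1 : ℕ) : ℤ) * b = b + s.card * b := by push_cast; ring
    rw [e]
    exact h

theorem JacEx_ge_sign {K : Type} [Field K] [Algebra ℂ K] (v : DivVal K) (b : ℤ) (u : ℤˣ) (f : K)
    (hf : JacEx_ge v b f) : JacEx_ge v b (u • f) := by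
  rcases Int.units_eq_one_or u with h | h
  · rw [h, one_smul]; exact hf
  · rw [h]
    have e : ((-1 : ℤˣ) • f) = (-1) * f := by
      rw [Units.smul_def]
      simp
    rw [e]
    have := JacEx_ge_mul v 0 b (-1) f (Or.inr (le_of_eq (JacEx_ord_neg_one v).symm)) hf
    rwa [zero_add] at this

theorem JacEx_theta_zero {n : ℕ} (j : Fin n) : theta j (0 : Kn n) = 0 := by
  have h := theta_add j (0 : Kn n) 0
  rw [add_zero] at h
  exact left_eq_add.mp h

theorem JacEx_theta_one {n : ℕ} (j : Fin n) : theta j (1 : Kn n) = 0 := by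
  have h := theta_mul j (1 : Kn n) 1
  rw [mul_one, one_mul] at h
  exact left_eq_add.mp h

theorem JacEx_x_ne {n : ℕ} (j : Fin n) : (x j : Kn n) ≠ 0 := by
  rw [x]
  intro h
  have := (IsFractionRing.injective (Pn n) (Kn n)) (h.trans (map_zero _).symm)
  exact X_ne_zero j this

theorem JacEx_theta_inv {n : ℕ} (j i : Fin n) :
    theta j ((x i : Kn n)⁻¹) = if i = j then -(x i)⁻¹ else 0 := by
  have hx := JacEx_x_ne i
  have h := theta_mul j (x i : Kn n) (x i)⁻¹
  rw [mul_inv_cancel₀ hx, JacEx_theta_one, theta_x] at h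
  by_cases hij : i = j
  · rw [if_pos hij] at h ⊢
    rw [inv_mul_cancel₀ hx] at h
    have h2 : x i * theta j ((x i : Kn n)⁻¹) = -1 := by
      linear_combination -h
    apply mul_left_cancel₀ hx
    rw [h2, mul_neg, mul_inv_cancel₀ hx]
  · rw [if_neg hij] at h ⊢
    rw [mul_zero, add_zero] at h
    exact (mul_eq_zero.mp h.symm).resolve_left hx

theorem JacEx_bdd (hDer : StDer) (n : ℕ) (v : DivVal (Kn n)) :
    ∃ b : ℤ, ∀ f : Fin n → Kn n, (∀ i, 0 ≤ v.ord (f i)) → jac f ≠ 0 → b ≤ v.ord (jac f) := by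
  choose C hC using hDer n v
  set D : ℤ := ∑ j, |C j| with hD
  have hCD : ∀ j, C j ≤ D := fun j => le_trans (le_abs_self _)
    (Finset.single_le_sum (f := fun j => |C j|) (fun i _ => abs_nonneg _) (Finset.mem_univ j))
  refine ⟨(Finset.univ : Finset (Fin n)).card * (-D), fun f hf hne => ?_⟩
  have hent : ∀ i j, JacEx_ge v (-D) (theta j (f i)) := by
    intro i j
    by_cases h0 : theta j (f i) = 0
    · exact Or.inl h0
    have hfi : f i ≠ 0 := by
      intro h
      rw [h, JacEx_theta_zero] at h0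
      exact h0 rfl
    right
    have h1 := hC j (f i) hfi h0
    have h2 := hf i
    have h3 := hCD j
    omega
  have hdet : JacEx_ge v ((Finset.univ : Finset (Fin n)).card * (-D)) (jac f) := by
    rw [jac, Matrix.det_apply]
    apply JacEx_ge_sum
    intro σ _
    apply JacEx_ge_sign
    apply JacEx_ge_prod
    intro i _
    exact hent (σ i) i
  rcases hdet with h | h
  · exact absurd h hne
  · exact h

theorem JacEx_nonempty (n : ℕ) (v : DivVal (Kn n)) :
    ∃ f : Fin n → Kn n, (∀ i, 0 ≤ v.ord (f i)) ∧ jac f ≠ 0 := by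
  classical
  set f : Fin n → Kn n := fun i => if 0 ≤ v.ord (x i) then x i else (x i)⁻¹ with hf
  refine ⟨f, fun i => ?_, ?_⟩
  · by_cases h : 0 ≤ v.ord (x i)
    · simp only [hf, if_pos h]; exact h
    · simp only [hf, if_neg h]
      rw [JacEx_ord_inv v _ (JacEx_x_ne i)]
      omega
  · have hM : (Matrix.of fun i j => theta j (f i)) = Matrix.diagonal
        (fun i => if 0 ≤ v.ord (x i) then x i else -(x i : Kn n)⁻¹) := by
      ext i j
      rw [Matrix.of_apply, Matrix.diagonal_apply]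
      by_cases h : 0 ≤ v.ord (x i)
      · simp only [hf, if_pos h]
        rw [theta_x]
      · simp only [hf, if_neg h]
        rw [JacEx_theta_inv]
    rw [jac, hM, Matrix.det_diagonal]
    rw [Finset.prod_ne_zero_iff]
    intro i _
    by_cases h : 0 ≤ v.ord (x i)
    · rw [if_pos h]; exact JacEx_x_ne i
    · rw [if_neg h]; exact neg_ne_zero.mpr (inv_ne_zero (JacEx_x_ne i))

theorem hJacEx (hDer : StDer) : StJacEx := by
  intro n v
  obtain ⟨b, hb⟩ := JacEx_bdd hDer n v
  obtain ⟨f0, hf0, hj0⟩ := JacEx_nonempty n v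
  obtain ⟨e, ⟨f, hf1, hf2, hf3⟩, hmin⟩ := Int.exists_least_of_bdd
    (P := fun z => ∃ f : Fin n → Kn n, (∀ i, 0 ≤ v.ord (f i)) ∧ jac f ≠ 0 ∧ v.ord (jac f) = z)
    ⟨b, by
      rintro z ⟨f, h1, h2, h3⟩
      rw [← h3]
      exact hb f h1 h2⟩
    ⟨v.ord (jac f0), f0, hf0, hj0, rfl⟩
  refine ⟨e, fun g hg hgj => hmin _ ⟨g, hg, hgj, rfl⟩, f, hf1, hf2, hf3⟩

end Pool.Agent.Helper53.CX
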