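import Pool.Agent.Helper53.CX.St
import Pool.Agent.Helper53.CX.St2

/-!
# Project CX part 2 (MP_140278_ag): module Pull, the order of the form under automorphisms
-/

set_option autoImplicit false

open scoped BigOperators
open MvPolynomial

namespace Pool.Agent.Helper53.CX

theorem Pull_one {K : Type} [Field K] [Algebra ℂ K] (v : DivVal K) : v.ord 1 = 0 := by
  have h1 := v.ord_mul 1 1 one_ne_zero one_ne_zero
  rw [mul_one] at h1
  linarith

theorem Pull_prod {K : Type} [Field K] [Algebra ℂ K] (v : DivVal K) {ι : Type} (s : Finset ι)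
    (f : ι → K) (hf : ∀ i ∈ s, f i ≠ 0) : v.ord (∏ i ∈ s, f i) = ∑ i ∈ s, v.ord (f i) := by
  classical
  induction s using Finset.induction_on with
  | empty => simpa using Pull_one v
  | insert a s ha ih =>
    rw [Finset.prod_insert ha, Finset.sum_insert ha]
    have h1 : ∏ i ∈ s, f i ≠ 0 :=
      Finset.prod_ne_zero_iff.2 fun i hi => hf i (Finset.mem_insert_of_mem hi)
    rw [v.ord_mul _ _ (hf a (Finset.mem_insert_self _ _)) h1,
      ih fun i hi => hf i (Finset.mem_insert_of_mem hi)]

theorem Pull_div {K : Type} [Field K] [Algebra ℂ K] (v : DivVal K) (a b : K) (ha : a ≠ 0)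
    (hb : b ≠ 0) : v.ord (a / b) = v.ord a - v.ord b := by
  have h1 := v.ord_mul (a / b) b (div_ne_zero ha hb) hb
  rw [div_mul_cancel₀ _ hb] at h1
  linarith

theorem Pull_x_ne {n : ℕ} (j : Fin n) : (x j : Kn n) ≠ 0 := by
  intro h
  have h2 : (X j : Pn n) = 0 := by
    apply IsFractionRing.injective (Pn n) (Kn n)
    rw [map_zero]
    exact h
  exact MvPolynomial.X_ne_zero j h2

/-- a derivation over `τ` vanishing on constants and on the coordinates is zero -/
theorem Pull_der_zero {n : ℕ} (τ : Kn n ≃ₐ[ℂ] Kn n) (D : Kn n → Kn n)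
    (hadd : ∀ f g, D (f + g) = D f + D g) (hmul : ∀ f g, D (f * g) = τ f * D g + τ g * D f)
    (hC : ∀ c : ℂ, D (algebraMap ℂ (Kn n) c) = 0) (hx : ∀ j, D (x j) = 0) (f : Kn n) :
    D f = 0 := by
  have hp : ∀ p : Pn n, D (algebraMap (Pn n) (Kn n) p) = 0 := by
    intro p
    induction p using MvPolynomial.induction_on with
    | C a =>
      have : algebraMap (Pn n) (Kn n) (C a) = algebraMap ℂ (Kn n) a := by
        rw [IsScalarTower.algebraMap_apply ℂ (Pn n) (Kn n)]
        rfl
      rw [this, hC]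
    | add p q hp hq => rw [map_add, hadd, hp, hq, add_zero]
    | mul_X p j hp =>
      have hxj : D (algebraMap (Pn n) (Kn n) (X j)) = 0 := hx j
      rw [map_mul, hmul, hp, hxj, mul_zero, mul_zero, add_zero]
  obtain ⟨p, q, hq, rfl⟩ := IsFractionRing.div_surjective (A := Pn n) f
  have hq0 : algebraMap (Pn n) (Kn n) q ≠ 0 :=
    IsLocalization.to_map_ne_zero_of_mem_nonZeroDivisors (Kn n) le_rfl hq
  have h1 := hmul (algebraMap (Pn n) (Kn n) p / algebraMap (Pn n) (Kn n) q)
    (algebraMap (Pn n) (Kn n) q)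
  rw [div_mul_cancel₀ _ hq0, hp, hp, mul_zero, zero_add] at h1
  rcases mul_eq_zero.1 h1.symm with h | h
  · exact absurd ((map_eq_zero τ).1 h) hq0
  · exact h

theorem Pull_chain {n : ℕ} (τ : Kn n ≃ₐ[ℂ] Kn n) (k : Fin n) (f : Kn n) :
    theta k (τ f) = ∑ j, theta k (τ (x j)) / τ (x j) * τ (theta j f) := by
  have hy : ∀ j : Fin n, τ (x j) ≠ 0 := fun j h => Pull_x_ne j ((map_eq_zero τ).1 h)
  have h := Pull_der_zero τ
    (fun f => theta k (τ f) - ∑ j, theta k (τ (x j)) / τ (x j) * τ (theta j f)) ?_ ?_ ?_ ?_ f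
  · exact sub_eq_zero.1 h
  · intro f g
    simp only [map_add, theta_add, mul_add, Finset.sum_add_distrib]
    ring
  · intro f g
    simp only [map_mul, theta_mul, map_add, mul_add, Finset.sum_add_distrib]
    rw [mul_sub, mul_sub, Finset.mul_sum, Finset.mul_sum]
    have h1 : ∀ j, theta k (τ (x j)) / τ (x j) * (τ f * τ (theta j g))
        = τ f * (theta k (τ (x j)) / τ (x j) * τ (theta j g)) := fun j => by ring
    have h2 : ∀ j, theta k (τ (x j)) / τ (x j) * (τ g * τ (theta j f))
        = τ g * (theta k (τ (x j)) / τ (x j) * τ (theta j f)) := fun j => by ring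
    rw [Finset.sum_congr rfl (fun j _ => h1 j), Finset.sum_congr rfl (fun j _ => h2 j)]
    ring
  · intro c
    have h1 : τ (algebraMap ℂ (Kn n) c) = algebraMap ℂ (Kn n) c := τ.commutes c
    simp only [h1, theta_algebraMap, map_zero, mul_zero, Finset.sum_const_zero, sub_zero]
  · intro i
    show theta k (τ (x i)) - _ = 0
    rw [Finset.sum_eq_single i]
    · rw [theta_x, if_pos rfl, div_mul_cancel₀ _ (hy i), sub_self]
    · intro b _ hb
      rw [theta_x, if_neg (Ne.symm hb), map_zero, mul_zero]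
    · intro h
      exact absurd (Finset.mem_univ _) h

theorem Pull_jac_x {n : ℕ} : jac (x : Fin n → Kn n) = ∏ j, x j := by
  unfold jac
  have : (Matrix.of fun i j => theta j (x i : Kn n)) = Matrix.diagonal (x : Fin n → Kn n) := by
    ext i j
    rw [Matrix.of_apply, theta_x, Matrix.diagonal_apply]
  rw [this, Matrix.det_diagonal]

theorem Pull_jac {n : ℕ} (τ : Kn n ≃ₐ[ℂ] Kn n) (f : Fin n → Kn n) :
    jac (fun i => τ (f i)) * ∏ j, τ (x j) = τ (jac f) * jac (fun j => τ (x j)) := by
  have hy : ∀ j : Fin n, τ (x j) ≠ 0 := fun j h => Pull_x_ne j ((map_eq_zero τ).1 h)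
  have h1 : (Matrix.of fun i k => theta k (τ (f i)))
      = (Matrix.of fun i j => τ (theta j (f i))) *
        ((Matrix.diagonal fun j => (τ (x j))⁻¹) * (Matrix.of fun j k => theta k (τ (x j)))) := by
    ext i k
    rw [Matrix.of_apply, Pull_chain, Matrix.mul_apply]
    refine Finset.sum_congr rfl fun j _ => ?_
    rw [Matrix.diagonal_mul, Matrix.of_apply, Matrix.of_apply]
    ring
  have h2 : Matrix.det (Matrix.of fun i j => τ (theta j (f i))) = τ (jac f) := by
    unfold jac
    have := RingHom.map_det (τ : Kn n →+* Kn n) (Matrix.of fun i j => theta j (f i))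
    rw [show τ (Matrix.det (Matrix.of fun i j => theta j (f i)))
      = (τ : Kn n →+* Kn n) (Matrix.det (Matrix.of fun i j => theta j (f i))) from rfl, this]
    rfl
  unfold jac at *
  rw [h1, Matrix.det_mul, Matrix.det_mul, Matrix.det_diagonal, h2]
  have h3 : (∏ j, (τ (x j))⁻¹) * ∏ j, τ (x j) = 1 := by
    rw [← Finset.prod_mul_distrib]
    exact Finset.prod_eq_one fun j _ => inv_mul_cancel₀ (hy j)
  calc τ (Matrix.det (Matrix.of fun i j => theta j (f i))) *
        ((∏ j, (τ (x j))⁻¹) * Matrix.det (Matrix.of fun j k => theta k (τ (x j)))) *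
        ∏ j, τ (x j)
      = τ (Matrix.det (Matrix.of fun i j => theta j (f i))) *
        Matrix.det (Matrix.of fun j k => theta k (τ (x j))) *
        ((∏ j, (τ (x j))⁻¹) * ∏ j, τ (x j)) := by ring
    _ = _ := by rw [h3, mul_one]

theorem Pull_unique {n : ℕ} (v : DivVal (Kn n)) {e e' : ℤ} (h : IsJacMin v e)
    (h' : IsJacMin v e') : e = e' := by
  obtain ⟨h1, f, hf, hf0, hfe⟩ := h
  obtain ⟨h1', f', hf', hf0', hfe'⟩ := h'
  have a := h1 f' hf' hf0'
  have b := h1' f hf hf0
  rw [hfe'] at a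
  rw [hfe] at b
  exact le_antisymm a b

theorem Pull_ordOmega {n : ℕ} (v : DivVal (Kn n)) {e : ℤ} (h : IsJacMin v e) :
    ordOmega v = - e := by
  have h' : ∃ e : ℤ, IsJacMin v e := ⟨e, h⟩
  unfold ordOmega
  rw [dif_pos h', Pull_unique v h'.choose_spec h]

theorem hPull (hJacEx : StJacEx) : StPull := by
  intro n v τ
  have hy : ∀ j : Fin n, τ (x j) ≠ 0 := fun j h => Pull_x_ne j ((map_eq_zero τ).1 h)
  have hP : ∏ j, τ (x j : Kn n) ≠ 0 := Finset.prod_ne_zero_iff.2 fun j _ => hy j
  have hjy : jac (fun j => τ (x j)) ≠ 0 := by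
    intro h0
    have h1 := Pull_jac τ (fun i => τ.symm (x i))
    rw [h0, mul_zero] at h1
    have h2 : (fun i => τ (τ.symm (x i))) = (x : Fin n → Kn n) := by
      funext i
      exact τ.apply_symm_apply _
    rw [h2, Pull_jac_x] at h1
    rcases mul_eq_zero.1 h1 with h | h
    · exact (Finset.prod_ne_zero_iff.2 fun j _ => Pull_x_ne j) h
    · exact hP h
  refine ⟨hjy, ?_⟩
  obtain ⟨e, he⟩ := hJacEx n v
  have hkey : ∀ f : Fin n → Kn n, jac f ≠ 0 → jac (fun i => τ (f i)) ≠ 0 ∧
      v.ord (jac fun i => τ (f i)) = v.ord (τ (jac f)) + v.ord (jac fun j => τ (x j)) -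
        ∑ j, v.ord (τ (x j)) := by
    intro f hf
    have h1 := Pull_jac τ f
    have h2 : τ (jac f) ≠ 0 := fun h => hf ((map_eq_zero τ).1 h)
    have h3 : jac (fun i => τ (f i)) ≠ 0 := by
      intro h
      rw [h, zero_mul] at h1
      rcases mul_eq_zero.1 h1.symm with h | h
      · exact h2 h
      · exact hjy h
    refine ⟨h3, ?_⟩
    have h4 := congrArg v.ord h1
    rw [v.ord_mul _ _ h3 hP, v.ord_mul _ _ h2 hjy, Pull_prod v _ _ fun j _ => hy j] at h4
    linarith
  have hkey' : ∀ f : Fin n → Kn n, jac (fun i => τ (f i)) ≠ 0 → jac f ≠ 0 := by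
    intro f hf h0
    apply hf
    have h1 := Pull_jac τ f
    rw [h0, map_zero, zero_mul] at h1
    rcases mul_eq_zero.1 h1 with h | h
    · exact h
    · exact absurd h hP
  have hmin : IsJacMin (pull τ v) (e - v.ord (jac fun j => τ (x j)) +
      ∑ j, v.ord (τ (x j))) := by
    obtain ⟨h1, f, hf, hf0, hfe⟩ := he
    constructor
    · intro g hg hg0
      obtain ⟨h2, h3⟩ := hkey g hg0
      have h4 := h1 (fun i => τ (g i)) hg h2
      show _ ≤ v.ord (τ (jac g))
      linarith
    · refine ⟨fun i => τ.symm (f i), ?_, ?_, ?_⟩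
      · intro i
        show 0 ≤ v.ord (τ (τ.symm (f i)))
        rw [τ.apply_symm_apply]
        exact hf i
      · apply hkey'
        have h2 : (fun i => τ (τ.symm (f i))) = f := by
          funext i
          exact τ.apply_symm_apply _
        rw [h2]
        exact hf0
      · have h2 : (fun i => τ (τ.symm (f i))) = f := by
          funext i
          exact τ.apply_symm_apply _
        have h3 : jac (fun i => τ.symm (f i)) ≠ 0 := by
          apply hkey'
          rw [h2]
          exact hf0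
        obtain ⟨-, h4⟩ := hkey _ h3
        rw [h2, hfe] at h4
        show v.ord (τ (jac fun i => τ.symm (f i))) = _
        linarith
  rw [Pull_ordOmega _ hmin, Pull_ordOmega v he]
  ring

end Pool.Agent.Helper53.CX
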