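import Pool.Agent.Helper53.CX.St
import Pool.Agent.Helper53.CX.St2
import Pool.Agent.Helper53.CX.M_Pull

/-!
# Project CX part 2 (MP_140278_ag): module JacT, Jacobian of linear fractional coordinates
-/

set_option autoImplicit false

open scoped BigOperators
open MvPolynomial

namespace Pool.Agent.Helper53.CX

theorem JacT_theta_sum {n : ℕ} (k : Fin n) {ι : Type} (s : Finset ι) (f : ι → Kn n) :
    theta k (∑ i ∈ s, f i) = ∑ i ∈ s, theta k (f i) := by
  classical
  induction s using Finset.induction_on with
  | empty =>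
    have h := theta_add k (0 : Kn n) 0
    rw [add_zero] at h
    simpa using h
  | insert a s ha ih => rw [Finset.sum_insert ha, Finset.sum_insert ha, theta_add, ih]

theorem JacT_theta_lf {n : ℕ} (T : Matrix (Fin (n + 1)) (Fin (n + 1)) ℂ) (i : Fin (n + 1))
    (k : Fin n) : theta k (lf T i) = algebraMap ℂ (Kn n) (T i k.succ) * x k := by
  unfold lf lfv
  rw [JacT_theta_sum, Finset.sum_eq_single k.succ]
  · rw [theta_mul, theta_algebraMap, mul_zero, add_zero]
    have : (hx k.succ : Kn n) = x k := by simp [hx]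
    rw [this, theta_x, if_pos rfl]
  · intro b _ hb
    rw [theta_mul, theta_algebraMap, mul_zero, add_zero]
    have h0 : theta k (hx b : Kn n) = 0 := by
      revert hb
      refine Fin.cases (fun _ => ?_) (fun j hb => ?_) b
      · have h1 : (hx 0 : Kn n) = algebraMap ℂ (Kn n) 1 := by simp [hx]
        rw [h1, theta_algebraMap]
      · have h1 : (hx j.succ : Kn n) = x j := by simp [hx]
        rw [h1, theta_x, if_neg]
        rintro rfl
        exact hb rfl
    rw [h0, mul_zero]
  · intro h
    exact absurd (Finset.mem_univ _) h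

theorem hJacT (hGen : StGen) : StJacT := by
  intro n v T hT
  have hT0 := ((hGen n).2.1 T hT).1
  set l0 : Kn n := lf T 0 with hl0
  have hl0ne : l0 ≠ 0 := hT0 0
  let T' : Matrix (Fin (n + 1)) (Fin (n + 1)) (Kn n) := T.map (algebraMap ℂ (Kn n))
  have hdetT' : T'.det = algebraMap ℂ (Kn n) T.det := by
    have := RingHom.map_det (algebraMap ℂ (Kn n)) T
    rw [this]
    rfl
  let y' : Fin (n + 1) → Kn n := fun i => lf T i / l0
  -- the big matrix
  let M : Matrix (Fin (n + 1)) (Fin (n + 1)) (Kn n) := T'.updateCol 0 y'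
  have hM1 : l0 * M.det = T'.det := by
    have h1 : l0 * M.det = (T'.updateCol 0 (fun i => lf T i)).det := by
      have h2 : (fun i => lf T i) = l0 • y' := by
        funext i
        show lf T i = l0 * (lf T i / l0)
        rw [mul_div_cancel₀ _ hl0ne]
      rw [h2, Matrix.det_updateCol_smul]
    rw [h1]
    have h3 : (fun i => lf T i) = (fun k => ∑ i, (hx i : Kn n) • T' k i) := by
      funext k
      unfold lf lfv
      refine Finset.sum_congr rfl fun j _ => ?_
      show algebraMap ℂ (Kn n) (T k j) * hx j = hx j * algebraMap ℂ (Kn n) (T k j)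
      ring
    rw [h3, Matrix.det_updateCol_sum]
    have : (hx 0 : Kn n) = 1 := by simp [hx]
    rw [this, one_smul]
  let N : Matrix (Fin (n + 1)) (Fin (n + 1)) (Kn n) :=
    Matrix.of fun i j => M i j + (if i = 0 then 0 else - y' i) * M 0 j
  have hN : N.det = M.det := by
    apply Matrix.det_eq_of_forall_row_eq_smul_add_const (fun i => if i = 0 then 0 else - y' i) 0
    · simp
    · intro i j
      rfl
  have hN2 : N.det = Matrix.det (Matrix.of fun (j k : Fin n) =>
      (algebraMap ℂ (Kn n) (T j.succ k.succ) - yT T j * algebraMap ℂ (Kn n) (T 0 k.succ))) := by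
    rw [Matrix.det_succ_column_zero, Finset.sum_eq_single 0]
    · have h1 : N 0 0 = 1 := by
        show M 0 0 + (if (0 : Fin (n + 1)) = 0 then 0 else - y' 0) * M 0 0 = 1
        rw [if_pos rfl, zero_mul, add_zero]
        show (T'.updateCol 0 y') 0 0 = 1
        rw [Matrix.updateCol_self]
        show lf T 0 / l0 = 1
        exact div_self hl0ne
      rw [h1]
      have h2 : N.submatrix (Fin.succAbove 0) Fin.succ = Matrix.of fun (j k : Fin n) =>
          (algebraMap ℂ (Kn n) (T j.succ k.succ) -
            yT T j * algebraMap ℂ (Kn n) (T 0 k.succ)) := by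
        ext j k
        rw [Matrix.submatrix_apply, Fin.succAbove_zero, Matrix.of_apply]
        show M j.succ k.succ + (if j.succ = 0 then 0 else - y' j.succ) * M 0 k.succ = _
        rw [if_neg (Fin.succ_ne_zero j)]
        have h3 : ∀ i, M i k.succ = algebraMap ℂ (Kn n) (T i k.succ) := by
          intro i
          show (T'.updateCol 0 y') i k.succ = _
          rw [Matrix.updateCol_ne (Fin.succ_ne_zero k)]
          rfl
        rw [h3, h3]
        show _ + - (lf T j.succ / l0) * _ = _ - (lf T j.succ / lf T 0) * _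
        ring
      rw [h2]
      simp
    · intro b _ hb
      have h1 : N b 0 = 0 := by
        show M b 0 + (if b = 0 then 0 else - y' b) * M 0 0 = 0
        rw [if_neg hb]
        have h2 : ∀ i, M i 0 = y' i := fun i => by
          show (T'.updateCol 0 y') i 0 = _
          rw [Matrix.updateCol_self]
        rw [h2, h2]
        have h3 : y' 0 = 1 := div_self hl0ne
        rw [h3]
        ring
      rw [h1]
      ring
    · intro h
      exact absurd (Finset.mem_univ _) h
  have htheta : ∀ j k : Fin n, theta k (yT T j) = x k / l0 *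
      (algebraMap ℂ (Kn n) (T j.succ k.succ) - yT T j * algebraMap ℂ (Kn n) (T 0 k.succ)) := by
    intro j k
    have h1 : (yT T j : Kn n) * lf T 0 = lf T j.succ := by
      unfold yT
      rw [div_mul_cancel₀ _ (hT0 0)]
    have h2 := theta_mul k (yT T j) (lf T 0)
    rw [h1, JacT_theta_lf, JacT_theta_lf] at h2
    have h3 : lf T 0 * theta k (yT T j) = algebraMap ℂ (Kn n) (T j.succ k.succ) * x k -
        yT T j * (algebraMap ℂ (Kn n) (T 0 k.succ) * x k) := by
      rw [h2]
      ring
    have h4 : theta k (yT T j) = (lf T 0 * theta k (yT T j)) / l0 := by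
      rw [← hl0, mul_comm, mul_div_assoc, div_self hl0ne, mul_one]
    rw [h4, h3]
    ring
  have hjac : jac (yT T : Fin n → Kn n) = (∏ k, x k / l0) * N.det := by
    rw [hN2]
    unfold jac
    rw [← Matrix.det_mul_row]
    congr 1
    ext j k
    rw [Matrix.of_apply, Matrix.of_apply, Matrix.of_apply, htheta]
  have hdet : N.det = T'.det / l0 := by
    rw [hN, ← hM1]
    field_simp
  have hTd : algebraMap ℂ (Kn n) T.det ≠ 0 := by
    rw [Ne, map_eq_zero]
    exact hT.ne_zero
  have hordC : v.ord (algebraMap ℂ (Kn n) T.det) = 0 := by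
    obtain ⟨R, -, h0, -⟩ := v.exists_model
    have h1 := h0 (algebraMap ℂ (Kn n) T.det) (R.algebraMap_mem _) hTd
    have hinv : algebraMap ℂ (Kn n) (T.det)⁻¹ ≠ 0 := by
      rw [Ne, map_eq_zero]
      exact inv_ne_zero hT.ne_zero
    have h2 := h0 (algebraMap ℂ (Kn n) (T.det)⁻¹) (R.algebraMap_mem _) hinv
    have h3 := v.ord_mul _ _ hTd hinv
    rw [← map_mul, mul_inv_cancel₀ hT.ne_zero, map_one, Pull_one] at h3
    linarith
  rw [hjac, hdet, hdetT']
  have hxl : ∀ k : Fin n, (x k / l0 : Kn n) ≠ 0 := fun k => div_ne_zero (Pull_x_ne k) hl0ne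
  rw [v.ord_mul _ _ (Finset.prod_ne_zero_iff.2 fun k _ => hxl k) (div_ne_zero hTd hl0ne),
    Pull_prod v _ _ (fun k _ => hxl k), Pull_div v _ _ hTd hl0ne, hordC]
  have h5 : ∀ k : Fin n, v.ord (x k / l0) = v.ord (x k) - v.ord l0 :=
    fun k => Pull_div v _ _ (Pull_x_ne k) hl0ne
  rw [Finset.sum_congr rfl (fun k _ => h5 k), Finset.sum_sub_distrib, Finset.sum_const,
    Finset.card_univ, Fintype.card_fin, nsmul_eq_mul]
  ring

end Pool.Agent.Helper53.CX
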