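import Pool.Agent.Helper53.CX.St

/-!
# Project CX, module PadV: `P`-adic valuations are divisorial; the order of the form is `0`
-/

set_option autoImplicit false

open scoped BigOperators
open MvPolynomial

namespace Pool.Agent.Helper53.CX

/-- the local ring at `P`, as a subring of the field of rational functions -/
def PadV_ring {n : ℕ} (P : Pn n) (hP : Prime P) : Subring (Kn n) where
  carrier := {g | ∃ p q : Pn n, ¬ P ∣ q ∧ g * algebraMap (Pn n) (Kn n) q = algebraMap (Pn n) (Kn n) p}
  zero_mem' := ⟨0, 1, fun h => hP.not_isUnit (isUnit_of_dvd_one h), by simp⟩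
  one_mem' := ⟨1, 1, fun h => hP.not_isUnit (isUnit_of_dvd_one h), by simp⟩
  add_mem' := by
    rintro a b ⟨p, q, hq, h⟩ ⟨p', q', hq', h'⟩
    refine ⟨p * q' + p' * q, q * q', fun hd => (hP.dvd_or_dvd hd).elim hq hq', ?_⟩
    simp only [map_mul, map_add]
    rw [← h, ← h']; ring
  mul_mem' := by
    rintro a b ⟨p, q, hq, h⟩ ⟨p', q', hq', h'⟩
    refine ⟨p * p', q * q', fun hd => (hP.dvd_or_dvd hd).elim hq hq', ?_⟩
    simp only [map_mul]
    rw [← h, ← h']; ring
  neg_mem' := by
    rintro a ⟨p, q, hq, h⟩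
    refine ⟨-p, q, hq, ?_⟩
    simp only [map_neg]
    rw [← h]; ring

theorem PadV_mem {n : ℕ} {P : Pn n} {hP : Prime P} {g : Kn n} : g ∈ PadV_ring P hP ↔
    ∃ p q : Pn n, ¬ P ∣ q ∧ g * algebraMap (Pn n) (Kn n) q = algebraMap (Pn n) (Kn n) p := Iff.rfl

theorem PadV_theta_poly {n : ℕ} (j : Fin n) (p : Pn n) :
    ∃ p' : Pn n, theta j (algebraMap (Pn n) (Kn n) p) = algebraMap (Pn n) (Kn n) p' := by
  induction p using MvPolynomial.induction_on with
  | C c =>
    refine ⟨0, ?_⟩
    have h : algebraMap (Pn n) (Kn n) (C c) = algebraMap ℂ (Kn n) c := by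
      rw [IsScalarTower.algebraMap_apply ℂ (Pn n) (Kn n)]
      rfl
    rw [h, theta_algebraMap, map_zero]
  | add p q hp hq =>
    obtain ⟨p', hp'⟩ := hp
    obtain ⟨q', hq'⟩ := hq
    exact ⟨p' + q', by rw [map_add, theta_add, hp', hq', map_add]⟩
  | mul_X p i hp =>
    obtain ⟨p', hp'⟩ := hp
    refine ⟨p * (if i = j then X i else 0) + X i * p', ?_⟩
    rw [map_mul, theta_mul, hp']
    have h : theta j (algebraMap (Pn n) (Kn n) (X i)) = if i = j then x i else 0 := theta_x j i
    rw [h]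
    by_cases hij : i = j
    · simp only [hij, if_true, map_add, map_mul]; rfl
    · simp only [hij, if_false, map_add, map_mul, map_zero]

theorem PadV_theta_mem {n : ℕ} {P : Pn n} {hP : Prime P} (j : Fin n) {g : Kn n}
    (hg : g ∈ PadV_ring P hP) : theta j g ∈ PadV_ring P hP := by
  obtain ⟨p, q, hq, h⟩ := hg
  obtain ⟨p', hp'⟩ := PadV_theta_poly j p
  obtain ⟨q', hq'⟩ := PadV_theta_poly j q
  refine ⟨p' * q - p * q', q * q, fun hd => (hP.dvd_or_dvd hd).elim hq hq, ?_⟩
  have h1 := congrArg (theta j) h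
  rw [theta_mul, hp', hq'] at h1
  simp only [map_mul, map_sub]
  rw [← h, ← h1]
  ring

theorem PadV_det_mem {n : ℕ} {R : Type} [CommRing R] (A : Subring R) (M : Matrix (Fin n) (Fin n) R)
    (h : ∀ i j, M i j ∈ A) : M.det ∈ A := by
  rw [Matrix.det_apply]
  refine Subring.sum_mem _ fun σ _ => ?_
  rw [Units.smul_def]
  exact A.zsmul_mem (Subring.prod_mem _ fun i _ => h _ _) _

theorem PadV_fin {n : ℕ} {P : Pn n} (hP : Irreducible P) {p : Pn n} (hp : p ≠ 0) :
    FiniteMultiplicity P p :=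
  FiniteMultiplicity.of_not_isUnit hP.not_isUnit hp

theorem PadV_jacMin_unique {n : ℕ} {v : DivVal (Kn n)} {e e' : ℤ} (h : IsJacMin v e)
    (h' : IsJacMin v e') : e = e' := by
  obtain ⟨h1, f, hf, hj, he⟩ := h
  obtain ⟨h1', f', hf', hj', he'⟩ := h'
  have a := h1 f' hf' hj'
  have b := h1' f hf hj
  omega

theorem hPadV (hExt : StExt) (hPad : StPad) : StPadV := by
  intro n P hirr
  have hP : Prime P := hirr.prime
  obtain ⟨mmul, madd, mdvd⟩ := hPad n P hirr
  obtain ⟨E0, Emul, Eadd, Ealg⟩ := hExt n (fun p => (multiplicity P p : ℤ))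
    (fun p q hp hq => by rw [mmul p q hp hq]; push_cast; rfl)
    (fun p q hp hq hpq => by
      have := madd p q hp hq hpq
      exact_mod_cast this)
  change padOrd P 0 = 0 at E0
  change ∀ f g : Kn n, f ≠ 0 → g ≠ 0 → padOrd P (f * g) = padOrd P f + padOrd P g at Emul
  change ∀ f g : Kn n, f ≠ 0 → g ≠ 0 → f + g ≠ 0 →
      min (padOrd P f) (padOrd P g) ≤ padOrd P (f + g) at Eadd
  change ∀ p : Pn n, p ≠ 0 → padOrd P (algebraMap (Pn n) (Kn n) p) = (multiplicity P p : ℤ) at Ealg
  have inj : ∀ p : Pn n, algebraMap (Pn n) (Kn n) p = 0 ↔ p = 0 := fun p =>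
    IsFractionRing.to_map_eq_zero_iff
  have m0 : ∀ q : Pn n, ¬ P ∣ q → multiplicity P q = 0 := by
    intro q hq
    have hq0 : q ≠ 0 := fun h => hq (h ▸ dvd_zero P)
    by_contra hne
    exact hq ((mdvd q hq0).2 (Nat.one_le_iff_ne_zero.2 hne))
  have ne_of : ∀ q : Pn n, ¬ P ∣ q → q ≠ 0 := fun q hq h => hq (h ▸ dvd_zero P)
  -- membership in the local ring
  have hmem : ∀ g : Kn n, (g = 0 ∨ 0 ≤ padOrd P g) → g ∈ PadV_ring P hP := by
    intro g hg
    by_cases hg0 : g = 0
    · rw [hg0]; exact (PadV_ring P hP).zero_mem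
    have hg1 : 0 ≤ padOrd P g := hg.resolve_left hg0
    obtain ⟨a, b, hb, hab⟩ := IsFractionRing.div_surjective (A := Pn n) g
    have hb0 : b ≠ 0 := nonZeroDivisors.ne_zero hb
    have hbK : algebraMap (Pn n) (Kn n) b ≠ 0 := fun h => hb0 ((inj b).1 h)
    have hgb : g * algebraMap (Pn n) (Kn n) b = algebraMap (Pn n) (Kn n) a := by
      rw [← hab]; field_simp
    have ha0 : a ≠ 0 := by
      intro h
      rw [h, map_zero] at hgb
      exact (mul_ne_zero hg0 hbK) hgb
    obtain ⟨a', ha', hna⟩ := (PadV_fin hirr ha0).exists_eq_pow_mul_and_not_dvd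
    obtain ⟨b', hb', hnb⟩ := (PadV_fin hirr hb0).exists_eq_pow_mul_and_not_dvd
    have hord := Emul g _ hg0 hbK
    rw [hgb, Ealg a ha0, Ealg b hb0] at hord
    have hle : multiplicity P b ≤ multiplicity P a := by
      have : (multiplicity P b : ℤ) ≤ multiplicity P a := by linarith
      exact_mod_cast this
    refine ⟨P ^ (multiplicity P a - multiplicity P b) * a', b', hnb, ?_⟩
    have hPK : algebraMap (Pn n) (Kn n) P ≠ 0 := fun h => hirr.ne_zero ((inj P).1 h)
    have hpow : (algebraMap (Pn n) (Kn n) P) ^ (multiplicity P b) ≠ 0 := pow_ne_zero _ hPK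
    have e1 : algebraMap (Pn n) (Kn n) a = (algebraMap (Pn n) (Kn n) P) ^ (multiplicity P b) *
        ((algebraMap (Pn n) (Kn n) P) ^ (multiplicity P a - multiplicity P b) *
          algebraMap (Pn n) (Kn n) a') := by
      conv_lhs => rw [ha']
      rw [map_mul, map_pow, ← mul_assoc, ← pow_add, Nat.add_sub_cancel' hle]
    have e2 : algebraMap (Pn n) (Kn n) b = (algebraMap (Pn n) (Kn n) P) ^ (multiplicity P b) *
        algebraMap (Pn n) (Kn n) b' := by
      conv_lhs => rw [hb']
      rw [map_mul, map_pow]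
    rw [e1, e2] at hgb
    rw [map_mul, map_pow]
    apply mul_left_cancel₀ hpow
    rw [← hgb]; ring
  have hord0 : ∀ g : Kn n, g ∈ PadV_ring P hP → g ≠ 0 → 0 ≤ padOrd P g := by
    rintro g ⟨p, q, hq, h⟩ hg
    have hq0 := ne_of q hq
    have hqK : algebraMap (Pn n) (Kn n) q ≠ 0 := fun h => hq0 ((inj q).1 h)
    have hp0 : p ≠ 0 := by
      intro hp
      rw [hp, map_zero] at h
      exact (mul_ne_zero hg hqK) h
    have h1 := Emul g _ hg hqK
    rw [h, Ealg p hp0, Ealg q hq0, m0 q hq] at h1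
    have : (0 : ℤ) ≤ multiplicity P p := Int.natCast_nonneg _
    push_cast at h1
    linarith
  refine ⟨⟨{ ord := padOrd P, ord_zero := E0, ord_mul := Emul, ord_add := Eadd,
             exists_one := ?_, exists_model := ?_ }, rfl⟩, ?_⟩
  · refine ⟨algebraMap (Pn n) (Kn n) P, fun h => hirr.ne_zero ((inj P).1 h), ?_⟩
    rw [Ealg P hirr.ne_zero, multiplicity_self]
    rfl
  · refine ⟨(IsScalarTower.toAlgHom ℂ (Pn n) (Kn n)).range, ?_, ?_, ?_⟩
    · rw [← Algebra.map_top]
      exact Subalgebra.FG.map _ (Algebra.FiniteType.out)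
    · rintro f ⟨p, rfl⟩ hf
      have hp0 : p ≠ 0 := by
        intro h
        apply hf
        rw [h]; simp
      have h1 := Ealg p hp0
      have h2 : 0 ≤ padOrd P (algebraMap (Pn n) (Kn n) p) := by
        rw [h1]; exact Int.natCast_nonneg _
      exact h2
    · intro f hf hord
      obtain ⟨p, q, hq, h⟩ := hmem f (Or.inr hord)
      have hq0 := ne_of q hq
      refine ⟨algebraMap (Pn n) (Kn n) p, ⟨p, rfl⟩, algebraMap (Pn n) (Kn n) q, ⟨q, rfl⟩,
        fun h => hq0 ((inj q).1 h), ?_, ?_⟩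
      · rw [Ealg q hq0, m0 q hq]; rfl
      · rw [← h]; ring
  · rintro ⟨-, hass⟩ v hv
    have hxj : ∀ j, v.ord (x j) = 0 := by
      intro j
      have hX0 : (X j : Pn n) ≠ 0 := X_ne_zero j
      have h1 : v.ord (x j) = (multiplicity P (X j : Pn n) : ℤ) := by
        rw [hv]; exact Ealg (X j) hX0
      have h2 : ¬ P ∣ (X j : Pn n) := by
        intro hd
        exact hass j (hirr.associated_of_dvd (MvPolynomial.X_prime (R := ℂ) (i := j)).irreducible hd)
      rw [h1, m0 _ h2]; rfl
    refine ⟨hxj, ?_⟩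
    have hmin : IsJacMin v 0 := by
      refine ⟨?_, x, fun i => (hxj i).ge, ?_⟩
      · intro f hf hj
        rw [hv]
        apply hord0 _ _ hj
        apply PadV_det_mem
        intro i j
        apply PadV_theta_mem
        apply hmem
        right
        have := hf i
        rwa [hv] at this
      · have hdet : jac (x : Fin n → Kn n) = ∏ i, (x i : Kn n) := by
          have h1 : (Matrix.of fun i j => theta j (x i : Kn n)) = Matrix.diagonal (x : Fin n → Kn n) := by
            ext i j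
            rw [Matrix.of_apply, theta_x, Matrix.diagonal_apply]
          rw [jac, h1, Matrix.det_diagonal]
        have hx0 : ∀ i, (x i : Kn n) ≠ 0 := fun i h => X_ne_zero i ((inj _).1 h)
        have hprod : ∀ s : Finset (Fin n), v.ord (∏ i ∈ s, (x i : Kn n)) = 0 := by
          intro s
          induction s using Finset.induction_on with
          | empty =>
            rw [Finset.prod_empty]
            have := v.ord_mul 1 1 one_ne_zero one_ne_zero
            rw [mul_one] at this
            omega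
          | insert i s hi ih =>
            rw [Finset.prod_insert hi, v.ord_mul _ _ (hx0 i) (Finset.prod_ne_zero_iff.2 fun i _ => hx0 i),
              hxj, ih]
            rfl
        refine ⟨?_, ?_⟩
        · rw [hdet]; exact Finset.prod_ne_zero_iff.2 fun i _ => hx0 i
        · rw [hdet]; exact hprod _
    have hex : ∃ e : ℤ, IsJacMin v e := ⟨0, hmin⟩
    rw [ordOmega, dif_pos hex, PadV_jacMin_unique hex.choose_spec hmin]
    rfl

end Pool.Agent.Helper53.CX
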