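import Pool.Agent.Helper53.CX.St
import Pool.Agent.Helper53.CX.St2
import Pool.Agent.Helper53.CX.M_MonL
import Pool.Agent.Helper53.CX.M_PadV

set_option autoImplicit false

open scoped BigOperators
open MvPolynomial

namespace Pool.Agent.Helper53.CX

variable {n : ℕ}

theorem LC_one (v : DivVal (Kn n)) : v.ord 1 = 0 := by
  have := v.ord_mul 1 1 one_ne_zero one_ne_zero
  rw [mul_one] at this
  omega

theorem LC_neg (v : DivVal (Kn n)) (f : Kn n) : v.ord (-f) = v.ord f := by
  have h1 : v.ord (-1) = 0 := by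
    have h := v.ord_mul (-1) (-1) (by norm_num) (by norm_num)
    rw [neg_mul_neg, one_mul, LC_one] at h
    omega
  by_cases hf : f = 0
  · rw [hf, neg_zero]
  · rw [← neg_one_mul, v.ord_mul _ _ (by norm_num) hf, h1, zero_add]

theorem LC_inv (v : DivVal (Kn n)) {f : Kn n} (hf : f ≠ 0) : v.ord f⁻¹ = - v.ord f := by
  have h := v.ord_mul f f⁻¹ hf (inv_ne_zero hf)
  rw [mul_inv_cancel₀ hf, LC_one] at h
  omega

/-- the valuation ring -/
def LC_O (v : DivVal (Kn n)) : Subring (Kn n) where
  carrier := {f | 0 ≤ v.ord f}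
  mul_mem' := by
    intro f g hf hg
    by_cases h1 : f = 0
    · simp [h1, v.ord_zero]
    by_cases h2 : g = 0
    · simp [h2, v.ord_zero]
    have hf' : 0 ≤ v.ord f := hf
    have hg' : 0 ≤ v.ord g := hg
    show 0 ≤ v.ord (f * g)
    rw [v.ord_mul f g h1 h2]
    omega
  one_mem' := by
    show 0 ≤ v.ord 1
    rw [LC_one]
  add_mem' := by
    intro f g hf hg
    by_cases h1 : f = 0
    · simpa [h1] using hg
    by_cases h2 : g = 0
    · simpa [h2] using hf
    by_cases h3 : f + g = 0
    · show 0 ≤ v.ord (f + g)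
      rw [h3, v.ord_zero]
    exact le_trans (le_min hf hg) (v.ord_add f g h1 h2 h3)
  zero_mem' := by
    show 0 ≤ v.ord 0
    rw [v.ord_zero]
  neg_mem' := by
    intro f hf
    show 0 ≤ v.ord (-f)
    rw [LC_neg]
    exact hf

theorem LC_mem {v : DivVal (Kn n)} {f : Kn n} : f ∈ LC_O v ↔ 0 ≤ v.ord f := Iff.rfl

theorem LC_const (v : DivVal (Kn n)) (c : ℂ) : algebraMap ℂ (Kn n) c ∈ LC_O v := by
  by_cases hc : c = 0
  · rw [hc, map_zero]
    exact (LC_O v).zero_mem
  · rw [LC_mem, MonL_const v c hc]

/-- logarithmic derivative -/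
noncomputable def LC_ld (j : Fin n) (f : Kn n) : Kn n := theta j f / f

theorem LC_ld_mul (j : Fin n) {f g : Kn n} (hf : f ≠ 0) (hg : g ≠ 0) :
    LC_ld j (f * g) = LC_ld j f + LC_ld j g := by
  unfold LC_ld
  rw [theta_mul]
  field_simp
  ring

theorem LC_ld_one (j : Fin n) : LC_ld j (1 : Kn n) = 0 := by
  have := LC_ld_mul j (one_ne_zero (α := Kn n)) (one_ne_zero (α := Kn n))
  rw [mul_one] at this
  simpa using this

theorem LC_ld_pow (j : Fin n) {f : Kn n} (hf : f ≠ 0) (k : ℕ) :
    LC_ld j (f ^ k) = k * LC_ld j f := by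
  induction k with
  | zero => simp [LC_ld_one]
  | succ k ih =>
    rw [pow_succ, LC_ld_mul j (pow_ne_zero k hf) hf, ih]
    push_cast
    ring

theorem LC_ld_inv (j : Fin n) {f : Kn n} (hf : f ≠ 0) : LC_ld j f⁻¹ = - LC_ld j f := by
  have h := LC_ld_mul j hf (inv_ne_zero hf)
  rw [mul_inv_cancel₀ hf, LC_ld_one] at h
  linear_combination -h

theorem LC_ld_zpow (j : Fin n) {f : Kn n} (hf : f ≠ 0) (k : ℤ) :
    LC_ld j (f ^ k) = k * LC_ld j f := by
  obtain ⟨m, rfl | rfl⟩ := k.eq_nat_or_neg
  · rw [zpow_natCast, LC_ld_pow j hf]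
    simp
  · rw [zpow_neg, zpow_natCast, LC_ld_inv j (pow_ne_zero m hf), LC_ld_pow j hf]
    simp

theorem LC_theta_sub (j : Fin n) (f g : Kn n) : theta j (f - g) = theta j f - theta j g := by
  have h := theta_add j (f - g) g
  rw [sub_add_cancel] at h
  linear_combination -h

/-- row operations and scaling of rows -/
theorem LC_det (A : Subring (Kn n)) (B : Matrix (Fin n) (Fin n) (Kn n)) (i0 : Fin n)
    (c s : Fin n → Kn n) (h0 : ∀ k, s i0 * B i0 k ∈ A)
    (h1 : ∀ i, i ≠ i0 → ∀ k, s i * (B i k - c i * B i0 k) ∈ A) : (∏ i, s i) * B.det ∈ A := by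
  classical
  set B' : Matrix (Fin n) (Fin n) (Kn n) :=
    Matrix.of fun i k => B i k + (if i = i0 then 0 else - c i) * B i0 k with hB'
  have hd : B'.det = B.det := by
    refine Matrix.det_eq_of_forall_row_eq_smul_add_const (fun i => if i = i0 then 0 else - c i) i0
      (by simp) ?_
    intro i k
    rw [hB', Matrix.of_apply]
  have h2 : (∏ i, s i) * B.det = (Matrix.of fun i k => s i * B' i k).det := by
    rw [Matrix.det_mul_column, hd]
  rw [h2]
  apply PadV_det_mem
  intro i k
  rw [Matrix.of_apply, hB', Matrix.of_apply]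
  by_cases hi : i = i0
  · subst hi
    simpa using h0 k
  · rw [if_neg hi]
    have := h1 i hi k
    convert this using 2
    ring

/-- coordinates with respect to a basis of the differential forms -/
theorem LC_setup (v : DivVal (Kn n)) (e : ℤ) (he : IsJacMin v e) :
    ∃ G : Matrix (Fin n) (Fin n) (Kn n), G.det ≠ 0 ∧ v.ord G.det = -e ∧
      ∀ g : Kn n, 0 ≤ v.ord g → ∀ k, (∑ l, theta l g * G l k) ∈ LC_O v := by
  classical
  obtain ⟨h1, f, hf, hj, hf2⟩ := he
  set F : Matrix (Fin n) (Fin n) (Kn n) := Matrix.of fun i j => theta j (f i) with hF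
  have hdet : F.det = jac f := rfl
  have hFG : F * ((jac f)⁻¹ • F.adjugate) = 1 := by
    rw [Matrix.mul_smul, Matrix.mul_adjugate, hdet, smul_smul, inv_mul_cancel₀ hj, one_smul]
  have hdG : ((jac f)⁻¹ • F.adjugate).det = (jac f)⁻¹ := by
    have h2 := congrArg Matrix.det hFG
    rw [Matrix.det_mul, Matrix.det_one, hdet] at h2
    exact eq_inv_of_mul_eq_one_right h2
  refine ⟨(jac f)⁻¹ • F.adjugate, ?_, ?_, ?_⟩
  · rw [hdG]
    exact inv_ne_zero hj
  · rw [hdG, LC_inv v hj, hf2]
  · intro g hg k
    have e1 : ∑ l, theta l g * ((jac f)⁻¹ • F.adjugate) l k =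
        (jac f)⁻¹ * (F.updateRow k (fun l => theta l g)).det := by
      rw [← Matrix.cramer_transpose_apply, Matrix.cramer_eq_adjugate_mulVec,
        ← Matrix.adjugate_transpose]
      simp only [Matrix.mulVec, dotProduct, Matrix.transpose_apply, Matrix.smul_apply, smul_eq_mul,
        Finset.mul_sum]
      refine Finset.sum_congr rfl fun l _ => ?_
      ring
    have e2 : F.updateRow k (fun l => theta l g) =
        Matrix.of fun i j => theta j (Function.update f k g i) := by
      ext i j
      by_cases hi : i = k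
      · subst hi
        simp
      · rw [Matrix.updateRow_ne hi, Matrix.of_apply, Function.update_of_ne hi, hF, Matrix.of_apply]
    rw [e1, e2]
    show 0 ≤ v.ord ((jac f)⁻¹ * jac (Function.update f k g))
    by_cases hz : jac (Function.update f k g) = 0
    · rw [hz, mul_zero, v.ord_zero]
    · rw [v.ord_mul _ _ (inv_ne_zero hj) hz, LC_inv v hj, hf2]
      have h3 := h1 (Function.update f k g) (fun i => by
        by_cases hi : i = k
        · subst hi
          rw [Function.update_self]
          exact hg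
        · rw [Function.update_of_ne hi]
          exact hf i) hz
      omega

/-- the decomposition of the coordinate rows -/
theorem LC_decomp (v : DivVal (Kn n)) (G : Matrix (Fin n) (Fin n) (Kn n))
    (hG : ∀ g : Kn n, 0 ≤ v.ord g → ∀ k, (∑ l, theta l g * G l k) ∈ LC_O v)
    (t : Kn n) (ht0 : t ≠ 0) (ht : v.ord t = 1) :
    ∃ (τ : Fin n → Kn n) (ω : Fin n → Fin n → Kn n), (∀ k, t * τ k = ∑ l, theta l t * G l k) ∧
      (∀ i k, ω i k ∈ LC_O v) ∧
      ∀ i k, G i k = ((v.ord (x i) : ℤ) : Kn n) * τ k + ω i k := by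
  classical
  set u : Fin n → Kn n := fun i => x i * t ^ (- v.ord (x i)) with hu
  have hx : ∀ i : Fin n, (x i : Kn n) ≠ 0 := fun i => MonL_x_ne i
  have htz : ∀ k : ℤ, t ^ k ≠ 0 := fun k => zpow_ne_zero k ht0
  have hu0 : ∀ i, u i ≠ 0 := fun i => mul_ne_zero (hx i) (htz _)
  have huv : ∀ i, v.ord (u i) = 0 := by
    intro i
    rw [hu]
    simp only
    rw [v.ord_mul _ _ (hx i) (htz _), MonL_zpow v.ord v.ord_mul ht0, ht]
    ring
  refine ⟨fun k => ∑ l, LC_ld l t * G l k, fun i k => ∑ l, LC_ld l (u i) * G l k, ?_, ?_, ?_⟩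
  · intro k
    rw [Finset.mul_sum]
    refine Finset.sum_congr rfl fun l _ => ?_
    unfold LC_ld
    field_simp
  · intro i k
    have h1 : ∑ l, LC_ld l (u i) * G l k = (u i)⁻¹ * ∑ l, theta l (u i) * G l k := by
      rw [Finset.mul_sum]
      refine Finset.sum_congr rfl fun l _ => ?_
      unfold LC_ld
      rw [div_eq_inv_mul]
      ring
    show ∑ l, LC_ld l (u i) * G l k ∈ LC_O v
    rw [h1]
    refine (LC_O v).mul_mem ?_ (hG _ (huv i).ge k)
    rw [LC_mem, LC_inv v (hu0 i), huv i]
    norm_num
  · intro i k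
    have h1 : ∀ l, LC_ld l (x i : Kn n) = ((v.ord (x i) : ℤ) : Kn n) * LC_ld l t +
        LC_ld l (u i) := by
      intro l
      have h2 : (x i : Kn n) = t ^ (v.ord (x i)) * u i := by
        rw [hu]
        simp only
        rw [mul_comm (x i), ← mul_assoc, ← zpow_add₀ ht0, add_neg_cancel, zpow_zero, one_mul]
      conv_lhs => rw [h2]
      rw [LC_ld_mul l (htz _) (hu0 i), LC_ld_zpow l ht0]
    have h3 : ∀ l, LC_ld l (x i : Kn n) = if i = l then 1 else 0 := by
      intro l
      unfold LC_ld
      rw [theta_x]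
      split_ifs
      · exact div_self (hx i)
      · exact zero_div _
    simp only
    rw [Finset.mul_sum, ← Finset.sum_add_distrib]
    have h4 : ∀ l, ((v.ord (x i) : ℤ) : Kn n) * (LC_ld l t * G l k) + LC_ld l (u i) * G l k =
        (if i = l then 1 else 0) * G l k := by
      intro l
      rw [← h3 l, h1 l]
      ring
    simp only [h4, ite_mul, one_mul, zero_mul, Finset.sum_ite_eq, Finset.mem_univ, if_true]

theorem LC_quot (v : DivVal (Kn n)) (a b : ℤ) : (a : Kn n) / (b : Kn n) ∈ LC_O v := by
  have h : (a : Kn n) / (b : Kn n) = algebraMap ℂ (Kn n) ((a : ℂ) / (b : ℂ)) := by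
    rw [map_div₀, map_intCast, map_intCast]
  rw [h]
  exact LC_const v _

theorem LC_int_ne (b : ℤ) (hb : b ≠ 0) : (b : Kn n) ≠ 0 := by
  have h : (b : Kn n) = algebraMap ℂ (Kn n) (b : ℂ) := by rw [map_intCast]
  rw [h, Ne, map_eq_zero]
  exact_mod_cast hb

theorem LC_int (v : DivVal (Kn n)) (a : ℤ) : (a : Kn n) ∈ LC_O v := intCast_mem _ _

/-- first part: the pair is log canonical -/
theorem LC_first (v : DivVal (Kn n)) (e : ℤ) (he : IsJacMin v e) : e ≤ 1 := by
  classical
  obtain ⟨G, hG0, hGe, hG⟩ := LC_setup v e he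
  obtain ⟨t, ht0, ht⟩ := v.exists_one
  obtain ⟨τ, ω, h1, h2, h3⟩ := LC_decomp v G hG t ht0 ht
  have htO : t ∈ LC_O v := by
    rw [LC_mem, ht]
    norm_num
  have htτ : ∀ k, t * τ k ∈ LC_O v := fun k => by
    rw [h1]
    exact hG t (by rw [ht]; norm_num) k
  have key : t * G.det ∈ LC_O v := by
    by_cases ha : ∀ i : Fin n, v.ord (x i) = 0
    · refine (LC_O v).mul_mem htO (PadV_det_mem _ _ fun i k => ?_)
      rw [h3, ha i]
      simpa using h2 i k
    · push Not at ha
      obtain ⟨i0, hi0⟩ := ha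
      have hne := LC_int_ne (n := n) _ hi0
      have h4 := LC_det (LC_O v) G i0 (fun i => ((v.ord (x i) : ℤ) : Kn n) /
        ((v.ord (x i0) : ℤ) : Kn n)) (fun i => if i = i0 then t else 1) (by
          intro k
          simp only [if_true]
          have e1 : t * G i0 k = ((v.ord (x i0) : ℤ) : Kn n) * (t * τ k) + t * ω i0 k := by
            rw [h3]
            ring
          rw [e1]
          exact (LC_O v).add_mem ((LC_O v).mul_mem (LC_int v _) (htτ k))
            ((LC_O v).mul_mem htO (h2 _ _))) (by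
          intro i hi k
          simp only [if_neg hi, one_mul]
          have e1 : G i k - ((v.ord (x i) : ℤ) : Kn n) / ((v.ord (x i0) : ℤ) : Kn n) * G i0 k =
              ω i k - ((v.ord (x i) : ℤ) : Kn n) / ((v.ord (x i0) : ℤ) : Kn n) * ω i0 k := by
            rw [h3 i, h3 i0]
            field_simp
            ring
          rw [e1]
          exact (LC_O v).sub_mem (h2 _ _) ((LC_O v).mul_mem (LC_quot v _ _) (h2 _ _)))
      have e2 : (∏ i, if i = i0 then t else (1 : Kn n)) = t := by
        rw [Finset.prod_ite_eq' Finset.univ i0 (fun _ => t), if_pos (Finset.mem_univ _)]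
      rwa [e2] at h4
  rw [LC_mem, v.ord_mul _ _ ht0 hG0, ht, hGe] at key
  omega

/-- second part: derivations preserve the maximal ideal of a log canonical place -/
theorem LC_second (v : DivVal (Kn n)) (he : IsJacMin v 1) (q : Kn n) (hq0 : q ≠ 0)
    (hq : 1 ≤ v.ord q) (j : Fin n) (hj : theta j q ≠ 0) : 1 ≤ v.ord (theta j q) := by
  classical
  obtain ⟨G, hG0, hGe, hG⟩ := LC_setup v 1 he
  obtain ⟨t, ht0, ht⟩ := v.exists_one
  obtain ⟨τ, ω, h1, h2, h3⟩ := LC_decomp v G hG t ht0 ht
  have htO : t ∈ LC_O v := by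
    rw [LC_mem, ht]
    norm_num
  have htτ : ∀ k, t * τ k ∈ LC_O v := fun k => by
    rw [h1]
    exact hG t (by rw [ht]; norm_num) k
  -- q = t r
  set r : Kn n := q / t with hr
  have hqr : q = t * r := by
    rw [hr]
    field_simp
  have hrO : 0 ≤ v.ord r := by
    rw [hr, div_eq_mul_inv, v.ord_mul _ _ hq0 (inv_ne_zero ht0), LC_inv v ht0, ht]
    omega
  set ω' : Fin n → Kn n := fun k => ∑ l, theta l r * G l k with hω'
  have hω'O : ∀ k, ω' k ∈ LC_O v := fun k => hG r hrO k
  set B : Matrix (Fin n) (Fin n) (Kn n) := G.updateRow j (∑ l, theta l q • G l) with hB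
  have hBd : B.det = theta j q * G.det := by
    rw [hB, Matrix.det_updateRow_sum, smul_eq_mul]
  have hBj : ∀ k, B j k = r * (t * τ k) + t * ω' k := by
    intro k
    rw [hB, Matrix.updateRow_self, Finset.sum_apply, h1, hω']
    simp only [Pi.smul_apply, smul_eq_mul]
    rw [Finset.mul_sum, Finset.mul_sum, ← Finset.sum_add_distrib]
    refine Finset.sum_congr rfl fun l _ => ?_
    rw [hqr, theta_mul]
    ring
  have hBi : ∀ i, i ≠ j → ∀ k, B i k = ((v.ord (x i) : ℤ) : Kn n) * τ k + ω i k := by
    intro i hi k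
    rw [hB, Matrix.updateRow_ne hi, h3]
  have key : B.det ∈ LC_O v := by
    by_cases ha : ∀ i : Fin n, i ≠ j → v.ord (x i) = 0
    · refine PadV_det_mem _ _ fun i k => ?_
      by_cases hi : i = j
      · rw [hi, hBj]
        exact (LC_O v).add_mem ((LC_O v).mul_mem hrO (htτ k)) ((LC_O v).mul_mem htO (hω'O k))
      · rw [hBi i hi, ha i hi]
        simpa using h2 i k
    · push Not at ha
      obtain ⟨i0, hi0j, hi0⟩ := ha
      have hne := LC_int_ne (n := n) _ hi0
      have hj0 : j ≠ i0 := fun h => hi0j h.symm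
      have h4 := LC_det (LC_O v) B i0 (fun i => if i = j then r * t /
        ((v.ord (x i0) : ℤ) : Kn n) else ((v.ord (x i) : ℤ) : Kn n) /
        ((v.ord (x i0) : ℤ) : Kn n))
        (fun i => (if i = i0 then t else 1) * (if i = j then t⁻¹ else 1)) (by
          intro k
          simp only [if_true, if_neg hi0j, mul_one]
          have e1 : t * B i0 k = ((v.ord (x i0) : ℤ) : Kn n) * (t * τ k) + t * ω i0 k := by
            rw [hBi i0 hi0j]
            ring
          rw [e1]
          exact (LC_O v).add_mem ((LC_O v).mul_mem (LC_int v _) (htτ k))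
            ((LC_O v).mul_mem htO (h2 _ _))) (by
          intro i hi k
          by_cases hij : i = j
          · subst hij
            simp only [if_neg hi, if_true, one_mul]
            have e1 : t⁻¹ * (B i k - r * t / ((v.ord (x i0) : ℤ) : Kn n) * B i0 k) =
                ω' k - r * ((1 : ℤ) : Kn n) / ((v.ord (x i0) : ℤ) : Kn n) * ω i0 k := by
              rw [hBj, hBi i0 hi0j]
              push_cast
              field_simp
              ring
            rw [e1, mul_div_assoc]
            exact (LC_O v).sub_mem (hω'O k) ((LC_O v).mul_mem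
              ((LC_O v).mul_mem hrO (LC_quot v _ _)) (h2 _ _))
          · simp only [if_neg hi, if_neg hij, one_mul]
            have e1 : B i k - ((v.ord (x i) : ℤ) : Kn n) / ((v.ord (x i0) : ℤ) : Kn n) * B i0 k =
                ω i k - ((v.ord (x i) : ℤ) : Kn n) / ((v.ord (x i0) : ℤ) : Kn n) * ω i0 k := by
              rw [hBi i hij, hBi i0 hi0j]
              field_simp
              ring
            rw [e1]
            exact (LC_O v).sub_mem (h2 _ _) ((LC_O v).mul_mem (LC_quot v _ _) (h2 _ _)))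
      have e2 : (∏ i, (if i = i0 then t else (1 : Kn n)) * (if i = j then t⁻¹ else 1)) = 1 := by
        rw [Finset.prod_mul_distrib, Finset.prod_ite_eq' Finset.univ i0 (fun _ => t),
          Finset.prod_ite_eq' Finset.univ j (fun _ => t⁻¹), if_pos (Finset.mem_univ _),
          if_pos (Finset.mem_univ _), mul_inv_cancel₀ ht0]
      rwa [e2, one_mul] at h4
  rw [LC_mem, hBd, v.ord_mul _ _ hj hG0, hGe] at key
  omega

/-! ### polynomials -/

theorem LC_mono (v : DivVal (Kn n)) (m : Fin n →₀ ℕ) (c : ℂ) (hc : c ≠ 0) :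
    v.ord (algebraMap (Pn n) (Kn n) (monomial m c)) = wt (fun j => v.ord (x j)) m := by
  rw [MonL_monomial, v.ord_mul _ _ (by rw [Ne, map_eq_zero]; exact hc)
    (Finset.prod_ne_zero_iff.mpr fun j _ => pow_ne_zero _ (MonL_x_ne j)), MonL_const v _ hc,
    MonL_prod v.ord v.ord_mul _ _ (fun j _ => pow_ne_zero _ (MonL_x_ne j)), zero_add]
  unfold wt
  refine Finset.sum_congr rfl fun j _ => ?_
  rw [MonL_pow v.ord v.ord_mul (MonL_x_ne j)]
  ring

theorem LC_alg_ne {p : Pn n} (hp : p ≠ 0) : algebraMap (Pn n) (Kn n) p ≠ 0 := by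
  rw [Ne, IsFractionRing.to_map_eq_zero_iff]
  exact hp

theorem LC_ge (v : DivVal (Kn n)) (p : Pn n) (hp : p ≠ 0) (B : ℤ)
    (h : ∀ m ∈ p.support, B ≤ wt (fun j => v.ord (x j)) m) :
    B ≤ v.ord (algebraMap (Pn n) (Kn n) p) := by
  have hne := LC_alg_ne hp
  have hs : algebraMap (Pn n) (Kn n) p =
      ∑ m ∈ p.support, algebraMap (Pn n) (Kn n) (monomial m (coeff m p)) := by
    conv_lhs => rw [p.as_sum]
    rw [map_sum]
  rw [hs] at hne ⊢
  refine MonL_sum v _ _ _ ?_ hne
  intro m hm _
  rw [LC_mono v m _ (mem_support_iff.mp hm)]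
  exact h m hm

theorem LC_theta_mono (j : Fin n) (m : Fin n →₀ ℕ) (c : ℂ) :
    theta j (algebraMap (Pn n) (Kn n) (monomial m c)) =
      algebraMap (Pn n) (Kn n) (monomial m ((m j : ℂ) * c)) := by
  classical
  have hprod : ∀ s : Finset (Fin n), LC_ld j (∏ i ∈ s, (x i : Kn n) ^ (m i)) =
      ∑ i ∈ s, (m i : Kn n) * LC_ld j (x i) := by
    intro s
    induction s using Finset.induction_on with
    | empty => simp [LC_ld_one]
    | insert i s hi ih =>
      rw [Finset.prod_insert hi, Finset.sum_insert hi, LC_ld_mul j (pow_ne_zero _ (MonL_x_ne i))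
        (Finset.prod_ne_zero_iff.mpr fun i _ => pow_ne_zero _ (MonL_x_ne i)), ih,
        LC_ld_pow j (MonL_x_ne i)]
  have h3 : ∀ i, LC_ld j (x i : Kn n) = if i = j then 1 else 0 := by
    intro i
    unfold LC_ld
    rw [theta_x]
    split_ifs
    · exact div_self (MonL_x_ne i)
    · exact zero_div _
  have h4 := hprod Finset.univ
  simp only [h3, mul_ite, mul_one, mul_zero, Finset.sum_ite_eq', Finset.mem_univ, if_true] at h4
  have hne : (∏ i, (x i : Kn n) ^ (m i)) ≠ 0 :=
    Finset.prod_ne_zero_iff.mpr fun i _ => pow_ne_zero _ (MonL_x_ne i)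
  have h5 : theta j (∏ i, (x i : Kn n) ^ (m i)) = (m j : Kn n) * ∏ i, (x i : Kn n) ^ (m i) := by
    unfold LC_ld at h4
    rwa [div_eq_iff hne] at h4
  rw [MonL_monomial, MonL_monomial, theta_mul, theta_algebraMap, h5, map_mul, map_natCast]
  ring

theorem LC_theta_sum (j : Fin n) {ι : Type} (s : Finset ι) (f : ι → Kn n) :
    theta j (∑ i ∈ s, f i) = ∑ i ∈ s, theta j (f i) := by
  let φ : Kn n →+ Kn n := AddMonoidHom.mk' (theta j) (theta_add j)
  exact map_sum φ f s

/-- homogeneous polynomials -/
theorem LC_homog (v : DivVal (Kn n)) (he : IsJacMin v 1) (μ : ℤ) : ∀ (N : ℕ) (q : Pn n),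
    q.support.card ≤ N → q ≠ 0 → (∀ m ∈ q.support, wt (fun j => v.ord (x j)) m = μ) →
      v.ord (algebraMap (Pn n) (Kn n) q) = μ := by
  classical
  intro N
  induction N with
  | zero =>
    intro q hc hq
    exfalso
    apply hq
    rw [← support_eq_empty]
    exact Finset.card_eq_zero.1 (Nat.le_zero.1 hc)
  | succ N ih =>
    intro q hc hq hw
    obtain ⟨m0, hm0⟩ : q.support.Nonempty := by
      rw [Finset.nonempty_iff_ne_empty, Ne, support_eq_empty]
      exact hq
    by_cases hone : q.support = {m0}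
    · have h1 : q = monomial m0 (coeff m0 q) := by
        conv_lhs => rw [q.as_sum, hone, Finset.sum_singleton]
      rw [h1, LC_mono v m0 _ (mem_support_iff.mp hm0)]
      exact hw m0 hm0
    · obtain ⟨m1, hm1, hne1⟩ : ∃ m1 ∈ q.support, m1 ≠ m0 := by
        by_contra hcon
        push Not at hcon
        exact hone (Finset.eq_singleton_iff_unique_mem.2 ⟨hm0, hcon⟩)
      obtain ⟨j, hj⟩ : ∃ j, m1 j ≠ m0 j := by
        by_contra hcon
        push Not at hcon
        exact hne1 (Finsupp.ext hcon)
      by_contra hcontra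
      have hge : μ ≤ v.ord (algebraMap (Pn n) (Kn n) q) :=
        LC_ge v q hq μ fun m hm => (hw m hm).ge
      have hgt : μ + 1 ≤ v.ord (algebraMap (Pn n) (Kn n) q) := by omega
      -- the polynomial with fewer terms
      set h : Pn n := ∑ m ∈ q.support, monomial m ((((m j : ℕ) : ℂ) - ((m0 j : ℕ) : ℂ)) * coeff m q)
        with hh
      have hcoef : ∀ m, coeff m h = (((m j : ℕ) : ℂ) - ((m0 j : ℕ) : ℂ)) * coeff m q := by
        intro m
        rw [hh, coeff_sum]
        simp only [coeff_monomial]
        rw [Finset.sum_ite_eq']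
        split_ifs with hm
        · rfl
        · rw [notMem_support_iff.1 hm, mul_zero]
      have hsub : h.support ⊆ q.support.erase m0 := by
        intro m hm
        rw [mem_support_iff, hcoef] at hm
        rw [Finset.mem_erase, mem_support_iff]
        refine ⟨?_, right_ne_zero_of_mul hm⟩
        rintro rfl
        exact hm (by rw [sub_self, zero_mul])
      have hh0 : h ≠ 0 := by
        intro h0
        have h1 := hcoef m1
        rw [h0, coeff_zero] at h1
        have h2 : (((m1 j : ℕ) : ℂ) - ((m0 j : ℕ) : ℂ)) ≠ 0 := by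
          rw [sub_ne_zero]
          exact_mod_cast hj
        exact (mul_ne_zero h2 (mem_support_iff.mp hm1)) h1.symm
      have hcard : h.support.card ≤ N := by
        have h1 := Finset.card_le_card hsub
        rw [Finset.card_erase_of_mem hm0] at h1
        omega
      have hvh := ih h hcard hh0 fun m hm => hw m (Finset.mem_of_mem_erase (hsub hm))
      -- the derivative
      have hθ : algebraMap (Pn n) (Kn n) h = theta j (algebraMap (Pn n) (Kn n) q) -
          ((m0 j : ℕ) : Kn n) * algebraMap (Pn n) (Kn n) q := by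
        have hs : algebraMap (Pn n) (Kn n) q =
            ∑ m ∈ q.support, algebraMap (Pn n) (Kn n) (monomial m (coeff m q)) := by
          conv_lhs => rw [q.as_sum]
          rw [map_sum]
        rw [hs, LC_theta_sum, Finset.mul_sum, ← Finset.sum_sub_distrib, hh, map_sum]
        refine Finset.sum_congr rfl fun m _ => ?_
        rw [LC_theta_mono, MonL_monomial, MonL_monomial, MonL_monomial]
        simp only [map_mul, map_sub, map_natCast]
        ring
      set M : Kn n := algebraMap (Pn n) (Kn n) (monomial m0 1) with hM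
      have hM0 : M ≠ 0 := LC_alg_ne (by rw [Ne, monomial_eq_zero]; exact one_ne_zero)
      have hvM : v.ord M = μ := by
        rw [hM, LC_mono v m0 1 one_ne_zero]
        exact hw m0 hm0
      have hθM : theta j M = ((m0 j : ℕ) : Kn n) * M := by
        rw [hM, LC_theta_mono, MonL_monomial, MonL_monomial]
        simp only [map_mul, map_natCast, map_one]
        ring
      have hQ0 := LC_alg_ne hq
      have hq' : theta j (algebraMap (Pn n) (Kn n) q * M⁻¹) =
          algebraMap (Pn n) (Kn n) h * M⁻¹ := by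
        have h1 : theta j (M⁻¹) = - ((m0 j : ℕ) : Kn n) * M⁻¹ := by
          have h2 := LC_ld_inv j hM0
          unfold LC_ld at h2
          rw [hθM, div_eq_iff (inv_ne_zero hM0)] at h2
          rw [h2]
          field_simp
        rw [theta_mul, h1, hθ]
        ring
      have hH0 := LC_alg_ne hh0
      have h6 := LC_second v he (algebraMap (Pn n) (Kn n) q * M⁻¹)
        (mul_ne_zero hQ0 (inv_ne_zero hM0)) (by
          rw [v.ord_mul _ _ hQ0 (inv_ne_zero hM0), LC_inv v hM0, hvM]
          omega) j (by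
          rw [hq']
          exact mul_ne_zero hH0 (inv_ne_zero hM0))
      rw [hq', v.ord_mul _ _ hH0 (inv_ne_zero hM0), LC_inv v hM0, hvM, hvh] at h6
      omega

theorem hLC (hJacEx : StJacEx) (_hExt : StExt) (_hMon : StMon) (hBri : StBri) : StLC := by
  classical
  intro n v
  have hex := hJacEx n v
  have hch := hex.choose_spec
  have hord : ordOmega v = - hex.choose := by
    unfold ordOmega
    rw [dif_pos hex]
  have hle := LC_first v _ hch
  refine ⟨by rw [hord]; omega, fun h1 => ?_⟩
  have he1 : IsJacMin v 1 := by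
    have h2 : hex.choose = 1 := by omega
    rwa [h2] at hch
  apply ((hBri n v).1 _).1
  intro p hp
  have hne : p.support.Nonempty := by
    rw [Finset.nonempty_iff_ne_empty, Ne, support_eq_empty]
    exact hp
  obtain ⟨m0, hm0, hmin⟩ := Finset.exists_min_image p.support (wt (fun j => v.ord (x j))) hne
  set μ := wt (fun j => v.ord (x j)) m0 with hμ
  -- the part of weight μ
  set q : Pn n := ∑ m ∈ p.support.filter (fun m => wt (fun j => v.ord (x j)) m = μ),
    monomial m (coeff m p) with hq
  have hcq : ∀ m, coeff m q = if wt (fun j => v.ord (x j)) m = μ then coeff m p else 0 := by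
    intro m
    rw [hq, coeff_sum]
    simp only [coeff_monomial]
    rw [Finset.sum_ite_eq']
    by_cases hm : m ∈ p.support
    · by_cases hw : wt (fun j => v.ord (x j)) m = μ
      · rw [if_pos (Finset.mem_filter.2 ⟨hm, hw⟩), if_pos hw]
      · have hnf : m ∉ p.support.filter (fun m => wt (fun j => v.ord (x j)) m = μ) :=
          fun h => hw (Finset.mem_filter.1 h).2
        rw [if_neg hw, if_neg hnf]
    · rw [if_neg (fun h => hm (Finset.mem_filter.1 h).1), notMem_support_iff.1 hm, ite_self]
  have hq0 : q ≠ 0 := by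
    intro h0
    have h2 := hcq m0
    rw [h0, coeff_zero, if_pos hμ.symm] at h2
    exact (mem_support_iff.mp hm0) h2.symm
  have hvq : v.ord (algebraMap (Pn n) (Kn n) q) = μ := by
    refine LC_homog v he1 μ _ q le_rfl hq0 fun m hm => ?_
    rw [mem_support_iff, hcq] at hm
    by_contra hw
    rw [if_neg hw] at hm
    exact hm rfl
  have hvp : v.ord (algebraMap (Pn n) (Kn n) p) = μ := by
    have hge : μ ≤ v.ord (algebraMap (Pn n) (Kn n) p) := LC_ge v p hp μ hmin
    by_cases hpq : p = q
    · rw [hpq]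
      exact hvq
    · have hd : q - p ≠ 0 := by
        rw [Ne, sub_eq_zero]
        exact fun h => hpq h.symm
      have hgd : μ + 1 ≤ v.ord (algebraMap (Pn n) (Kn n) (q - p)) := by
        refine LC_ge v _ hd _ fun m hm => ?_
        rw [mem_support_iff, coeff_sub, hcq] at hm
        by_cases hw : wt (fun j => v.ord (x j)) m = μ
        · rw [if_pos hw, sub_self] at hm
          exact absurd rfl hm
        · rw [if_neg hw, zero_sub, neg_ne_zero] at hm
          have h3 := hmin m (mem_support_iff.2 hm)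
          have h4 : μ ≤ wt (fun j => v.ord (x j)) m := h3
          omega
      by_contra hcon
      have hgp : μ + 1 ≤ v.ord (algebraMap (Pn n) (Kn n) p) := by omega
      have hsum : algebraMap (Pn n) (Kn n) (q - p) + algebraMap (Pn n) (Kn n) p =
          algebraMap (Pn n) (Kn n) q := by
        rw [map_sub, sub_add_cancel]
      have h5 := v.ord_add _ _ (LC_alg_ne hd) (LC_alg_ne hp) (by
        rw [hsum]
        exact LC_alg_ne hq0)
      rw [hsum, hvq] at h5
      have h6 := le_min hgd hgp
      omega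
  refine ⟨fun m hm => ?_, m0, hm0, hvp⟩
  rw [hvp]
  exact hmin m hm

end Pool.Agent.Helper53.CX
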