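import Pool.Agent.Helper53.CX.St
import Pool.Agent.Helper53.CX.St2
import Pool.Agent.Helper53.CX.M_Fin2

/-!
# Project CX part 2 (MP_140278_ag): module Prj, linear projections
-/

set_option autoImplicit false

open scoped BigOperators
open MvPolynomial

namespace Pool.Agent.Helper53.CX

theorem Prj_ext {K : Type} [Field K] [Algebra ℂ K] {v w : DivVal K}
    (h : v.ord = w.ord) : v = w := by
  cases v
  cases w
  simp only at h
  subst h
  rfl

theorem Prj_pull {n : ℕ} (τ : Kn n ≃ₐ[ℂ] Kn n) (v : DivVal (Kn n)) :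
    pull τ.symm (pull τ v) = v := by
  apply Prj_ext
  funext f
  show v.ord (τ (τ.symm f)) = v.ord f
  rw [AlgEquiv.apply_symm_apply]

theorem Prj_trans {n : ℕ} (T : Matrix (Fin (n + 1)) (Fin (n + 1)) ℂ) (τ : Kn n ≃ₐ[ℂ] Kn n)
    (M : DivVal (Kn n) → ℤ) (v : DivVal (Kn n)) :
    transM T τ M (pull τ v) = M v + v.ord (lf T 0) := by
  unfold transM
  rw [Prj_pull]

theorem hPrj (hGen : StGen) (hCI : StCI) (hCII : StCII) (hBasI : StBasI) (hBasII : StBasII)
    (hUniq : StUniq) (_hVmin : StVmin) : StPrj := by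
  intro n M hn hM
  obtain ⟨W, hW, hup, hidx⟩ := hUniq n M hn hM
  refine ⟨W, hW, fun v => le_antisymm (hup v) ?_⟩
  by_cases h : ∃ c ∈ W, c ≠ 0 ∧ ∀ c' : Fin (n + 1) → ℂ, c' ≠ 0 →
      v.ord (lfv c) ≤ v.ord (lfv c')
  · obtain ⟨T, J, hT, h0, hWJ, hv0, hp⟩ := hBasI n v W h
    obtain ⟨τ, φ, hJ, hτ, hphi, hmin⟩ := hidx T J hT hWJ
    have h1 := hCI n (transM T τ M) φ J hJ hphi hmin h0 (pull τ v) (fun p hp0 => by
      show v.ord (τ (algebraMap (Pn n) (Kn n) p)) = 0
      rw [Fin2_tau τ (yT T) hτ p]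
      exact (hp p hp0).2)
    rw [Prj_trans, hv0] at h1
    linarith
  · have h' : ∀ c ∈ W, c ≠ 0 → ∃ c' : Fin (n + 1) → ℂ, c' ≠ 0 ∧
        v.ord (lfv c') < v.ord (lfv c) := by
      intro c hc hc0
      by_contra hcon
      push_neg at hcon
      exact h ⟨c, hc, hc0, hcon⟩
    obtain ⟨T, J, s, hT, h0, hs, hWJ, hvs, hp⟩ := hBasII n v W hW h'
    obtain ⟨τ, φ, hJ, hτ, hphi, hmin⟩ := hidx T J hT hWJ
    have hch : ∀ j, τ (chart x s J j) = chart (yT T) s J j := by
      intro j
      unfold chart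
      split_ifs
      · rw [map_div₀, hτ, hτ]
      · rw [hτ]
    have hae : ∀ p : Pn n, τ (aeval (chart x s J) p) = aeval (chart (yT T) s J) p := by
      intro p
      have h1 : ((τ : Kn n →ₐ[ℂ] Kn n).comp (aeval (chart x s J)))
          = aeval (chart (yT T) s J) := by
        apply MvPolynomial.algHom_ext
        intro j
        rw [aeval_X, ← hch j, AlgHom.comp_apply, aeval_X]
        rfl
      exact congrArg (fun φ => φ p) h1
    have h1 := hCII n (transM T τ M) φ J hJ hphi hmin h0 s hs (pull τ v) (fun p hp0 => by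
      obtain ⟨h2, h3⟩ := hp p hp0
      constructor
      · intro h4
        apply h2
        rw [← hae, h4, map_zero]
      · show v.ord (τ (aeval (chart x s J) p)) = 0
        rw [hae]
        exact h3)
    rw [Prj_trans] at h1
    have h2 : (pull τ v).ord (x s) = v.ord (lf T s.succ) - v.ord (lf T 0) := by
      show v.ord (τ (x s)) = _
      rw [hτ s]
      have hT0 := ((hGen n).2.1 T hT).1
      have h3 : v.ord (lf T s.succ) = v.ord (yT T s) + v.ord (lf T 0) := by
        have h5 : (yT T s : Kn n) ≠ 0 := div_ne_zero (hT0 _) (hT0 _)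
        have h6 := v.ord_mul (yT T s) (lf T 0) h5 (hT0 0)
        rw [← h6]
        congr 1
        unfold yT
        rw [div_mul_cancel₀ _ (hT0 0)]
      linarith
    rw [h2, hvs] at h1
    linarith

end Pool.Agent.Helper53.CX
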