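import Pool.Agent.Helper53.CX.St
import Pool.Agent.Helper53.CX.St2
import Pool.Agent.Helper53.CX.M_Prj

/-!
# Project CX part 2 (MP_140278_ag): module Uniq, the linear space of a nef b-divisor
-/

set_option autoImplicit false

open scoped BigOperators
open MvPolynomial

namespace Pool.Agent.Helper53.CX

theorem Uniq_cons {n : ℕ} (hGen : StGen) (T : Matrix (Fin (n + 1)) (Fin (n + 1)) ℂ)
    (hT : IsUnit T.det) (τ : Kn n ≃ₐ[ℂ] Kn n) (hτ : ∀ j, τ (x j) = yT T j) (v : DivVal (Kn n))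
    (i : Fin (n + 1)) :
    (Fin.cons 0 (fun j => (pull τ v).ord (x j)) : Fin (n + 1) → ℤ) i
      = v.ord (lf T i) - v.ord (lf T 0) := by
  have hT0 := ((hGen n).2.1 T hT).1
  refine Fin.cases ?_ (fun j => ?_) i
  · simp
  · rw [Fin.cons_succ]
    have h2 : (pull τ v).ord (x j) = v.ord (yT T j) := by
      show v.ord (τ (x j)) = _
      rw [hτ j]
    have h5 : (yT T j : Kn n) ≠ 0 := div_ne_zero (hT0 _) (hT0 _)
    have h6 := v.ord_mul (yT T j) (lf T 0) h5 (hT0 0)
    have h7 : (yT T j : Kn n) * lf T 0 = lf T j.succ := by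
      unfold yT
      rw [div_mul_cancel₀ _ (hT0 0)]
    rw [h7] at h6
    rw [h2]
    linarith

theorem hUniq (hTau : StTau) (hGen : StGen) (hGL : StGL) (hPhi : StPhi) (hFil : StFil)
    (hTorT : StTorT) (hVmin : StVmin) : StUniq := by
  intro n M hn hM
  classical
  have hex : ∀ T : Matrix (Fin (n + 1)) (Fin (n + 1)) ℂ, IsUnit T.det →
      ∃ J, HasIdx M T J := by
    intro T hT
    obtain ⟨τ, hτ⟩ := hTau n (yT T) ((hGen n).2.1 T hT).2.2
    obtain ⟨φ, hφ⟩ := hPhi n _ (hGL n M T τ hT hτ hM)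
    obtain ⟨⟨J, hJ, hmin⟩, -, -⟩ := hFil n _ φ hφ
    exact ⟨J, τ, φ, hJ, hτ, hφ, hmin⟩
  have hup : ∀ (T : Matrix (Fin (n + 1)) (Fin (n + 1)) ℂ) (J : Finset (Fin (n + 1))),
      IsUnit T.det → HasIdx M T J → ∀ v, M v ≤ - vmin v (rowSpan T J) := by
    rintro T J hT ⟨τ, φ, hJ, hτ, hφ, hmin⟩ v
    have h1 := (hFil n _ φ hφ).2.1 (pull τ v)
    rw [Prj_trans, hmin] at h1
    rw [((hVmin n v).2.2 T J hJ hT).2.1]
    obtain ⟨j, hj, hjeq⟩ := Finset.exists_mem_eq_inf' hJ
      (Fin.cons 0 (fun j => (pull τ v).ord (x j)) : Fin (n + 1) → ℤ)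
    have h2 : J.inf' hJ (fun j => v.ord (lf T j)) ≤ v.ord (lf T j) := Finset.inf'_le _ hj
    rw [hjeq, Uniq_cons hGen T hT τ hτ v j] at h1
    linarith
  have hP : ∃ k : ℕ, ∃ (T : Matrix (Fin (n + 1)) (Fin (n + 1)) ℂ) (J : Finset (Fin (n + 1))),
      IsUnit T.det ∧ HasIdx M T J ∧ J.card = k := by
    obtain ⟨J, hJ⟩ := hex 1 (by simp)
    exact ⟨J.card, 1, J, by simp, hJ, rfl⟩
  obtain ⟨T0, J0, hT0, hidx0, hcard0⟩ := Nat.find_spec hP
  have hmincard : ∀ (T : Matrix (Fin (n + 1)) (Fin (n + 1)) ℂ) (J : Finset (Fin (n + 1))),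
      IsUnit T.det → HasIdx M T J → J0.card ≤ J.card := by
    intro T J hT hJ
    rw [hcard0]
    exact Nat.find_min' hP ⟨T, J, hT, hJ, rfl⟩
  have hJ0ne : J0.Nonempty := by
    obtain ⟨τ, φ, hJ, -⟩ := hidx0
    exact hJ
  have hex1 : Nonempty (DivVal (Kn n)) := by
    obtain ⟨τ, hτ⟩ := hTau n (yT T0) ((hGen n).2.1 T0 hT0).2.2
    obtain ⟨v, -⟩ := hTorT n T0 τ hT0 hτ (fun i => if i = 0 then 0 else 1)
      (Pi.single ⟨0, hn⟩ 1) (by
        rw [Finset.sum_eq_single (⟨0, hn⟩ : Fin n)]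
        · simp
        · intro b _ hb
          rw [Pi.single_eq_of_ne hb]
          simp
        · intro h
          exact absurd (Finset.mem_univ _) h)
    exact ⟨v⟩
  obtain ⟨v0⟩ := hex1
  refine ⟨rowSpan T0 J0, ((hVmin n v0).2.2 T0 J0 hJ0ne hT0).1, hup T0 J0 hT0 hidx0, ?_⟩
  intro T J' hT hW
  obtain ⟨J, hJidx⟩ := hex T hT
  have hJ'ne : J'.Nonempty := by
    rw [Finset.nonempty_iff_ne_empty]
    rintro rfl
    apply ((hVmin n v0).2.2 T0 J0 hJ0ne hT0).1
    rw [← hW]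
    simp [rowSpan]
  have hcard : J'.card = J0.card := by
    rw [← ((hVmin n v0).2.2 T0 J0 hJ0ne hT0).2.2, ← ((hVmin n v0).2.2 T J' hJ'ne hT).2.2, hW]
  have hsub : J ⊆ J' := by
    by_cases hJ' : J' = Finset.univ
    · rw [hJ']
      exact Finset.subset_univ _
    · obtain ⟨τ, φ, hJ, hτ, hφ, hmin⟩ := hJidx
      set w : Fin (n + 1) → ℤ := fun i => if i ∈ J' then 1 else 0 with hw
      have hd : ∃ j : Fin n, (w j.succ - w 0) * (w j.succ - w 0) = 1 := by
        by_cases h0 : (0 : Fin (n + 1)) ∈ J'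
        · obtain ⟨i, hi⟩ : ∃ i, i ∉ J' := by
            by_contra hcon
            apply hJ'
            ext i
            simp only [Finset.mem_univ, iff_true]
            by_contra hi
            exact hcon ⟨i, hi⟩
          have hi0 : i ≠ 0 := fun h => hi (h ▸ h0)
          obtain ⟨j, rfl⟩ := Fin.exists_succ_eq.2 hi0
          refine ⟨j, ?_⟩
          simp [hw, h0, hi]
        · obtain ⟨i, hi⟩ := hJ'ne
          have hi0 : i ≠ 0 := fun h => h0 (h ▸ hi)
          obtain ⟨j, rfl⟩ := Fin.exists_succ_eq.2 hi0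
          refine ⟨j, ?_⟩
          simp [hw, h0, hi]
      obtain ⟨j0, hj0⟩ := hd
      obtain ⟨v, κ, hv1, hv2, hv3, hv4⟩ := hTorT n T τ hT hτ w
        (Pi.single j0 (w j0.succ - w 0)) (by
          rw [Finset.sum_eq_single j0]
          · rw [Pi.single_eq_same]
            exact hj0
          · intro b _ hb
            rw [Pi.single_eq_of_ne hb, mul_zero]
          · intro h
            exact absurd (Finset.mem_univ _) h)
      have hvm : vmin v (rowSpan T J') = 1 + κ := by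
        rw [((hVmin n v).2.2 T J' hJ'ne hT).2.1]
        apply le_antisymm
        · obtain ⟨i, hi⟩ := hJ'ne
          refine (Finset.inf'_le _ hi).trans ?_
          rw [hv3 i]
          simp [hw, hi]
        · apply Finset.le_inf'
          intro i hi
          rw [hv3 i]
          simp [hw, hi]
      have hM1 := hup T0 J0 hT0 hidx0 v
      rw [← hW, hvm] at hM1
      have h3 := (hFil n _ φ hφ).2.2 (fun j => w j.succ - w 0) (pull τ v) hv1
      rw [Prj_trans, hv3 0, hmin] at h3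
      intro j hj
      have h4 : J.inf' hJ (Fin.cons 0 (fun j => w j.succ - w 0) : Fin (n + 1) → ℤ)
          ≤ (Fin.cons 0 (fun j => w j.succ - w 0) : Fin (n + 1) → ℤ) j := Finset.inf'_le _ hj
      have h5 : (Fin.cons 0 (fun j => w j.succ - w 0) : Fin (n + 1) → ℤ) j = w j - w 0 := by
        refine Fin.cases ?_ (fun k => ?_) j
        · simp
        · rw [Fin.cons_succ]
      rw [h3, h5] at h4
      have h6 : 1 ≤ w j := by linarith
      by_contra hcon
      simp [hw, hcon] at h6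
  have hJJ : J = J' := Finset.eq_of_subset_of_card_le hsub (by
    rw [hcard]
    exact hmincard T J hT hJidx)
  rw [← hJJ]
  exact hJidx

end Pool.Agent.Helper53.CX
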