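import Pool.Agent.Helper53.CX.St
import Pool.Agent.Helper53.CX.St2
import Pool.Agent.Helper53.CX.M_Uniq

/-!
# Project CX part 2 (MP_140278_ag): module OmT, log discrepancy in linear coordinates
-/

set_option autoImplicit false

open scoped BigOperators
open MvPolynomial

namespace Pool.Agent.Helper53.CX

theorem hOmT (hPull : StPull) (hJacT : StJacT) (hGen : StGen) : StOmT := by
  intro n v T τ hT hτ
  obtain ⟨-, h1⟩ := hPull n v τ
  have hfun : (fun j => τ (x j)) = (yT T : Fin n → Kn n) := funext hτ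
  rw [hfun, hJacT n v T hT] at h1
  have hT0 := ((hGen n).2.1 T hT).1
  have h2 : ∀ j : Fin n, v.ord (τ (x j)) = v.ord (lf T j.succ) - v.ord (lf T 0) := by
    intro j
    rw [hτ j]
    have h5 : (yT T j : Kn n) ≠ 0 := div_ne_zero (hT0 _) (hT0 _)
    have h6 := v.ord_mul (yT T j) (lf T 0) h5 (hT0 0)
    have h7 : (yT T j : Kn n) * lf T 0 = lf T j.succ := by
      unfold yT
      rw [div_mul_cancel₀ _ (hT0 0)]
    rw [h7] at h6
    linarith
  rw [h1, Finset.sum_congr rfl (fun j _ => h2 j), Finset.sum_sub_distrib, Finset.sum_const,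
    Finset.card_univ, Fintype.card_fin, Fin.sum_univ_succ]
  unfold Adisc
  simp only [nsmul_eq_mul]
  ring

end Pool.Agent.Helper53.CX
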