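import Pool.Agent.Helper53.CX.St
import Pool.Agent.Helper53.CX.St2
import Pool.Agent.Helper53.CX.M_MonL

/-!
# Project CX, part 2: module PT (the torus with linear coordinates in projective space)
-/

set_option autoImplicit false

open scoped BigOperators
open MvPolynomial

namespace Pool.Agent.Helper53.CX

theorem PT_one {n : ℕ} (v : DivVal (Kn n)) : v.ord 1 = 0 := MonL_one v.ord v.ord_mul

theorem PT_inv {n : ℕ} (v : DivVal (Kn n)) {f : Kn n} (hf : f ≠ 0) : v.ord f⁻¹ = - v.ord f :=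
  MonL_inv v.ord v.ord_mul hf

theorem PT_div {n : ℕ} (v : DivVal (Kn n)) {f g : Kn n} (hf : f ≠ 0) (hg : g ≠ 0) :
    v.ord (f / g) = v.ord f - v.ord g := by
  rw [div_eq_mul_inv, v.ord_mul _ _ hf (inv_ne_zero hg), PT_inv v hg]
  ring

theorem PT_algebraMap {n : ℕ} (v : DivVal (Kn n)) (c : ℂ) : v.ord (algebraMap ℂ (Kn n) c) = 0 := by
  by_cases hc : c = 0
  · rw [hc, map_zero]
    exact v.ord_zero
  · exact MonL_const v c hc

/-- the valuation ring -/
def PT_O {n : ℕ} (v : DivVal (Kn n)) : Subalgebra ℂ (Kn n) where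
  carrier := {f | 0 ≤ v.ord f}
  mul_mem' := by
    intro f g hf hg
    simp only [Set.mem_setOf_eq] at hf hg ⊢
    by_cases hf0 : f = 0
    · rw [hf0, zero_mul, v.ord_zero]
    by_cases hg0 : g = 0
    · rw [hg0, mul_zero, v.ord_zero]
    rw [v.ord_mul _ _ hf0 hg0]
    omega
  add_mem' := by
    intro f g hf hg
    simp only [Set.mem_setOf_eq] at hf hg ⊢
    by_cases hf0 : f = 0
    · rw [hf0, zero_add]
      exact hg
    by_cases hg0 : g = 0
    · rw [hg0, add_zero]
      exact hf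
    by_cases hfg : f + g = 0
    · rw [hfg, v.ord_zero]
    exact (le_min hf hg).trans (v.ord_add _ _ hf0 hg0 hfg)
  algebraMap_mem' := by
    intro c
    simp only [Set.mem_setOf_eq]
    rw [PT_algebraMap]

/-- the localisation of `R` at the centre of `v` -/
def PT_loc {n : ℕ} (R : Subalgebra ℂ (Kn n)) (v : DivVal (Kn n)) : Subalgebra ℂ (Kn n) where
  carrier := {f | ∃ a ∈ R, ∃ b ∈ R, b ≠ 0 ∧ v.ord b = 0 ∧ f = a / b}
  mul_mem' := by
    rintro f g ⟨a, ha, b, hb, hb0, hvb, rfl⟩ ⟨c, hc, d, hd, hd0, hvd, rfl⟩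
    refine ⟨a * c, R.mul_mem ha hc, b * d, R.mul_mem hb hd, mul_ne_zero hb0 hd0, ?_, ?_⟩
    · rw [v.ord_mul _ _ hb0 hd0, hvb, hvd, add_zero]
    · field_simp
  add_mem' := by
    rintro f g ⟨a, ha, b, hb, hb0, hvb, rfl⟩ ⟨c, hc, d, hd, hd0, hvd, rfl⟩
    refine ⟨a * d + c * b, R.add_mem (R.mul_mem ha hd) (R.mul_mem hc hb), b * d, R.mul_mem hb hd,
      mul_ne_zero hb0 hd0, ?_, ?_⟩
    · rw [v.ord_mul _ _ hb0 hd0, hvb, hvd, add_zero]
    · field_simp
  algebraMap_mem' := by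
    intro c
    refine ⟨algebraMap ℂ (Kn n) c, R.algebraMap_mem c, 1, R.one_mem, one_ne_zero, PT_one v, ?_⟩
    rw [div_one]

theorem PT_loc_inv {n : ℕ} {R : Subalgebra ℂ (Kn n)} {v : DivVal (Kn n)} {f : Kn n}
    (hf : f ∈ PT_loc R v) (hf0 : f ≠ 0) (hv : v.ord f = 0) : f⁻¹ ∈ PT_loc R v := by
  obtain ⟨a, ha, b, hb, hb0, hvb, rfl⟩ := hf
  have ha0 : a ≠ 0 := by
    rintro rfl
    exact hf0 (zero_div b)
  refine ⟨b, hb, a, ha, ha0, ?_, by rw [inv_div]⟩
  rw [PT_div v ha0 hb0] at hv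
  omega

theorem PT_loc_div {n : ℕ} {R : Subalgebra ℂ (Kn n)} {v : DivVal (Kn n)} {f g : Kn n}
    (hf : f ∈ PT_loc R v) (hg : g ∈ PT_loc R v) (hg0 : g ≠ 0) (hv : v.ord g = 0) :
    f / g ∈ PT_loc R v := by
  rw [div_eq_mul_inv]
  exact (PT_loc R v).mul_mem hf (PT_loc_inv hg hg0 hv)

theorem PT_le_loc {n : ℕ} (R : Subalgebra ℂ (Kn n)) (v : DivVal (Kn n)) : R ≤ PT_loc R v :=
  fun f hf => ⟨f, hf, 1, R.one_mem, one_ne_zero, PT_one v, by rw [div_one]⟩

theorem PT_transfer {n : ℕ} {R R' : Subalgebra ℂ (Kn n)} {v : DivVal (Kn n)} (h : IsPrimeOf R v)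
    (h0 : R' ≤ PT_O v) (h1 : R ≤ PT_loc R' v) : IsPrimeOf R' v := by
  obtain ⟨-, f, hf, hq⟩ := h
  refine ⟨fun g hg => h0 hg, f, fun i => ?_, hq⟩
  obtain ⟨a, ha, b, hb, hb0, hvb, he⟩ := hf i
  have h2 : f i ∈ PT_loc R' v := by
    rw [he]
    exact PT_loc_div (h1 ha) (h1 hb) hb0 hvb
  exact h2

theorem PT_lf_one {n : ℕ} (i : Fin (n + 1)) :
    (lf (1 : Matrix (Fin (n + 1)) (Fin (n + 1)) ℂ) i : Kn n) = hx i := by
  unfold lf lfv
  rw [Finset.sum_eq_single i]
  · rw [Matrix.one_apply_eq, map_one, one_mul]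
  · intro j _ hj
    rw [Matrix.one_apply_ne (Ne.symm hj), map_zero, zero_mul]
  · intro h
    exact absurd (Finset.mem_univ i) h

theorem PT_vmin {n : ℕ} (hVmin : StVmin) (v : DivVal (Kn n))
    (T : Matrix (Fin (n + 1)) (Fin (n + 1)) ℂ) (hT : IsUnit T.det) :
    vmin v ⊤ = Finset.univ.inf' Finset.univ_nonempty (fun j => v.ord (lf T j)) := by
  obtain ⟨-, h2, h3⟩ := (hVmin n v).2.2 T Finset.univ Finset.univ_nonempty hT
  have h4 : rowSpan T Finset.univ = ⊤ := by
    apply Submodule.eq_top_of_finrank_eq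
    rw [h3, Finset.card_univ, Fintype.card_fin, Module.finrank_fin_fun]
  rw [← h2, h4]

theorem PT_hx {n : ℕ} (hVmin : StVmin) (v : DivVal (Kn n)) :
    (∀ j, vmin v ⊤ ≤ v.ord (hx j : Kn n)) ∧ ∃ i, v.ord (hx i : Kn n) = vmin v ⊤ := by
  have h1 := PT_vmin hVmin v 1 (by rw [Matrix.det_one]; exact isUnit_one)
  simp only [PT_lf_one] at h1
  refine ⟨fun j => ?_, ?_⟩
  · rw [h1]
    exact Finset.inf'_le _ (Finset.mem_univ j)
  · obtain ⟨i, -, hi⟩ := Finset.exists_mem_eq_inf' Finset.univ_nonempty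
      (fun j => v.ord (hx j : Kn n))
    exact ⟨i, by rw [h1, hi]⟩

theorem PT_hx_ne {n : ℕ} (i : Fin (n + 1)) : (hx i : Kn n) ≠ 0 := by
  refine Fin.cases ?_ (fun j => ?_) i
  · exact one_ne_zero
  · exact MonL_x_ne j

theorem PT_torus_O {n : ℕ} (v : DivVal (Kn n)) (y : Fin n → Kn n) (hy : ∀ j, y j ≠ 0)
    (h : ∀ j, v.ord (y j) = 0) : torusRing y ≤ PT_O v := by
  unfold torusRing
  rw [Algebra.adjoin_le_iff]
  rintro f (⟨j, rfl⟩ | ⟨j, rfl⟩)
  · change 0 ≤ v.ord (y j)
    rw [h j]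
  · change 0 ≤ v.ord (y j)⁻¹
    rw [PT_inv v (hy j), h j]
    simp

theorem PT_hx_O {n : ℕ} (v : DivVal (Kn n)) (i : Fin (n + 1))
    (h : ∀ j, v.ord (hx i : Kn n) ≤ v.ord (hx j : Kn n)) :
    Algebra.adjoin ℂ (Set.range fun j => (hx j : Kn n) / hx i) ≤ PT_O v := by
  rw [Algebra.adjoin_le_iff]
  rintro f ⟨j, rfl⟩
  change 0 ≤ v.ord (hx j / hx i)
  rw [PT_div v (PT_hx_ne j) (PT_hx_ne i)]
  have := h j
  omega

theorem hPT (hTau : StTau) (hGen : StGen) (hVmin : StVmin) (hPnI : StPnI) : StPT := by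
  intro n T v hn hT
  obtain ⟨hℓ, hhx, hgen⟩ := (hGen n).2.1 T hT
  have hy0 : ∀ j, (yT T j : Kn n) ≠ 0 := fun j => div_ne_zero (hℓ _) (hℓ 0)
  have hyv : ∀ j, v.ord (yT T j) = v.ord (lf T j.succ) - v.ord (lf T 0) :=
    fun j => PT_div v (hℓ _) (hℓ 0)
  obtain ⟨hmin, i0, hi0⟩ := PT_hx hVmin v
  constructor
  · intro hp
    have hy : ∀ j, v.ord (yT T j) = 0 := by
      intro j
      have h1 := hp.1 (yT T j) (Algebra.subset_adjoin (Or.inl ⟨j, rfl⟩))
      have h2 := hp.1 (yT T j)⁻¹ (Algebra.subset_adjoin (Or.inr ⟨j, rfl⟩))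
      rw [PT_inv v (hy0 j)] at h2
      omega
    have hℓv : ∀ i, v.ord (lf T i) = v.ord (lf T 0) := by
      intro i
      refine Fin.cases rfl (fun j => ?_) i
      have := hyv j
      rw [hy j] at this
      omega
    have hvm : vmin v ⊤ = v.ord (lf T 0) := by
      rw [PT_vmin hVmin v T hT]
      apply le_antisymm
      · exact Finset.inf'_le _ (Finset.mem_univ 0)
      · rw [Finset.le_inf'_iff]
        intro i _
        rw [hℓv i]
    refine ⟨⟨i0, ?_⟩, ?_⟩
    · refine PT_transfer hp (PT_hx_O v i0 fun j => by rw [hi0]; exact hmin j) ?_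
      have hmem : ∀ i, lf T i / hx i0 ∈ Algebra.adjoin ℂ (Set.range fun j => (hx j : Kn n) / hx i0) := by
        intro i
        have h1 : lf T i / hx i0 = ∑ j, algebraMap ℂ (Kn n) (T i j) * (hx j / hx i0) := by
          unfold lf lfv
          rw [Finset.sum_div]
          exact Finset.sum_congr rfl fun j _ => by ring
        rw [h1]
        refine Subalgebra.sum_mem _ fun j _ => ?_
        exact Subalgebra.mul_mem _ (Subalgebra.algebraMap_mem _ _)
          (Algebra.subset_adjoin ⟨j, rfl⟩)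
      have hne : ∀ i, lf T i / hx i0 ≠ 0 := fun i => div_ne_zero (hℓ i) (PT_hx_ne i0)
      have hv0 : ∀ i, v.ord (lf T i / hx i0) = 0 := by
        intro i
        rw [PT_div v (hℓ i) (PT_hx_ne i0), hℓv i, hi0, hvm]
        ring
      have hy' : ∀ j, yT T j = (lf T j.succ / hx i0) / (lf T 0 / hx i0) := by
        intro j
        unfold yT
        rw [div_div_div_cancel_right₀ (PT_hx_ne i0)]
      have hyl : ∀ j, yT T j ∈ PT_loc (Algebra.adjoin ℂ (Set.range fun j => (hx j : Kn n) / hx i0)) v :=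
        fun j => ⟨_, hmem j.succ, _, hmem 0, hne 0, hv0 0, hy' j⟩
      unfold torusRing
      rw [Algebra.adjoin_le_iff]
      rintro f (⟨j, rfl⟩ | ⟨j, rfl⟩)
      · exact hyl j
      · exact PT_loc_inv (hyl j) (hy0 j) (hy j)
    · intro a ha
      have ha0 : ∀ j, a j = 0 := by
        intro j
        obtain ⟨-, m, hm, he⟩ := ha (X j) (X_ne_zero j)
        rw [aeval_X, hy j] at he
        rw [support_X, Finset.mem_singleton] at hm
        rw [hm] at he
        unfold wt at he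
        rw [Finset.sum_eq_single j] at he
        · simp at he
          exact he.symm
        · intro i _ hi
          rw [Finsupp.single_eq_of_ne hi]
          simp
        · intro h
          exact absurd (Finset.mem_univ j) h
      have hp0 : ∀ p : Pn n, p ≠ 0 → v.ord (aeval (yT T) p) = 0 := by
        intro p hp0
        obtain ⟨-, m, -, he⟩ := ha p hp0
        rw [he]
        unfold wt
        apply Finset.sum_eq_zero
        intro j _
        rw [ha0 j, zero_mul]
      obtain ⟨t, ht0, ht1⟩ := v.exists_one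
      obtain ⟨τ, hτ⟩ := hTau n (yT T) hgen
      have hτ' : ∀ p : Pn n, τ (algebraMap (Pn n) (Kn n) p) = aeval (yT T) p := by
        intro p
        have h1 : ((τ : Kn n →ₐ[ℂ] Kn n).comp (IsScalarTower.toAlgHom ℂ (Pn n) (Kn n))) =
            aeval (yT T) := by
          apply MvPolynomial.algHom_ext
          intro j
          simp only [AlgHom.comp_apply, IsScalarTower.coe_toAlgHom', aeval_X]
          exact hτ j
        exact DFunLike.congr_fun h1 p
      obtain ⟨p, q, hq, hpq⟩ := IsFractionRing.div_surjective (A := Pn n) (τ.symm t)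
      have hq0 : q ≠ 0 := nonZeroDivisors.ne_zero hq
      have ht : t = aeval (yT T) p / aeval (yT T) q := by
        have := congrArg τ hpq
        rw [map_div₀, hτ', hτ', AlgEquiv.apply_symm_apply] at this
        exact this.symm
      have hp0' : p ≠ 0 := by
        rintro rfl
        rw [map_zero, zero_div] at ht
        exact ht0 ht
      have hne : ∀ p : Pn n, p ≠ 0 → (aeval (yT T) p : Kn n) ≠ 0 := by
        intro p hp h
        rw [← hτ', map_eq_zero_iff τ τ.injective, IsFractionRing.to_map_eq_zero_iff] at h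
        exact hp h
      rw [ht, PT_div v (hne p hp0') (hne q hq0), hp0 p hp0', hp0 q hq0] at ht1
      omega
  · intro hold hall
    obtain ⟨i, hi⟩ := hPnI n v hn hold
    have hy : ∀ j, v.ord (yT T j) = 0 := by
      intro j
      rw [hyv, hall, hall]
      ring
    have hile : ∀ j, v.ord (hx i : Kn n) ≤ v.ord (hx j : Kn n) := by
      intro j
      have := hi.1 (hx j / hx i) (Algebra.subset_adjoin ⟨j, rfl⟩)
      rw [PT_div v (PT_hx_ne j) (PT_hx_ne i)] at this
      omega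
    have hiv : v.ord (hx i : Kn n) = vmin v ⊤ := by
      apply le_antisymm
      · rw [← hi0]
        exact hile i0
      · exact hmin i
    refine PT_transfer hi (PT_torus_O v _ hy0 hy) ?_
    have hmem : ∀ j, (hx j : Kn n) / lf T 0 ∈ torusRing (yT T) := by
      intro j
      have h1 : (hx j : Kn n) / lf T 0 = ∑ k, algebraMap ℂ (Kn n) (T⁻¹ j k) * (lf T k / lf T 0) := by
        conv_lhs => rw [hhx j]
        rw [Finset.sum_div]
        exact Finset.sum_congr rfl fun k _ => by ring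
      rw [h1]
      refine Subalgebra.sum_mem _ fun k _ => ?_
      refine Subalgebra.mul_mem _ (Subalgebra.algebraMap_mem _ _) ?_
      refine Fin.cases ?_ (fun k' => ?_) k
      · rw [div_self (hℓ 0)]
        exact Subalgebra.one_mem _
      · exact Algebra.subset_adjoin (Or.inl ⟨k', rfl⟩)
    rw [Algebra.adjoin_le_iff]
    rintro f ⟨j, rfl⟩
    refine ⟨_, hmem j, _, hmem i, div_ne_zero (PT_hx_ne i) (hℓ 0), ?_, ?_⟩
    · rw [PT_div v (PT_hx_ne i) (hℓ 0), hiv, hall]
      ring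
    · dsimp only
      rw [div_div_div_cancel_right₀ (hℓ 0)]

end Pool.Agent.Helper53.CX
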