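import Pool.Agent.Helper53.CX.St
import Pool.Agent.Helper53.CX.St2
import Pool.Agent.Helper53.CX.M_Fil

/-!
# Project CX part 2, module Phi: Newton polytopes of systems of forms
-/

set_option autoImplicit false

open scoped BigOperators
open MvPolynomial

namespace Pool.Agent.Helper53.CX

theorem Phi_prim {n : ℕ} (a : Fin n → ℤ) (ha : a ≠ 0) :
    ∃ (k : ℕ) (a' u : Fin n → ℤ), a = (k : ℤ) • a' ∧ ∑ j, a' j * u j = 1 := by
  obtain ⟨g, hg⟩ := (IsPrincipalIdealRing.principal (Ideal.span (Set.range a))).principal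
  have h1 : g ∈ Ideal.span (Set.range a) := by
    rw [hg]
    exact Submodule.mem_span_singleton_self g
  obtain ⟨u, hu⟩ := (Ideal.mem_span_range_iff_exists_fun).1 h1
  have h2 : ∀ j, ∃ b, a j = g * b := by
    intro j
    have : a j ∈ Ideal.span (Set.range a) := Ideal.subset_span ⟨j, rfl⟩
    rw [hg] at this
    obtain ⟨b, hb⟩ := Ideal.mem_span_singleton.1 this
    exact ⟨b, hb⟩
  choose b hb using h2
  have hg0 : g ≠ 0 := by
    rintro rfl
    apply ha
    funext j
    rw [hb j, zero_mul]
    rfl
  have h3 : ∑ j, u j * b j = 1 := by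
    have : g * ∑ j, u j * b j = g * 1 := by
      rw [Finset.mul_sum, mul_one]
      conv_rhs => rw [← hu]
      refine Finset.sum_congr rfl fun j _ => ?_
      rw [hb j]
      ring
    exact mul_left_cancel₀ hg0 this
  rcases le_total 0 g with hpos | hneg
  · obtain ⟨k, hk⟩ := Int.eq_ofNat_of_zero_le hpos
    refine ⟨k, b, u, ?_, ?_⟩
    · funext j
      rw [hb j, hk]
      simp
    · rw [← h3]
      exact Finset.sum_congr rfl fun j _ => mul_comm _ _
  · obtain ⟨k, hk⟩ := Int.eq_ofNat_of_zero_le (neg_nonneg.2 hneg)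
    refine ⟨k, -b, -u, ?_, ?_⟩
    · funext j
      rw [hb j]
      simp only [Pi.smul_apply, Pi.neg_apply, smul_eq_mul]
      rw [← show -g = (k : ℤ) from hk]
      ring
    · rw [← h3]
      refine Finset.sum_congr rfl fun j _ => ?_
      simp only [Pi.neg_apply]
      ring

theorem hPhi (hExt : StExt) (hMon : StMon) (hTorV : StTorV) : StPhi := by
  intro n M hM
  obtain ⟨α, A, H⟩ := hM
  have key : ∀ w : Fin (n + 1) → ℤ, ∃ t : ℤ, ∀ (m N : ℕ) (F : FormSys n (N * (m + α))),
      (∀ v, (N : ℤ) * ((m : ℤ) * M v + A.div v) = F.div v) →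
        F.low w = (N : ℤ) * ((m : ℤ) * t + A.low w) := by
    intro w
    by_cases ha : (fun j : Fin n => w j.succ - w 0) = 0
    · refine ⟨w 0, fun m N F _ => ?_⟩
      have hw : w = ((0 : ℕ) : ℤ) • w + fun _ => w 0 := by
        funext j
        refine Fin.cases ?_ (fun j => ?_) j
        · simp
        · have := congrFun ha j
          simp only [Pi.zero_apply] at this
          simp
          omega
      have e1 : ∀ (D : ℕ) (F : FormSys n D), F.low w = D * w 0 := by
        intro D F
        rw [hw, Fil_low_const, Fil_low_smul]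
        simp
      rw [e1, e1]
      push_cast
      ring
    · obtain ⟨k, a, u, hk, hau⟩ := Phi_prim _ ha
      obtain ⟨v, hv⟩ := hTorV n a u hau
      refine ⟨w 0 + k * (- M v), fun m N F hF => ?_⟩
      have hw : w = (k : ℤ) • (Fin.cons 0 a : Fin (n + 1) → ℤ) + fun _ => w 0 := by
        funext j
        refine Fin.cases ?_ (fun j => ?_) j
        · simp
        · have := congrFun hk j
          simp only [Pi.smul_apply, smul_eq_mul] at this
          simp only [Pi.add_apply, Pi.smul_apply, Fin.cons_succ, smul_eq_mul]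
          omega
      have e1 : ∀ (D : ℕ) (F : FormSys n D), F.low w = k * (- F.div v) + D * w 0 := by
        intro D F
        have e2 : F.low w = F.low ((k : ℤ) • (Fin.cons 0 a : Fin (n + 1) → ℤ) + fun _ => w 0) := by
          rw [← hw]
        rw [e2, Fil_low_const, Fil_low_smul, Fil_div_eq hExt hMon F a v hv, neg_neg]
      rw [e1, e1, ← hF]
      push_cast
      ring
  choose φ hφ using key
  refine ⟨φ, α, A, fun m hm => ?_⟩
  obtain ⟨N, F, hN, hF⟩ := H m hm
  exact ⟨N, F, hN, hF, fun w => hφ w m N F hF⟩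

end Pool.Agent.Helper53.CX
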