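import Pool.Agent.Helper53.CX.St
import Pool.Agent.Helper53.CX.St2
import Pool.Agent.Helper53.CX.M_MonL
import Pool.Agent.Helper53.CX.M_Fac
import Pool.Agent.Helper53.CX.M_Bri

/-!
# Project CX, part 2: module PnI (prime divisors of projective space)
-/

set_option autoImplicit false

open scoped BigOperators
open MvPolynomial

namespace Pool.Agent.Helper53.CX

theorem PnI_ord (hExt : StExt) (hMon : StMon) {n : ℕ} (v : DivVal (Kn n)) (a : Fin n → ℤ)
    (hv : v.ord = monOrd a) (p : Pn n) (hp : p ≠ 0) :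
    v.ord (algebraMap (Pn n) (Kn n) p) = monO a p := by
  obtain ⟨h1, h2⟩ := hMon n a
  exact (Bri_ext hExt (monO a) h1 h2 v).1 hv p hp

theorem PnI_inv {n : ℕ} (v : DivVal (Kn n)) {f : Kn n} (hf : f ≠ 0) : v.ord f⁻¹ = - v.ord f :=
  MonL_inv v.ord v.ord_mul hf

theorem PnI_div {n : ℕ} (v : DivVal (Kn n)) {f g : Kn n} (hf : f ≠ 0) (hg : g ≠ 0) :
    v.ord (f / g) = v.ord f - v.ord g := by
  rw [div_eq_mul_inv, v.ord_mul _ _ hf (inv_ne_zero hg), PnI_inv v hg]
  ring

theorem PnI_algebraMap {n : ℕ} (v : DivVal (Kn n)) (c : ℂ) :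
    v.ord (algebraMap ℂ (Kn n) c) = 0 := by
  by_cases hc : c = 0
  · rw [hc, map_zero]
    exact v.ord_zero
  · exact MonL_const v c hc

/-- the valuation ring -/
def PnI_O {n : ℕ} (v : DivVal (Kn n)) : Subalgebra ℂ (Kn n) where
  carrier := {f | 0 ≤ v.ord f}
  mul_mem' := by
    intro f g hf hg
    change 0 ≤ v.ord f at hf
    change 0 ≤ v.ord g at hg
    change 0 ≤ v.ord (f * g)
    by_cases hf0 : f = 0
    · rw [hf0, zero_mul, v.ord_zero]
    by_cases hg0 : g = 0
    · rw [hg0, mul_zero, v.ord_zero]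
    rw [v.ord_mul _ _ hf0 hg0]
    omega
  add_mem' := by
    intro f g hf hg
    change 0 ≤ v.ord f at hf
    change 0 ≤ v.ord g at hg
    change 0 ≤ v.ord (f + g)
    by_cases hf0 : f = 0
    · rw [hf0, zero_add]
      exact hg
    by_cases hg0 : g = 0
    · rw [hg0, add_zero]
      exact hf
    by_cases hfg : f + g = 0
    · rw [hfg, v.ord_zero]
    exact (le_min hf hg).trans (v.ord_add _ _ hf0 hg0 hfg)
  algebraMap_mem' := by
    intro c
    change 0 ≤ v.ord (algebraMap ℂ (Kn n) c)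
    rw [PnI_algebraMap]

theorem PnI_hx_ne {n : ℕ} (i : Fin (n + 1)) : (hx i : Kn n) ≠ 0 := by
  refine Fin.cases ?_ (fun j => ?_) i
  · exact one_ne_zero
  · exact MonL_x_ne j

theorem PnI_hx_O {n : ℕ} (v : DivVal (Kn n)) (i : Fin (n + 1))
    (h : ∀ j, v.ord (hx i : Kn n) ≤ v.ord (hx j : Kn n)) :
    ∀ f ∈ Algebra.adjoin ℂ (Set.range fun j => (hx j : Kn n) / hx i), 0 ≤ v.ord f := by
  have h1 : Algebra.adjoin ℂ (Set.range fun j => (hx j : Kn n) / hx i) ≤ PnI_O v := by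
    rw [Algebra.adjoin_le_iff]
    rintro f ⟨j, rfl⟩
    change 0 ≤ v.ord (hx j / hx i)
    rw [PnI_div v (PnI_hx_ne j) (PnI_hx_ne i)]
    have := h j
    omega
  exact fun f hf => h1 hf

/-- polynomials in all variables but one -/
theorem PnI_rename {k : ℕ} (j : Fin (k + 1)) (q : MvPolynomial (Fin k) ℂ) :
    (aeval (fun i => (x (j.succAbove i) : Kn (k + 1))) q) =
      algebraMap (Pn (k + 1)) (Kn (k + 1)) (rename j.succAbove q) := by
  have h1 : (aeval (fun i => (x (j.succAbove i) : Kn (k + 1)))) =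
      (IsScalarTower.toAlgHom ℂ (Pn (k + 1)) (Kn (k + 1))).comp (rename j.succAbove) := by
    apply MvPolynomial.algHom_ext
    intro i
    simp [x]
  exact DFunLike.congr_fun h1 q

theorem PnI_rename_ne {k : ℕ} (j : Fin (k + 1)) (q : MvPolynomial (Fin k) ℂ) (hq : q ≠ 0) :
    rename j.succAbove q ≠ 0 := by
  intro h
  exact hq (rename_injective _ Fin.succAbove_right_injective (h.trans (map_zero _).symm))

theorem PnI_rename_supp {k : ℕ} (j : Fin (k + 1)) (q : MvPolynomial (Fin k) ℂ)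
    (m : Fin (k + 1) →₀ ℕ) (hm : m ∈ (rename j.succAbove q).support) : m j = 0 := by
  classical
  rw [support_rename_of_injective Fin.succAbove_right_injective, Finset.mem_image] at hm
  obtain ⟨m', -, rfl⟩ := hm
  apply Finsupp.mapDomain_of_notMem_range
  rintro ⟨i, hi⟩
  exact Fin.succAbove_ne j i hi

/-- homogenisation with respect to the first variable -/
noncomputable def PnI_hom {k : ℕ} (q : MvPolynomial (Fin k) ℂ) : Pn (k + 1) :=
  ∑ m ∈ q.support, monomial (Finsupp.cons (q.totalDegree - ∑ i, m i) m) (coeff m q)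

theorem PnI_deg {k : ℕ} (q : MvPolynomial (Fin k) ℂ) (m : Fin k →₀ ℕ) (hm : m ∈ q.support) :
    ∑ i, m i ≤ q.totalDegree := by
  have h := le_totalDegree hm
  rwa [Finsupp.sum_fintype _ _ (fun _ => rfl)] at h

theorem PnI_hom_coeff {k : ℕ} (q : MvPolynomial (Fin k) ℂ) (m : Fin k →₀ ℕ)
    (hm : m ∈ q.support) :
    coeff (Finsupp.cons (q.totalDegree - ∑ i, m i) m) (PnI_hom q) = coeff m q := by
  classical
  unfold PnI_hom
  rw [coeff_sum, Finset.sum_eq_single m]
  · rw [coeff_monomial, if_pos rfl]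
  · intro m' _ hne
    rw [coeff_monomial, if_neg]
    intro h
    apply hne
    have := congrArg Finsupp.tail h
    rwa [Finsupp.tail_cons, Finsupp.tail_cons] at this
  · intro h
    exact absurd hm h

theorem PnI_hom_ne {k : ℕ} (q : MvPolynomial (Fin k) ℂ) (hq : q ≠ 0) : PnI_hom q ≠ 0 := by
  obtain ⟨m, hm⟩ := support_nonempty.2 hq
  intro h
  have h1 := PnI_hom_coeff q m hm
  rw [h, coeff_zero] at h1
  exact (mem_support_iff.1 hm) h1.symm

theorem PnI_hom_supp {k : ℕ} (q : MvPolynomial (Fin k) ℂ) (μ : Fin (k + 1) →₀ ℕ)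
    (hμ : μ ∈ (PnI_hom q).support) : ∑ i, μ i = q.totalDegree := by
  classical
  unfold PnI_hom at hμ
  obtain ⟨m, hm, h⟩ := Finset.mem_biUnion.1 (support_sum hμ)
  have h1 := support_monomial_subset h
  rw [Finset.mem_singleton] at h1
  rw [h1, Fin.sum_univ_succ, Finsupp.cons_zero]
  simp only [Finsupp.cons_succ]
  have := PnI_deg q m hm
  omega

theorem PnI_hom_eval {k : ℕ} (q : MvPolynomial (Fin k) ℂ) :
    algebraMap (Pn (k + 1)) (Kn (k + 1)) (PnI_hom q) =
      (x 0) ^ q.totalDegree * aeval (fun i : Fin k => (x i.succ : Kn (k + 1)) / x 0) q := by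
  have hx0 : (x 0 : Kn (k + 1)) ≠ 0 := MonL_x_ne 0
  unfold PnI_hom
  conv_rhs => rw [q.as_sum, map_sum, Finset.mul_sum]
  rw [map_sum]
  have hmd : ∀ m ∈ q.support, ∑ i, m i ≤ q.totalDegree := fun m hm => PnI_deg q m hm
  rw [← q.as_sum]
  refine Finset.sum_congr rfl fun m hm => ?_
  rw [MonL_monomial, aeval_monomial, Finsupp.prod_fintype _ _ (fun i => pow_zero _),
    Fin.prod_univ_succ, Finsupp.cons_zero]
  simp only [Finsupp.cons_succ, div_pow]
  rw [Finset.prod_div_distrib, Finset.prod_pow_eq_pow_sum]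
  have h1 : (x 0 : Kn (k + 1)) ^ q.totalDegree =
      (x 0) ^ (q.totalDegree - ∑ i, m i) * (x 0) ^ (∑ i, m i) := by
    rw [← pow_add, Nat.sub_add_cancel (hmd m hm)]
  rw [h1]
  field_simp

theorem PnI_caseA {k : ℕ} {v : DivVal (Kn (k + 1))} (j : Fin (k + 1))
    (h0 : ∀ i, 0 ≤ v.ord (x i))
    (hq : ∀ q : MvPolynomial (Fin k) ℂ, q ≠ 0 →
      v.ord (algebraMap (Pn (k + 1)) (Kn (k + 1)) (rename j.succAbove q)) = 0) :
    IsPrimeOfProjSpace v := by
  have hx0 : (hx 0 : Kn (k + 1)) = 1 := rfl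
  have hone : v.ord (1 : Kn (k + 1)) = 0 := MonL_one v.ord v.ord_mul
  refine ⟨0, PnI_hx_O v 0 ?_, fun i => x (j.succAbove i), fun i => ?_, fun q hq0 => ?_⟩
  · intro i
    rw [hx0, hone]
    refine Fin.cases ?_ (fun i' => ?_) i
    · rw [hx0, hone]
    · exact h0 i'
  · refine ⟨x (j.succAbove i), ?_, 1, Subalgebra.one_mem _, one_ne_zero, hone, by rw [div_one]⟩
    refine Algebra.subset_adjoin ⟨(j.succAbove i).succ, ?_⟩
    dsimp only
    rw [hx0, div_one]
    rfl
  · have h1 := PnI_rename j q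
    have h2 : (aeval (fun i : Fin (k + 1 - 1) => (x (j.succAbove i) : Kn (k + 1))) q) =
      algebraMap (Pn (k + 1)) (Kn (k + 1)) (rename j.succAbove q) := h1
    rw [h2]
    refine ⟨Fac_aM_ne _ (PnI_rename_ne j q hq0), hq q hq0⟩

theorem PnI_B {k : ℕ} {v : DivVal (Kn (k + 1))} (h0 : ∀ i, v.ord (x i) = -1)
    (hq : ∀ p : Pn (k + 1), p ≠ 0 → v.ord (algebraMap (Pn (k + 1)) (Kn (k + 1)) p) =
      monO (fun _ => (-1 : ℤ)) p) (q : MvPolynomial (Fin k) ℂ) (hq0 : q ≠ 0) :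
    (aeval (fun i : Fin k => (x i.succ : Kn (k + 1)) / x 0) q) ≠ 0 ∧
      v.ord (aeval (fun i : Fin k => (x i.succ : Kn (k + 1)) / x 0) q) = 0 := by
  have h1 := PnI_hom_eval q
  have h2 := PnI_hom_ne q hq0
  have h3 : algebraMap (Pn (k + 1)) (Kn (k + 1)) (PnI_hom q) ≠ 0 := Fac_aM_ne _ h2
  have h4 : (aeval (fun i : Fin k => (x i.succ : Kn (k + 1)) / x 0) q) ≠ 0 := by
    intro h
    rw [h, mul_zero] at h1
    exact h3 h1
  refine ⟨h4, ?_⟩
  have h5 := hq _ h2
  have h6 : monO (fun _ => (-1 : ℤ)) (PnI_hom q) = - (q.totalDegree : ℤ) := by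
    obtain ⟨⟨μ, hμ, he⟩, -⟩ := MonL_monO (fun _ => (-1 : ℤ)) (PnI_hom q) h2
    rw [he]
    unfold wt
    rw [← Finset.mul_sum, ← PnI_hom_supp q μ hμ]
    push_cast
    ring
  rw [h6, h1, v.ord_mul _ _ (pow_ne_zero _ (MonL_x_ne 0)) h4,
    MonL_pow v.ord v.ord_mul (MonL_x_ne 0), h0] at h5
  have h7 : v.ord (aeval (fun i : Fin k => (x i.succ : Kn (k + 1)) / x 0) q) =
    - (q.totalDegree : ℤ) - (q.totalDegree : ℤ) * (-1) := by
    linarith
  rw [h7]
  ring

theorem PnI_caseB {k : ℕ} {v : DivVal (Kn (k + 1))} (h0 : ∀ i, v.ord (x i) = -1)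
    (hq : ∀ p : Pn (k + 1), p ≠ 0 → v.ord (algebraMap (Pn (k + 1)) (Kn (k + 1)) p) =
      monO (fun _ => (-1 : ℤ)) p) :
    IsPrimeOfProjSpace v := by
  have hx0 : (hx 0 : Kn (k + 1)) = 1 := rfl
  have hx1 : (hx (Fin.succ 0) : Kn (k + 1)) = x 0 := rfl
  have hone : v.ord (1 : Kn (k + 1)) = 0 := MonL_one v.ord v.ord_mul
  refine ⟨Fin.succ 0, PnI_hx_O v _ ?_, fun i : Fin k => x i.succ / x 0, fun i => ?_,
    fun q hq0 => PnI_B h0 hq q hq0⟩
  · intro i
    rw [hx1, h0]
    refine Fin.cases ?_ (fun i' => ?_) i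
    · rw [hx0, hone]
      norm_num
    · change -1 ≤ v.ord (x i')
      rw [h0]
  · refine ⟨x (Fin.succ i) / x 0, ?_, 1, Subalgebra.one_mem _, one_ne_zero, hone, by rw [div_one]⟩
    exact Algebra.subset_adjoin ⟨(Fin.succ i).succ, rfl⟩

theorem hPnI (hExt : StExt) (hMon : StMon) (hPad : StPad) (hPadV : StPadV) (_hBri : StBri) :
    StPnI := by
  intro n v hn hold
  obtain ⟨k, rfl⟩ := Nat.exists_eq_succ_of_ne_zero hn.ne'
  rcases hold with ⟨j, hj⟩ | hj | ⟨P, hP, hj⟩
  · refine PnI_caseA j (fun i => ?_) (fun q hq => ?_)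
    · have h1 := PnI_ord hExt hMon v _ hj (X i) (X_ne_zero i)
      change v.ord (algebraMap (Pn (k + 1)) (Kn (k + 1)) (X i)) ≥ 0
      rw [h1, MonL_monO_X]
      by_cases h : i = j
      · rw [h, Pi.single_eq_same]
        norm_num
      · rw [Pi.single_eq_of_ne h]
    · rw [PnI_ord hExt hMon v _ hj _ (PnI_rename_ne j q hq)]
      obtain ⟨⟨m, hm, he⟩, -⟩ := MonL_monO (Pi.single j 1) _ (PnI_rename_ne j q hq)
      rw [he]
      unfold wt
      apply Finset.sum_eq_zero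
      intro i _
      by_cases h : i = j
      · rw [h, PnI_rename_supp j q m hm]
        simp
      · rw [Pi.single_eq_of_ne h, zero_mul]
  · refine PnI_caseB (fun i => ?_) (fun p hp => PnI_ord hExt hMon v _ hj p hp)
    have h1 := PnI_ord hExt hMon v _ hj (X i) (X_ne_zero i)
    change v.ord (algebraMap (Pn (k + 1)) (Kn (k + 1)) (X i)) = -1
    rw [h1, MonL_monO_X]
  · have h0 := ((hPadV (k + 1) P hP.1).2 hP v hj).1
    obtain ⟨j, hjP⟩ : ∃ j, degreeOf j P ≠ 0 := by
      by_contra hno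
      push Not at hno
      have h1 : P.totalDegree = 0 := by
        rw [totalDegree_eq_zero_iff]
        intro m hm i
        have h2 := hno i
        rw [degreeOf_eq_sup] at h2
        have h3 : m i ≤ P.support.sup fun m => m i := Finset.le_sup (f := fun m : Fin (k + 1) →₀ ℕ => m i) hm
        omega
      rw [totalDegree_eq_zero_iff_eq_C] at h1
      have hc : coeff 0 P ≠ 0 := by
        intro hc
        rw [hc, C_0] at h1
        exact hP.1.ne_zero h1
      apply hP.1.not_isUnit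
      rw [h1]
      exact (IsUnit.mk0 _ hc).map (C : ℂ →+* Pn (k + 1))
    refine PnI_caseA j (fun i => (h0 i).ge) (fun q hq => ?_)
    rw [hj]
    apply Fac_padOrd_notdvd hExt hPad P hP.1 _ (PnI_rename_ne j q hq)
    rintro ⟨r, hr⟩
    have hr0 : r ≠ 0 := by
      rintro rfl
      rw [mul_zero] at hr
      exact PnI_rename_ne j q hq hr
    have h1 : degreeOf j (rename j.succAbove q) = 0 := by
      rw [degreeOf_eq_sup]
      apply Nat.le_zero.1
      apply Finset.sup_le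
      intro m hm
      rw [PnI_rename_supp j q m hm]
    rw [hr, degreeOf_mul_eq hP.1.ne_zero hr0] at h1
    omega

end Pool.Agent.Helper53.CX
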