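import Pool.Agent.Helper53.CX.St
import Pool.Agent.Helper53.CX.St2

/-!
# Project CX, module PnII: linear forms and log discrepancies at prime divisors of projective space
-/

set_option autoImplicit false

open scoped BigOperators
open MvPolynomial

namespace Pool.Agent.Helper53.CX

/-- the linear polynomial with coefficient vector `c` -/
noncomputable def PnII_lp {n : ℕ} (c : Fin (n + 1) → ℂ) : Pn n :=
  C (c 0) + ∑ j : Fin n, C (c j.succ) * X j

/-- the coefficient vector of a polynomial of degree at most one -/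
noncomputable def PnII_cv {n : ℕ} (p : Pn n) : Fin (n + 1) → ℂ :=
  Fin.cons (coeff 0 p) (fun j => coeff (Finsupp.single j 1) p)

theorem PnII_const {n : ℕ} (a : ℂ) :
    algebraMap ℂ (Kn n) a = algebraMap (Pn n) (Kn n) (C a) := by
  rw [IsScalarTower.algebraMap_apply ℂ (Pn n) (Kn n)]
  rfl

theorem PnII_lfv {n : ℕ} (c : Fin (n + 1) → ℂ) :
    (lfv c : Kn n) = algebraMap (Pn n) (Kn n) (PnII_lp c) := by
  unfold lfv PnII_lp hx
  rw [Fin.sum_univ_succ, map_add, map_sum, Fin.cons_zero, mul_one, PnII_const]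
  congr 1
  refine Finset.sum_congr rfl fun j _ => ?_
  rw [Fin.cons_succ, map_mul, PnII_const]
  rfl

theorem PnII_coeff {n : ℕ} (c : Fin (n + 1) → ℂ) (m : Fin n →₀ ℕ) :
    coeff m (PnII_lp c) = (if 0 = m then c 0 else 0) +
      ∑ j : Fin n, c j.succ * (if Finsupp.single j 1 = m then 1 else 0) := by
  classical
  unfold PnII_lp
  rw [coeff_add, coeff_C, coeff_sum]
  congr 1
  refine Finset.sum_congr rfl fun j _ => ?_
  rw [coeff_C_mul, coeff_X]

theorem PnII_coeff_zero {n : ℕ} (c : Fin (n + 1) → ℂ) : coeff 0 (PnII_lp c) = c 0 := by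
  rw [PnII_coeff, if_pos rfl]
  have h : ∑ j : Fin n, c j.succ * (if Finsupp.single j 1 = (0 : Fin n →₀ ℕ) then 1 else 0) = 0 := by
    refine Finset.sum_eq_zero fun j _ => ?_
    rw [if_neg, mul_zero]
    intro h
    have := DFunLike.congr_fun h j
    simp at this
  rw [h, add_zero]

theorem PnII_coeff_single {n : ℕ} (c : Fin (n + 1) → ℂ) (j : Fin n) :
    coeff (Finsupp.single j 1) (PnII_lp c) = c j.succ := by
  rw [PnII_coeff, if_neg, zero_add]
  · rw [Finset.sum_eq_single j]
    · rw [if_pos rfl, mul_one]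
    · intro i _ hij
      rw [if_neg, mul_zero]
      intro h
      exact hij (Finsupp.single_left_injective one_ne_zero h)
    · intro h
      exact absurd (Finset.mem_univ j) h
  · intro h
    have := DFunLike.congr_fun h j
    simp at this

theorem PnII_supp {n : ℕ} (c : Fin (n + 1) → ℂ) (m : Fin n →₀ ℕ) (hm : m ∈ (PnII_lp c).support) :
    m = 0 ∨ ∃ j, m = Finsupp.single j 1 := by
  rw [mem_support_iff, PnII_coeff] at hm
  by_contra hcon
  push Not at hcon
  apply hm
  rw [if_neg (fun h => hcon.1 h.symm), zero_add]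
  refine Finset.sum_eq_zero fun j _ => ?_
  rw [if_neg (fun h => hcon.2 j h.symm), mul_zero]

theorem PnII_cv_lp {n : ℕ} (c : Fin (n + 1) → ℂ) : PnII_cv (PnII_lp c) = c := by
  unfold PnII_cv
  funext i
  refine Fin.cases ?_ (fun j => ?_) i
  · rw [Fin.cons_zero, PnII_coeff_zero]
  · rw [Fin.cons_succ, PnII_coeff_single]

theorem PnII_cv_mul {n : ℕ} (b : ℂ) (p : Pn n) : PnII_cv (p * C b) = b • PnII_cv p := by
  unfold PnII_cv
  funext i
  refine Fin.cases ?_ (fun j => ?_) i
  · rw [Fin.cons_zero, Pi.smul_apply, Fin.cons_zero, mul_comm p, coeff_C_mul, smul_eq_mul]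
  · rw [Fin.cons_succ, Pi.smul_apply, Fin.cons_succ, mul_comm p, coeff_C_mul, smul_eq_mul]

theorem PnII_lp_ne {n : ℕ} (c : Fin (n + 1) → ℂ) (hc : c ≠ 0) : PnII_lp c ≠ 0 := by
  intro h
  apply hc
  rw [← PnII_cv_lp c, h]
  unfold PnII_cv
  funext i
  refine Fin.cases ?_ (fun j => ?_) i <;> simp

theorem PnII_deg {n : ℕ} (c : Fin (n + 1) → ℂ) : (PnII_lp c).totalDegree ≤ 1 := by
  unfold PnII_lp
  refine (totalDegree_add _ _).trans (max_le ?_ ?_)
  · rw [totalDegree_C]; exact Nat.zero_le _
  · refine (totalDegree_finsetSum _ _).trans (Finset.sup_le fun j _ => ?_)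
    refine (totalDegree_mul _ _).trans ?_
    rw [totalDegree_C, totalDegree_X]

theorem PnII_wt_zero {n : ℕ} (a : Fin n → ℤ) : wt a (0 : Fin n →₀ ℕ) = 0 := by
  unfold wt
  simp

theorem PnII_wt_single {n : ℕ} (a : Fin n → ℤ) (j : Fin n) :
    wt a (Finsupp.single j 1) = a j := by
  unfold wt
  rw [Finset.sum_eq_single j]
  · simp
  · intro i _ hij
    rw [Finsupp.single_eq_of_ne hij]
    simp
  · intro h
    exact absurd (Finset.mem_univ j) h

theorem PnII_tor_x {n : ℕ} {v : DivVal (Kn n)} {a : Fin n → ℤ} (h : IsToric v a) (j : Fin n) :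
    v.ord (x j) = a j := by
  obtain ⟨m, hm, hv⟩ := (h (X j) (X_ne_zero j)).2
  rw [support_X, Finset.mem_singleton] at hm
  rw [hm, PnII_wt_single] at hv
  exact hv

theorem PnII_ord_one {n : ℕ} (v : DivVal (Kn n)) : v.ord 1 = 0 := by
  have := v.ord_mul 1 1 one_ne_zero one_ne_zero
  rw [mul_one] at this
  linarith

theorem PnII_e0 {n : ℕ} : (lfv (Pi.single 0 1 : Fin (n + 1) → ℂ) : Kn n) = 1 := by
  rw [PnII_lfv]
  unfold PnII_lp
  have h : ∀ j : Fin n, (Pi.single 0 1 : Fin (n + 1) → ℂ) j.succ = 0 := fun j =>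
    Pi.single_eq_of_ne (Fin.succ_ne_zero j) 1
  simp [h]

/-- the common structure of the three cases -/
theorem PnII_main (hVmin : StVmin) (hGen : StGen) {n : ℕ} (v : DivVal (Kn n)) (κ : ℤ)
    (cs : Fin (n + 1) → ℂ)
    (h1 : ∀ c : Fin (n + 1) → ℂ, c ≠ 0 → v.ord (lfv c) = κ ∨
      (v.ord (lfv c) = κ + 1 ∧ ∃ a : ℂ, c = a • cs))
    (h2 : ∃ c : Fin (n + 1) → ℂ, c ≠ 0 ∧ v.ord (lfv c) = κ) (h3 : Adisc v = ((n : ℤ) + 1) * κ + 1) :
    Adisc v = ((n : ℤ) + 1) * vmin v ⊤ + 1 ∧
    ∀ T : Matrix (Fin (n + 1)) (Fin (n + 1)) ℂ, IsUnit T.det →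
      (∀ i, v.ord (lf T i) = vmin v ⊤) ∨
      ∑ i, v.ord (lf T i) = ((n : ℤ) + 1) * vmin v ⊤ + 1 := by
  classical
  have hmin : vmin v ⊤ = κ := by
    obtain ⟨a, b, hb, hb0, hbv⟩ := (hVmin n v).2.1 ⊤ top_ne_bot
    obtain ⟨c, hc0, hcv⟩ := h2
    have h4 := a c Submodule.mem_top hc0
    rcases h1 b hb0 with h5 | h5
    · rw [← hbv, h5]
    · exfalso
      have := h5.1
      linarith
  rw [hmin]
  refine ⟨h3, ?_⟩
  intro T hT
  have hT0 : ∀ i, T i ≠ 0 := by
    intro i h
    apply ((hGen n).2.1 T hT).1 i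
    unfold lf lfv
    rw [h]
    simp
  have hli : LinearIndependent ℂ T.row :=
    Matrix.linearIndependent_rows_iff_isUnit.2 ((Matrix.isUnit_iff_isUnit_det T).2 hT)
  by_cases hall : ∀ i, v.ord (lf T i) = κ
  · exact Or.inl hall
  right
  push Not at hall
  obtain ⟨i0, hi0⟩ := hall
  obtain ⟨hv0, a, ha⟩ := (h1 (T i0) (hT0 i0)).resolve_left hi0
  have ha0 : a ≠ 0 := by
    rintro rfl
    apply hT0 i0
    rw [ha, zero_smul]
  have hother : ∀ i, i ≠ i0 → v.ord (lf T i) = κ := by
    intro i hi
    rcases h1 (T i) (hT0 i) with h | ⟨-, b, hb⟩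
    · exact h
    · exfalso
      have hg := Fintype.linearIndependent_iff.1 hli
        (fun k => if k = i0 then b else if k = i then -a else 0) (by
          have h5 : ∀ k, (if k = i0 then b else if k = i then -a else 0) • T.row k =
              (if k = i0 then b • T.row k else 0) + (if k = i then (-a) • T.row k else 0) := by
            intro k
            by_cases hk0 : k = i0
            · subst hk0
              rw [if_pos rfl, if_pos rfl, if_neg (fun h => hi h.symm), add_zero]
            · rw [if_neg hk0, if_neg hk0, zero_add]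
              by_cases hk : k = i
              · rw [if_pos hk, if_pos hk]
              · rw [if_neg hk, if_neg hk, zero_smul]
          rw [Finset.sum_congr rfl fun k _ => h5 k, Finset.sum_add_distrib,
            Finset.sum_ite_eq' Finset.univ i0, Finset.sum_ite_eq' Finset.univ i,
            if_pos (Finset.mem_univ _), if_pos (Finset.mem_univ _)]
          change b • T i0 + (-a) • T i = 0
          rw [ha, hb, smul_smul, smul_smul, ← add_smul]
          have : b * a + -a * b = 0 := by ring
          rw [this, zero_smul]) i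
      simp only [if_neg hi, if_true] at hg
      exact ha0 (neg_eq_zero.1 hg)
  rw [← Finset.add_sum_erase _ _ (Finset.mem_univ i0)]
  have h6 : ∑ i ∈ Finset.univ.erase i0, v.ord (lf T i) = ∑ i ∈ Finset.univ.erase i0, κ :=
    Finset.sum_congr rfl fun i hi => hother i (Finset.ne_of_mem_erase hi)
  have h7 : v.ord (lf T i0) = κ + 1 := hv0
  rw [h6, h7, Finset.sum_const, Finset.card_erase_of_mem (Finset.mem_univ _), Finset.card_univ,
    Fintype.card_fin, nsmul_eq_mul]
  simp only [Nat.add_sub_cancel]
  ring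

theorem hPnII (hExt : StExt) (hMon : StMon) (hPad : StPad) (hTorOm : StTorOm) (hPadV : StPadV)
    (hBri : StBri) (hGen : StGen) (hVmin : StVmin) : StPnII := by
  classical
  intro n v hn hOld
  rcases hOld with ⟨j, hj⟩ | hinf | ⟨P, hP, hv⟩
  · -- toric of weight `e_j`
    have htor : IsToric v (Pi.single j 1) := ((hBri n v).1 _).2 hj
    have hom : ordOmega v = -1 :=
      hTorOm n (Pi.single j 1) (Pi.single j 1) (by simp [Pi.single_apply]) v hj
    refine PnII_main hVmin hGen v 0 (Pi.single j.succ 1) ?_ ?_ ?_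
    · intro c hc
      obtain ⟨hle, m, hm, hval⟩ := htor (PnII_lp c) (PnII_lp_ne c hc)
      rw [← PnII_lfv] at hval
      have hle' : ∀ m ∈ (PnII_lp c).support, v.ord (lfv c) ≤ wt (Pi.single j 1) m := by
        intro m hm
        rw [PnII_lfv]
        exact hle m hm
      by_cases h0 : v.ord (lfv c) = 0
      · exact Or.inl h0
      right
      have h1 : v.ord (lfv c) = 1 := by
        rcases PnII_supp c m hm with rfl | ⟨i, rfl⟩
        · rw [PnII_wt_zero] at hval
          exact absurd hval h0
        · rw [PnII_wt_single] at hval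
          by_cases hij : i = j
          · subst hij
            rw [Pi.single_eq_same] at hval
            exact hval
          · rw [Pi.single_eq_of_ne hij] at hval
            exact absurd hval h0
      refine ⟨by rw [h1]; norm_num, c j.succ, ?_⟩
      funext i
      rw [Pi.smul_apply, smul_eq_mul]
      refine Fin.cases ?_ (fun i => ?_) i
      · rw [Pi.single_eq_of_ne (Fin.succ_ne_zero j).symm, mul_zero]
        by_contra hne
        have h2 := hle' 0 (by rw [mem_support_iff, PnII_coeff_zero]; exact hne)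
        rw [PnII_wt_zero, h1] at h2
        norm_num at h2
      · by_cases hij : i = j
        · subst hij
          rw [Pi.single_eq_same, mul_one]
        · rw [Pi.single_eq_of_ne (fun h => hij (Fin.succ_injective _ h)), mul_zero]
          by_contra hne
          have h2 := hle' (Finsupp.single i 1)
            (by rw [mem_support_iff, PnII_coeff_single]; exact hne)
          rw [PnII_wt_single, h1, Pi.single_eq_of_ne hij] at h2
          norm_num at h2
    · refine ⟨Pi.single 0 1, ?_, ?_⟩
      · intro h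
        have := congrFun h 0
        simp at this
      · rw [PnII_e0, PnII_ord_one]
    · unfold Adisc
      have h1 : ∑ i, v.ord (x i) = 1 := by
        rw [Finset.sum_congr rfl fun i _ => PnII_tor_x htor i]
        simp
      rw [hom, h1]
      ring
  · -- toric of weight `(-1,..,-1)`
    have htor : IsToric v (fun _ => (-1 : ℤ)) := ((hBri n v).1 _).2 hinf
    have hom : ordOmega v = -1 :=
      hTorOm n (fun _ => (-1 : ℤ)) (Pi.single ⟨0, hn⟩ (-1)) (by simp [Pi.single_apply]) v hinf
    refine PnII_main hVmin hGen v (-1) (Pi.single 0 1) ?_ ?_ ?_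
    · intro c hc
      obtain ⟨hle, m, hm, hval⟩ := htor (PnII_lp c) (PnII_lp_ne c hc)
      rw [← PnII_lfv] at hval
      have hle' : ∀ m ∈ (PnII_lp c).support, v.ord (lfv c) ≤ wt (fun _ => (-1 : ℤ)) m := by
        intro m hm
        rw [PnII_lfv]
        exact hle m hm
      by_cases h0 : v.ord (lfv c) = -1
      · exact Or.inl h0
      right
      have h1 : v.ord (lfv c) = 0 := by
        rcases PnII_supp c m hm with rfl | ⟨i, rfl⟩
        · rw [PnII_wt_zero] at hval
          exact hval
        · rw [PnII_wt_single] at hval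
          exact absurd hval h0
      refine ⟨by rw [h1]; norm_num, c 0, ?_⟩
      funext i
      rw [Pi.smul_apply, smul_eq_mul]
      refine Fin.cases ?_ (fun i => ?_) i
      · rw [Pi.single_eq_same, mul_one]
      · rw [Pi.single_eq_of_ne (Fin.succ_ne_zero i), mul_zero]
        by_contra hne
        have h2 := hle' (Finsupp.single i 1)
          (by rw [mem_support_iff, PnII_coeff_single]; exact hne)
        rw [PnII_wt_single, h1] at h2
        norm_num at h2
    · refine ⟨Pi.single (Fin.succ ⟨0, hn⟩) 1, ?_, ?_⟩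
      · intro h
        have := congrFun h (Fin.succ ⟨0, hn⟩)
        simp at this
      · have h1 : (lfv (Pi.single (Fin.succ ⟨0, hn⟩) 1 : Fin (n + 1) → ℂ) : Kn n) = x ⟨0, hn⟩ := by
          rw [PnII_lfv]
          unfold PnII_lp
          rw [Pi.single_eq_of_ne (Fin.succ_ne_zero _).symm, C_0, zero_add,
            Finset.sum_eq_single (⟨0, hn⟩ : Fin n)]
          · rw [Pi.single_eq_same, C_1, one_mul]
            rfl
          · intro i _ hi
            rw [Pi.single_eq_of_ne (fun h => hi (Fin.succ_injective _ h)), C_0, zero_mul]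
          · intro h
            exact absurd (Finset.mem_univ _) h
        rw [h1]
        exact PnII_tor_x htor _
    · unfold Adisc
      have h1 : ∑ i, v.ord (x i) = -(n : ℤ) := by
        rw [Finset.sum_congr rfl fun i _ => PnII_tor_x htor i]
        simp
      rw [hom, h1]
      ring
  · -- `P`-adic
    have hpad : IsPAdic v P := ((hBri n v).2.1 P hP.1).2 hv
    obtain ⟨hx0, hom⟩ := (hPadV n P hP.1).2 hP v hv
    have hPd : 1 ≤ P.totalDegree := by
      by_contra hcon
      have h0 : P.totalDegree = 0 := by omega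
      have h1 := totalDegree_eq_zero_iff_eq_C.1 h0
      have h2 : coeff 0 P ≠ 0 := by
        intro h
        apply hP.1.ne_zero
        rw [h1, h, C_0]
      apply hP.1.not_isUnit
      rw [h1]
      exact (Ne.isUnit h2).map C
    refine PnII_main hVmin hGen v 0 (PnII_cv P) ?_ ?_ ?_
    · intro c hc
      obtain ⟨k, q, hpq, hndvd, hval⟩ := hpad (PnII_lp c) (PnII_lp_ne c hc)
      rw [← PnII_lfv] at hval
      rcases Nat.eq_zero_or_pos k with hk | hk
      · left
        rw [hval, hk]
        rfl
      right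
      obtain ⟨k', rfl⟩ : ∃ k', k = k' + 1 := ⟨k - 1, by omega⟩
      have hq0 : q ≠ 0 := fun h => hndvd (h ▸ dvd_zero P)
      have hP0 : P ≠ 0 := hP.1.ne_zero
      have hr0 : P ^ k' * q ≠ 0 := mul_ne_zero (pow_ne_zero _ hP0) hq0
      have hfac : PnII_lp c = P * (P ^ k' * q) := by
        rw [hpq, pow_succ]
        ring
      have hdeg : (PnII_lp c).totalDegree = P.totalDegree + (P ^ k' * q).totalDegree := by
        rw [hfac]
        exact totalDegree_mul_of_isDomain hP0 hr0
      have hd1 := PnII_deg c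
      have hr1 : (P ^ k' * q).totalDegree = 0 := by omega
      have hr2 := totalDegree_eq_zero_iff_eq_C.1 hr1
      set b : ℂ := coeff 0 (P ^ k' * q) with hb
      have hb0 : b ≠ 0 := by
        intro h
        apply hr0
        rw [hr2, h, C_0]
      have hk0 : k' = 0 := by
        by_contra hne
        have hdvd : P ∣ P ^ k' * q := Dvd.dvd.mul_right (dvd_pow_self P hne) q
        rw [hr2] at hdvd
        exact hP.1.not_isUnit (isUnit_of_dvd_unit hdvd ((Ne.isUnit hb0).map C))
      refine ⟨?_, b, ?_⟩
      · rw [hval, hk0]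
        norm_num
      · rw [← PnII_cv_lp c, hfac, hr2, PnII_cv_mul]
    · refine ⟨Pi.single 0 1, ?_, ?_⟩
      · intro h
        have := congrFun h 0
        simp at this
      · rw [PnII_e0, PnII_ord_one]
    · unfold Adisc
      have h1 : ∑ i, v.ord (x i) = 0 := Finset.sum_eq_zero fun i _ => hx0 i
      rw [hom, h1]
      ring

end Pool.Agent.Helper53.CX
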