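import Pool.Agent.Helper53.CX.St
import Pool.Agent.Helper53.CX.St2
import Pool.Agent.Helper53.CX.M_Deg

/-! MODULE Poly of project CX, part 2: from normalised nef b-divisors to systems of forms. -/

set_option autoImplicit false

open scoped BigOperators
open MvPolynomial

namespace Pool.Agent.Helper53.CX

theorem Poly_aeval_x {n : ℕ} (p : Pn n) : aeval (x : Fin n → Kn n) p = algebraMap (Pn n) (Kn n) p := by
  have h : (aeval (x : Fin n → Kn n) : Pn n →ₐ[ℂ] Kn n) = IsScalarTower.toAlgHom ℂ (Pn n) (Kn n) := by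
    apply MvPolynomial.algHom_ext
    intro i
    simp [x]
  have := congrArg (fun φ => φ p) h
  simpa using this

theorem Poly_monomial {n : ℕ} (s : Fin n →₀ ℕ) :
    algebraMap (Pn n) (Kn n) (monomial s 1) = xm (fun j => (s j : ℤ)) := by
  rw [← Poly_aeval_x, aeval_monomial, map_one, one_mul, Finsupp.prod_fintype _ _ (fun _ => pow_zero _)]
  unfold xm
  exact Finset.prod_congr rfl fun j _ => (zpow_natCast _ _).symm

/-- a Laurent polynomial without poles along the coordinate hyperplanes is a polynomial -/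
theorem Poly_poly (hExt : StExt) (hMon : StMon) {n : ℕ} {f : Kn n} (hf : IsLaurent f) (hf0 : f ≠ 0)
    (ve : Fin n → DivVal (Kn n)) (hve : ∀ j, (ve j).ord = monOrd (Pi.single j 1))
    (h : ∀ j, 0 ≤ (ve j).ord f) : ∃ p : Pn n, f = algebraMap (Pn n) (Kn n) p := by
  obtain ⟨p, w, rfl⟩ := hf
  have hp : p ≠ 0 := by
    rintro rfl
    exact hf0 (by rw [map_zero, zero_mul])
  have h1 : ∀ j, 0 ≤ monO (Pi.single j 1) p + w j := by
    intro j
    have h2 := h j
    rw [(ve j).ord_mul _ _ (Sum_alg_ne p hp) (Sum_xm_ne w), Sum_ord_xm, hve j,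
      Deg_monOrd_alg hExt hMon _ _ hp] at h2
    have h3 : ∑ k, w k * monOrd (Pi.single j 1) (x k : Kn n) = w j := by
      rw [Finset.sum_eq_single j]
      · rw [Sum_monx hExt hMon]
        simp
      · intro k _ hk
        rw [Sum_monx hExt hMon, Pi.single_eq_of_ne hk, mul_zero]
      · intro h
        exact absurd (Finset.mem_univ j) h
    rw [h3] at h2
    exact h2
  set s : Fin n →₀ ℕ := Finsupp.equivFunOnFinite.symm fun j => (- w j).toNat with hs
  set t : Fin n →₀ ℕ := Finsupp.equivFunOnFinite.symm fun j => (w j).toNat with ht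
  have hsj : ∀ j, s j = (- w j).toNat := fun j => rfl
  have htj : ∀ j, t j = (w j).toNat := fun j => rfl
  have hdvd : monomial s (1 : ℂ) ∣ p := by
    rw [monomial_one_dvd_iff_modMonomial_eq_zero]
    ext m
    rw [coeff_zero]
    by_cases hm : s ≤ m
    · exact coeff_modMonomial_of_le _ hm
    · rw [coeff_modMonomial_of_not_le _ hm]
      by_contra hne
      apply hm
      intro j
      have hmem : m ∈ p.support := mem_support_iff.2 hne
      have h4 : monO (Pi.single j 1) p ≤ (m j : ℤ) := by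
        have hne' : p.support.Nonempty := ⟨m, hmem⟩
        unfold monO
        rw [dif_pos hne', ← Deg_wt_single]
        exact Finset.inf'_le _ hmem
      have h5 := h1 j
      rw [hsj]
      omega
  obtain ⟨q, hq⟩ := hdvd
  refine ⟨q * monomial t 1, ?_⟩
  rw [hq, map_mul, map_mul, Poly_monomial, Poly_monomial]
  have h6 : (xm (fun j => (s j : ℤ)) : Kn n) * xm w = xm (fun j => (t j : ℤ)) := by
    rw [← Deg_xm_add]
    congr 1
    funext j
    rw [Pi.add_apply, hsj, htj]
    omega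
  rw [← h6]
  ring

/-- homogenisation in degree `D` -/
noncomputable def Poly_hom {n : ℕ} (D : ℕ) (p : Pn n) : Pn (n + 1) :=
  ∑ m ∈ p.support, monomial (Finsupp.cons (D - m.sum fun _ e => e) m) (coeff m p)

theorem Poly_degree_cons {n : ℕ} (a : ℕ) (m : Fin n →₀ ℕ) :
    (Finsupp.cons a m).degree = a + m.sum fun _ e => e := by
  rw [Finsupp.degree_eq_sum, Finsupp.sum_fintype _ _ (fun _ => rfl), Fin.sum_univ_succ,
    Finsupp.cons_zero]
  simp only [Finsupp.cons_succ]

theorem Poly_hom_homog {n : ℕ} {D : ℕ} {p : Pn n} (hp : p.totalDegree ≤ D) :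
    (Poly_hom D p).IsHomogeneous D := by
  unfold Poly_hom
  apply IsHomogeneous.sum
  intro m hm
  apply isHomogeneous_monomial
  rw [Poly_degree_cons]
  have := le_totalDegree hm
  omega

theorem Poly_ev_hom {n : ℕ} (D : ℕ) (p : Pn n) :
    ev (Poly_hom D p) = algebraMap (Pn n) (Kn n) p := by
  unfold ev Poly_hom
  rw [map_sum]
  conv_rhs => rw [← Poly_aeval_x, p.as_sum, map_sum]
  refine Finset.sum_congr rfl fun m _ => ?_
  rw [aeval_monomial, aeval_monomial, Finsupp.prod_fintype _ _ (fun _ => pow_zero _),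
    Finsupp.prod_fintype _ _ (fun _ => pow_zero _), Fin.prod_univ_succ]
  simp [hx]

theorem Poly_sys {n D : ℕ} (F : LinSys (Kn n))
    (h : ∀ f ∈ F.gens, ∃ p : Pn n, f = algebraMap (Pn n) (Kn n) p ∧ p.totalDegree ≤ D) :
    ∃ G : FormSys n D, ∀ v, G.div v = F.div v := by
  classical
  have h' : ∀ f : Kn n, ∃ p : Pn n, f ∈ F.gens →
      f = algebraMap (Pn n) (Kn n) p ∧ p.totalDegree ≤ D := by
    intro f
    by_cases hf : f ∈ F.gens
    · obtain ⟨p, hp⟩ := h f hf
      exact ⟨p, fun _ => hp⟩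
    · exact ⟨0, fun h => absurd h hf⟩
  choose p hp using h'
  refine ⟨{
    gens := F.gens.image fun f => Poly_hom D (p f)
    nonempty := F.nonempty.image _
    ne_zero := ?_
    homog := ?_ }, ?_⟩
  · intro G hG
    obtain ⟨f, hf, rfl⟩ := Finset.mem_image.1 hG
    intro h0
    have h1 := Poly_ev_hom D (p f)
    have h2 : ev (Poly_hom D (p f)) = (0 : Kn n) := by
      have h0' : Poly_hom D (p f) = 0 := h0
      rw [h0']
      unfold ev
      rw [map_zero]
    rw [h2, ← (hp f hf).1] at h1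
    exact F.ne_zero f hf h1.symm
  · intro G hG
    obtain ⟨f, hf, rfl⟩ := Finset.mem_image.1 hG
    exact Poly_hom_homog (hp f hf).2
  · intro v
    unfold FormSys.div LinSys.div
    rw [Finset.sup'_image]
    apply Finset.sup'_congr _ rfl
    intro f hf
    show - v.ord (ev (Poly_hom D (p f))) = - v.ord f
    rw [Poly_ev_hom, ← (hp f hf).1]

/-- MODULE Poly. -/
theorem hPoly (hExt : StExt) (hMon : StMon) (hTorV : StTorV) : StPoly := by
  classical
  intro n M hn hM hMe hMi
  -- the toric valuations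
  have hpe : ∀ j : Fin n, ∑ i, (Pi.single j 1 : Fin n → ℤ) i * (Pi.single j 1 : Fin n → ℤ) i = 1 := by
    intro j
    rw [Finset.sum_eq_single j]
    · simp
    · intro i _ hi
      rw [Pi.single_eq_of_ne hi, mul_zero]
    · intro h
      exact absurd (Finset.mem_univ j) h
  obtain ⟨wi, hwi⟩ := (Deg_fan hn).primitive (fun _ => (-1 : ℤ)) (by
    unfold Deg_R
    exact Finset.mem_insert_self _ _)
  have hve : ∀ j : Fin n, ∃ v : DivVal (Kn n), v.ord = monOrd (Pi.single j 1) := fun j =>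
    hTorV n _ _ (hpe j)
  choose ve hve using hve
  obtain ⟨vi, hvi⟩ := hTorV n _ wi hwi
  have hvex : ∀ (u : Fin n → ℤ) (j : Fin n), (ve j).ord (xm u) = u j := by
    intro u j
    rw [Sum_ord_xm, Finset.sum_eq_single j]
    · rw [hve j, Sum_monx hExt hMon]
      simp
    · intro k _ hk
      rw [hve j, Sum_monx hExt hMon, Pi.single_eq_of_ne hk, mul_zero]
    · intro h
      exact absurd (Finset.mem_univ j) h
  -- generators without poles
  have hpol : ∀ F : LinSys (Kn n), (∀ f ∈ F.gens, IsLaurent f) → (∀ j, F.div (ve j) = 0) →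
      ∀ f ∈ F.gens, ∃ p : Pn n, f = algebraMap (Pn n) (Kn n) p ∧
        (p.totalDegree : ℤ) ≤ F.div vi := by
    intro F hF h0 f hf
    obtain ⟨p, hp⟩ := Poly_poly hExt hMon (hF f hf) (F.ne_zero f hf) ve hve (fun j => by
      have := Norm_le_div F (ve j) hf
      rw [h0 j] at this
      omega)
    refine ⟨p, hp, ?_⟩
    have h1 := Norm_le_div F vi hf
    have hp0 : p ≠ 0 := by
      rintro rfl
      exact F.ne_zero f hf (by rw [hp, map_zero])
    have h2 : vi.ord f = - (p.totalDegree : ℤ) := by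
      rw [hp, hvi]
      exact Deg_P_neg hExt hMon hp0
    omega
  obtain ⟨-, A0, hA0, hAF⟩ := hM
  set u : Fin n → ℤ := fun j => A0.div (ve j) with hu
  set A1 : LinSys (Kn n) := Norm_scale A0 (xm u) (Sum_xm_ne u) with hA1
  have hA1d : ∀ v, A1.div v = A0.div v - v.ord (xm u) := fun v => Norm_div_scale _ _ _ _
  have hA1e : ∀ j, A1.div (ve j) = 0 := by
    intro j
    rw [hA1d, hvex, hu]
    ring
  have hA1L : ∀ f ∈ A1.gens, IsLaurent f := by
    intro g hg
    obtain ⟨f, hf, rfl⟩ := Norm_mem_scale.1 hg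
    exact Deg_laurent_mul (hA0 f hf) _
  have hApol := hpol A1 hA1L hA1e
  have hα0 : 0 ≤ A1.div vi := by
    obtain ⟨f, hf⟩ := A1.nonempty
    obtain ⟨p, -, hp⟩ := hApol f hf
    exact le_trans (Int.natCast_nonneg _) hp
  set α : ℕ := (A1.div vi).toNat with hα
  have hαe : (α : ℤ) = A1.div vi := Int.toNat_of_nonneg hα0
  obtain ⟨A, hA⟩ := Poly_sys (D := α) A1 (fun f hf => by
    obtain ⟨p, hp, hd⟩ := hApol f hf
    refine ⟨p, hp, ?_⟩
    omega)
  refine ⟨α, A, fun m hm => ?_⟩
  obtain ⟨N, F0, hN, hF0, hNF⟩ := hAF m hm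
  set F1 : LinSys (Kn n) := Norm_scale F0 (xm ((N : ℤ) • u)) (Sum_xm_ne _) with hF1
  have hF1d : ∀ v, F1.div v = (N : ℤ) * ((m : ℤ) * M v + A1.div v) := by
    intro v
    rw [hF1, Norm_div_scale, ← hNF v, Deg_xm_smul, hA1d]
    ring
  have hF1e : ∀ j, F1.div (ve j) = 0 := by
    intro j
    rw [hF1d, hA1e, hMe j _ (hve j)]
    ring
  have hF1L : ∀ f ∈ F1.gens, IsLaurent f := by
    intro g hg
    obtain ⟨f, hf, rfl⟩ := Norm_mem_scale.1 hg
    exact Deg_laurent_mul (hF0 f hf) _
  have hFpol := hpol F1 hF1L hF1e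
  have hF1i : F1.div vi = ((N * (m + α) : ℕ) : ℤ) := by
    rw [hF1d, hMi vi hvi, ← hαe]
    push_cast
    ring
  obtain ⟨F, hF⟩ := Poly_sys (D := N * (m + α)) F1 (fun f hf => by
    obtain ⟨p, hp, hd⟩ := hFpol f hf
    refine ⟨p, hp, ?_⟩
    rw [hF1i] at hd
    exact_mod_cast hd)
  refine ⟨N, F, hN, fun v => ?_⟩
  rw [hF, hA, hF1d]

end Pool.Agent.Helper53.CX
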