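import Pool.Agent.Helper53.CX.St
import Pool.Agent.Helper53.CX.St2

/-!
# Project CX, part 2, module Pt: a closed point in the centre of a valuation
-/

set_option autoImplicit false

open scoped BigOperators
open MvPolynomial

namespace Pool.Agent.Helper53.CX

theorem Pt_ord_one {K : Type} [Field K] [Algebra ℂ K] (v : DivVal K) : v.ord 1 = 0 := by
  have h := v.ord_mul 1 1 one_ne_zero one_ne_zero
  rw [mul_one] at h
  omega

/-- constants have order at least zero -/
theorem Pt_const {K : Type} [Field K] [Algebra ℂ K] (v : DivVal K) (c : ℂ) :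
    0 ≤ v.ord (algebraMap ℂ K c) := by
  by_cases hc : algebraMap ℂ K c = 0
  · rw [hc, v.ord_zero]
  · obtain ⟨R, _, h0, _⟩ := v.exists_model
    exact h0 _ (R.algebraMap_mem c) hc

/-- elements of nonnegative order: sums -/
theorem Pt_add {K : Type} [Field K] [Algebra ℂ K] (v : DivVal K) {f g : K} {m : ℤ}
    (hf : f = 0 ∨ m ≤ v.ord f) (hg : g = 0 ∨ m ≤ v.ord g) : f + g = 0 ∨ m ≤ v.ord (f + g) := by
  by_cases h0 : f + g = 0
  · exact Or.inl h0
  right
  by_cases hf0 : f = 0
  · subst hf0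
    rw [zero_add] at h0 ⊢
    rcases hg with hg | hg
    · exact absurd hg h0
    · exact hg
  by_cases hg0 : g = 0
  · subst hg0
    rw [add_zero] at h0 ⊢
    rcases hf with hf | hf
    · exact absurd hf h0
    · exact hf
  have hf' : m ≤ v.ord f := by
    rcases hf with hf | hf
    · exact absurd hf hf0
    · exact hf
  have hg' : m ≤ v.ord g := by
    rcases hg with hg | hg
    · exact absurd hg hg0
    · exact hg
  exact le_trans (le_min hf' hg') (v.ord_add f g hf0 hg0 h0)

theorem Pt_mul {K : Type} [Field K] [Algebra ℂ K] (v : DivVal K) {f g : K} {m m' : ℤ}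
    (hf : f = 0 ∨ m ≤ v.ord f) (hg : g = 0 ∨ m' ≤ v.ord g) :
    f * g = 0 ∨ m + m' ≤ v.ord (f * g) := by
  by_cases hf0 : f = 0
  · left; rw [hf0, zero_mul]
  by_cases hg0 : g = 0
  · left; rw [hg0, mul_zero]
  right
  rw [v.ord_mul f g hf0 hg0]
  have hf' : m ≤ v.ord f := by
    rcases hf with hf | hf
    · exact absurd hf hf0
    · exact hf
  have hg' : m' ≤ v.ord g := by
    rcases hg with hg | hg
    · exact absurd hg hg0
    · exact hg
  omega

/-- polynomials in elements of nonnegative order -/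
theorem Pt_aeval {n : ℕ} {K : Type} [Field K] [Algebra ℂ K] (v : DivVal K) (ξ : Fin n → K)
    (h : ∀ j, 0 ≤ v.ord (ξ j)) (p : Pn n) : aeval ξ p = 0 ∨ 0 ≤ v.ord (aeval ξ p) := by
  induction p using MvPolynomial.induction_on with
  | C a => right; rw [aeval_C]; exact Pt_const v a
  | add p q hp hq => rw [map_add]; exact Pt_add v hp hq
  | mul_X p j hp =>
    rw [map_mul, aeval_X]
    simpa using Pt_mul v hp (Or.inr (h j) : ξ j = 0 ∨ (0 : ℤ) ≤ v.ord (ξ j))

/-- the ideal of the centre -/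
def PtIdeal {n : ℕ} {K : Type} [Field K] [Algebra ℂ K] (v : DivVal K) (ξ : Fin n → K)
    (h : ∀ j, 0 ≤ v.ord (ξ j)) : Ideal (Pn n) where
  carrier := {p | aeval ξ p = 0 ∨ 1 ≤ v.ord (aeval ξ p)}
  zero_mem' := by left; rw [map_zero]
  add_mem' := by
    intro p q hp hq
    change aeval ξ (p + q) = 0 ∨ 1 ≤ v.ord (aeval ξ (p + q))
    rw [map_add]
    exact Pt_add v hp hq
  smul_mem' := by
    intro c p hp
    change aeval ξ (c • p) = 0 ∨ 1 ≤ v.ord (aeval ξ (c • p))
    rw [smul_eq_mul, map_mul]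
    have := Pt_mul v (Pt_aeval v ξ h c) hp
    simpa using this

theorem hPt : StPt := by
  intro n v ξ h
  have hne : PtIdeal v ξ h ≠ ⊤ := by
    intro htop
    have h1 : (1 : Pn n) ∈ PtIdeal v ξ h := by rw [htop]; trivial
    have h2 : aeval ξ (1 : Pn n) = 0 ∨ 1 ≤ v.ord (aeval ξ (1 : Pn n)) := h1
    rw [map_one, Pt_ord_one] at h2
    rcases h2 with h2 | h2
    · exact one_ne_zero h2
    · omega
  obtain ⟨m, hm, hle⟩ := Ideal.exists_le_maximal _ hne
  obtain ⟨c, hc⟩ := (isMaximal_iff_eq_vanishingIdeal_singleton (K := ℂ)).1 hm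
  refine ⟨c, fun p hp => ?_⟩
  have hnot : p ∉ PtIdeal v ξ h := by
    intro hmem
    have h3 := hle hmem
    rw [hc, mem_vanishingIdeal_singleton_iff] at h3
    exact hp (by rw [← h3]; rfl)
  have h4 : ¬ (aeval ξ p = 0 ∨ 1 ≤ v.ord (aeval ξ p)) := hnot
  push Not at h4
  refine ⟨h4.1, ?_⟩
  rcases Pt_aeval v ξ h p with h5 | h5
  · exact absurd h5 h4.1
  · omega

end Pool.Agent.Helper53.CX
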