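import Pool.Agent.Helper53.CX.St

/-!
Project CX (MP_140278_ag), module Trc: the toric trace of a nef Cartier b-divisor is subadditive.
-/

set_option autoImplicit false

open scoped BigOperators
open MvPolynomial

namespace Pool.Agent.Helper53.CX

theorem Trc_ext {K : Type} [Field K] [Algebra ℂ K] (v w : DivVal K) (h : v.ord = w.ord) :
    v = w := by
  cases v
  cases w
  simp only at h
  subst h
  rfl

/-- decomposition into a primitive vector and a content -/
theorem Trc_prim {n : ℕ} (a : Fin n → ℤ) (ha : a ≠ 0) :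
    ∃ (k : ℕ) (a' u : Fin n → ℤ), 1 ≤ k ∧ a = (k : ℤ) • a' ∧ ∑ j, a' j * u j = 1 := by
  obtain ⟨g, hg⟩ := IsPrincipalIdealRing.principal (Ideal.span (Set.range a))
  have hmem : ∀ j, ∃ c, a j = g * c := by
    intro j
    have h1 : a j ∈ Ideal.span (Set.range a) := Ideal.subset_span ⟨j, rfl⟩
    rw [hg] at h1
    obtain ⟨c, hc⟩ := Ideal.mem_span_singleton'.1 h1
    exact ⟨c, by rw [← hc, mul_comm]⟩
  have hgm : g ∈ Ideal.span (Set.range a) := by
    rw [hg]
    exact Ideal.mem_span_singleton_self g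
  obtain ⟨c, hc⟩ := Ideal.mem_span_range_iff_exists_fun.1 hgm
  choose a' ha' using hmem
  have hg0 : g ≠ 0 := by
    rintro rfl
    apply ha
    funext j
    rw [ha' j, zero_mul]
    rfl
  have hsum : ∑ j, a' j * c j = 1 := by
    have h1 : g * ∑ j, a' j * c j = g * 1 := by
      rw [Finset.mul_sum, mul_one]
      conv_rhs => rw [← hc]
      refine Finset.sum_congr rfl fun j _ => ?_
      rw [ha' j]
      ring
    exact mul_left_cancel₀ hg0 h1
  rcases lt_or_gt_of_ne hg0 with hneg | hpos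
  · refine ⟨g.natAbs, -a', -c, ?_, ?_, ?_⟩
    · exact Int.natAbs_pos.2 hg0
    · funext j
      have h1 : (g.natAbs : ℤ) = -g := by
        rw [Int.natCast_natAbs, abs_of_neg hneg]
      simp only [Pi.smul_apply, Pi.neg_apply, smul_eq_mul, h1, ha' j]
      ring
    · rw [← hsum]
      refine Finset.sum_congr rfl fun j _ => ?_
      simp
  · refine ⟨g.natAbs, a', c, ?_, ?_, hsum⟩
    · exact Int.natAbs_pos.2 hg0
    · funext j
      have h1 : (g.natAbs : ℤ) = g := by
        rw [Int.natCast_natAbs, abs_of_pos hpos]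
      simp only [Pi.smul_apply, smul_eq_mul, h1, ha' j]

/-- the decomposition is unique -/
theorem Trc_uniq {n : ℕ} (k l : ℕ) (a b u w : Fin n → ℤ) (hk : 1 ≤ k) (hl : 1 ≤ l)
    (h : (k : ℤ) • a = (l : ℤ) • b) (ha : ∑ j, a j * u j = 1) (hb : ∑ j, b j * w j = 1) :
    k = l ∧ a = b := by
  have hj : ∀ j, (k : ℤ) * a j = l * b j := fun j => congrFun h j
  have h1 : (k : ℤ) = l * ∑ j, b j * u j := by
    calc (k : ℤ) = k * ∑ j, a j * u j := by rw [ha, mul_one]
      _ = l * ∑ j, b j * u j := by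
        rw [Finset.mul_sum, Finset.mul_sum]
        refine Finset.sum_congr rfl fun j _ => ?_
        rw [← mul_assoc, hj j, mul_assoc]
  have h2 : (l : ℤ) = k * ∑ j, a j * w j := by
    calc (l : ℤ) = l * ∑ j, b j * w j := by rw [hb, mul_one]
      _ = k * ∑ j, a j * w j := by
        rw [Finset.mul_sum, Finset.mul_sum]
        refine Finset.sum_congr rfl fun j _ => ?_
        rw [← mul_assoc, ← hj j, mul_assoc]
  have h3 : l ∣ k := Int.natCast_dvd_natCast.1 ⟨_, h1⟩
  have h4 : k ∣ l := Int.natCast_dvd_natCast.1 ⟨_, h2⟩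
  have h5 : k = l := Nat.dvd_antisymm h4 h3
  refine ⟨h5, ?_⟩
  subst h5
  funext j
  have hk0 : (k : ℤ) ≠ 0 := by
    have : 0 < k := hk
    exact_mod_cast this.ne'
  exact mul_left_cancel₀ hk0 (hj j)

/-- the toric trace of a linear system -/
noncomputable def Trc_tl {n : ℕ} (F : LinSys (Kn n)) (a : Fin n → ℤ) : ℤ :=
  F.gens.sup' F.nonempty (fun f => - monOrd a f)

theorem Trc_div {n : ℕ} (F : LinSys (Kn n)) (a : Fin n → ℤ) (v : DivVal (Kn n))
    (h : v.ord = monOrd a) : F.div v = Trc_tl F a := by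
  unfold LinSys.div Trc_tl
  rw [h]

theorem Trc_hom {n : ℕ} (hMonL : StMonL) (F : LinSys (Kn n)) (k : ℕ) (a : Fin n → ℤ) :
    Trc_tl F ((k : ℤ) • a) = (k : ℤ) * Trc_tl F a := by
  have hh := (hMonL n).1
  have hk : (0 : ℤ) ≤ k := Int.natCast_nonneg k
  apply le_antisymm
  · refine Finset.sup'_le _ _ fun f hf => ?_
    rw [hh k a f]
    have h1 : - monOrd a f ≤ Trc_tl F a :=
      Finset.le_sup' (f := fun f => - monOrd a f) hf
    calc -((k : ℤ) * monOrd a f) = k * (- monOrd a f) := by ring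
      _ ≤ k * Trc_tl F a := mul_le_mul_of_nonneg_left h1 hk
  · obtain ⟨f, hf, he⟩ := Finset.exists_mem_eq_sup' F.nonempty (fun f => - monOrd a f)
    have h2 : Trc_tl F a = - monOrd a f := he
    rw [h2]
    calc (k : ℤ) * (- monOrd a f) = - monOrd ((k : ℤ) • a) f := by rw [hh k a f]; ring
      _ ≤ Trc_tl F ((k : ℤ) • a) :=
        Finset.le_sup' (f := fun f => - monOrd ((k : ℤ) • a) f) hf

theorem Trc_sub {n : ℕ} (hMonL : StMonL) (F : LinSys (Kn n)) (hF : ∀ f ∈ F.gens, IsLaurent f)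
    (a b : Fin n → ℤ) : Trc_tl F (a + b) ≤ Trc_tl F a + Trc_tl F b := by
  refine Finset.sup'_le _ _ fun f hf => ?_
  have h0 := (hMonL n).2.1 a b f (hF f hf) (F.ne_zero f hf)
  have h1 : - monOrd a f ≤ Trc_tl F a :=
    Finset.le_sup' (f := fun f => - monOrd a f) hf
  have h2 : - monOrd b f ≤ Trc_tl F b :=
    Finset.le_sup' (f := fun f => - monOrd b f) hf
  linarith

open Classical in
/-- the toric trace of a b-divisor -/
noncomputable def Trc_MT {n : ℕ} (M : DivVal (Kn n) → ℤ) (a : Fin n → ℤ) : ℤ :=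
  if h : ∃ (k : ℕ) (a' u : Fin n → ℤ) (v : DivVal (Kn n)), 1 ≤ k ∧ a = (k : ℤ) • a' ∧
    ∑ j, a' j * u j = 1 ∧ v.ord = monOrd a' then
    (h.choose : ℤ) * M h.choose_spec.choose_spec.choose_spec.choose else 0

theorem Trc_val {n : ℕ} (M : DivVal (Kn n) → ℤ) (k : ℕ) (a u : Fin n → ℤ) (v : DivVal (Kn n))
    (hk : 1 ≤ k) (hu : ∑ j, a j * u j = 1) (hv : v.ord = monOrd a) :
    Trc_MT M ((k : ℤ) • a) = k * M v := by
  have h : ∃ (k' : ℕ) (a' u' : Fin n → ℤ) (v' : DivVal (Kn n)), 1 ≤ k' ∧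
      (k : ℤ) • a = (k' : ℤ) • a' ∧ ∑ j, a' j * u' j = 1 ∧ v'.ord = monOrd a' :=
    ⟨k, a, u, v, hk, rfl, hu, hv⟩
  unfold Trc_MT
  rw [dif_pos h]
  obtain ⟨h1, h2, h3, h4⟩ := h.choose_spec.choose_spec.choose_spec.choose_spec
  obtain ⟨h5, h6⟩ := Trc_uniq k h.choose a h.choose_spec.choose u
    h.choose_spec.choose_spec.choose hk h1 h2 hu h3
  have h7 : h.choose_spec.choose_spec.choose_spec.choose = v :=
    Trc_ext _ _ (by rw [h4, hv, ← h6])
  rw [h7, ← h5]

theorem Trc_zero {n : ℕ} (M : DivVal (Kn n) → ℤ) : Trc_MT M (0 : Fin n → ℤ) = 0 := by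
  unfold Trc_MT
  rw [dif_neg]
  rintro ⟨k, a, u, v, hk, h, hu, -⟩
  have hk0 : (k : ℤ) ≠ 0 := by
    have : 0 < k := hk
    exact_mod_cast this.ne'
  have ha : ∀ j, a j = 0 := by
    intro j
    have h1 : (k : ℤ) * a j = k * 0 := by
      rw [mul_zero]
      exact (congrFun h j).symm
    exact mul_left_cancel₀ hk0 h1
  simp [ha] at hu

theorem hTrc (_hExt : StExt) (_hMon : StMon) (hTorV : StTorV) (hMonL : StMonL) : StTrc := by
  intro n M hM
  obtain ⟨-, A, hA, hm⟩ := hM
  refine ⟨Trc_MT M, ?_, ?_, ?_⟩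
  · intro a u v hu hv
    have h1 := Trc_val M 1 a u v le_rfl hu hv
    simpa using h1
  · intro k a
    by_cases ha : a = 0
    · subst ha
      rw [smul_zero, Trc_zero, mul_zero]
    · by_cases hk : k = 0
      · subst hk
        rw [Nat.cast_zero, zero_smul, Trc_zero, zero_mul]
      · obtain ⟨l, a', u, hl, hla, hu⟩ := Trc_prim a ha
        obtain ⟨v, hv⟩ := hTorV n a' u hu
        have h1 : (k : ℤ) • a = ((k * l : ℕ) : ℤ) • a' := by
          rw [hla, smul_smul, Nat.cast_mul]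
        have hkl : 1 ≤ k * l := Nat.mul_pos (Nat.pos_of_ne_zero hk) hl
        rw [h1, Trc_val M (k * l) a' u v hkl hu hv]
        conv_rhs => rw [hla, Trc_val M l a' u v hl hu hv]
        rw [Nat.cast_mul, mul_assoc]
  · intro a b
    -- the basic identity
    have key : ∀ (m N : ℕ) (F : LinSys (Kn n)),
        (∀ v : DivVal (Kn n), (N : ℤ) * ((m : ℤ) * M v + A.div v) = F.div v) →
        ∀ c : Fin n → ℤ, (N : ℤ) * ((m : ℤ) * Trc_MT M c + Trc_tl A c) = Trc_tl F c := by
      intro m N F hF c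
      by_cases hc : c = 0
      · subst hc
        have h0 : ∀ G : LinSys (Kn n), Trc_tl G (0 : Fin n → ℤ) = 0 := by
          intro G
          have h1 := Trc_hom hMonL G 0 (0 : Fin n → ℤ)
          rw [smul_zero, Nat.cast_zero, zero_mul] at h1
          exact h1
        rw [Trc_zero, h0, h0]
        ring
      · obtain ⟨l, c', u, hl, hlc, hu⟩ := Trc_prim c hc
        obtain ⟨v, hv⟩ := hTorV n c' u hu
        have h1 := hF v
        rw [Trc_div A c' v hv, Trc_div F c' v hv] at h1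
        rw [hlc, Trc_val M l c' u v hl hu hv, Trc_hom hMonL, Trc_hom hMonL, ← h1]
        ring
    by_contra hcon
    push Not at hcon
    have hD : 1 ≤ Trc_MT M (a + b) - (Trc_MT M a + Trc_MT M b) := by linarith
    obtain ⟨N, F, hN, hFL, hF⟩ := hm ((Trc_tl A a + Trc_tl A b - Trc_tl A (a + b)).natAbs + 1)
      (by omega)
    have k1 := key _ _ _ hF a
    have k2 := key _ _ _ hF b
    have k3 := key _ _ _ hF (a + b)
    have hs := Trc_sub hMonL F hFL a b
    rw [← k1, ← k2, ← k3, ← mul_add] at hs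
    have hN0 : (0 : ℤ) < N := by exact_mod_cast hN
    have h5 := le_of_mul_le_mul_left hs hN0
    have h6 : (Trc_tl A a + Trc_tl A b - Trc_tl A (a + b)) ≤
        ((Trc_tl A a + Trc_tl A b - Trc_tl A (a + b)).natAbs : ℤ) := Int.le_natAbs
    push_cast at h5
    set E := Trc_tl A a + Trc_tl A b - Trc_tl A (a + b) with hE
    set D := Trc_MT M (a + b) - (Trc_MT M a + Trc_MT M b) with hDd
    have h7 : ((E.natAbs : ℤ) + 1) * D ≤ E := by
      have h8 : (|E| + 1) * D ≤ E := by
        rw [hDd]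
        have : (|E| + 1) * (Trc_MT M (a + b) - (Trc_MT M a + Trc_MT M b)) ≤
            Trc_tl A a + Trc_tl A b - Trc_tl A (a + b) := by
          nlinarith [h5]
        exact this
      rw [Int.natCast_natAbs]
      exact h8
    have h9 : ((E.natAbs : ℤ) + 1) * 1 ≤ ((E.natAbs : ℤ) + 1) * D :=
      mul_le_mul_of_nonneg_left hD (by positivity)
    linarith

end Pool.Agent.Helper53.CX
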