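import Pool.Agent.Helper53.CX.St
import Pool.Agent.Helper53.CX.M_MonL
import Pool.Agent.Helper53.CX.M_Der
import Pool.Agent.Helper53.CX.M_Trc

/-!
Project CX (MP_140278_ag), module Rig: a normalised nef Cartier b-divisor with linear toric trace
is principal.
-/

set_option autoImplicit false

open scoped BigOperators
open MvPolynomial

namespace Pool.Agent.Helper53.CX

/-- the operator `θ_j - i` -/
noncomputable def Rig_D {n : ℕ} (ji : Fin n × ℤ) (f : Kn n) : Kn n :=
  theta ji.1 f - (ji.2 : Kn n) * f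

theorem Rig_theta_zero {n : ℕ} (j : Fin n) : theta j (0 : Kn n) = 0 := by
  have h := theta_add j (0 : Kn n) 0
  rw [add_zero] at h
  exact left_eq_add.1 h

theorem Rig_theta_one {n : ℕ} (j : Fin n) : theta j (1 : Kn n) = 0 := by
  have h := theta_algebraMap (n := n) j 1
  rwa [map_one] at h

theorem Rig_theta_inv {n : ℕ} (j : Fin n) (f : Kn n) (hf : f ≠ 0) :
    theta j f⁻¹ = - f⁻¹ * f⁻¹ * theta j f := by
  have h := theta_mul j f f⁻¹
  rw [mul_inv_cancel₀ hf, Rig_theta_one] at h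
  field_simp
  field_simp at h
  linear_combination (-1 : Kn n) * h

theorem Rig_theta_pow {n : ℕ} (j : Fin n) (f : Kn n) (e : ℤ) (hf : f ≠ 0)
    (h : theta j f = e * f) (k : ℕ) : theta j (f ^ k) = ((k : ℤ) * e : ℤ) * f ^ k := by
  induction k with
  | zero => simp [Rig_theta_one]
  | succ k ih =>
    rw [pow_succ, theta_mul, ih, h]
    push_cast
    ring

theorem Rig_theta_zpow {n : ℕ} (j : Fin n) (f : Kn n) (e : ℤ) (hf : f ≠ 0)
    (h : theta j f = e * f) (k : ℤ) : theta j (f ^ k) = (k * e : ℤ) * f ^ k := by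
  rcases k with k | k
  · rw [Int.ofNat_eq_natCast, zpow_natCast, Rig_theta_pow j f e hf h]
  · rw [zpow_negSucc, Rig_theta_inv j _ (pow_ne_zero _ hf), Rig_theta_pow j f e hf h,
      Int.negSucc_eq]
    have := pow_ne_zero (k + 1) hf
    field_simp
    push_cast
    ring

theorem Rig_theta_prod {n : ℕ} (j : Fin n) {ι : Type} (s : Finset ι) (g : ι → Kn n)
    (e : ι → ℤ) (h : ∀ i ∈ s, theta j (g i) = e i * g i) :
    theta j (∏ i ∈ s, g i) = ((∑ i ∈ s, e i : ℤ) : Kn n) * ∏ i ∈ s, g i := by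
  classical
  induction s using Finset.induction_on with
  | empty => simp [Rig_theta_one]
  | insert i s hi ih =>
    rw [Finset.prod_insert hi, Finset.sum_insert hi, theta_mul,
      ih fun l hl => h l (Finset.mem_insert_of_mem hl), h i (Finset.mem_insert_self _ _)]
    push_cast
    ring

theorem Rig_theta_xm {n : ℕ} (j : Fin n) (u : Fin n → ℤ) :
    theta j (xm u : Kn n) = (u j : Kn n) * xm u := by
  unfold xm
  rw [Rig_theta_prod j Finset.univ (fun i => (x i : Kn n) ^ (u i))
    (fun i => u i * (if i = j then 1 else 0))]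
  · congr 2
    simp
  · intro i _
    have h : theta j (x i : Kn n) = ((if i = j then 1 else 0 : ℤ) : Kn n) * x i := by
      rw [theta_x]
      split_ifs <;> simp
    exact Rig_theta_zpow j _ _ (MonL_x_ne i) h (u i)

theorem Rig_theta_smul {n : ℕ} (j : Fin n) (c : ℂ) (f : Kn n) :
    theta j (algebraMap ℂ (Kn n) c * f) = algebraMap ℂ (Kn n) c * theta j f := by
  rw [theta_mul, theta_algebraMap, mul_zero, add_zero]

theorem Rig_D_zero {n : ℕ} (a : Fin n × ℤ) : Rig_D a (0 : Kn n) = 0 := by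
  simp [Rig_D, Rig_theta_zero]

theorem Rig_D_add {n : ℕ} (a : Fin n × ℤ) (f g : Kn n) :
    Rig_D a (f + g) = Rig_D a f + Rig_D a g := by
  unfold Rig_D
  rw [theta_add]; ring

theorem Rig_D_xm {n : ℕ} (a : Fin n × ℤ) (c : ℂ) (u : Fin n → ℤ) :
    Rig_D a (algebraMap ℂ (Kn n) c * xm u) =
      algebraMap ℂ (Kn n) (c * ((u a.1 - a.2 : ℤ) : ℂ)) * xm u := by
  unfold Rig_D
  rw [Rig_theta_smul, Rig_theta_xm, map_mul, map_intCast]
  push_cast
  ring

/-- composition of the operators of a list -/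
noncomputable def Rig_L {n : ℕ} (l : List (Fin n × ℤ)) (f : Kn n) : Kn n := l.foldr Rig_D f

theorem Rig_L_zero {n : ℕ} (l : List (Fin n × ℤ)) : Rig_L l (0 : Kn n) = 0 := by
  induction l with
  | nil => rfl
  | cons a l ih =>
    change Rig_D a (Rig_L l 0) = 0
    rw [ih, Rig_D_zero]

theorem Rig_L_add {n : ℕ} (l : List (Fin n × ℤ)) (f g : Kn n) :
    Rig_L l (f + g) = Rig_L l f + Rig_L l g := by
  induction l with
  | nil => rfl
  | cons a l ih =>
    change Rig_D a (Rig_L l (f + g)) = Rig_D a (Rig_L l f) + Rig_D a (Rig_L l g)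
    rw [ih, Rig_D_add]

theorem Rig_L_sum {n : ℕ} (l : List (Fin n × ℤ)) {ι : Type} (s : Finset ι) (g : ι → Kn n) :
    Rig_L l (∑ i ∈ s, g i) = ∑ i ∈ s, Rig_L l (g i) := by
  classical
  induction s using Finset.induction_on with
  | empty => simp [Rig_L_zero]
  | insert i s hi ih => rw [Finset.sum_insert hi, Finset.sum_insert hi, Rig_L_add, ih]

theorem Rig_L_xm {n : ℕ} (l : List (Fin n × ℤ)) (c : ℂ) (u : Fin n → ℤ) :
    Rig_L l (algebraMap ℂ (Kn n) c * xm u) =
      algebraMap ℂ (Kn n) (c * (l.map fun a => ((u a.1 - a.2 : ℤ) : ℂ)).prod) * xm u := by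
  induction l with
  | nil => simp [Rig_L]
  | cons a l ih =>
    change Rig_D a (Rig_L l _) = _
    rw [ih, Rig_D_xm, List.map_cons, List.prod_cons]
    congr 2
    ring

/-- one operator lowers the order by at most `C` -/
theorem Rig_D_ord {n : ℕ} (v : DivVal (Kn n)) (C : ℤ) (hC : 0 ≤ C)
    (hD : ∀ (j : Fin n) (f : Kn n), f ≠ 0 → theta j f ≠ 0 → v.ord f - C ≤ v.ord (theta j f))
    (a : Fin n × ℤ) (f : Kn n) (h : Rig_D a f ≠ 0) : v.ord f - C ≤ v.ord (Rig_D a f) := by
  have hf : f ≠ 0 := by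
    rintro rfl
    exact h (Rig_D_zero a)
  have h1 : Der_Ge v (v.ord f - C) (theta a.1 f) := by
    by_cases h0 : theta a.1 f = 0
    · exact Or.inl h0
    · exact Or.inr (hD a.1 f hf h0)
  have h2 : Der_Ge v (v.ord f - C) (-((a.2 : Kn n) * f)) := by
    by_cases h0 : (a.2 : Kn n) = 0
    · left; rw [h0, zero_mul, neg_zero]
    · right
      rw [Der_ord_neg, v.ord_mul _ _ h0 hf]
      have h3 : v.ord (a.2 : Kn n) = 0 := by
        have e : (a.2 : Kn n) = algebraMap ℂ (Kn n) (a.2 : ℂ) := by rw [map_intCast]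
        rw [e]
        apply MonL_const
        intro h4
        apply h0
        rw [e, h4, map_zero]
      rw [h3]
      linarith
  have h3 : Rig_D a f = theta a.1 f + -((a.2 : Kn n) * f) := by
    unfold Rig_D; ring
  rw [h3] at h ⊢
  rcases Der_Ge_add h1 h2 with h4 | h4
  · exact absurd h4 h
  · exact h4

theorem Rig_L_ord {n : ℕ} (v : DivVal (Kn n)) (C : ℤ) (hC : 0 ≤ C)
    (hD : ∀ (j : Fin n) (f : Kn n), f ≠ 0 → theta j f ≠ 0 → v.ord f - C ≤ v.ord (theta j f))
    (l : List (Fin n × ℤ)) (f : Kn n) (h : Rig_L l f ≠ 0) :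
    v.ord f - l.length * C ≤ v.ord (Rig_L l f) := by
  induction l with
  | nil => simp [Rig_L]
  | cons a l ih =>
    have e : Rig_L (a :: l) f = Rig_D a (Rig_L l f) := rfl
    rw [e] at h ⊢
    have h1 : Rig_L l f ≠ 0 := by
      intro h0
      exact h (by rw [h0, Rig_D_zero])
    have h2 := ih h1
    have h3 := Rig_D_ord v C hC hD a _ h
    rw [List.length_cons]
    push_cast
    linarith

/-- the order of a Laurent polynomial with exponents in a box -/
theorem Rig_box {n : ℕ} (v : DivVal (Kn n)) (C : ℤ) (hC : 0 ≤ C)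
    (hD : ∀ (j : Fin n) (f : Kn n), f ≠ 0 → theta j f ≠ 0 → v.ord f - C ≤ v.ord (theta j f))
    (B : ℕ) (E : Finset (Fin n →₀ ℕ)) (w : Fin n → ℤ) (c : (Fin n →₀ ℕ) → ℂ)
    (hE : E.Nonempty) (hc : ∀ m ∈ E, c m ≠ 0)
    (hbox : ∀ m ∈ E, ∀ j, -(B : ℤ) ≤ m j + w j ∧ m j + w j ≤ B) :
    v.ord (∑ m ∈ E, algebraMap ℂ (Kn n) (c m) * xm (fun j => m j + w j)) ≤
      B * (2 * n * C + ∑ j, |v.ord (x j)|) := by
  classical
  obtain ⟨m₀, hm₀⟩ := hE
  set e₀ : Fin n → ℤ := fun j => m₀ j + w j with he₀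
  -- the list of operators
  set S : Finset (Fin n × ℤ) :=
    (Finset.univ ×ˢ Finset.Icc (-(B : ℤ)) B).filter (fun a => a.2 ≠ e₀ a.1) with hS
  have hScard : S.card ≤ n * (2 * B) := by
    have h1 : S = (Finset.univ : Finset (Fin n)).biUnion
        (fun j => ((Finset.Icc (-(B : ℤ)) B).erase (e₀ j)).map
          ⟨fun i => (j, i), fun a b h => (Prod.mk.injEq _ _ _ _ ▸ h).2⟩) := by
      ext ⟨j, i⟩
      simp only [hS, Finset.mem_filter, Finset.mem_product, Finset.mem_univ, true_and,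
        Finset.mem_biUnion, Finset.mem_map, Finset.mem_erase, Function.Embedding.coeFn_mk,
        Prod.mk.injEq]
      constructor
      · rintro ⟨h1, h2⟩
        exact ⟨j, i, ⟨h2, h1⟩, rfl, rfl⟩
      · rintro ⟨j', i', ⟨h2, h1⟩, rfl, rfl⟩
        exact ⟨h1, h2⟩
    rw [h1]
    refine Finset.card_biUnion_le.trans ?_
    calc ∑ j : Fin n, (((Finset.Icc (-(B : ℤ)) B).erase (e₀ j)).map _).card
        ≤ ∑ _j : Fin n, 2 * B := by
          apply Finset.sum_le_sum
          intro j _
          rw [Finset.card_map, Finset.card_erase_of_mem (Finset.mem_Icc.2 (hbox m₀ hm₀ j)),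
            Int.card_Icc]
          omega
      _ = n * (2 * B) := by simp
  set l := S.toList with hl
  have hll : l.length = S.card := Finset.length_toList _
  -- the product of the eigenvalues
  have hprod : ∀ m : Fin n →₀ ℕ, (l.map fun a => ((((m a.1 : ℤ) + w a.1) - a.2 : ℤ) : ℂ)).prod =
      ∏ a ∈ S, ((((m a.1 : ℤ) + w a.1) - a.2 : ℤ) : ℂ) := by
    intro u
    rw [hl]
    exact Finset.prod_map_toList _ _
  have hz : ∀ m ∈ E, (fun j => (m j : ℤ) + w j) ≠ e₀ →
      ∏ a ∈ S, ((((m a.1 : ℤ) + w a.1) - a.2 : ℤ) : ℂ) = 0 := by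
    intro m hm hne
    obtain ⟨j, hj⟩ := Function.ne_iff.1 hne
    apply Finset.prod_eq_zero (i := (j, (m j : ℤ) + w j))
    · rw [hS, Finset.mem_filter, Finset.mem_product]
      exact ⟨⟨Finset.mem_univ _, Finset.mem_Icc.2 (hbox m hm j)⟩, hj⟩
    · simp
  have hnz : ∏ a ∈ S, ((e₀ a.1 - a.2 : ℤ) : ℂ) ≠ 0 := by
    rw [Finset.prod_ne_zero_iff]
    intro a ha
    rw [hS, Finset.mem_filter] at ha
    rw [Int.cast_ne_zero, sub_ne_zero]
    exact ha.2.symm
  set g := ∑ m ∈ E, algebraMap ℂ (Kn n) (c m) * xm (fun j => m j + w j) with hg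
  set π₀ := ∏ a ∈ S, ((e₀ a.1 - a.2 : ℤ) : ℂ) with hπ₀
  have hLg : Rig_L l g = algebraMap ℂ (Kn n) (c m₀ * π₀) * xm e₀ := by
    rw [hg, Rig_L_sum, Finset.sum_eq_single m₀]
    · rw [Rig_L_xm, hprod m₀]
    · intro m hm hne
      rw [Rig_L_xm, hprod m, hz m hm, mul_zero, map_zero, zero_mul]
      intro h
      apply hne
      ext j
      have := congrFun h j
      simp only [he₀] at this
      have h2 : (m j : ℤ) = m₀ j := by linarith
      exact_mod_cast h2
    · intro h; exact absurd hm₀ h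
  have hc0 : c m₀ * π₀ ≠ 0 := mul_ne_zero (hc m₀ hm₀) hnz
  have hLg0 : Rig_L l g ≠ 0 := by
    rw [hLg]
    exact mul_ne_zero (by rw [Ne, map_eq_zero]; exact hc0) (MonL_xm_ne _)
  have h1 := Rig_L_ord v C hC hD l g hLg0
  rw [hLg, v.ord_mul _ _ (by rw [Ne, map_eq_zero]; exact hc0) (MonL_xm_ne _), MonL_const v _ hc0,
    zero_add, MonL_xm v.ord v.ord_mul] at h1
  have h2 : ∑ j, e₀ j * v.ord (x j) ≤ B * ∑ j, |v.ord (x j)| := by
    rw [Finset.mul_sum]
    apply Finset.sum_le_sum
    intro j _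
    have h3 := hbox m₀ hm₀ j
    have h4 : |e₀ j| ≤ B := abs_le.2 h3
    calc e₀ j * v.ord (x j) ≤ |e₀ j * v.ord (x j)| := le_abs_self _
      _ = |e₀ j| * |v.ord (x j)| := abs_mul _ _
      _ ≤ B * |v.ord (x j)| := mul_le_mul_of_nonneg_right h4 (abs_nonneg _)
  have h3 : (l.length : ℤ) * C ≤ (n * (2 * B)) * C := by
    apply mul_le_mul_of_nonneg_right _ hC
    rw [hll]
    exact_mod_cast hScard
  have h5 : (B : ℤ) * (2 * n * C + ∑ j, |v.ord (x j)|) =
      (n * (2 * B)) * C + B * ∑ j, |v.ord (x j)| := by ring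
  rw [h5]
  linarith

theorem hRig (hExt : StExt) (hMon : StMon) (hTorV : StTorV) (hMonL : StMonL) (hDer : StDer) :
    StRig := by
  classical
  intro n M hM hlin
  obtain ⟨u, hu⟩ := hlin
  obtain ⟨-, A, hA, hm⟩ := hM
  have E := fun a : Fin n → ℤ => hExt n (monO a) (hMon n a).1 (hMon n a).2
  have hx : ∀ (a : Fin n → ℤ) (j : Fin n), monOrd a (x j : Kn n) = a j := by
    intro a j
    have := (E a).2.2.2 (X j) (X_ne_zero j)
    rw [MonL_monO_X] at this
    exact this
  have hxm : ∀ (a u : Fin n → ℤ), monOrd a (xm u : Kn n) = ∑ j, u j * a j := by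
    intro a u
    rw [MonL_xm (monOrd a) (E a).2.1 u]
    exact Finset.sum_congr rfl fun j _ => by rw [hx]
  have hL : ∀ (a u : Fin n → ℤ) (p : Pn n), p ≠ 0 →
      monOrd a (algebraMap (Pn n) (Kn n) p * xm u) = monO a p + ∑ j, u j * a j := by
    intro a u p hp
    have h1 := (E a).2.1 (algebraMap (Pn n) (Kn n) p) (xm u)
      (by rw [Ne, IsFractionRing.to_map_eq_zero_iff]; exact hp) (MonL_xm_ne u)
    have h2 := (E a).2.2.2 p hp
    have h3 := hxm a u
    unfold monOrd at h3 ⊢
    rw [h1, h2, h3]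
  -- the basic identity for the toric trace
  have key : ∀ (m N : ℕ) (F : LinSys (Kn n)),
      (∀ v : DivVal (Kn n), (N : ℤ) * ((m : ℤ) * M v + A.div v) = F.div v) →
      ∀ c : Fin n → ℤ, (N : ℤ) * ((m : ℤ) * (∑ j, u j * c j) + Trc_tl A c) = Trc_tl F c := by
    intro m N F hF c
    by_cases hc : c = 0
    · subst hc
      have h0 : ∀ G : LinSys (Kn n), Trc_tl G (0 : Fin n → ℤ) = 0 := by
        intro G
        have h1 := Trc_hom hMonL G 0 (0 : Fin n → ℤ)
        rw [smul_zero, Nat.cast_zero, zero_mul] at h1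
        exact h1
      rw [h0, h0]
      simp
    · obtain ⟨l, c', w, hl, hlc, hw⟩ := Trc_prim c hc
      obtain ⟨v, hv⟩ := hTorV n c' w hw
      have h1 := hF v
      rw [Trc_div A c' v hv, Trc_div F c' v hv, hu c' w v hw hv] at h1
      have h2 : ∑ j, u j * ((l : ℤ) • c') j = l * ∑ j, u j * c' j := by
        rw [Finset.mul_sum]
        refine Finset.sum_congr rfl fun j _ => ?_
        rw [Pi.smul_apply, smul_eq_mul]; ring
      rw [hlc, Trc_hom hMonL, Trc_hom hMonL, ← h1, h2]
      ring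
  refine ⟨xm u, MonL_xm_ne u, fun v => ?_⟩
  rw [MonL_xm v.ord v.ord_mul u]
  set a : Fin n → ℤ := fun j => v.ord (x j) with ha
  set U := ∑ j, u j * v.ord (x j) with hU
  -- for every `m`
  have hFle : ∀ (F : LinSys (Kn n)) (f : Kn n), f ∈ F.gens → -v.ord f ≤ F.div v := by
    intro F f hf
    exact Finset.le_sup' (f := fun f => - v.ord f) hf
  have hTle : ∀ (F : LinSys (Kn n)) (f : Kn n) (b : Fin n → ℤ), f ∈ F.gens →
      -monOrd b f ≤ Trc_tl F b := by
    intro F f b hf
    exact Finset.le_sup' (f := fun f => - monOrd b f) hf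
  apply le_antisymm
  · -- upper bound
    by_contra hcon
    push Not at hcon
    obtain ⟨N, F, hN, hFL, hF⟩ := hm ((Trc_tl A a - A.div v).natAbs + 1) (by omega)
    have hN0 : (0 : ℤ) < N := by exact_mod_cast hN
    have h1 : F.div v ≤ Trc_tl F a := by
      refine Finset.sup'_le _ _ fun f hf => ?_
      have h2 := (hMonL n).2.2.1 v f (hFL f hf) (F.ne_zero f hf)
      have h3 := hTle F f a hf
      linarith
    rw [← key _ _ F hF a, ← hF v] at h1
    have h2 := le_of_mul_le_mul_left h1 hN0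
    have h3 : (Trc_tl A a - A.div v) ≤ ((Trc_tl A a - A.div v).natAbs : ℤ) := Int.le_natAbs
    set T := (((Trc_tl A a - A.div v).natAbs : ℕ) : ℤ) with hT
    have hT0 : 0 ≤ T := by rw [hT]; positivity
    have h4 : (((Trc_tl A a - A.div v).natAbs + 1 : ℕ) : ℤ) = T + 1 := by
      rw [hT]; exact Nat.cast_succ _
    rw [h4] at h2
    have h5 : (T + 1) * (U + 1) ≤ (T + 1) * M v := by
      apply mul_le_mul_of_nonneg_left _ (by linarith)
      linarith
    have h6 : ∑ j, u j * a j = U := rfl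
    rw [h6] at h2
    linarith
  · -- lower bound
    by_contra hcon
    push Not at hcon
    -- the constant of `StDer`
    have hDC : ∃ C : ℤ, 0 ≤ C ∧ ∀ (j : Fin n) (f : Kn n), f ≠ 0 → theta j f ≠ 0 →
        v.ord f - C ≤ v.ord (theta j f) := by
      choose Cj hCj using fun j => hDer n v j
      refine ⟨∑ j, |Cj j|, Finset.sum_nonneg fun j _ => abs_nonneg _, fun j f hf h0 => ?_⟩
      have h1 := hCj j f hf h0
      have h2 : Cj j ≤ ∑ j, |Cj j| :=
        (le_abs_self _).trans (Finset.single_le_sum (f := fun j => |Cj j|)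
          (fun i _ => abs_nonneg _) (Finset.mem_univ j))
      linarith
    obtain ⟨C, hC0, hC⟩ := hDC
    -- the box constant
    set cc : ℕ := ∑ j : Fin n, ((Trc_tl A (Pi.single j (1 : ℤ))).natAbs +
      (Trc_tl A (Pi.single j (-1 : ℤ))).natAbs) with hcc
    have hcc1 : ∀ j : Fin n, Trc_tl A (Pi.single j (1 : ℤ)) ≤ cc ∧
        Trc_tl A (Pi.single j (-1 : ℤ)) ≤ cc := by
      intro j
      have h1 : (Trc_tl A (Pi.single j (1 : ℤ))).natAbs +
        (Trc_tl A (Pi.single j (-1 : ℤ))).natAbs ≤ cc :=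
        Finset.single_le_sum (f := fun j : Fin n => (Trc_tl A (Pi.single j (1 : ℤ))).natAbs +
          (Trc_tl A (Pi.single j (-1 : ℤ))).natAbs) (fun i _ => Nat.zero_le _) (Finset.mem_univ j)
      constructor
      · have := Int.le_natAbs (a := Trc_tl A (Pi.single j (1 : ℤ)))
        omega
      · have := Int.le_natAbs (a := Trc_tl A (Pi.single j (-1 : ℤ)))
        omega
    set K : ℤ := cc * (2 * n * C + ∑ j, |v.ord (x j)|) with hK
    obtain ⟨N, F, hN, hFL, hF⟩ := hm ((A.div v + K).natAbs + 1) (by omega)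
    have hN0 : (0 : ℤ) < N := by exact_mod_cast hN
    set m := (A.div v + K).natAbs + 1 with hmd
    obtain ⟨f, hf⟩ := F.nonempty
    have hf0 := F.ne_zero f hf
    obtain ⟨p, w₀, hfp⟩ := hFL f hf
    have hp : p ≠ 0 := by
      rintro rfl
      rw [map_zero, zero_mul] at hfp
      exact hf0 hfp
    -- shifted element
    set w : Fin n → ℤ := fun j => w₀ j + (N : ℤ) * m * u j with hw
    have hxmw : (xm w : Kn n) = xm w₀ * xm (fun j => (N : ℤ) * m * u j) := by
      unfold xm
      rw [← Finset.prod_mul_distrib]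
      refine Finset.prod_congr rfl fun j _ => ?_
      rw [hw, zpow_add₀ (MonL_x_ne j)]
    set g : Kn n := algebraMap (Pn n) (Kn n) p * xm w with hg
    have hgf : g = f * xm (fun j => (N : ℤ) * m * u j) := by
      rw [hg, hxmw, hfp]; ring
    have hvg : v.ord g = v.ord f + N * m * U := by
      rw [hgf, v.ord_mul _ _ hf0 (MonL_xm_ne _), MonL_xm v.ord v.ord_mul, hU, Finset.mul_sum]
      congr 1
      refine Finset.sum_congr rfl fun j _ => ?_
      ring
    -- exponents
    have hexp : ∀ (b : Fin n → ℤ) (m' : Fin n →₀ ℕ), m' ∈ p.support →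
        -((N : ℤ) * Trc_tl A b) ≤ ∑ j, b j * ((m' j : ℤ) + w j) := by
      intro b m' hm'
      have h1 := hTle F f b hf
      rw [← key _ _ F hF b, hfp, hL b w₀ p hp] at h1
      have h2 := (MonL_monO b p hp).2 m' hm'
      have h3 : ∑ j, b j * ((m' j : ℤ) + w j) =
          wt b m' + ∑ j, w₀ j * b j + N * m * ∑ j, u j * b j := by
        unfold wt
        rw [Finset.mul_sum, ← Finset.sum_add_distrib, ← Finset.sum_add_distrib]
        refine Finset.sum_congr rfl fun j _ => ?_
        rw [hw]; ring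
      rw [h3]
      nlinarith
    have hsingle : ∀ (j : Fin n) (e : ℤ) (y : Fin n → ℤ),
        ∑ i, (Pi.single j e : Fin n → ℤ) i * y i = e * y j := by
      intro j e y
      rw [Finset.sum_eq_single j]
      · simp
      · intro i _ hi
        rw [Pi.single_eq_of_ne hi]
        simp
      · intro h; exact absurd (Finset.mem_univ _) h
    have hbox : ∀ m' ∈ p.support, ∀ j, -((N * cc : ℕ) : ℤ) ≤ m' j + w j ∧
        m' j + w j ≤ ((N * cc : ℕ) : ℤ) := by
      intro m' hm' j
      have h1 := hexp (Pi.single j (1 : ℤ)) m' hm'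
      have h2 := hexp (Pi.single j (-1 : ℤ)) m' hm'
      rw [hsingle] at h1 h2
      obtain ⟨h3, h4⟩ := hcc1 j
      have h5 := mul_le_mul_of_nonneg_left h3 hN0.le
      have h6 := mul_le_mul_of_nonneg_left h4 hN0.le
      push_cast
      constructor <;> linarith
    have hgsum : g = ∑ m' ∈ p.support, algebraMap ℂ (Kn n) (coeff m' p) *
        xm (fun j => (m' j : ℤ) + w j) := by
      rw [hg]
      conv_lhs => rw [p.as_sum, map_sum, Finset.sum_mul]
      refine Finset.sum_congr rfl fun m' _ => ?_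
      rw [MonL_monomial, mul_assoc]
      congr 1
      unfold xm
      rw [← Finset.prod_mul_distrib]
      refine Finset.prod_congr rfl fun j _ => ?_
      have h := zpow_add₀ (MonL_x_ne j) (m' j : ℤ) (w j)
      rw [zpow_natCast] at h
      exact h.symm
    have hne : p.support.Nonempty := by
      rw [Finset.nonempty_iff_ne_empty, Ne, MvPolynomial.support_eq_empty]
      exact hp
    have hb := Rig_box v C hC0 hC (N * cc) p.support w (fun m' => coeff m' p) hne
      (fun m' hm' => mem_support_iff.mp hm') hbox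
    rw [← hgsum, hvg] at hb
    have h1 := hFle F f hf
    rw [← hF v] at h1
    have h2 : (((N * cc : ℕ) : ℤ)) * (2 * n * C + ∑ j, |v.ord (x j)|) = N * K := by
      rw [hK]; push_cast; ring
    rw [h2] at hb
    -- `-(N (m M v + A.div v)) + N m U ≤ N K`
    have h3 : (N : ℤ) * (m * (U - M v)) ≤ N * (A.div v + K) := by nlinarith
    have h4 := le_of_mul_le_mul_left h3 hN0
    have h5 : (A.div v + K) ≤ ((A.div v + K).natAbs : ℤ) := Int.le_natAbs
    have h6 : (m : ℤ) * 1 ≤ m * (U - M v) := by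
      apply mul_le_mul_of_nonneg_left _ (by positivity)
      linarith
    have h7 : (m : ℤ) = ((A.div v + K).natAbs : ℤ) + 1 := by
      rw [hmd]; exact Nat.cast_succ _
    linarith

end Pool.Agent.Helper53.CX
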