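import Pool.Agent.Helper53.CX.St

set_option autoImplicit false

/-! Module Rnk: lower bound for the rank of the class group. -/

open scoped BigOperators
open MvPolynomial

namespace Pool.Agent.Helper53.CX

theorem Rnk_one {n : ℕ} (v : DivVal (Kn n)) : v.ord 1 = 0 := by
  have := v.ord_mul 1 1 one_ne_zero one_ne_zero
  rw [mul_one] at this
  omega

theorem Rnk_pow {n : ℕ} (v : DivVal (Kn n)) {f : Kn n} (hf : f ≠ 0) (k : ℕ) :
    v.ord (f ^ k) = k * v.ord f := by
  induction k with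
  | zero => simp [Rnk_one]
  | succ k ih =>
    rw [pow_succ, v.ord_mul _ _ (pow_ne_zero _ hf) hf, ih]
    push_cast
    ring

theorem Rnk_inv {n : ℕ} (v : DivVal (Kn n)) {f : Kn n} (hf : f ≠ 0) :
    v.ord f⁻¹ = - v.ord f := by
  have := v.ord_mul f f⁻¹ hf (inv_ne_zero hf)
  rw [mul_inv_cancel₀ hf, Rnk_one] at this
  omega

theorem Rnk_zpow {n : ℕ} (v : DivVal (Kn n)) {f : Kn n} (hf : f ≠ 0) (k : ℤ) :
    v.ord (f ^ k) = k * v.ord f := by
  rcases Int.eq_nat_or_neg k with ⟨m, rfl | rfl⟩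
  · rw [zpow_natCast, Rnk_pow v hf]
  · rw [zpow_neg, zpow_natCast, Rnk_inv v (pow_ne_zero _ hf), Rnk_pow v hf]
    ring

theorem Rnk_prod {n : ℕ} (v : DivVal (Kn n)) {α : Type} (s : Finset α) (f : α → Kn n)
    (hf : ∀ a ∈ s, f a ≠ 0) : v.ord (∏ a ∈ s, f a) = ∑ a ∈ s, v.ord (f a) := by
  classical
  induction s using Finset.induction_on with
  | empty => simp [Rnk_one]
  | insert a s ha ih =>
    rw [Finset.prod_insert ha, Finset.sum_insert ha,
      v.ord_mul _ _ (hf a (Finset.mem_insert_self _ _))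
        (Finset.prod_ne_zero_iff.2 fun b hb => hf b (Finset.mem_insert_of_mem hb)),
      ih fun b hb => hf b (Finset.mem_insert_of_mem hb)]

theorem Rnk_const {n : ℕ} (v : DivVal (Kn n)) {c : ℂ} (hc : c ≠ 0) :
    v.ord (algebraMap ℂ (Kn n) c) = 0 := by
  obtain ⟨z, hz⟩ := IsAlgClosed.exists_pow_nat_eq c
    (n := (v.ord (algebraMap ℂ (Kn n) c)).natAbs + 1) (Nat.succ_pos _)
  have hz0 : z ≠ 0 := by
    rintro rfl
    rw [zero_pow (Nat.succ_ne_zero _)] at hz
    exact hc hz.symm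
  have h1 : algebraMap ℂ (Kn n) z ≠ 0 := by
    rw [Ne, map_eq_zero_iff _ (algebraMap ℂ (Kn n)).injective]
    exact hz0
  have h2 := Rnk_pow v h1 ((v.ord (algebraMap ℂ (Kn n) c)).natAbs + 1)
  rw [← map_pow, hz] at h2
  refine Int.eq_zero_of_abs_lt_dvd (Dvd.intro _ h2.symm) ?_
  push_cast
  exact lt_add_one _

theorem Rnk_x {n : ℕ} (j : Fin n) : (x j : Kn n) ≠ 0 := by
  unfold x
  rw [Ne, map_eq_zero_iff _ (IsFractionRing.injective (Pn n) (Kn n))]
  exact X_ne_zero j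

theorem Rnk_alg {n : ℕ} {P : Pn n} (hP : P ≠ 0) : algebraMap (Pn n) (Kn n) P ≠ 0 := by
  rw [Ne, map_eq_zero_iff _ (IsFractionRing.injective (Pn n) (Kn n))]
  exact hP

theorem Rnk_assoc {n : ℕ} (v : DivVal (Kn n)) {P Q : Pn n} (hP : P ≠ 0) (h : Associated P Q) :
    v.ord (algebraMap (Pn n) (Kn n) P) = v.ord (algebraMap (Pn n) (Kn n) Q) := by
  obtain ⟨u, rfl⟩ := h
  obtain ⟨r, hr, hu⟩ := MvPolynomial.isUnit_iff_eq_C_of_isReduced.1 u.isUnit
  rw [map_mul, hu]
  have e : algebraMap (Pn n) (Kn n) (C r) = algebraMap ℂ (Kn n) r := by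
    rw [IsScalarTower.algebraMap_apply ℂ (Pn n) (Kn n)]
    rfl
  rw [e, v.ord_mul _ _ (Rnk_alg hP), Rnk_const v hr.ne_zero, add_zero]
  rw [Ne, map_eq_zero_iff _ (algebraMap ℂ (Kn n)).injective]
  exact hr.ne_zero

theorem Rnk_xm {n : ℕ} (v : DivVal (Kn n)) (u : Fin n → ℤ) :
    xm u ≠ (0 : Kn n) ∧ v.ord (xm u) = ∑ j, u j * v.ord (x j) := by
  unfold xm
  refine ⟨Finset.prod_ne_zero_iff.2 fun j _ => zpow_ne_zero _ (Rnk_x j), ?_⟩
  rw [Rnk_prod v _ _ fun j _ => zpow_ne_zero _ (Rnk_x j)]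
  exact Finset.sum_congr rfl fun j _ => Rnk_zpow v (Rnk_x j) _

/-- the class of a divisor supported on `T` -/
noncomputable def Rnk_map {n : ℕ} (S : Set (DivVal (Kn n))) (T : Finset (DivVal (Kn n)))
    (hT : (T : Set (DivVal (Kn n))) ⊆ S) : (T → ℝ) →ₗ[ℝ] (S →₀ ℝ) :=
  (Finsupp.lmapDomain ℝ ℝ (fun v : T => (⟨v.1, hT v.2⟩ : S))).comp
    (Finsupp.linearEquivFunOnFinite ℝ ℝ T).symm.toLinearMap

theorem Rnk_map_mem {n : ℕ} (S : Set (DivVal (Kn n))) (T : Finset (DivVal (Kn n)))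
    (hT : (T : Set (DivVal (Kn n))) ⊆ S) (D : T → ℝ) (v : T) :
    Rnk_map S T hT D ⟨v.1, hT v.2⟩ = D v := by
  have hi : Function.Injective (fun v : T => (⟨v.1, hT v.2⟩ : S)) := by
    intro a b h
    have := congrArg Subtype.val h
    exact Subtype.ext this
  unfold Rnk_map
  rw [LinearMap.comp_apply]
  exact Finsupp.mapDomain_apply hi _ v

theorem Rnk_map_not {n : ℕ} (S : Set (DivVal (Kn n))) (T : Finset (DivVal (Kn n)))
    (hT : (T : Set (DivVal (Kn n))) ⊆ S) (D : T → ℝ) (w : S) (hw : w.1 ∉ T) :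
    Rnk_map S T hT D w = 0 := by
  unfold Rnk_map
  rw [LinearMap.comp_apply]
  refine Finsupp.mapDomain_of_notMem_range _ _ ?_
  rintro ⟨v, hv⟩
  apply hw
  rw [← hv]
  exact v.2

/-- the comparison map -/
noncomputable def Rnk_L {n : ℕ} (T : Finset (DivVal (Kn n))) (Q : Finset (Pn n)) :
    ((Fin n → ℝ) × (Q → ℝ)) →ₗ[ℝ] (T → ℝ) where
  toFun ue := fun v => ∑ j, ue.1 j * (v.1.ord (x j) : ℝ) +
    ∑ P : Q, ue.2 P * (v.1.ord (algebraMap (Pn n) (Kn n) P.1) : ℝ)
  map_add' a b := by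
    funext v
    simp only [Prod.fst_add, Prod.snd_add, Pi.add_apply, add_mul, Finset.sum_add_distrib]
    ring
  map_smul' c a := by
    funext v
    simp only [Prod.smul_fst, Prod.smul_snd, Pi.smul_apply, smul_eq_mul, RingHom.id_apply,
      mul_add, Finset.mul_sum, mul_assoc]

theorem hRnk (hExt : StExt) (hPad : StPad) (hPadV : StPadV) (hFac : StFac) (hBri : StBri) :
    StRnk := by
  classical
  intro n S T Q ρ hT hTP hQ hρ
  let ψ : (T → ℝ) →ₗ[ℝ] Cl S := (princ S).mkQ.comp (Rnk_map S T hT)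
  have hfin : Module.Finite ℝ (Cl S) := Module.finite_of_rank_eq_nat hρ
  have hfr : Module.finrank ℝ (Cl S) = ρ := Module.finrank_eq_of_rank_eq hρ
  have hker : LinearMap.ker ψ ≤ LinearMap.range (Rnk_L T Q) := by
    intro D hD
    rw [LinearMap.mem_ker] at hD
    have hD' : Rnk_map S T hT D ∈ princ S := by
      rw [← Submodule.ker_mkQ (princ S), LinearMap.mem_ker]
      exact hD
    obtain ⟨g, hg⟩ := hD'
    obtain ⟨Q0, hQ0, hQ0', hQ1⟩ := hFac n (g.support.erase 0) (by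
      intro f hf
      exact (Finset.mem_erase.1 hf).1)
    -- exponents
    have hex : ∀ f : Kn n, ∃ (c : ℂ) (u : Fin n → ℤ), f ∈ g.support.erase 0 → c ≠ 0 ∧
        f = algebraMap ℂ (Kn n) c * xm u *
          ∏ P ∈ Q0, (algebraMap (Pn n) (Kn n) P) ^ (padOrd P f) := by
      intro f
      by_cases hf : f ∈ g.support.erase 0
      · obtain ⟨⟨c, u, hc, he⟩, -⟩ := hQ1 f hf
        exact ⟨c, u, fun _ => ⟨hc, he⟩⟩
      · exact ⟨1, 0, fun h => absurd h hf⟩
    choose cf uf hcf using hex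
    have hord : ∀ (v : DivVal (Kn n)), ∀ f ∈ g.support.erase 0, v.ord f =
        ∑ j, uf f j * v.ord (x j) +
          ∑ P ∈ Q0, padOrd P f * v.ord (algebraMap (Pn n) (Kn n) P) := by
      intro v f hf
      obtain ⟨hc, he⟩ := hcf f hf
      have hc' : algebraMap ℂ (Kn n) (cf f) ≠ 0 := by
        rw [Ne, map_eq_zero_iff _ (algebraMap ℂ (Kn n)).injective]
        exact hc
      have hP : ∀ P ∈ Q0, (algebraMap (Pn n) (Kn n) P) ^ (padOrd P f) ≠ 0 := fun P hP =>
        zpow_ne_zero _ (Rnk_alg (hQ0 P hP).1.ne_zero)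
      conv_lhs => rw [he]
      rw [v.ord_mul _ _ (mul_ne_zero hc' (Rnk_xm v _).1) (Finset.prod_ne_zero_iff.2 hP),
        v.ord_mul _ _ hc' (Rnk_xm v _).1, Rnk_const v hc, (Rnk_xm v _).2, zero_add,
        Rnk_prod v _ _ hP]
      congr 1
      exact Finset.sum_congr rfl fun P hP => Rnk_zpow v (Rnk_alg (hQ0 P hP).1.ne_zero) _
    -- the formula for rdiv
    have hr0 : ∀ v : DivVal (Kn n), rdiv g v =
        ∑ f ∈ g.support.erase 0, g f * (v.ord f : ℝ) := by
      intro v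
      unfold rdiv
      rw [Finsupp.sum]
      by_cases h0 : (0 : Kn n) ∈ g.support
      · rw [← Finset.add_sum_erase _ _ h0, v.ord_zero]
        simp
      · rw [Finset.erase_eq_of_notMem h0]
    have hrdiv : ∀ v : DivVal (Kn n), rdiv g v =
        ∑ j, (∑ f ∈ g.support.erase 0, g f * (uf f j : ℝ)) * (v.ord (x j) : ℝ) +
        ∑ P ∈ Q0, (∑ f ∈ g.support.erase 0, g f * (padOrd P f : ℝ)) *
          (v.ord (algebraMap (Pn n) (Kn n) P) : ℝ) := by
      intro v
      rw [hr0]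
      have : ∀ f ∈ g.support.erase 0, g f * (v.ord f : ℝ) =
          ∑ j, g f * (uf f j : ℝ) * (v.ord (x j) : ℝ) +
          ∑ P ∈ Q0, g f * (padOrd P f : ℝ) * (v.ord (algebraMap (Pn n) (Kn n) P) : ℝ) := by
        intro f hf
        rw [hord v f hf]
        push_cast
        rw [mul_add, Finset.mul_sum, Finset.mul_sum]
        congr 1
        · exact Finset.sum_congr rfl fun j _ => by ring
        · exact Finset.sum_congr rfl fun j _ => by ring
      rw [Finset.sum_congr rfl this, Finset.sum_add_distrib, Finset.sum_comm,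
        Finset.sum_comm (s := g.support.erase 0) (t := Q0)]
      congr 1
      · exact Finset.sum_congr rfl fun j _ => by rw [Finset.sum_mul]
      · exact Finset.sum_congr rfl fun j _ => by rw [Finset.sum_mul]
    -- the coefficients e_P
    have he0 : ∀ P ∈ Q0, (∃ w ∈ S, w.ord = padOrd P) →
        ∑ f ∈ g.support.erase 0, g f * (padOrd P f : ℝ) = 0 := by
      rintro P hP ⟨w, hw, hwP⟩
      have h1 : rdiv g w = ∑ f ∈ g.support.erase 0, g f * (padOrd P f : ℝ) := by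
        rw [hr0, hwP]
      rw [← h1, ← hg ⟨w, hw⟩]
      exact Rnk_map_not S T hT D ⟨w, hw⟩ fun hwT => hTP w hwT P (hQ0 P hP) hwP
    have hσ : ∀ P : Pn n, ∃ P' : Pn n, P ∈ Q0 → ¬ (∃ w ∈ S, w.ord = padOrd P) →
        P' ∈ Q ∧ Associated P P' := by
      intro P
      by_cases hP : P ∈ Q0
      · rcases hQ P (hQ0 P hP) with h | ⟨P', h1, h2⟩
        · exact ⟨0, fun _ h' => absurd h h'⟩
        · exact ⟨P', fun _ _ => ⟨h1, h2⟩⟩
      · exact ⟨0, fun h => absurd h hP⟩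
    choose σ hσ using hσ
    refine ⟨(fun j => ∑ f ∈ g.support.erase 0, g f * (uf f j : ℝ), fun P' =>
      ∑ P ∈ Q0 with ((¬ ∃ w ∈ S, w.ord = padOrd P) ∧ σ P = P'.1),
        ∑ f ∈ g.support.erase 0, g f * (padOrd P f : ℝ)), ?_⟩
    funext v
    have h1 : D v = rdiv g v.1 := by
      rw [← hg ⟨v.1, hT v.2⟩, Rnk_map_mem]
    rw [h1, hrdiv v.1]
    simp only [Rnk_L, LinearMap.coe_mk, AddHom.coe_mk]
    congr 1
    have h2 : ∀ P' : Q, (∑ P ∈ Q0 with ((¬ ∃ w ∈ S, w.ord = padOrd P) ∧ σ P = P'.1),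
        ∑ f ∈ g.support.erase 0, g f * (padOrd P f : ℝ)) *
          (v.1.ord (algebraMap (Pn n) (Kn n) P'.1) : ℝ) =
        ∑ P ∈ Q0 with ¬ (∃ w ∈ S, w.ord = padOrd P), if σ P = P'.1 then
          (∑ f ∈ g.support.erase 0, g f * (padOrd P f : ℝ)) *
          (v.1.ord (algebraMap (Pn n) (Kn n) P) : ℝ) else 0 := by
      intro P'
      rw [← Finset.sum_filter, Finset.filter_filter, Finset.sum_mul]
      refine Finset.sum_congr rfl fun P hP => ?_
      rw [Finset.mem_filter] at hP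
      have := hσ P hP.1 hP.2.1
      rw [Rnk_assoc v.1 (hQ0 P hP.1).1.ne_zero this.2, hP.2.2]
    rw [Finset.sum_congr rfl fun P' _ => h2 P', Finset.sum_comm]
    have h3 : ∀ P ∈ Finset.filter (fun P => ¬ ∃ w ∈ S, w.ord = padOrd P) Q0,
        (∑ P' : Q, if σ P = P'.1 then
          (∑ f ∈ g.support.erase 0, g f * (padOrd P f : ℝ)) *
          (v.1.ord (algebraMap (Pn n) (Kn n) P) : ℝ) else 0) =
          (∑ f ∈ g.support.erase 0, g f * (padOrd P f : ℝ)) *
          (v.1.ord (algebraMap (Pn n) (Kn n) P) : ℝ) := by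
      intro P hP
      rw [Finset.mem_filter] at hP
      have := (hσ P hP.1 hP.2).1
      rw [Finset.sum_eq_single ⟨σ P, this⟩]
      · simp
      · intro b _ hb
        rw [if_neg]
        intro h
        exact hb (Subtype.ext h.symm)
      · intro h
        exact absurd (Finset.mem_univ _) h
    rw [Finset.sum_congr rfl h3, Finset.sum_filter]
    refine Finset.sum_congr rfl fun P hP => ?_
    by_cases h : ∃ w ∈ S, w.ord = padOrd P
    · rw [if_neg (not_not.2 h), he0 P hP h, zero_mul]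
    · rw [if_pos h]
  have h1 : Module.finrank ℝ (LinearMap.ker ψ) ≤ n + Q.card := by
    calc Module.finrank ℝ (LinearMap.ker ψ) ≤ Module.finrank ℝ (LinearMap.range (Rnk_L T Q)) :=
          Submodule.finrank_mono hker
      _ ≤ Module.finrank ℝ ((Fin n → ℝ) × (Q → ℝ)) := LinearMap.finrank_range_le _
      _ = n + Q.card := by
        rw [Module.finrank_prod]
        simp
  have h2 : Module.finrank ℝ (LinearMap.range ψ) ≤ ρ := by
    rw [← hfr]
    exact Submodule.finrank_le _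
  have h3 := LinearMap.finrank_range_add_finrank_ker ψ
  have h4 : Module.finrank ℝ (T → ℝ) = T.card := by simp
  omega

end Pool.Agent.Helper53.CX
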