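import Pool.Agent.Helper53.CX.St
import Pool.Agent.Helper53.CX.St2

/-!
# CX2, module Stab: log canonicity implies semistability (helper3)
-/

set_option autoImplicit false

open scoped BigOperators
open MvPolynomial

namespace Pool.Agent.Helper53.CX

/-- a basis adapted to a subspace -/
theorem Stab_basis {n : ℕ} (U : Submodule ℂ (Fin (n + 1) → ℂ)) (h0 : U ≠ ⊥) (h1 : U ≠ ⊤) :
    ∃ (T : Matrix (Fin (n + 1)) (Fin (n + 1)) ℂ) (w : Fin (n + 1) → ℤ), IsUnit T.det ∧
      (∀ i, w i = 0 ∨ w i = 1) ∧ (∃ i, w i = 0) ∧ (∃ i, w i = 1) ∧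
      ∑ i, w i = (Module.finrank ℂ U : ℤ) ∧
      ∀ c : Fin (n + 1) → ℂ, ∃ a : Fin (n + 1) → ℂ, c = Matrix.vecMul a T ∧
        (c ∈ U → ∀ i, a i ≠ 0 → w i = 1) := by
  classical
  obtain ⟨U', hU'⟩ := Submodule.exists_isCompl U
  let bU := Module.finBasis ℂ U
  let bU' := Module.finBasis ℂ U'
  let b0 := (bU.prod bU').map (Submodule.prodEquivOfIsCompl U U' hU')
  let e := (Pi.basisFun ℂ (Fin (n + 1))).indexEquiv b0
  have hd : 0 < Module.finrank ℂ U := by
    rw [Module.finrank_pos_iff]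
    exact Submodule.nontrivial_iff_ne_bot.2 h0
  have hU'0 : U' ≠ ⊥ := by
    rintro rfl
    have := hU'.sup_eq_top
    rw [sup_bot_eq] at this
    exact h1 this
  have hd' : 0 < Module.finrank ℂ U' := by
    rw [Module.finrank_pos_iff]
    exact Submodule.nontrivial_iff_ne_bot.2 hU'0
  let ww : Fin (Module.finrank ℂ U) ⊕ Fin (Module.finrank ℂ U') → ℤ := Sum.elim (fun _ => 1) (fun _ => 0)
  refine ⟨Matrix.of fun i => b0 (e i), fun i => ww (e i), ?_, ?_, ?_, ?_, ?_, ?_⟩
  · rw [← Matrix.isUnit_iff_isUnit_det, ← Matrix.linearIndependent_rows_iff_isUnit]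
    exact b0.linearIndependent.comp e e.injective
  · intro i
    rcases h : e i with j | j
    · right; simp only [ww, h, Sum.elim_inl]
    · left; simp only [ww, h, Sum.elim_inr]
  · refine ⟨e.symm (Sum.inr ⟨0, hd'⟩), ?_⟩
    simp only [ww, Equiv.apply_symm_apply, Sum.elim_inr]
  · refine ⟨e.symm (Sum.inl ⟨0, hd⟩), ?_⟩
    simp only [ww, Equiv.apply_symm_apply, Sum.elim_inl]
  · rw [Equiv.sum_comp e ww, Fintype.sum_sum_type]
    simp [ww]
  · intro c
    refine ⟨fun i => b0.repr c (e i), ?_, ?_⟩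
    · rw [Matrix.vecMul_eq_sum]
      have h2 := b0.sum_repr c
      rw [← Equiv.sum_comp e] at h2
      exact h2.symm
    · intro hc i hi
      rcases h : e i with j | j
      · simp only [ww, h, Sum.elim_inl]
      · exfalso
        apply hi
        show b0.repr c (e i) = 0
        rw [h]
        have h3 : b0.repr c = (bU.prod bU').repr
            ((Submodule.prodEquivOfIsCompl U U' hU').symm c) := rfl
        rw [h3, Submodule.prodEquivOfIsCompl_symm_apply_left U U' hU' ⟨c, hc⟩,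
          Module.Basis.prod_repr_inr, map_zero]
        rfl

theorem hStab (hTau : StTau) (hGen : StGen) (hOmT : StOmT) (hTorT : StTorT) (hVmin : StVmin) :
    StStab := by
  classical
  intro n κ' _ W c hc hW hsum hv U
  by_cases hU0 : U = ⊥
  · subst hU0
    have h1 : ∀ i, ¬ W i ≤ ⊥ := fun i h => hW i (le_bot_iff.1 h)
    have h2 : ∑ i, (if W i ≤ ⊥ then c i else 0) = 0 :=
      Finset.sum_eq_zero fun i _ => if_neg (h1 i)
    rw [h2]
    positivity
  by_cases hU1 : U = ⊤
  · subst hU1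
    have h2 : ∑ i, (if W i ≤ ⊤ then c i else 0) = ∑ i, c i :=
      Finset.sum_congr rfl fun i _ => if_pos le_top
    rw [h2, hsum, finrank_top, Module.finrank_fin_fun]
    push_cast
    exact le_rfl
  obtain ⟨T, w, hT, hw01, ⟨i0, hi0⟩, ⟨i1, hi1⟩, hws, hTc⟩ := Stab_basis U hU0 hU1
  obtain ⟨-, hG2, -⟩ := hGen n
  obtain ⟨-, -, hfull⟩ := hG2 T hT
  obtain ⟨τ, hτ⟩ := hTau n (yT T) hfull
  obtain ⟨u, hu⟩ : ∃ u : Fin n → ℤ, ∑ j, (w j.succ - w 0) * u j = 1 := by
    rcases hw01 0 with h | h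
    · have hne : i1 ≠ 0 := by
        rintro rfl
        omega
      obtain ⟨j, rfl⟩ := Fin.exists_succ_eq.2 hne
      refine ⟨Pi.single j 1, ?_⟩
      rw [Finset.sum_eq_single j]
      · rw [Pi.single_eq_same, h, hi1]
        norm_num
      · intro k _ hk
        rw [Pi.single_eq_of_ne hk, mul_zero]
      · intro hj
        exact absurd (Finset.mem_univ j) hj
    · have hne : i0 ≠ 0 := by
        rintro rfl
        omega
      obtain ⟨j, rfl⟩ := Fin.exists_succ_eq.2 hne
      refine ⟨Pi.single j (-1), ?_⟩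
      rw [Finset.sum_eq_single j]
      · rw [Pi.single_eq_same, h, hi0]
        norm_num
      · intro k _ hk
        rw [Pi.single_eq_of_ne hk, mul_zero]
      · intro hj
        exact absurd (Finset.mem_univ j) hj
  obtain ⟨v, κ0, -, hom, hlf, hval⟩ := hTorT n T τ hT hτ w u hu
  have hA : Adisc v = (Module.finrank ℂ U : ℤ) + ((n : ℤ) + 1) * κ0 := by
    have h1 := hOmT n v T τ hT hτ
    rw [hom] at h1
    have h2 : ∑ i, v.ord (lf T i) = ∑ i, w i + ((n : ℤ) + 1) * κ0 := by
      rw [Finset.sum_congr rfl fun i _ => hlf i, Finset.sum_add_distrib]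
      simp
    rw [hws] at h2
    omega
  have hlow : ∀ i, κ0 + (if W i ≤ U then 1 else 0) ≤ vmin v (W i) := by
    intro i
    obtain ⟨-, hV, -⟩ := hVmin n v
    obtain ⟨-, cc, hcW, hc0, hcv⟩ := hV (W i) (hW i)
    obtain ⟨a, ha, haU⟩ := hTc cc
    have ha0 : a ≠ 0 := by
      rintro rfl
      apply hc0
      rw [ha, Matrix.zero_vecMul]
    obtain ⟨j, hj, hjv, -⟩ := hval a ha0
    rw [← ha, hcv] at hjv
    rw [hjv]
    split_ifs with h
    · rw [haU (h hcW) j hj]
      omega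
    · rcases hw01 j with h' | h' <;> rw [h'] <;> omega
  have h3 := hv v
  have h4 : ∑ i, c i * ((κ0 : ℝ) + (if W i ≤ U then 1 else 0)) ≤ ∑ i, c i * (vmin v (W i) : ℝ) := by
    refine Finset.sum_le_sum fun i _ => mul_le_mul_of_nonneg_left ?_ (hc i)
    have := hlow i
    have h5 : ((κ0 + (if W i ≤ U then 1 else 0) : ℤ) : ℝ) ≤ (vmin v (W i) : ℝ) := by
      exact_mod_cast this
    split_ifs at h5 ⊢ <;> push_cast at h5 <;> linarith
  have h5 : ∑ i, c i * ((κ0 : ℝ) + (if W i ≤ U then 1 else 0)) =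
      ((n : ℝ) + 1) * κ0 + ∑ i, (if W i ≤ U then c i else 0) := by
    rw [← hsum, Finset.sum_mul, ← Finset.sum_add_distrib]
    refine Finset.sum_congr rfl fun i _ => ?_
    split_ifs <;> ring
  rw [hA] at h3
  push_cast at h3
  linarith

end Pool.Agent.Helper53.CX
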