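import Pool.Agent.Helper53.CX.St
import Pool.Agent.Helper53.CX.St2

/-!
# Project CX, module Tau
`n` generators of `C(x_1..x_n)` are the images of the `x_j` under an automorphism.
-/

set_option autoImplicit false

namespace Pool.Agent.Helper53.CX

theorem Tau_algebraic (n : ℕ) (y : Fin n → Kn n)
    (hy : IntermediateField.adjoin ℂ (Set.range y) = ⊤) :
    Algebra.IsAlgebraic (Algebra.adjoin ℂ (Set.range y)) (Kn n) := by
  constructor
  intro z
  have hz : z ∈ IntermediateField.adjoin ℂ (Set.range y) := by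
    rw [hy]
    exact IntermediateField.mem_top
  obtain ⟨r, hr, s, hs, rfl⟩ := (IntermediateField.mem_adjoin_iff_div).1 hz
  by_cases hs0 : s = 0
  · rw [hs0, div_zero]
    exact isAlgebraic_zero
  · have h1 : IsAlgebraic (Algebra.adjoin ℂ (Set.range y)) r :=
      isAlgebraic_algebraMap (⟨r, hr⟩ : Algebra.adjoin ℂ (Set.range y))
    have h2 : IsAlgebraic (Algebra.adjoin ℂ (Set.range y)) s :=
      isAlgebraic_algebraMap (⟨s, hs⟩ : Algebra.adjoin ℂ (Set.range y))
    rw [div_eq_mul_inv]
    exact h1.mul h2.inv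

theorem Tau_indep (n : ℕ) (y : Fin n → Kn n)
    (hy : IntermediateField.adjoin ℂ (Set.range y) = ⊤) : AlgebraicIndependent ℂ y := by
  have := Tau_algebraic n y hy
  have hx : AlgebraicIndependent ℂ (fun j : Fin n => (x j : Kn n)) := by
    have h := (MvPolynomial.algebraicIndependent_X (Fin n) ℂ).map'
      (f := IsScalarTower.toAlgHom ℂ (Pn n) (Kn n))
      (IsFractionRing.injective (Pn n) (Kn n))
    exact h
  have hle : Cardinal.mk (Fin n) ≤ Algebra.trdeg ℂ (Kn n) := hx.cardinalMk_le_trdeg
  exact (Algebra.IsAlgebraic.isTranscendenceBasis_of_le_trdeg_of_finite ℂ y hle).1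

/-- MODULE Tau -/
theorem hTau : StTau := by
  intro n y hy
  have hind := Tau_indep n y hy
  have hinj : Function.Injective (MvPolynomial.aeval y : Pn n →ₐ[ℂ] Kn n) := hind
  let g : Kn n →ₐ[ℂ] Kn n := IsFractionRing.liftAlgHom (K := Kn n) hinj
  have hg : ∀ j, g (x j) = y j := by
    intro j
    change IsFractionRing.liftAlgHom (K := Kn n) hinj (algebraMap (Pn n) (Kn n) (MvPolynomial.X j)) = y j
    rw [IsFractionRing.liftAlgHom_apply, IsFractionRing.lift_algebraMap]
    exact MvPolynomial.aeval_X y j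
  have hsurj : Function.Surjective g := by
    have h1 : (⊤ : IntermediateField ℂ (Kn n)) ≤ g.fieldRange := by
      rw [← hy, IntermediateField.adjoin_le_iff]
      rintro _ ⟨j, rfl⟩
      exact ⟨x j, hg j⟩
    intro z
    exact h1 IntermediateField.mem_top
  exact ⟨AlgEquiv.ofBijective g ⟨g.toRingHom.injective, hsurj⟩, hg⟩

end Pool.Agent.Helper53.CX
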