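import Pool.Agent.Helper53.CX.St
import Pool.Agent.Helper53.CX.St2

/-!
# CX2, module TorT: toric valuations in linear coordinates (helper3)
-/

set_option autoImplicit false

open scoped BigOperators
open MvPolynomial

namespace Pool.Agent.Helper53.CX

theorem TorT_lfv {n : ℕ} (a : Fin (n + 1) → ℂ) (T : Matrix (Fin (n + 1)) (Fin (n + 1)) ℂ) :
    (lfv (Matrix.vecMul a T) : Kn n) = ∑ i, algebraMap ℂ (Kn n) (a i) * lf T i := by
  unfold lf lfv
  have h1 : ∀ j : Fin (n + 1), algebraMap ℂ (Kn n) (Matrix.vecMul a T j) * hx j =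
      ∑ i, algebraMap ℂ (Kn n) (a i) * (algebraMap ℂ (Kn n) (T i j) * hx j) := by
    intro j
    rw [Matrix.vecMul_eq_sum, Finset.sum_apply, map_sum, Finset.sum_mul]
    refine Finset.sum_congr rfl fun i _ => ?_
    rw [Pi.smul_apply, smul_eq_mul, map_mul, mul_assoc]
  rw [Finset.sum_congr rfl fun j _ => h1 j, Finset.sum_comm]
  refine Finset.sum_congr rfl fun i _ => ?_
  rw [Finset.mul_sum]

/-- exponents of the monomials `1, x_1, ..., x_n` -/
noncomputable def TorT_mi {n : ℕ} : Fin (n + 1) → (Fin n →₀ ℕ) :=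
  Fin.cons 0 (fun j => Finsupp.single j 1)

theorem TorT_mi_inj {n : ℕ} : Function.Injective (TorT_mi : Fin (n + 1) → (Fin n →₀ ℕ)) := by
  intro i j h
  rcases Fin.eq_zero_or_eq_succ i with rfl | ⟨i, rfl⟩ <;>
    rcases Fin.eq_zero_or_eq_succ j with rfl | ⟨j, rfl⟩
  · rfl
  · exfalso
    simp only [TorT_mi, Fin.cons_zero, Fin.cons_succ] at h
    have := DFunLike.congr_fun h j
    simp at this
  · exfalso
    simp only [TorT_mi, Fin.cons_zero, Fin.cons_succ] at h
    have := DFunLike.congr_fun h i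
    simp at this
  · simp only [TorT_mi, Fin.cons_succ] at h
    rw [Finsupp.single_left_injective one_ne_zero h]

/-- the polynomial `a_0 + ∑ a_j x_j` -/
noncomputable def TorT_P {n : ℕ} (a : Fin (n + 1) → ℂ) : Pn n := ∑ i, monomial (TorT_mi i) (a i)

theorem TorT_coeff {n : ℕ} (a : Fin (n + 1) → ℂ) (i : Fin (n + 1)) :
    coeff (TorT_mi i) (TorT_P a) = a i := by
  classical
  rw [TorT_P, coeff_sum, Finset.sum_eq_single i]
  · rw [coeff_monomial, if_pos rfl]
  · intro j _ hj
    rw [coeff_monomial, if_neg]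
    exact fun h => hj (TorT_mi_inj h)
  · intro h
    exact absurd (Finset.mem_univ i) h

theorem TorT_supp {n : ℕ} (a : Fin (n + 1) → ℂ) (m : Fin n →₀ ℕ) (hm : m ∈ (TorT_P a).support) :
    ∃ i, m = TorT_mi i ∧ a i ≠ 0 := by
  classical
  rw [mem_support_iff, TorT_P, coeff_sum] at hm
  obtain ⟨i, -, hi⟩ := Finset.exists_ne_zero_of_sum_ne_zero hm
  rw [coeff_monomial] at hi
  by_cases h : TorT_mi i = m
  · rw [if_pos h] at hi
    exact ⟨i, h.symm, hi⟩
  · rw [if_neg h] at hi
    exact absurd rfl hi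

theorem TorT_wt {n : ℕ} (w : Fin (n + 1) → ℤ) (i : Fin (n + 1)) :
    wt (fun j => w j.succ - w 0) (TorT_mi i) = w i - w 0 := by
  classical
  unfold wt
  rcases Fin.eq_zero_or_eq_succ i with rfl | ⟨i, rfl⟩
  · simp only [TorT_mi, Fin.cons_zero, Finsupp.coe_zero, Pi.zero_apply]
    simp
  · simp only [TorT_mi, Fin.cons_succ]
    rw [Finset.sum_eq_single i]
    · simp
    · intro j _ hj
      rw [Finsupp.single_eq_of_ne hj]
      simp
    · intro h
      exact absurd (Finset.mem_univ i) h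

theorem TorT_eval {n : ℕ} (a : Fin (n + 1) → ℂ) (T : Matrix (Fin (n + 1)) (Fin (n + 1)) ℂ)
    (τ : Kn n ≃ₐ[ℂ] Kn n) (hτ : ∀ j, τ (x j) = yT T j) (h0 : (lf T 0 : Kn n) ≠ 0) :
    (lfv (Matrix.vecMul a T) : Kn n) = lf T 0 * τ (algebraMap (Pn n) (Kn n) (TorT_P a)) := by
  rw [TorT_lfv, TorT_P, map_sum, map_sum, Finset.mul_sum]
  refine Finset.sum_congr rfl fun i _ => ?_
  have hC : ∀ c : ℂ, algebraMap (Pn n) (Kn n) (C c) = algebraMap ℂ (Kn n) c := by
    intro c
    rw [IsScalarTower.algebraMap_apply ℂ (Pn n) (Kn n)]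
    rfl
  rcases Fin.eq_zero_or_eq_succ i with rfl | ⟨i, rfl⟩
  · simp only [TorT_mi, Fin.cons_zero]
    have h1 : (monomial (0 : Fin n →₀ ℕ) (a 0) : Pn n) = C (a 0) := rfl
    rw [h1, hC, AlgEquiv.commutes, mul_comm]
  · simp only [TorT_mi, Fin.cons_succ]
    have h1 : (monomial (Finsupp.single i 1) (a i.succ) : Pn n) = C (a i.succ) * X i := by
      rw [C_mul_X_eq_monomial]
    have h2 : algebraMap (Pn n) (Kn n) (X i) = x i := rfl
    rw [h1, map_mul, map_mul, hC, AlgEquiv.commutes, h2, hτ, yT]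
    field_simp

theorem hTorT (hExt : StExt) (hMon : StMon) (hTorV : StTorV) (hTorOm : StTorOm) (hGen : StGen) :
    StTorT := by
  intro n T τ hT hτ w u hu
  set α : Fin n → ℤ := fun j => w j.succ - w 0 with hα
  obtain ⟨v0, hv0⟩ := hTorV n α u hu
  obtain ⟨-, hG2, -⟩ := hGen n
  obtain ⟨hne, -, -⟩ := hG2 T hT
  obtain ⟨hM1, hM2⟩ := hMon n α
  obtain ⟨-, -, -, hE4⟩ := hExt n (monO α) hM1 hM2
  have hpull : (pull τ (pull τ.symm v0)).ord = v0.ord := by
    funext f
    show v0.ord (τ.symm (τ f)) = v0.ord f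
    rw [AlgEquiv.symm_apply_apply]
  have hord : ∀ f : Kn n, (pull τ.symm v0).ord (τ f) = v0.ord f := by
    intro f
    show v0.ord (τ.symm (τ f)) = v0.ord f
    rw [AlgEquiv.symm_apply_apply]
  have hval : ∀ a : Fin (n + 1) → ℂ, a ≠ 0 → ∃ i, a i ≠ 0 ∧
      (pull τ.symm v0).ord (lfv (Matrix.vecMul a T)) =
        w i + ((pull τ.symm v0).ord (lf T 0) - w 0) ∧ ∀ i', a i' ≠ 0 → w i ≤ w i' := by
    intro a ha
    have hP : TorT_P a ≠ 0 := by
      intro h
      apply ha
      funext i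
      rw [← TorT_coeff a i, h, coeff_zero, Pi.zero_apply]
    have hne' : τ (algebraMap (Pn n) (Kn n) (TorT_P a)) ≠ 0 := by
      intro h
      apply hP
      apply IsFractionRing.injective (Pn n) (Kn n)
      apply τ.injective
      rw [h, map_zero, map_zero]
    have h1 : (pull τ.symm v0).ord (lfv (Matrix.vecMul a T)) =
        (pull τ.symm v0).ord (lf T 0) + monO α (TorT_P a) := by
      rw [TorT_eval a T τ hτ (hne 0), (pull τ.symm v0).ord_mul _ _ (hne 0) hne', hord, hv0]
      rw [show monOrd α = extOrd (monO α) from rfl, hE4 _ hP]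
    have hs : (TorT_P a).support.Nonempty := by
      rw [Finset.nonempty_iff_ne_empty]
      intro h
      exact hP (support_eq_empty.1 h)
    have h2 : monO α (TorT_P a) = (TorT_P a).support.inf' hs (wt α) := by
      unfold monO
      rw [dif_pos hs]
    obtain ⟨m, hm, hmv⟩ := Finset.exists_mem_eq_inf' hs (wt α)
    obtain ⟨i, rfl, hi⟩ := TorT_supp a m hm
    refine ⟨i, hi, ?_, ?_⟩
    · rw [h1, h2, hmv, TorT_wt]
      ring
    · intro i' hi'
      have hmem : TorT_mi i' ∈ (TorT_P a).support := by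
        rw [mem_support_iff, TorT_coeff]
        exact hi'
      have h3 := Finset.inf'_le (wt α) hmem
      rw [hmv, TorT_wt, TorT_wt] at h3
      omega
  refine ⟨pull τ.symm v0, (pull τ.symm v0).ord (lf T 0) - w 0, ?_, ?_, ?_, hval⟩
  · rw [hpull, hv0]
  · exact hTorOm n α u hu _ (by rw [hpull, hv0])
  · intro i
    obtain ⟨i', hi', hv, -⟩ := hval (Pi.single i 1) (by
      intro h
      have := congrFun h i
      rw [Pi.single_eq_same] at this
      exact one_ne_zero this)
    have h4 : i' = i := by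
      by_contra h
      exact hi' (Pi.single_eq_of_ne h 1)
    subst h4
    rw [← hv, Matrix.single_one_vecMul]
    rfl

end Pool.Agent.Helper53.CX
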