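import Pool.Agent.Helper53.CX.St
import Pool.Agent.Helper53.CX.St2
import Pool.Agent.Helper53.CX.M_MonL

/-!
# Project CX part 2, module Vmin: the minimum of a valuation on a space of linear forms
-/

set_option autoImplicit false

open scoped BigOperators
open MvPolynomial

namespace Pool.Agent.Helper53.CX

theorem Vmin_add {n : ℕ} (c c' : Fin (n + 1) → ℂ) : (lfv (c + c') : Kn n) = lfv c + lfv c' := by
  unfold lfv
  rw [← Finset.sum_add_distrib]
  refine Finset.sum_congr rfl fun j _ => ?_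
  rw [Pi.add_apply, map_add, add_mul]

theorem Vmin_smul {n : ℕ} (a : ℂ) (c : Fin (n + 1) → ℂ) :
    (lfv (a • c) : Kn n) = algebraMap ℂ (Kn n) a * lfv c := by
  unfold lfv
  rw [Finset.mul_sum]
  refine Finset.sum_congr rfl fun j _ => ?_
  rw [Pi.smul_apply, smul_eq_mul, map_mul, mul_assoc]

theorem Vmin_zero {n : ℕ} : (lfv (0 : Fin (n + 1) → ℂ) : Kn n) = 0 := by
  simp [lfv]

/-- a lower bound on generators is a lower bound on the span -/
theorem Vmin_span {n : ℕ} (v : DivVal (Kn n)) (B : ℤ) (S : Set (Fin (n + 1) → ℂ))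
    (h : ∀ c ∈ S, B ≤ v.ord (lfv c)) {c : Fin (n + 1) → ℂ} (hc : c ∈ Submodule.span ℂ S) :
    lfv c ≠ (0 : Kn n) → B ≤ v.ord (lfv c) := by
  induction hc using Submodule.span_induction with
  | mem c hc => exact fun _ => h c hc
  | zero => exact fun h => absurd Vmin_zero h
  | add c c' _ _ h1 h2 =>
    rw [Vmin_add]
    intro hne
    by_cases a : (lfv c : Kn n) = 0
    · rw [a, zero_add] at hne ⊢
      exact h2 hne
    · by_cases b : (lfv c' : Kn n) = 0
      · rw [b, add_zero]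
        exact h1 a
      · exact (le_min (h1 a) (h2 b)).trans (v.ord_add _ _ a b hne)
  | smul a c _ h1 =>
    rw [Vmin_smul]
    intro hne
    have ha : a ≠ 0 := by
      rintro rfl
      simp at hne
    have hc : (lfv c : Kn n) ≠ 0 := right_ne_zero_of_mul hne
    rw [v.ord_mul _ _ (by rw [Ne, map_eq_zero]; exact ha) hc, MonL_const v a ha, zero_add]
    exact h1 hc

theorem Vmin_single {n : ℕ} (j : Fin (n + 1)) : (lfv (Pi.single j (1 : ℂ)) : Kn n) = hx j := by
  classical
  unfold lfv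
  rw [Finset.sum_eq_single j]
  · simp
  · intro i _ hi
    rw [Pi.single_eq_of_ne hi]
    simp
  · exact fun h => absurd (Finset.mem_univ j) h

theorem Vmin_spec (hGen : StGen) {n : ℕ} (v : DivVal (Kn n))
    (W : Submodule ℂ (Fin (n + 1) → ℂ)) (hW : W ≠ ⊥) :
    (∀ c ∈ W, c ≠ 0 → vmin v W ≤ v.ord (lfv c)) ∧
      ∃ c ∈ W, c ≠ 0 ∧ v.ord (lfv c) = vmin v W := by
  classical
  obtain ⟨c0, hc0, hne⟩ := Submodule.exists_mem_ne_zero_of_ne_bot hW
  have hnon : {k : ℤ | ∃ c ∈ W, c ≠ 0 ∧ v.ord (lfv c) = k}.Nonempty := ⟨_, c0, hc0, hne, rfl⟩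
  have hbdd : BddBelow {k : ℤ | ∃ c ∈ W, c ≠ 0 ∧ v.ord (lfv c) = k} := by
    refine ⟨Finset.univ.inf' Finset.univ_nonempty (fun j : Fin (n + 1) => v.ord (hx j)), ?_⟩
    rintro k ⟨c, -, hc, rfl⟩
    apply Vmin_span v _ (Set.range fun j : Fin (n + 1) => (Pi.single j (1 : ℂ) : Fin (n + 1) → ℂ))
    · rintro _ ⟨j, rfl⟩
      simp only [Vmin_single]
      exact Finset.inf'_le _ (Finset.mem_univ j)
    · have : c = ∑ j, c j • (Pi.single j (1 : ℂ) : Fin (n + 1) → ℂ) := by
        funext i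
        simp [Finset.sum_apply, Pi.single_apply]
      rw [this]
      exact Submodule.sum_mem _ fun j _ => Submodule.smul_mem _ _ (Submodule.subset_span ⟨j, rfl⟩)
    · exact (hGen n).1 c hc
  refine ⟨fun c hc hc' => csInf_le hbdd ⟨c, hc, hc', rfl⟩, ?_⟩
  obtain ⟨c, hc, hc', he⟩ := Int.csInf_mem hnon hbdd
  exact ⟨c, hc, hc', he⟩

theorem hVmin (hGen : StGen) : StVmin := by
  intro n v
  refine ⟨fun a ha => MonL_const v a ha, Vmin_spec hGen v, fun T J hJ hT => ?_⟩
  have hli : LinearIndependent ℂ T.row := by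
    rw [Matrix.linearIndependent_rows_iff_isUnit, Matrix.isUnit_iff_isUnit_det]
    exact hT
  have hT0 : ∀ j, T j ≠ 0 := fun j => hli.ne_zero j
  have hmem : ∀ j ∈ J, T j ∈ rowSpan T J := fun j hj =>
    Submodule.subset_span ⟨j, hj, rfl⟩
  obtain ⟨j0, hj0⟩ := hJ
  have hbot : rowSpan T J ≠ ⊥ := by
    intro h
    have := hmem j0 hj0
    rw [h, Submodule.mem_bot] at this
    exact hT0 j0 this
  obtain ⟨h1, c, hc, hc0, he⟩ := Vmin_spec hGen v (rowSpan T J) hbot
  refine ⟨hbot, ?_, ?_⟩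
  · apply le_antisymm
    · exact Finset.le_inf' _ _ fun j hj => h1 (T j) (hmem j hj) (hT0 j)
    · rw [← he]
      refine Vmin_span v _ (T '' (J : Set (Fin (n + 1)))) ?_ hc ((hGen n).1 c hc0)
      rintro _ ⟨j, hj, rfl⟩
      exact Finset.inf'_le _ hj
  · have h2 : LinearIndependent ℂ (fun j : J => T j) := hli.comp (fun j : J => (j : Fin (n + 1))) Subtype.val_injective
    have h3 := finrank_span_eq_card h2
    have h4 : T '' (J : Set (Fin (n + 1))) = Set.range (fun j : J => T j) := by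
      rw [Set.image_eq_range]
      rfl
    rw [rowSpan, h4, h3]
    simp

end Pool.Agent.Helper53.CX
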