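import Pool.Agent.Helper53.CX.AuxD

/-!
# Project CX (MP_140278_ag): generalized complexity, statements with complete proofs

THEOREM 1.  Let `(X,B,M)` be a generalized log Calabi-Yau pair on a normal projective variety with
function field `C(x_1..x_n)`, `M = ∑ b_i M_i`, `M_i` nef Cartier b-divisors, not principal.  If
every prime divisor of some complete toric variety `X0` is a prime divisor of `X` or a glc place of
`(X,B,M)`, then `∑ a_i + ∑ b_i ≤ n + rank Cl(X)`.

All modules are independent: every module proves `theorem hX : StDep1 → ... → StX`.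
In all proofs `K = C(x)`, `L` = Laurent polynomials, `<a,m> = ∑ a_j m_j`.
-/

open scoped BigOperators
open MvPolynomial

namespace Pool.Agent.Helper53.CX

/-- MODULE Ext.  An order function on polynomials extends to rational functions.
Proof.  Put `s = sec f` : `f * s.2 = s.1` in `K`.  If `f = p/q` (p, q nonzero) then
`s.1 * q = s.2 * p` in the polynomial ring, so `o s.1 - o s.2 = o p - o q`: the value is
independent of the representation.  `f = p/q`, `g = p'/q'`: `fg = pp'/(qq')`,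
`f + g = (pq' + p'q)/(qq')`.  (`o 1 = 0` from `o(1*1) = o 1 + o 1`, hence `extOrd o p = o p`.) -/
def StExt : Prop := ∀ (n : ℕ) (o : Pn n → ℤ),
  (∀ p q, p ≠ 0 → q ≠ 0 → o (p * q) = o p + o q) →
  (∀ p q, p ≠ 0 → q ≠ 0 → p + q ≠ 0 → min (o p) (o q) ≤ o (p + q)) →
    extOrd o 0 = 0 ∧
    (∀ f g : Kn n, f ≠ 0 → g ≠ 0 → extOrd o (f * g) = extOrd o f + extOrd o g) ∧
    (∀ f g : Kn n, f ≠ 0 → g ≠ 0 → f + g ≠ 0 →
      min (extOrd o f) (extOrd o g) ≤ extOrd o (f + g)) ∧
    (∀ p : Pn n, p ≠ 0 → extOrd o (algebraMap (Pn n) (Kn n) p) = o p)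

/-- MODULE Mon.  The monomial order is multiplicative and ultrametric.
Proof.  `≥` in the product and the sum: the support of `pq` is contained in the sum of the
supports.  `≤` in the product: consider the ring homomorphism `Φ : Pn n → HahnSeries ℤ (Pn n)`
(or `AddMonoidAlgebra`), `x_j ↦ T^(a_j) x_j`; the coefficient of `T^k` in `Φ p` is the sum of the
terms of `p` of weight `k`, so `monO a p` is the order of `Φ p`, and `HahnSeries.order_mul` holds
over a domain.  (Or directly: the product of the lowest weight parts of `p` and `q` is nonzero and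
is the weight `monO p + monO q` part of `pq`.) -/
def StMon : Prop := ∀ (n : ℕ) (a : Fin n → ℤ),
  (∀ p q : Pn n, p ≠ 0 → q ≠ 0 → monO a (p * q) = monO a p + monO a q) ∧
  (∀ p q : Pn n, p ≠ 0 → q ≠ 0 → p + q ≠ 0 → min (monO a p) (monO a q) ≤ monO a (p + q))

/-- MODULE Pad.  The multiplicity at an irreducible polynomial is multiplicative and ultrametric,
and the order determines the polynomial.
Proof.  `Pn n` is a UFD, `P` is prime: `multiplicity_mul`, `min_le_multiplicity_add` (with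
finiteness of the multiplicity for nonzero `p`). -/
def StPad : Prop := ∀ (n : ℕ) (P : Pn n), Irreducible P →
  (∀ p q : Pn n, p ≠ 0 → q ≠ 0 → multiplicity P (p * q) = multiplicity P p + multiplicity P q) ∧
  (∀ p q : Pn n, p ≠ 0 → q ≠ 0 → p + q ≠ 0 →
    min (multiplicity P p) (multiplicity P q) ≤ multiplicity P (p + q)) ∧
  (∀ p : Pn n, p ≠ 0 → (P ∣ p ↔ 1 ≤ multiplicity P p))

/-- MODULE TorV.  For primitive `a` the monomial valuation is a divisorial valuation.
Proof.  `ord = monOrd a`; `ord (xm u) = <a,u>`, so `exists_one` holds.  Model: the group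
`H = {m ∈ ℤ^n : <a,m> = 0}` is finitely generated; let `m_1` have `<a,m_1> = 1`, let `R` be the
algebra generated by `xm m_1` and `xm (±h)`, `h` in a finite set of generators of `H`.  Every
`xm m` with `<a,m> ≥ 0` is in `R` (`m = <a,m> m_1 + h`).  If `f = p/q` with `ord f ≥ 0`, choose `m`
with `<a,m> = - monO a q`: `xm m * q` has order `0`, all its monomials have weight `≥ 0`, so it is
in `R`, and so is `xm m * p` (`monO a p ≥ monO a q`). -/
def StTorV : Prop := ∀ (n : ℕ) (a u : Fin n → ℤ), ∑ j, a j * u j = 1 →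
  ∃ v : DivVal (Kn n), v.ord = monOrd a

/-- MODULE TorOm.  `ω` has a simple pole along every toric valuation.
Proof.  We show `IsJacMin v 1`; the minimal order is unique, so `ordOmega v = -1`.
(i) Let `E = ∑ a_j θ_j`.  For a polynomial `p ≠ 0`: `θ_j p` is the polynomial with coefficients
`m_j c_m` (compare derivations on monomials), its support is in the support of `p`, so it is `0` or
has order `≥ monO a p`; and `E p - (monO a p) p` has coefficients `(wt a m - monO a p) c_m`, it is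
`0` or has order `≥ monO a p + 1`.  For `f = p/q`: `θ f = (q θ p - p θ q)/q^2`; hence `θ_j f` is
`0` or has order `≥ ord f`, and `E f - (ord f) f` is `0` or has order `≥ ord f + 1`.  So for
`ord f ≥ 0`, `E f` is `0` or has order `≥ 1`.  If all `f_i` have order `≥ 0`, then for an index `k`
with `a_k ≠ 0` the determinant `a_k * jac f` is the determinant of the matrix whose column `k` is
replaced by `E f_i` (column operations), hence `jac f` is `0` or has order `≥ 1`.
(ii) Choose `k` with `a_k ≠ 0`, `f_k = xm u` (order 1) and for `i ≠ k` `f_i = xm (a_k e_i - a_i e_k)`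
(order 0).  `θ_j (xm m) = m_j xm m`, so `jac f = det(m_ij) * ∏ f_i`, order `1` once
`det (m_ij) ≠ 0`: if `<m_i, c> = 0` for all `i` then `a_k c_i = a_i c_k` for all `i`, hence
`0 = a_k <u,c> = c_k <u,a> = c_k` and `c = 0`. -/
def StTorOm : Prop := ∀ (n : ℕ) (a u : Fin n → ℤ), ∑ j, a j * u j = 1 →
  ∀ v : DivVal (Kn n), v.ord = monOrd a → ordOmega v = -1

/-- MODULE PadV.  `P`-adic valuations are divisorial, and `ω` has no zero or pole along a prime
divisor of the torus.
Proof.  Model: `R` = the image of the polynomial ring, `exists_one`: `P`.  `f = p/q` with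
`ord f ≥ 0`: cancel the power of `P`, so that `P` does not divide `q`.  `ordOmega = 0`:
`IsJacMin v 0`: (i) `θ_j` maps `{ord ≥ 0}` to itself (quotient rule with `P ∤ q`; `θ_j` of a
polynomial is a polynomial); (ii) `f_i = x_i`: `jac = ∏ x_i`, order `0` since `P ∤ x_i`. -/
def StPadV : Prop := ∀ (n : ℕ) (P : Pn n), Irreducible P →
  (∃ v : DivVal (Kn n), v.ord = padOrd P) ∧
  (TorusPrime P → ∀ v : DivVal (Kn n), v.ord = padOrd P →
    (∀ j, v.ord (x j) = 0) ∧ ordOmega v = 0)

/-- MODULE Fac.  Factorisation of finitely many rational functions.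
Proof.  UFD: factor numerators and denominators of the elements of `G0`; `Q` = representatives of
the irreducible factors which are not associated to any `x_j`.  For `g = c xm(u) ∏ P^(e_P)` one has
`padOrd P g = e_P` for `P ∈ Q` and `padOrd P g = 0` for all other torus primes. -/
def StFac : Prop := ∀ (n : ℕ) (G0 : Finset (Kn n)), (∀ g ∈ G0, g ≠ 0) →
  ∃ Q : Finset (Pn n), (∀ P ∈ Q, TorusPrime P) ∧
    (∀ P ∈ Q, ∀ P' ∈ Q, Associated P P' → P = P') ∧
    ∀ g ∈ G0, (∃ (c : ℂ) (u : Fin n → ℤ), c ≠ 0 ∧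
      g = algebraMap ℂ (Kn n) c * xm u *
        ∏ P ∈ Q, (algebraMap (Pn n) (Kn n) P) ^ (padOrd P g)) ∧
      ∀ P, TorusPrime P → (∀ P' ∈ Q, ¬ Associated P P') → padOrd P g = 0

/-- MODULE Bri.  Dictionary between the definitions of the statement and the auxiliary ones.
Proof.  Both sides agree on polynomials, hence (multiplicativity) on rational functions. -/
def StBri : Prop := ∀ (n : ℕ) (v : DivVal (Kn n)),
  (∀ a, IsToric v a ↔ v.ord = monOrd a) ∧
  (∀ P : Pn n, Irreducible P → (IsPAdic v P ↔ v.ord = padOrd P)) ∧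
  (∀ a b : Fin n → ℤ, v.ord = monOrd a → v.ord = monOrd b → a = b) ∧
  (∀ P Q : Pn n, Irreducible P → Irreducible Q → v.ord = padOrd P → v.ord = padOrd Q →
    Associated P Q) ∧
  (∀ (a : Fin n → ℤ) (P : Pn n), TorusPrime P → v.ord = monOrd a → v.ord ≠ padOrd P)

/-- MODULE MonL.  Monomial valuations on Laurent polynomials: homogeneity, superadditivity in the
weight, comparison with an arbitrary valuation, and strictness for non monomials.
Proof.  For `f = p * xm w`: `monOrd a f = min_{m ∈ supp p} <a, m + w>`.  (1) clear for `k ≥ 0`.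
(2) minimum of a sum.  (3) every monomial has `v(xm m) = <a_v, m>` with `a_v = (v(x_j))_j`.
(4) if `monOrd a P = <u,a>` for all `a`, then (`a = ±e_j`) all exponents of `P` are equal to `u`, so
`P` is a monomial, and an irreducible monomial is associated to some `x_j`. -/
def StMonL : Prop := ∀ (n : ℕ),
  (∀ (k : ℕ) (a : Fin n → ℤ) (f : Kn n), monOrd ((k : ℤ) • a) f = (k : ℤ) * monOrd a f) ∧
  (∀ (a b : Fin n → ℤ) (f : Kn n), IsLaurent f → f ≠ 0 →
    monOrd a f + monOrd b f ≤ monOrd (a + b) f) ∧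
  (∀ (v : DivVal (Kn n)) (f : Kn n), IsLaurent f → f ≠ 0 →
    monOrd (fun j => v.ord (x j)) f ≤ v.ord f) ∧
  (∀ (P : Pn n), TorusPrime P → ∀ u : Fin n → ℤ,
    ¬ ∀ a : Fin n → ℤ, monOrd a (algebraMap (Pn n) (Kn n) P) = ∑ j, u j * a j)

/-- MODULE Der.  A derivation of `K` lowers the order along a divisorial valuation by a bounded
amount.
Proof.  `R` = model, generated by `r_1..r_s`.  `C0 ≥ 0` with `ord (θ r_i) ≥ -C0` whenever
`θ r_i ≠ 0`.  For `f ∈ R` induction over the adjoin (`θ` is a derivation, `ord ≥ 0` on `R`): `θ f`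
is `0` or has order `≥ -C0`.  For `f` with `ord f ≥ 0`: `b f = a`, `θ f = (θ a - f θ b)/b`, again
`≥ -C0`.  For `f = t^k u` (`ord t = 1`, `k = ord f`, `ord u = 0`):
`θ f = k t^(k-1) u θ t + t^k θ u`: order `≥ k - 1 - C0`.  `C = C0 + 1`. -/
def StDer : Prop := ∀ (n : ℕ) (v : DivVal (Kn n)) (j : Fin n),
  ∃ C : ℤ, ∀ f : Kn n, f ≠ 0 → theta j f ≠ 0 → v.ord f - C ≤ v.ord (theta j f)

/-- MODULE JacEx.  The minimum in `IsJacMin` exists.
Proof.  By `StDer` the orders of the Jacobians (nonzero) of elements of the valuation ring are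
bounded below (Leibniz formula; entries `θ_j f_i` are `0` or of order `≥ -C`); the set is nonempty:
`f_i = x_i` or `x_i⁻¹`, whichever has order `≥ 0`; `jac f = ± ∏ f_i ≠ 0`. -/
def StJacEx : Prop := ∀ (n : ℕ) (v : DivVal (Kn n)), ∃ e : ℤ, IsJacMin v e

/-- MODULE Norm.  Normalisation of a nef Cartier b-divisor by a principal one.
Proof.  Let `A` be the witness.  For a torus prime `P` put `α_P = max_{f ∈ A} (-padOrd P f)`, zero
for all but finitely many classes of `P` (StFac for the generators); let `h_A = ∏ P^(α_P)` over the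
finite set `Q` of StFac, and `A' = {f h_A}`: `A'.div v = A.div v - v(h_A)`, and the new generators
`f h_A` have `padOrd P ≥ 0` for all torus primes, hence are Laurent polynomials (StFac).
With `m = 1`: `N (M v + A.div v) = F.div v`, so `M v = 0` for all but finitely many `P`-adic `v`;
let `h = ∏ P^(M v_P)`.  `M' = M - ord h`.  For every `m` the linear system
`F' = {f h^(N m) h_A^N : f ∈ F}` (sign: `F'.div v = F.div v - N m v(h) - N v(h_A)`)
satisfies `N (m M' + A'.div) = F'.div`, and `F'.div v_P = 0` for all torus primes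
(`M' v_P = 0 = A'.div v_P`), so its generators have `padOrd P ≥ 0` and are Laurent polynomials. -/
def StNorm : Prop := ∀ (n : ℕ) (M : DivVal (Kn n) → ℤ), IsNefCartier M →
  ∃ h : Kn n, h ≠ 0 ∧ NormNef (fun v => M v - v.ord h)

/-- MODULE Trc.  The toric trace of a normalised nef Cartier b-divisor is subadditive.
Proof.  For a linear system `F` put `F~(a) = max_{f ∈ F} (- monOrd a f)` for all `a ∈ ℤ^n`
(`F~(0) = 0`, `F~(k a) = k F~(a)`, and `F~(a+b) ≤ F~(a) + F~(b)` for Laurent polynomials).  Define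
`MT 0 = 0` and `MT a = k * M v` where `a = k a'`, `a'` primitive, `k = gcd`, `v.ord = monOrd a'`
(StTorV).  Then `N (m MT a + A~ a) = F~ a` for all `a` (homogeneity), so
`N (m MT(a+b) + A~(a+b)) ≤ N (m MT a + m MT b + A~ a + A~ b)`, i.e.
`m (MT(a+b) - MT a - MT b) ≤ A~ a + A~ b - A~(a+b)` for all `m`, hence `MT(a+b) ≤ MT a + MT b`. -/
def StTrc : Prop := ∀ (n : ℕ) (M : DivVal (Kn n) → ℤ), NormNef M →
  ∃ MT : (Fin n → ℤ) → ℤ,
    (∀ (a u : Fin n → ℤ) (v : DivVal (Kn n)), ∑ j, a j * u j = 1 → v.ord = monOrd a →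
      MT a = M v) ∧
    (∀ (k : ℕ) (a : Fin n → ℤ), MT ((k : ℤ) • a) = (k : ℤ) * MT a) ∧
    (∀ a b : Fin n → ℤ, MT (a + b) ≤ MT a + MT b)

/-- MODULE Cvx.  Equality in the convexity inequality at the rays of a complete fan forces
linearity.
Proof.  `f(0) = 0` and `f(∑ n_r r) ≤ ∑ n_r f(r)` for `n_r ∈ ℕ`.  Conversely for `k ≥ max n_r`:
`k ∑ r = ∑ n_r r + ∑ (k - n_r) r`, so
`k ∑ f(r) ≤ k f(∑ r) = f(k ∑ r) ≤ f(∑ n_r r) + ∑ (k-n_r) f(r)`, so
`f(∑ n_r r) = ∑ n_r f(r)`.  For `a, b ∈ ℤ^n` choose a common `k ≥ 1` with `k a`, `k b` in the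
semigroup of the rays: `f(k(a+b)) = f(k a) + f(k b)`, so `f` is additive, hence linear. -/
def StCvx : Prop := ∀ (n : ℕ) (R : Finset (Fin n → ℤ)), IsCompleteFanRays R →
  ∀ f : (Fin n → ℤ) → ℤ, (∀ (k : ℕ) (a : Fin n → ℤ), f ((k : ℤ) • a) = (k : ℤ) * f a) →
    (∀ a b, f (a + b) ≤ f a + f b) →
    (∑ r ∈ R, f r ≤ f (∑ r ∈ R, r)) →
    ∃ u : Fin n → ℤ, ∀ a, f a = ∑ j, u j * a j

/-- MODULE Rig.  A normalised nef Cartier b-divisor with linear toric trace is principal.
Proof.  Replace `M` by `M'' = M - ord (xm u)` (shift the witnesses `F` by `xm(N m u)`), so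
`M'' v = 0` for all toric `v`, and by homogeneity `F~(a) = N A~(a)` for all `a ∈ ℤ^n`
(notation of `Trc`).  Let `v` be any divisorial valuation, `a_v = (v(x_j))`.
(upper) `v(f) ≥ monOrd a_v f` for Laurent polynomials (StMonL), so
`F.div v ≤ F~(a_v) = N A~(a_v)`, hence `m M'' v + A.div v ≤ A~(a_v)` for all `m`: `M'' v ≤ 0`.
(lower) Suppose `M'' v ≤ -1`.  Then every generator `f` of `F` has `v(f) ≥ N (m - A.div v)`.
The exponents of `f` are bounded: `|exponent_j| ≤ N c`, `c = max_j (A~(±e_j))` (as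
`monOrd (±e_j) f ≥ -F~(±e_j) = -N A~(±e_j)`).  So `f` is a combination of at most `(2Nc+1)^n`
Laurent monomials.  Choose one monomial `m0` of `f` and apply successively, for every `j` and every
integer `i ∈ [-Nc, Nc]`, `i ≠ m0_j`, the operator `θ_j - i`: these are `2 N c n` operators, they
kill all monomials `≠ m0` and multiply `xm m0` by a nonzero integer.  Every operator `θ_j - i`
lowers `v` by at most `C_v` (StDer, `C_v ≥ 0`).  Hence `v(f) ≤ 2 N c n C_v + v(xm m0)
≤ N (2 c n C_v + c ∑ |v(x_j)|)`, so `m - A.div v ≤ C'` for all `m`, a contradiction. -/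
def StRig : Prop := ∀ (n : ℕ) (M : DivVal (Kn n) → ℤ), NormNef M →
  (∃ u : Fin n → ℤ, ∀ (a w : Fin n → ℤ) (v : DivVal (Kn n)), ∑ j, a j * w j = 1 →
    v.ord = monOrd a → M v = ∑ j, u j * a j) → IsPrincipal M

/-- MODULE Rnk.  Lower bound for the rank of the class group.
Proof.  Consider the linear map `(T → ℝ) → Cl S` sending `D` to the class of `∑ D v [v]`.  Let `D`
be in the kernel: `D v = rdiv g v` for `v ∈ T` and `rdiv g v = 0` for `v ∈ S \ T`.
By StFac for the support of `g` (without `0`) `rdiv g v = ∑_j u_j v(x_j) + ∑_{P ∈ Q0} e_P v(P)` with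
real `u_j`, `e_P = rdiv g v_P`, for all `v`.  If `v_P ∈ S` then `v_P ∉ T`, so `e_P = 0`;
otherwise `P` is associated to an element of `Q` (distinct `P ∈ Q0` to distinct elements).  So
`D` is in the image of a linear map `ℝ^n × ℝ^Q → (T → ℝ)`, the kernel has dimension
`≤ n + |Q|`, and `|T| = dim ker + dim im ≤ n + |Q| + ρ`. -/
def StRnk : Prop := ∀ (n : ℕ) (S : Set (DivVal (Kn n))) (T : Finset (DivVal (Kn n)))
  (Q : Finset (Pn n)) (ρ : ℕ), (T : Set (DivVal (Kn n))) ⊆ S →
  (∀ v ∈ T, ∀ P, TorusPrime P → v.ord ≠ padOrd P) →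
  (∀ P, TorusPrime P → (∃ v ∈ S, v.ord = padOrd P) ∨ ∃ P' ∈ Q, Associated P P') →
  Module.rank ℝ (Cl S) = (ρ : Cardinal) → T.card ≤ n + Q.card + ρ

/-- MODULE Sum.  The main inequality on the toric variety.
Notation: `c v = p.B v`.  By StNorm replace `M_i` by `M_i' = M_i - ord h_i` and `g` by
`g' = g - ∑ b_i [h_i]`: `c v = rdiv g' v - ordOmega v - ∑ b_i M_i' v` for all `v`.  Let `Q` be the
set of StFac for the support of `g'`.  For a torus prime `P` and `v_P` (StPadV) `c v_P =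
rdiv g' v_P =: e_P`, which is `0` unless `P` is associated to an element of `Q`; by hypothesis
`e_P ≥ 0`.  For all `v`: `rdiv g' v = ∑ u_j v(x_j) + ∑_{P ∈ Q} e_P v(P)`.
Let `s = ∑_{r ∈ R} r`, `ℓ(a) = ∑ u_j a_j + ∑_Q e_P monOrd a P - ∑ b_i MT_i a` (MT_i from StTrc).
`ℓ(r) = c v_r - 1` for `r ∈ R` (StTorOm).  `ℓ(s) ≤ 0`: if `s = k s'`, `s'` primitive, `k ≥ 1`, then
`ℓ(s) = k ℓ(s') = k (c v_{s'} - 1) ≤ 0`; if `s = 0`, `ℓ(s) = 0`.
`∑_r ℓ(r) = ℓ(s) - ∑_Q e_P F_P - ∑ b_i F_i` with `F_P = monOrd s P - ∑_r monOrd r P ≥ 1` and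
`F_i = ∑_r MT_i r - MT_i s ≥ 1`: both are integers; if `F_i ≤ 0`, StCvx and StRig make `M_i'`, hence
`M_i`, principal; if `F_P ≤ 0`, StCvx for `f(a) = - monOrd a P` contradicts StMonL (4).
Hence `∑_r c v_r + ∑_Q e_P + ∑ b_i ≤ |R|`.
Here `Q` may be enlarged or shrunk: the result lists the torus primes with `e_P ≠ 0`. -/
def StSum : Prop := ∀ (n : ℕ) (ι : Type) [Fintype ι] (S : Set (DivVal (Kn n)))
  (p : PairData n ι), 0 < n → IsGenLCY S p →
  ∀ R : Finset (Fin n → ℤ), IsCompleteFanRays R →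
  (∀ v, IsToricPrimeDivisor R v → v ∈ S ∨ p.B v = 1) →
  ∃ Q : Finset (Pn n), (∀ P ∈ Q, TorusPrime P) ∧
    (∀ P ∈ Q, ∀ P' ∈ Q, Associated P P' → P = P') ∧
    (∀ P v, TorusPrime P → v.ord = padOrd P → (∀ P' ∈ Q, ¬ Associated P P') → p.B v = 0) ∧
    ∃ (vr : (Fin n → ℤ) → DivVal (Kn n)) (vP : Pn n → DivVal (Kn n)),
      (∀ r ∈ R, (vr r).ord = monOrd r) ∧ (∀ P ∈ Q, (vP P).ord = padOrd P) ∧
      ∑ r ∈ R, p.B (vr r) + ∑ P ∈ Q, p.B (vP P) + ∑ i, p.b i ≤ (R.card : ℝ)

/-- MODULE Fin1.  The theorem.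
Proof.  Let `C` = the given finite set of prime divisors of `X` (subset of `S`).  Split
`C = C_R ∪ C_T ∪ C_E`: toric valuations of rays of `R`, `P`-adic for torus primes, the rest.
`Q, vr, vP` from StSum.  Let `R' = {r ∈ R : vr r ∉ S}`, `Q' = {P ∈ Q : vP P ∉ S}`; there
`B = 1`.  A torus prime `P` whose valuation is not in `S` has `B = 1 ≠ 0`, so it is
associated to an element of `Q`, which is in `Q'`.
`∑_{C} B ≤ ∑_{R \ R'} B(vr r) + ∑_{Q \ Q'} B(vP P) + |C_E|` (`B ≥ 0` on `S`, `B ≤ 1`, and `B = 0`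
on the torus primes outside `Q`), so
`∑_C B + ∑ b_i ≤ |R| - |R'| - |Q'| + |C_E|`.  StRnk for `T = {vr r : r ∈ R \ R'} ∪ C_E` and
`Q'`: `|R| - |R'| + |C_E| ≤ n + |Q'| + ρ`.  Together `∑_C B + ∑ b_i ≤ n + ρ`. -/
def StFin1 : Prop := ∀ (n : ℕ) (ι : Type) [Fintype ι] (S : Set (DivVal (Kn n)))
  (p : PairData n ι), 0 < n → IsGenLCY S p →
  ∀ R : Finset (Fin n → ℤ), IsCompleteFanRays R →
  (∀ v, IsToricPrimeDivisor R v → v ∈ S ∨ p.B v = 1) →
  ∀ (C : Finset (DivVal (Kn n))) (ρ : ℕ), (C : Set (DivVal (Kn n))) ⊆ S →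
  Module.rank ℝ (Cl S) = (ρ : Cardinal) →
  ∑ v ∈ C, p.B v + ∑ i, p.b i ≤ (n : ℝ) + ρ

end Pool.Agent.Helper53.CX
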